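import Pool.Agent.Lib.MP_696deb_nt.Spin.D0
import Pool.Agent.Shared.PNT.Main

/-! From logarithmic weights to counts of primes. -/

set_option autoImplicit false

open scoped Classical
open Finset Filter Topology

namespace Pool.Agent.Spin

theorem count_of_theta (B : ℕ → Prop) {c : ℝ} (hc : 0 ≤ c)
    (h : ∀ ε : ℝ, 0 < ε → ∀ᶠ X : ℕ in atTop,
      ∑ p ∈ (range (X + 1)).filter fun p => p.Prime ∧ B p, Real.log p ≤ (c + ε) * X)
    {ε : ℝ} (hε : 0 < ε) : ∀ᶠ X : ℕ in atTop, (1 - c - ε) * Nat.primeCounting X ≤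
      (((range (X + 1)).filter fun p => p.Prime ∧ ¬ B p).card : ℝ) := by
  have h3 : 0 < ε / 3 := by positivity
  have h1 := h (ε / 3) h3
  have h2 : ∀ᶠ X : ℕ in atTop, 1 - ε / 3 < Chebyshev.theta X / X :=
    (Pool.Agent.Shared.PNT.pnt_theta.comp tendsto_natCast_atTop_atTop).eventually
      (lt_mem_nhds (by linarith))
  have h4 : ∀ᶠ X : ℕ in atTop,
      (Nat.primeCounting ⌊(X : ℝ)⌋₊ : ℝ) * Real.log X / X < 1 + ε / 3 :=
    (Pool.Agent.Shared.PNT.pnt_primeCounting.comp tendsto_natCast_atTop_atTop).eventually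
      (gt_mem_nhds (by linarith))
  filter_upwards [h1, h2, h4, eventually_ge_atTop 2] with X a1 a2 a4 hX
  have hX0 : (0 : ℝ) < X := by exact_mod_cast (by omega : 0 < X)
  have hX1 : (1 : ℝ) < X := by exact_mod_cast (by omega : 1 < X)
  have hl : 0 < Real.log X := Real.log_pos hX1
  rw [Nat.floor_natCast, div_lt_iff₀ hX0] at a4
  rw [lt_div_iff₀ hX0] at a2
  set n : ℝ := (((range (X + 1)).filter fun p => p.Prime ∧ ¬ B p).card : ℝ) with hn
  have hn0 : 0 ≤ n := Nat.cast_nonneg _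
  have hπ : (0 : ℝ) ≤ Nat.primeCounting X := Nat.cast_nonneg _
  by_cases hs : 1 - c - ε ≤ 0
  · exact (mul_nonpos_of_nonpos_of_nonneg hs hπ).trans hn0
  push Not at hs
  have hθ : Chebyshev.theta X =
      ∑ p ∈ (range (X + 1)).filter fun p => p.Prime ∧ B p, Real.log p +
      ∑ p ∈ (range (X + 1)).filter fun p => p.Prime ∧ ¬ B p, Real.log p := by
    rw [Chebyshev.theta_eq_sum_Icc, Nat.floor_natCast, ← filter_filter, ← filter_filter,
      sum_filter_add_sum_filter_not, Nat.range_succ_eq_Icc_zero]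
  have hb : ∑ p ∈ (range (X + 1)).filter fun p => p.Prime ∧ ¬ B p, Real.log p ≤
      n * Real.log X := by
    rw [hn, ← nsmul_eq_mul]
    refine sum_le_card_nsmul _ _ _ fun p hp => ?_
    obtain ⟨hp1, hp2, -⟩ := mem_filter.1 hp
    have : (p : ℝ) ≤ X := by exact_mod_cast Nat.lt_succ_iff.1 (mem_range.1 hp1)
    exact Real.log_le_log (by exact_mod_cast hp2.pos) this
  have k1 : (1 - c - 2 * (ε / 3)) * X ≤ n * Real.log X := by nlinarith
  have k2 : (1 - c - ε) * (Nat.primeCounting X * Real.log X) ≤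
      (1 - c - ε) * ((1 + ε / 3) * X) := mul_le_mul_of_nonneg_left a4.le hs.le
  have k3 : (1 - c - ε) * (1 + ε / 3) ≤ 1 - c - 2 * (ε / 3) := by nlinarith
  have k4 : (1 - c - ε) * Nat.primeCounting X * Real.log X ≤ n * Real.log X := by
    nlinarith [mul_le_mul_of_nonneg_right k3 hX0.le]
  exact le_of_mul_le_mul_right k4 hl

end Pool.Agent.Spin
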