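import Pool.Agent.Lib.MP_696deb_nt.Spin.G2

/-! The weighted number of lattice points. -/

set_option autoImplicit false

open scoped Classical
open Finset Filter Topology

namespace Pool.Agent.Spin

theorem pb_one (a : ℤ) {m : ℕ} (hm : 0 < m) :
    ∑ j ∈ range m, (if (m : ℤ) ∣ a + j then (1 : ℝ) else 0) = 1 := by
  have hm' : (0 : ℤ) < m := by exact_mod_cast hm
  have h0 := Int.emod_nonneg (-a) hm'.ne'
  have h1 := Int.emod_lt_of_pos (-a) hm'
  have h2 : (m : ℤ) ∣ a + (-a) % m := by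
    rw [Int.emod_def]; exact ⟨-(-a / m), by ring⟩
  rw [sum_eq_single ((-a) % m).toNat]
  · rw [if_pos (by rwa [Int.toNat_of_nonneg h0])]
  · intro j hj ne
    refine if_neg fun h => ne ?_
    have := Int.eq_zero_of_abs_lt_dvd (h.sub h2) (by
      have := mem_range.1 hj
      rw [abs_lt]; constructor <;> omega)
    omega
  · intro h
    exact absurd (mem_range.2 (by omega)) h

namespace Dat

variable (D : Dat)

theorem pb_reps : ∃ C : ℝ, 1 ≤ C ∧ ∀ m : ℕ, 0 < m → ∃ (I : Finset (Fin 6 → ℕ))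
    (t : (Fin 6 → ℕ) → D.O), I.card = m ^ 6 ∧ (∀ c ∈ I, D.sz (t c) ≤ C * m) ∧
      ∀ x, ∑ c ∈ I, (if (m : D.O) ∣ x + t c then (1 : ℝ) else 0) = 1 := by
  have h6 : Module.finrank ℤ D.O = 6 := by
    have := D.N_nat 2
    rw [N, Ideal.absNorm_span_natCast] at this
    exact Nat.pow_right_injective le_rfl this
  let b := Module.finBasisOfFinrankEq ℤ D.O h6
  have hd : ∀ (m : ℕ) (x : D.O), (m : D.O) ∣ x ↔ ∀ i, (m : ℤ) ∣ b.repr x i := by
    intro m x
    constructor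
    · rintro ⟨y, rfl⟩ i
      rw [← nsmul_eq_mul, map_nsmul]
      exact ⟨b.repr y i, by simp⟩
    · intro h
      choose k hk using h
      refine ⟨∑ i, k i • b i, ?_⟩
      conv_lhs => rw [← b.sum_repr x]
      simp only [hk, mul_sum, zsmul_eq_mul]
      exact sum_congr rfl fun i _ => by push_cast; ring
  have s0 : 0 ≤ ∑ i, D.sz (b i) := sum_nonneg fun i _ => D.sz_nonneg _
  refine ⟨1 + ∑ i, D.sz (b i), by linarith, fun m hm => ⟨Fintype.piFinset fun _ => range m,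
    fun c => ∑ i, (c i : D.O) * b i, by simp, fun c hc => ?_, fun x => ?_⟩⟩
  · have h1 : ∀ s : Finset (Fin 6), D.sz (∑ i ∈ s, (c i : D.O) * b i) ≤
        (∑ i ∈ s, D.sz (b i)) * m := by
      intro s
      induction s using Finset.induction_on with
      | empty => simpa using (D.sz_nat 0).le
      | insert i s hi ih =>
        rw [sum_insert hi, sum_insert hi, add_mul]
        refine (D.sz_add_le _ _).trans (add_le_add ?_ ih)
        rw [D.sz_nat_mul, mul_comm]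
        exact mul_le_mul_of_nonneg_left
          (by exact_mod_cast (mem_range.1 (Fintype.mem_piFinset.1 hc i)).le) (D.sz_nonneg _)
    exact (h1 univ).trans (mul_le_mul_of_nonneg_right (by linarith) (Nat.cast_nonneg m))
  · have h2 : ∀ c : Fin 6 → ℕ, (if (m : D.O) ∣ x + ∑ i, (c i : D.O) * b i then (1 : ℝ) else 0) =
        ∏ i, if (m : ℤ) ∣ b.repr x i + c i then (1 : ℝ) else 0 := by
      intro c
      have : ∀ i, b.repr (x + ∑ i, (c i : D.O) * b i) i = b.repr x i + c i := by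
        intro i
        simp only [← nsmul_eq_mul, map_add, map_sum, map_nsmul, b.repr_self]
        simp [Finsupp.single_apply]
      rw [prod_ite_zero]
      simp only [hd, this]
      simp
    simp only [h2]
    rw [← prod_univ_sum (fun _ => range m)
      fun i (j : ℕ) => if (m : ℤ) ∣ b.repr x i + j then (1 : ℝ) else 0]
    simp only [pb_one _ hm, prod_const_one]

theorem pb_smul {m : ℕ} (hm : 0 < m) (Y : ℝ) (y : D.O) :
    ((m : ℝ) * Y)⁻¹ • D.e (m * y) = Y⁻¹ • D.e y := by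
  have : (m : ℂ) ≠ 0 := by exact_mod_cast hm.ne'
  funext i
  fin_cases i <;> simp [e] <;> field_simp

theorem pb_filter {m : ℕ} (hm : 0 < m) (T : ℝ) :
    (D.ball (m * T)).filter (fun x => (m : D.O) ∣ x) = (D.ball T).image fun y => (m : D.O) * y := by
  have m0 : (0 : ℝ) < m := by exact_mod_cast hm
  ext x
  simp only [mem_filter, mem_image, D.mem_ball]
  constructor
  · rintro ⟨h, y, rfl⟩
    rw [D.sz_nat_mul] at h
    exact ⟨y, le_of_mul_le_mul_left h m0, rfl⟩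
  · rintro ⟨y, h, rfl⟩
    exact ⟨by rw [D.sz_nat_mul]; gcongr, dvd_mul_right _ _⟩

theorem pb_mul {L R : ℝ} {W : V → ℝ} (hR : 1 ≤ R) (hW : Wt L R W) : ∃ C : ℝ, 0 ≤ C ∧
    ∀ (m : ℕ) (Y : ℝ), 0 < m → 1 ≤ Y →
      |D.S W R (m * Y) (fun _ => 1) / (m * Y) ^ 6 - D.S W R Y (fun _ => 1) / Y ^ 6| ≤ C / Y := by
  obtain ⟨C, hC, h⟩ := D.pb_reps
  obtain ⟨C', hC', h'⟩ := D.card_ball
  have L0 : 0 ≤ L := (abs_nonneg _).trans (hW.bd 0)
  refine ⟨L * C * (C' * (R + C) ^ 6), by positivity, fun m Y hm hY => ?_⟩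
  obtain ⟨I, t, hI, ht, hs⟩ := h m hm
  have m0 : (0 : ℝ) < m := by exact_mod_cast hm
  have mz : (m : D.O) ≠ 0 := fun k => by
    have := D.sz_nat m
    rw [k, show (0 : D.O) = (0 : ℕ) by simp, D.sz_nat] at this
    exact m0.ne (by simpa using this)
  let F : D.O → ℝ := fun x => if (m : D.O) ∣ x then 1 else 0
  have e1 : D.S W R (m * Y) (fun _ => 1) = ∑ c ∈ I, D.S W R (m * Y) fun x => F (x + t c) := by
    simp only [S]
    rw [sum_comm]
    exact sum_congr rfl fun x _ => by rw [← mul_sum, hs x]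
  have e2 : D.S W R (m * Y) F = D.S W R Y fun _ => 1 := by
    simp only [S, F, mul_ite, mul_one, mul_zero]
    rw [← sum_filter, show R * (m * Y) = m * (R * Y) by ring, D.pb_filter hm,
      sum_image fun x _ y _ k => mul_left_cancel₀ mz k]
    simp only [D.pb_smul hm]
  have e3 : ∀ c ∈ I, |(D.S W R (m * Y) fun x => F (x + t c)) - D.S W R Y fun _ => 1| ≤
      L * C * (C' * (R + C) ^ 6) * Y ^ 5 := by
    intro c hc
    have a := D.avg hW (Y := m * Y) (by positivity) F (fun x => (m : D.O) ∣ x)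
      (fun x => by simp only [F]; split_ifs <;> simp)
      (fun x hx => by by_contra k; exact hx (if_neg k)) (t c)
    rw [e2] at a
    refine a.trans ?_
    have b1 : (((D.ball (R * (m * Y) + D.sz (t c))).filter fun x => (m : D.O) ∣ x).card : ℝ) ≤
        C' * ((R + C) * Y) ^ 6 := by
      refine le_trans ?_ (h' _ (by nlinarith))
      have : (D.ball (R * (m * Y) + D.sz (t c))).filter (fun x => (m : D.O) ∣ x) ⊆
          (D.ball ((R + C) * Y)).image fun y => (m : D.O) * y := by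
        rw [← D.pb_filter hm]
        refine filter_subset_filter _ fun x hx => D.mem_ball.2 ((D.mem_ball.1 hx).trans ?_)
        have := ht c hc
        have : C * m ≤ C * m * Y := le_mul_of_one_le_right (by positivity) hY
        nlinarith
      exact_mod_cast (card_le_card this).trans card_image_le
    have b2 : D.sz (t c) / (m * Y) ≤ C / Y := by
      rw [div_le_div_iff₀ (by positivity) (by positivity)]
      have := ht c hc
      nlinarith
    calc _ ≤ L * (C / Y) * (C' * ((R + C) * Y) ^ 6) := by gcongr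
      _ = _ := by field_simp
  have e4 : |D.S W R (m * Y) (fun _ => 1) - m ^ 6 * D.S W R Y fun _ => 1| ≤
      m ^ 6 * (L * C * (C' * (R + C) ^ 6) * Y ^ 5) := by
    have : (m : ℝ) ^ 6 = I.card := by rw [hI]; push_cast; ring
    rw [e1, this, ← nsmul_eq_mul I.card, ← nsmul_eq_mul I.card, ← sum_const, ← sum_const,
      ← sum_sub_distrib]
    exact (abs_sum_le_sum_abs _ _).trans (sum_le_sum e3)
  rw [show D.S W R (m * Y) (fun _ => 1) / (m * Y) ^ 6 - D.S W R Y (fun _ => 1) / Y ^ 6 =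
    (D.S W R (m * Y) (fun _ => 1) - m ^ 6 * D.S W R Y fun _ => 1) / (m * Y) ^ 6 by field_simp,
    abs_div, abs_of_pos (by positivity : (0 : ℝ) < (m * Y) ^ 6), div_le_iff₀ (by positivity)]
  refine e4.trans_eq ?_
  field_simp

theorem pb_cont {L R : ℝ} {W : V → ℝ} (hR : 1 ≤ R) (hW : Wt L R W) : ∃ C : ℝ, 0 ≤ C ∧
    ∀ Y Y' : ℝ, 1 ≤ Y → Y ≤ Y' →
      |D.S W R Y' (fun _ => 1) / Y' ^ 6 - D.S W R Y (fun _ => 1) / Y ^ 6| ≤ C * (Y' - Y) / Y := by
  obtain ⟨C', hC', h'⟩ := D.card_ball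
  have L0 : 0 ≤ L := (abs_nonneg _).trans (hW.bd 0)
  refine ⟨L * C' * R ^ 6 * (R + 6), by positivity, fun Y Y' hY h1 => ?_⟩
  have Y0 : 0 < Y := by linarith
  have Y1 : 0 < Y' := by linarith
  have d0 := sub_nonneg.2 h1
  have a1 : |D.S W R Y' (fun _ => 1) - D.S W R Y fun _ => 1| ≤
      C' * (R * Y') ^ 6 * (L * (R * (Y' - Y) / Y)) := by
    rw [D.S_eq hW Y0 (T := R * Y') (by gcongr), S, ← sum_sub_distrib]
    refine (abs_sum_le_sum_abs _ _).trans ((sum_le_card_nsmul _ _ (L * (R * (Y' - Y) / Y))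
      fun x hx => ?_).trans ?_)
    rotate_left
    · rw [nsmul_eq_mul]
      exact mul_le_mul_of_nonneg_right (h' _ (by nlinarith)) (by positivity)
    rw [mul_one, mul_one]
    refine (hW.lip _ _).trans (mul_le_mul_of_nonneg_left ?_ L0)
    rw [← sub_smul, norm_smul, Real.norm_eq_abs, abs_sub_comm,
      abs_of_nonneg (sub_nonneg.2 (inv_anti₀ Y0 h1))]
    calc _ ≤ (Y⁻¹ - Y'⁻¹) * (R * Y') :=
          mul_le_mul_of_nonneg_left (D.mem_ball.1 hx) (sub_nonneg.2 (inv_anti₀ Y0 h1))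
      _ = _ := by field_simp
  have a2 : |D.S W R Y fun _ => 1| ≤ C' * (R * Y) ^ 6 * L := by
    refine (abs_sum_le_sum_abs _ _).trans ((sum_le_card_nsmul _ _ L fun x _ => by
      simpa using hW.bd _).trans ?_)
    rw [nsmul_eq_mul]
    exact mul_le_mul_of_nonneg_right (h' _ (by nlinarith)) L0
  have a3 : Y' ^ 6 - Y ^ 6 ≤ 6 * (Y' - Y) * Y' ^ 5 := by
    have := abs_pow_sub_pow_le (a := Y') (b := Y) (n := 6)
    rw [abs_of_nonneg d0, abs_of_pos Y0, abs_of_pos Y1, max_eq_left h1] at this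
    have := (le_abs_self _).trans this
    push_cast at this
    linarith
  have a4 : 0 ≤ Y' ^ 6 - Y ^ 6 := sub_nonneg.2 (by gcongr)
  set A := D.S W R Y' fun _ => 1
  set B := D.S W R Y fun _ => 1
  rw [show A / Y' ^ 6 - B / Y ^ 6 =
    (A - B) / Y' ^ 6 - B * ((Y' ^ 6 - Y ^ 6) / (Y ^ 6 * Y' ^ 6)) by field_simp; ring]
  refine (abs_sub _ _).trans ?_
  rw [abs_div, abs_mul, abs_of_pos (pow_pos Y1 6), abs_of_nonneg (div_nonneg a4 (by positivity))]
  calc _ ≤ C' * (R * Y') ^ 6 * (L * (R * (Y' - Y) / Y)) / Y' ^ 6 +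
        C' * (R * Y) ^ 6 * L * (6 * (Y' - Y) * Y' ^ 5 / (Y ^ 6 * Y' ^ 6)) := by gcongr
    _ = L * C' * R ^ 6 * (R * (Y' - Y) / Y + 6 * ((Y' - Y) / Y')) := by field_simp
    _ ≤ L * C' * R ^ 6 * (R * (Y' - Y) / Y + 6 * ((Y' - Y) / Y)) := by gcongr
    _ = _ := by ring

theorem pb_lim {L R : ℝ} {W : V → ℝ} (hR : 1 ≤ R) (hW : Wt L R W) : ∃ κ C : ℝ, 0 ≤ C ∧
    ∀ Y : ℝ, 1 ≤ Y → |D.S W R Y (fun _ => 1) - κ * Y ^ 6| ≤ C * Y ^ 5 := by
  obtain ⟨C, hC, h⟩ := D.pb_mul hR hW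
  obtain ⟨C', hC', h'⟩ := D.pb_cont hR hW
  set s : ℝ → ℝ := fun Y => D.S W R Y (fun _ => 1) / Y ^ 6 with hs
  have key : ∀ Y Y' : ℝ, 1 ≤ Y → Y ≤ Y' → |s Y' - s Y| ≤ C / Y + 2 * C' * Y / Y' := by
    intro Y Y' hY k
    have Y0 : 0 < Y := by linarith
    have Y1 : 0 < Y' := by linarith
    have m1 : 0 < ⌊Y' / Y⌋₊ := Nat.floor_pos.2 ((one_le_div Y0).2 k)
    have m2 : (⌊Y' / Y⌋₊ : ℝ) * Y ≤ Y' := (le_div_iff₀ Y0).1 (Nat.floor_le (by positivity))
    have m3 : Y' < (⌊Y' / Y⌋₊ + 1) * Y := (div_lt_iff₀ Y0).1 (Nat.lt_floor_add_one _)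
    generalize ⌊Y' / Y⌋₊ = m at m1 m2 m3
    have m4 : (1 : ℝ) ≤ m := by exact_mod_cast m1
    have b1 := h m Y m1 hY
    have b2 := h' (m * Y) Y' (by nlinarith) m2
    have b3 : C' * (Y' - m * Y) / (m * Y) ≤ 2 * C' * Y / Y' := by
      rw [div_le_div_iff₀ (by positivity) Y1]
      have : (Y' - m * Y) * Y' ≤ Y * (2 * (m * Y)) :=
        mul_le_mul (by linarith) (by nlinarith) Y1.le Y0.le
      nlinarith
    calc _ ≤ |s Y' - s (m * Y)| + |s (m * Y) - s Y| := abs_sub_le _ _ _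
      _ ≤ _ := by linarith
  have cs : CauchySeq fun n : ℕ => s (n + 1) := by
    refine cauchySeq_of_le_tendsto_0 (fun N : ℕ => 2 * C * (1 / ((N : ℝ) + 1))) (fun n m N hn hm => ?_)
      (by simpa using (tendsto_one_div_add_atTop_nhds_zero_nat (𝕜 := ℝ)).const_mul (2 * C))
    have b1 := h (m + 1) (n + 1) m.succ_pos (by linarith [(Nat.cast_nonneg n : (0 : ℝ) ≤ n)])
    have b2 := h (n + 1) (m + 1) n.succ_pos (by linarith [(Nat.cast_nonneg m : (0 : ℝ) ≤ m)])
    push_cast at b1 b2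
    rw [mul_comm ((n : ℝ) + 1)] at b2
    have b3 : C / (n + 1) ≤ C / (N + 1) := by gcongr
    have b4 : C / (m + 1) ≤ C / (N + 1) := by gcongr
    rw [abs_sub_comm] at b1
    calc _ ≤ _ := abs_sub_le _ (s ((m + 1) * (n + 1))) _
      _ ≤ C / (N + 1) + C / (N + 1) := add_le_add (b1.trans b3) (b2.trans b4)
      _ = _ := by ring
  obtain ⟨κ, hκ⟩ := cauchySeq_tendsto_of_complete cs
  refine ⟨κ, C, hC, fun Y hY => ?_⟩
  have Y0 : 0 < Y := by linarith
  have t1 : Tendsto (fun n : ℕ => C / Y + 2 * C' * Y * (1 / ((n : ℝ) + 1))) atTop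
      (𝓝 (C / Y + 2 * C' * Y * 0)) :=
    (tendsto_one_div_add_atTop_nhds_zero_nat.const_mul _).const_add _
  have t2 := le_of_tendsto_of_tendsto (hκ.sub_const (s Y)).abs t1 (by
    filter_upwards [tendsto_natCast_atTop_atTop.eventually_ge_atTop Y] with n hn
    simpa [div_eq_mul_inv] using key Y (n + 1) hY (by linarith))
  rw [show D.S W R Y (fun _ => 1) - κ * Y ^ 6 = -((κ - s Y) * Y ^ 6) by
    simp only [hs]; field_simp; ring, abs_neg, abs_mul, abs_of_pos (pow_pos Y0 6)]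
  calc _ ≤ (C / Y + 2 * C' * Y * 0) * Y ^ 6 := by gcongr
    _ = _ := by field_simp; ring

end Dat

end Pool.Agent.Spin
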