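import Mathlib

/-! From Riesz means to sharp counts. -/

set_option autoImplicit false

open Finset Filter Topology Asymptotics

namespace Pool.Agent.Spin

theorem pc_rec {f : ℝ → ℝ} {c κ C θ : ℝ} (c0 : 0 ≤ c) (c1 : c ≤ 1) (h0 : 0 < θ) (h1 : θ ≤ 1)
    (hf : ∀ X, 0 < X → X ≤ 1 → f X = 0)
    (h : ∀ X, 1 ≤ X → |f X - c * f (X / 2) - κ * X| ≤ C * X ^ θ) :
    ∃ κ' C' : ℝ, ∀ X, 0 < X → |f X - κ' * X| ≤ C' * X ^ θ := by
  have q1 : (1 / 2 : ℝ) ^ θ < 1 := Real.rpow_lt_one (by norm_num) (by norm_num) h0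
  have q0 : 0 < (1 / 2 : ℝ) ^ θ := by positivity
  obtain ⟨κ', hκ⟩ : ∃ κ' : ℝ, κ' * (1 - c / 2) = κ :=
    ⟨κ / (1 - c / 2), div_mul_cancel₀ _ (by linarith)⟩
  obtain ⟨C', a1, a2⟩ : ∃ C' : ℝ, |κ'| ≤ C' ∧ C ≤ C' * (1 - (1 / 2 : ℝ) ^ θ) :=
    ⟨max |κ'| (C / (1 - (1 / 2 : ℝ) ^ θ)), le_max_left _ _,
      (div_le_iff₀ (by linarith)).1 (le_max_right _ _)⟩
  have C0 : 0 ≤ C' := (abs_nonneg _).trans a1
  have small : ∀ X : ℝ, 0 < X → X ≤ 1 → |f X - κ' * X| ≤ C' * X ^ θ := by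
    intro X X0 X1
    rw [hf X X0 X1, zero_sub, abs_neg, abs_mul, abs_of_pos X0]
    exact mul_le_mul a1 (Real.self_le_rpow_of_le_one X0.le X1 h1) X0.le C0
  have main : ∀ (k : ℕ) (X : ℝ), 0 < X → X ≤ 2 ^ k → |f X - κ' * X| ≤ C' * X ^ θ := by
    intro k
    induction k with
    | zero => exact fun X X0 X1 => small X X0 (by simpa using X1)
    | succ k ih =>
      intro X X0 X1
      rcases le_total X 1 with k1 | k1
      · exact small X X0 k1
      have b1 := ih (X / 2) (by positivity) (by rw [pow_succ] at X1; linarith)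
      have b2 := h X k1
      have b3 : (X / 2) ^ θ = X ^ θ * (1 / 2) ^ θ := by
        rw [← Real.mul_rpow X0.le (by norm_num)]; congr 1; ring
      have b4 : 0 < X ^ θ := by positivity
      rw [show f X - κ' * X = (f X - c * f (X / 2) - κ * X) + c * (f (X / 2) - κ' * (X / 2)) by
        rw [← hκ]; ring]
      refine (abs_add_le _ _).trans ?_
      rw [abs_mul, abs_of_nonneg c0]
      have b5 : c * |f (X / 2) - κ' * (X / 2)| ≤ 1 * (C' * (X / 2) ^ θ) :=
        mul_le_mul c1 b1 (abs_nonneg _) zero_le_one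
      rw [b3] at b5
      nlinarith [mul_le_mul_of_nonneg_right a2 b4.le]
  refine ⟨κ', C', fun X X0 => ?_⟩
  obtain ⟨k, hk⟩ := pow_unbounded_of_one_lt X (one_lt_two (α := ℝ))
  exact main k X X0 hk.le

/-- The first Riesz mean. -/
noncomputable def rz (r : ℕ → ℝ) (X : ℝ) : ℝ := ∑ n ∈ Icc 1 ⌊X⌋₊, r n * (1 - n / X)

theorem rz_eq (r : ℕ → ℝ) {X : ℝ} (hX : 0 < X) {K : ℕ} (hK : X ≤ K) :
    rz r X = ∑ n ∈ Icc 1 K, r n * max 0 (1 - n / X) := by
  rw [rz, ← sum_subset (Icc_subset_Icc_right (Nat.floor_le_of_le hK))]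
  · refine sum_congr rfl fun n hn => ?_
    rw [max_eq_right (sub_nonneg.2 ((div_le_one hX).2 ((Nat.le_floor_iff hX.le).1 (mem_Icc.1 hn).2)))]
  · intro n h1 h2
    have : X < n := by
      by_contra k
      exact h2 (mem_Icc.2 ⟨(mem_Icc.1 h1).1, Nat.le_floor (not_lt.1 k)⟩)
    rw [max_eq_left (sub_nonpos.2 ((one_le_div hX).2 this.le)), mul_zero]

theorem rz_small (r : ℕ → ℝ) {X : ℝ} (hX : 0 < X) (h : X ≤ 1) : rz r X = 0 := by
  rw [rz_eq r hX (K := 1) (by simpa using h)]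
  simp [(one_le_inv₀ hX).2 h]

theorem pc_sharp {r : ℕ → ℝ} (hr : ∀ n, 0 ≤ r n) {κ C : ℝ}
    (h : ∀ X : ℝ, 1 ≤ X →
      |rz r X - 3 / 2 * rz r (X / 2) + 1 / 2 * rz r (X / 4) - κ * X| ≤ C * X ^ (5 / 6 : ℝ)) :
    ∃ κ' : ℝ, (fun n : ℕ => ∑ k ∈ Icc 1 n, r k - κ' * n) =O[atTop]
      fun n => (n : ℝ) ^ (11 / 12 : ℝ) := by
  obtain ⟨κ1, C1, h1⟩ := pc_rec (f := fun X => rz r X - 1 / 2 * rz r (X / 2)) (c := 1) (κ := κ)
    (C := C) (θ := 5 / 6) zero_le_one le_rfl (by norm_num) (by norm_num)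
    (fun X a b => by rw [rz_small r a b, rz_small r (by positivity) (by linarith)]; ring)
    fun X a => by
      have := h X a
      rwa [show X / 4 = X / 2 / 2 by ring, show rz r X - 3 / 2 * rz r (X / 2) +
        1 / 2 * rz r (X / 2 / 2) = rz r X - 1 / 2 * rz r (X / 2) -
          1 * (rz r (X / 2) - 1 / 2 * rz r (X / 2 / 2)) by ring] at this
  obtain ⟨κ2, C2, h2⟩ := pc_rec (f := rz r) (c := 1 / 2) (κ := κ1) (C := C1) (θ := 5 / 6)
    (by norm_num) (by norm_num) (by norm_num) (by norm_num) (fun X a b => rz_small r a b)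
    fun X a => h1 X (by linarith)
  have C0 : 0 ≤ C2 := by simpa using (abs_nonneg _).trans (h2 1 one_pos)
  refine ⟨2 * κ2, IsBigO.of_bound (|κ2| + 16 * C2) ?_⟩
  filter_upwards [eventually_ge_atTop 1] with n hn
  have n1 : (1 : ℝ) ≤ n := by exact_mod_cast hn
  obtain ⟨y, y1, e1, e2⟩ : ∃ y : ℝ, 1 ≤ y ∧ (n : ℝ) = y ^ 12 ∧ (n : ℝ) ^ (11 / 12 : ℝ) = y ^ 11 := by
    refine ⟨(n : ℝ) ^ (1 / 12 : ℝ), Real.one_le_rpow n1 (by norm_num), ?_, ?_⟩ <;>
      rw [← Real.rpow_natCast, ← Real.rpow_mul (by linarith)] <;> norm_num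
  have q : ∀ X : ℝ, 0 < X → X ≤ 2 * n → |X * rz r X - κ2 * X ^ 2| ≤ C2 * (4 * y ^ 22) := by
    intro X X0 X1
    rw [show X * rz r X - κ2 * X ^ 2 = X * (rz r X - κ2 * X) by ring, abs_mul, abs_of_pos X0]
    have a1 : X ^ (5 / 6 : ℝ) ≤ 2 * y ^ 10 := by
      refine (Real.rpow_le_rpow X0.le X1 (by norm_num)).trans ?_
      rw [Real.mul_rpow (by norm_num) (by linarith), e1, ← Real.rpow_natCast,
        ← Real.rpow_mul (by linarith), show ((12 : ℕ) : ℝ) * (5 / 6) = (10 : ℕ) by norm_num,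
        Real.rpow_natCast]
      exact mul_le_mul_of_nonneg_right
        (Real.rpow_le_self_of_one_le (by norm_num) (by norm_num)) (by positivity)
    calc _ ≤ (2 * y ^ 12) * (C2 * (2 * y ^ 10)) :=
          mul_le_mul (e1 ▸ X1) ((h2 X X0).trans (by gcongr)) (abs_nonneg _) (by positivity)
      _ = _ := by ring
  have qe : ∀ X : ℝ, 0 < X → X ≤ 2 * n → X * rz r X = ∑ k ∈ Icc 1 (2 * n), r k * max 0 (X - k) := by
    intro X X0 X1
    rw [rz_eq r X0 (K := 2 * n) (by exact_mod_cast X1), mul_sum]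
    refine sum_congr rfl fun k _ => ?_
    rw [mul_left_comm, mul_max_of_nonneg _ _ X0.le, mul_zero]
    congr 2
    field_simp
  have se : ∀ t : ℝ, t * ∑ k ∈ Icc 1 n, r k =
      ∑ k ∈ Icc 1 (2 * n), r k * if k ≤ n then t else 0 := by
    intro t
    simp only [mul_ite, mul_zero]
    rw [← sum_filter, mul_sum, show (Icc 1 (2 * n)).filter (· ≤ n) = Icc 1 n by
      ext k; simp only [mem_filter, mem_Icc]; omega]
    exact sum_congr rfl fun k _ => mul_comm _ _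
  set H := y ^ 11 / 2 with hH
  have H0 : 0 < H := by positivity
  have H1 : 2 * H ≤ n := by rw [e1, hH]; linarith [pow_le_pow_right₀ y1 (by norm_num : 11 ≤ 12)]
  have up : H * ∑ k ∈ Icc 1 n, r k ≤ (n + H) * rz r (n + H) - n * rz r n := by
    rw [qe _ (by linarith) (by linarith), qe _ (by linarith) (by linarith), se, ← sum_sub_distrib]
    refine sum_le_sum fun k _ => ?_
    rw [← mul_sub]
    refine mul_le_mul_of_nonneg_left ?_ (hr k)
    split_ifs with c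
    · have : (k : ℝ) ≤ n := by exact_mod_cast c
      rw [max_eq_right (by linarith), max_eq_right (by linarith)]; linarith
    · exact sub_nonneg.2 (max_le_max le_rfl (by linarith))
  have lo : n * rz r n - (n - H) * rz r (n - H) ≤ H * ∑ k ∈ Icc 1 n, r k := by
    rw [qe _ (by linarith) (by linarith), qe _ (by linarith) (by linarith), se, ← sum_sub_distrib]
    refine sum_le_sum fun k _ => ?_
    rw [← mul_sub]
    refine mul_le_mul_of_nonneg_left ?_ (hr k)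
    split_ifs with c
    · have : (k : ℝ) ≤ n := by exact_mod_cast c
      rw [max_eq_right (by linarith)]; linarith [le_max_right 0 (n - H - k)]
    · have : (n : ℝ) ≤ k := by exact_mod_cast (not_le.1 c).le
      rw [max_eq_left (by linarith), max_eq_left (by linarith), sub_zero]
  have q1 := abs_le.1 (q n (by linarith) (by linarith))
  have q2 := abs_le.1 (q (n + H) (by linarith) (by linarith))
  have q3 := abs_le.1 (q (n - H) (by linarith) (by linarith))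
  have y2 : y ^ 22 = 4 * H ^ 2 := by rw [hH]; ring
  have k1 : κ2 * H ^ 2 ≤ |κ2| * H ^ 2 := by gcongr; exact le_abs_self _
  have k2 : -κ2 * H ^ 2 ≤ |κ2| * H ^ 2 := by gcongr; exact neg_le_abs _
  rw [Real.norm_eq_abs, Real.norm_of_nonneg (by positivity), e2, show y ^ 11 = 2 * H by
    rw [hH]; ring, ← mul_le_mul_iff_right₀ H0, ← abs_of_pos H0, ← abs_mul, abs_of_pos H0, abs_le]
  rw [y2] at q1 q2 q3
  have k3 : 0 ≤ |κ2| * H ^ 2 := by positivity
  constructor <;> nlinarith [q1.1, q1.2, q2.2, q3.2]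

end Pool.Agent.Spin
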