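import Pool.Agent.Lib.MP_696deb_nt.Spin.G2

/-! A partition of unity for the action of the units. -/

set_option autoImplicit false

open scoped Classical
open Finset Filter Topology

namespace Pool.Agent.Spin

theorem pu_mono {L L' R : ℝ} {W : V → ℝ} (h : Wt L R W) (k : L ≤ L') : Wt L' R W :=
  ⟨fun z z' => (h.lip z z').trans (mul_le_mul_of_nonneg_right k (norm_nonneg _)),
    fun z => (h.bd z).trans k, h.supp⟩

theorem pu_wt {R : ℝ} {f : V → ℝ} (hf : ContDiff ℝ 1 f) (hs : ∀ z, R < ‖z‖ → f z = 0) :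
    ∃ L, Wt L R f := by
  have hc : HasCompactSupport f := HasCompactSupport.intro (isCompact_closedBall 0 R)
    fun z hz => hs z (by simpa using hz)
  obtain ⟨K, hK⟩ := hf.lipschitzWith_of_hasCompactSupport hc one_ne_zero
  obtain ⟨C, hC⟩ := hf.continuous.bounded_above_of_compact_support hc
  refine ⟨max K C, fun z z' => ?_, fun z => (hC z).trans (le_max_right _ _), hs⟩
  have h1 := hK.dist_le_mul z z'
  rw [Real.dist_eq, dist_eq_norm] at h1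
  exact h1.trans (mul_le_mul_of_nonneg_right (le_max_left _ _) (norm_nonneg _))

theorem pu_nV_nonneg (z : V) : 0 ≤ nV z := sq_nonneg _

theorem pu_nV_smooth : ContDiff ℝ 1 nV := by
  have h : ∀ i : Fin 3, ContDiff ℝ 1 fun z : V => ‖z i‖ ^ 2 := fun i =>
    ContDiff.norm_sq ℝ (contDiff_apply ℝ ℂ i)
  have h1 : nV = fun z : V => ‖z 0‖ ^ 2 * ‖z 1‖ ^ 2 * ‖z 2‖ ^ 2 := by
    funext z; rw [nV]; ring
  rw [h1]
  exact ((h 0).mul (h 1)).mul (h 2)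

theorem pu_coord (z : V) (i : Fin 3) : nV z ≤ (‖z i‖ * ‖z‖ * ‖z‖) ^ 2 := by
  have h := norm_le_pi_norm z
  have h0 := norm_nonneg z
  refine pow_le_pow_left₀ (by positivity) ?_ 2
  fin_cases i
  · show ‖z 0‖ * ‖z 1‖ * ‖z 2‖ ≤ ‖z 0‖ * ‖z‖ * ‖z‖
    gcongr <;> exact h _
  · show ‖z 0‖ * ‖z 1‖ * ‖z 2‖ ≤ ‖z 1‖ * ‖z‖ * ‖z‖
    rw [mul_comm ‖z 0‖]
    gcongr <;> exact h _
  · show ‖z 0‖ * ‖z 1‖ * ‖z 2‖ ≤ ‖z 2‖ * ‖z‖ * ‖z‖
    rw [mul_comm _ ‖z 2‖, ← mul_assoc]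
    gcongr <;> exact h _

theorem pu_unit {η R : ℝ} (h : 0 < η) {u z : V} (h1 : η ≤ nV z) (h2 : ‖z‖ ≤ R)
    (h3 : ‖u * z‖ ≤ R) : ‖u‖ ≤ R ^ 6 / η + 1 := by
  have hR : 0 ≤ R := (norm_nonneg _).trans h2
  refine (pi_norm_le_iff_of_nonneg (by positivity)).2 fun i => ?_
  have h4 : ‖u i‖ * ‖z i‖ ≤ R := by
    rw [← norm_mul]; exact (norm_le_pi_norm (u * z) i).trans h3
  have h5 : ‖u i‖ ^ 2 * η ≤ R ^ 6 :=
    calc ‖u i‖ ^ 2 * η ≤ ‖u i‖ ^ 2 * (‖z i‖ * ‖z‖ * ‖z‖) ^ 2 :=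
          mul_le_mul_of_nonneg_left (h1.trans (pu_coord z i)) (sq_nonneg _)
      _ = (‖u i‖ * ‖z i‖ * ‖z‖ * ‖z‖) ^ 2 := by ring
      _ ≤ (R * R * R) ^ 2 := by gcongr
      _ = R ^ 6 := by ring
  have h6 : ‖u i‖ ^ 2 ≤ R ^ 6 / η := (le_div_iff₀ h).2 h5
  nlinarith [sq_nonneg (‖u i‖ - 1), norm_nonneg (u i)]

/-- A smooth positive function on the half line that is the identity from `a` on. -/
noncomputable def puH (a t : ℝ) : ℝ := t + Real.smoothTransition (a - t)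

theorem puH_eq {a t : ℝ} (h : a ≤ t) : puH a t = t := by
  rw [puH, Real.smoothTransition.zero_of_nonpos (by linarith), add_zero]

theorem puH_pos {a t : ℝ} (ha : 0 < a) (h : 0 ≤ t) : 0 < puH a t := by
  rcases le_or_gt a t with k | k
  · rw [puH_eq k]; linarith
  · exact add_pos_of_nonneg_of_pos h (Real.smoothTransition.pos_of_pos (by linarith))

theorem puH_smooth (a : ℝ) {f : V → ℝ} (hf : ContDiff ℝ 1 f) :
    ContDiff ℝ 1 fun z => puH a (f z) :=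
  hf.add (Real.smoothTransition.contDiff.comp (contDiff_const.sub hf))

/-- The cut-off in the norm. -/
noncomputable def puψ (η u : ℝ) : ℝ :=
  Real.smoothTransition ((u - η) / η) * Real.smoothTransition ((1 + η - u) / η)

theorem puψ_smooth (η : ℝ) : ContDiff ℝ 1 fun z => puψ η (nV z) :=
  (Real.smoothTransition.contDiff.comp ((pu_nV_smooth.sub contDiff_const).div_const η)).mul
    (Real.smoothTransition.contDiff.comp ((contDiff_const.sub pu_nV_smooth).div_const η))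

theorem puψ_nonneg (η u : ℝ) : 0 ≤ puψ η u :=
  mul_nonneg (Real.smoothTransition.nonneg _) (Real.smoothTransition.nonneg _)

theorem puψ_le_one (η u : ℝ) : puψ η u ≤ 1 :=
  mul_le_one₀ (Real.smoothTransition.le_one _) (Real.smoothTransition.nonneg _)
    (Real.smoothTransition.le_one _)

theorem puψ_one {η u : ℝ} (h : 0 < η) (h1 : 2 * η ≤ u) (h2 : u ≤ 1) : puψ η u = 1 := by
  rw [puψ, Real.smoothTransition.one_of_one_le ((one_le_div h).2 (by linarith)),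
    Real.smoothTransition.one_of_one_le ((one_le_div h).2 (by linarith)), one_mul]

theorem puψ_hi {η u : ℝ} (h : 0 < η) (h1 : 1 + η ≤ u) : puψ η u = 0 := by
  rw [puψ, Real.smoothTransition.zero_of_nonpos (x := (1 + η - u) / η)
    (div_nonpos_of_nonpos_of_nonneg (by linarith) h.le), mul_zero]

theorem puψ_lo {η u : ℝ} (h : 0 < η) (h1 : u ≤ η) : puψ η u = 0 := by
  rw [puψ, Real.smoothTransition.zero_of_nonpos (x := (u - η) / η)
    (div_nonpos_of_nonpos_of_nonneg (by linarith) h.le), zero_mul]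

namespace Dat

variable (D : Dat)

theorem pu_smul (Y : ℝ) (u y : D.O) : D.e u * (Y⁻¹ • D.e y) = Y⁻¹ • D.e (u * y) := by
  rw [D.e_mul, mul_smul_comm]

theorem pu_mem {R Y : ℝ} (hY : 0 < Y) {y : D.O} : y ∈ D.ball (R * Y) ↔ ‖Y⁻¹ • D.e y‖ ≤ R := by
  rw [D.mem_ball, norm_smul, Real.norm_eq_abs, abs_of_pos (inv_pos.2 hY), inv_mul_le_iff₀ hY,
    mul_comm Y, sz]

theorem part {η : ℝ} (h : 0 < η) : ∃ (L R : ℝ) (W : V → ℝ) (ψ : ℝ → ℝ), 1 ≤ R ∧ Wt L R W ∧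
    Wt L R (fun z => W z * Real.log (nV z)) ∧ (∀ z, 0 ≤ W z) ∧ (∀ z, W z ≠ 0 → η ≤ nV z) ∧
    (∀ u, 0 ≤ ψ u ∧ ψ u ≤ 1) ∧ (∀ u, 2 * η ≤ u → u ≤ 1 → ψ u = 1) ∧
    (∀ u, 1 + η ≤ u → ψ u = 0) ∧ ∀ Y : ℝ, 0 < Y → ∀ x : D.O, x ≠ 0 →
      ∑ y ∈ (D.ball (R * Y)).filter fun y => Associated y x, W (Y⁻¹ • D.e y) =
        ψ (D.N x / Y ^ 6) := by
  obtain ⟨Rb, hb⟩ := D.bal
  obtain ⟨r, hr1, hr⟩ : ∃ r : ℝ, 1 ≤ r ∧ |Rb| * (1 + η) ≤ r :=
    ⟨_, le_max_left _ _, le_max_right _ _⟩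
  obtain ⟨W0, w1, w2, w3, w4⟩ : ∃ W0 : V → ℝ, ContDiff ℝ 1 W0 ∧ (∀ z, 0 ≤ W0 z) ∧
      (∀ z, ‖z‖ ≤ r → W0 z = 1) ∧ ∀ z, r + 1 < ‖z‖ → W0 z = 0 := by
    let f : ContDiffBump (0 : V) := ⟨r, r + 1, by linarith, by linarith⟩
    exact ⟨f, f.contDiff, fun z => f.nonneg,
      fun z hz => f.one_of_mem_closedBall (mem_closedBall_zero_iff.2 hz),
      fun z hz => f.zero_of_le_dist (by rw [dist_zero_right]; exact hz.le)⟩
  obtain ⟨U0, hU⟩ : ∃ U0 : Finset D.O, ∀ u, u ∈ U0 ↔ D.sz u ≤ (r + 1) ^ 6 / η + 1 ∧ IsUnit u :=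
    ⟨(D.ball ((r + 1) ^ 6 / η + 1)).filter IsUnit, fun u => by rw [mem_filter, D.mem_ball]⟩
  obtain ⟨G0, hG⟩ : ∃ G0 : V → ℝ, G0 = fun z => ∑ u ∈ U0, W0 (D.e u * z) := ⟨_, rfl⟩
  have g1 : ContDiff ℝ 1 G0 := by
    rw [hG]; exact ContDiff.sum fun u _ => w1.comp (contDiff_const.mul contDiff_id)
  have g2 : ∀ z, 0 < puH 1 (G0 z) := fun z =>
    puH_pos one_pos (by rw [hG]; exact sum_nonneg fun u _ => w2 _)
  obtain ⟨W, hW⟩ : ∃ W : V → ℝ, W = fun z => W0 z * puψ η (nV z) / puH 1 (G0 z) := ⟨_, rfl⟩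
  have a1 : ContDiff ℝ 1 W := by
    rw [hW]; exact (w1.mul (puψ_smooth η)).div (puH_smooth 1 g1) fun z => (g2 z).ne'
  have a2 : ∀ z, r + 1 < ‖z‖ → W z = 0 := fun z hz => by simp [hW, w4 z hz]
  have a3 : ∀ z, W z ≠ 0 → η ≤ nV z := fun z hz => by
    by_contra k
    exact hz (by simp [hW, puψ_lo h (not_le.1 k).le])
  have a4 : (fun z => W z * Real.log (nV z)) = fun z => W z * Real.log (puH η (nV z)) := by
    funext z
    by_cases k : W z = 0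
    · rw [k, zero_mul, zero_mul]
    · rw [puH_eq (a3 z k)]
  have a5 : ContDiff ℝ 1 fun z => W z * Real.log (nV z) := by
    rw [a4]
    exact a1.mul ((puH_smooth η pu_nV_smooth).log fun z => (puH_pos h (pu_nV_nonneg z)).ne')
  obtain ⟨L1, l1⟩ := pu_wt a1 a2
  obtain ⟨L2, l2⟩ := pu_wt (R := r + 1) a5 fun z hz => by rw [a2 z hz, zero_mul]
  refine ⟨max L1 L2, r + 1, W, puψ η, by linarith, pu_mono l1 (le_max_left _ _),
    pu_mono l2 (le_max_right _ _), fun z => ?_, a3, fun u => ⟨puψ_nonneg η u, puψ_le_one η u⟩,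
    fun u => puψ_one h, fun u => puψ_hi h, fun Y hY x hx => ?_⟩
  · rw [hW]; exact div_nonneg (mul_nonneg (w2 z) (puψ_nonneg _ _)) (g2 z).le
  obtain ⟨s, hs⟩ : ∃ s, s = (D.ball ((r + 1) * Y)).filter fun y => Associated y x := ⟨_, rfl⟩
  have ms : ∀ y, y ∈ s ↔ ‖Y⁻¹ • D.e y‖ ≤ r + 1 ∧ Associated y x := fun y => by
    rw [hs, mem_filter, D.pu_mem hY]
  rw [← hs]
  have n1 : ∀ y, Associated y x → nV (Y⁻¹ • D.e y) = D.N x / Y ^ 6 := fun y hy => by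
    rw [D.nV_smul hY, D.N_assoc hy]
  by_cases k : puψ η (D.N x / Y ^ 6) = 0
  · rw [k]
    exact sum_eq_zero fun y hy => by simp [hW, n1 y ((ms y).1 hy).2, k]
  have k1 : η ≤ D.N x / Y ^ 6 := by
    by_contra k1; exact k (puψ_lo h (not_le.1 k1).le)
  have k2 : D.N x / Y ^ 6 ≤ 1 + η := by
    by_contra k2; exact k (puψ_hi h (not_le.1 k2).le)
  have c1 : 1 ≤ ∑ y ∈ s, W0 (Y⁻¹ • D.e y) := by
    obtain ⟨u, hu, hz⟩ := hb (Y⁻¹ • D.e x) (by rw [n1 x (Associated.refl x)]; linarith)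
    have hz : ‖Y⁻¹ • D.e (u * x)‖ ^ 6 ≤ r ^ 6 := by
      rw [← D.pu_smul]
      refine le_trans hz ?_
      rw [n1 x (Associated.refl x)]
      exact ((mul_le_mul (le_abs_self Rb) k2 (h.le.trans k1) (abs_nonneg _)).trans hr).trans
        (le_self_pow₀ hr1 (by norm_num))
    have hz := (pow_le_pow_iff_left₀ (norm_nonneg _) (by linarith) (by norm_num)).1 hz
    rw [← w3 _ hz]
    exact single_le_sum (f := fun y => W0 (Y⁻¹ • D.e y)) (fun y _ => w2 _)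
      ((ms _).2 ⟨by linarith, associated_unit_mul_left x u hu⟩)
  have c2 : ∀ y ∈ s, G0 (Y⁻¹ • D.e y) = ∑ y ∈ s, W0 (Y⁻¹ • D.e y) := fun y hy => by
    obtain ⟨y1, y2⟩ := (ms y).1 hy
    have y0 : y ≠ 0 := y2.ne_zero_iff.2 hx
    simp only [hG, D.pu_smul]
    refine sum_bij_ne_zero (fun u _ _ => u * y) (fun u hu h0 => ?_)
      (fun u _ _ u' _ _ e => mul_right_cancel₀ y0 e) (fun y' hy' h0 => ?_) fun _ _ _ => rfl
    · refine (ms _).2 ⟨?_, (associated_unit_mul_left y u ((hU u).1 hu).2).trans y2⟩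
      by_contra h1
      exact h0 (w4 _ (not_le.1 h1))
    · obtain ⟨z1, z2⟩ := (ms y').1 hy'
      obtain ⟨u, rfl⟩ := y2.trans z2.symm
      rw [mul_comm y] at h0 z1
      refine ⟨u, (hU u).2 ⟨?_, u.isUnit⟩, h0, mul_comm _ _⟩
      exact pu_unit h (by rw [n1 y y2]; exact k1) y1 (by rw [D.pu_smul]; exact z1)
  have c3 : ∀ y ∈ s, W (Y⁻¹ • D.e y) =
      W0 (Y⁻¹ • D.e y) * (puψ η (D.N x / Y ^ 6) / ∑ y ∈ s, W0 (Y⁻¹ • D.e y)) := fun y hy => by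
    simp only [hW]
    rw [n1 y ((ms y).1 hy).2, c2 y hy, puH_eq c1, mul_div_assoc]
  rw [sum_congr rfl c3, ← sum_mul, mul_div_cancel₀ _ (by linarith)]

end Dat

end Pool.Agent.Spin
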