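import Pool.Agent.Lib.MP_696deb_nt.Spin.AN
import Pool.Agent.Lib.MP_696deb_nt.Spin.PU
import Pool.Agent.Shared.PNT.Main

/-! At most half of the split primes have positive spin. -/

set_option autoImplicit false

open scoped Classical
open Finset Filter Topology

namespace Pool.Agent.Spin

theorem sd_log (n : ℕ) : 0 ≤ Real.log n := Real.log_natCast_nonneg n

theorem sd_th (K : Finset ℕ) {x : ℝ} :
    ∑ n ∈ K, (if n.Prime ∧ (n : ℝ) ≤ x then Real.log n else 0) ≤ Chebyshev.theta x := by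
  rw [← sum_filter, Chebyshev.theta]
  refine sum_le_sum_of_subset_of_nonneg (fun n hn => ?_) fun n _ _ => sd_log n
  rw [mem_filter] at hn ⊢
  exact ⟨mem_Ioc.2 ⟨hn.2.1.pos, Nat.le_floor hn.2.2⟩, hn.2.1⟩

theorem sd_cut (K : Finset ℕ) (X : ℕ) (P : ℕ → Prop) [DecidablePred P] (hK : range (X + 1) ⊆ K) :
    ∑ p ∈ (range (X + 1)).filter P, Real.log p =
      ∑ n ∈ K, if P n ∧ (n : ℝ) ≤ X then Real.log n else 0 := by
  rw [← sum_filter]
  refine sum_congr ?_ fun _ _ => rfl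
  ext n
  simp only [mem_filter, Nat.cast_le]
  constructor
  · rintro ⟨h1, h2⟩
    exact ⟨hK h1, h2, by have := mem_range.1 h1; omega⟩
  · rintro ⟨-, h2, h3⟩
    exact ⟨mem_range.2 (by omega), h2⟩

theorem sd_th' (K : Finset ℕ) (X : ℕ) (hK : range (X + 1) ⊆ K) :
    Chebyshev.theta X ≤ ∑ n ∈ K, (if n.Prime ∧ (n : ℝ) ≤ X then Real.log n else 0) := by
  rw [← sd_cut K X Nat.Prime hK, Chebyshev.theta, Nat.floor_natCast]
  refine sum_le_sum_of_subset_of_nonneg (fun n hn => ?_) fun n _ _ => sd_log n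
  rw [mem_filter] at hn ⊢
  exact ⟨mem_range.2 (by have := (mem_Ioc.1 hn.1).2; omega), hn.2⟩

theorem sd_exc (M : ℕ) (hM : M ≠ 0) : ∃ C : ℝ, 0 ≤ C ∧ ∀ U : ℝ, 1 ≤ U →
    (((range (⌊U⌋₊ + 1)).filter fun n => Sqf n ∨ n ∣ M).card : ℝ) ≤ C * U ^ (13 / 24 : ℝ) := by
  obtain ⟨C, hC, h⟩ := sq_card
  refine ⟨C + M, by positivity, fun U hU => ?_⟩
  have h1 := h U ((range (⌊U⌋₊ + 1)).filter fun n => Sqf n) hU fun n hn => by
    rw [mem_filter, mem_range] at hn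
    exact ⟨hn.2, (Nat.cast_le.2 (by omega : n ≤ ⌊U⌋₊)).trans (Nat.floor_le (by linarith))⟩
  have h2 : ((range (⌊U⌋₊ + 1)).filter fun n => n ∣ M).card ≤ M := by
    refine le_trans (card_le_card fun n hn => ?_) (le_of_eq (Nat.card_Ioc 0 M))
    have := (mem_filter.1 hn).2
    exact mem_Ioc.2 ⟨Nat.pos_of_dvd_of_pos this (Nat.pos_of_ne_zero hM),
      Nat.le_of_dvd (Nat.pos_of_ne_zero hM) this⟩
  have h3 : (1 : ℝ) ≤ U ^ (13 / 24 : ℝ) := Real.one_le_rpow hU (by norm_num)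
  have h4 : (((range (⌊U⌋₊ + 1)).filter fun n => n ∣ M).card : ℝ) ≤ M := by exact_mod_cast h2
  have h5 : ((range (⌊U⌋₊ + 1)).filter fun n => Sqf n ∨ n ∣ M).card ≤
      ((range (⌊U⌋₊ + 1)).filter fun n => Sqf n).card +
        ((range (⌊U⌋₊ + 1)).filter fun n => n ∣ M).card := by
    rw [filter_or]
    exact card_union_le _ _
  have h6 : (((range (⌊U⌋₊ + 1)).filter fun n => Sqf n ∨ n ∣ M).card : ℝ) ≤
      ((range (⌊U⌋₊ + 1)).filter fun n => Sqf n).card +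
        ((range (⌊U⌋₊ + 1)).filter fun n => n ∣ M).card := by exact_mod_cast h5
  have h7 : (0 : ℝ) ≤ M := Nat.cast_nonneg M
  nlinarith

namespace Dat

variable (D : Dat)

/-- The sum of the function of von Mangoldt over the ideals of norm `n`. -/
noncomputable def sdA (U : ℝ) (n : ℕ) : ℝ := ∑ m ∈ (D.DU U).filter fun m => D.N m = n, D.Λ m

theorem sd_A0 (U : ℝ) (n : ℕ) : 0 ≤ D.sdA U n := sum_nonneg fun m _ => D.Λ_nonneg m

theorem sd_Abd : ∃ C : ℝ, 0 ≤ C ∧ ∀ (U : ℝ) (n : ℕ), n ≠ 0 →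
    D.sdA U n ≤ C * (n : ℝ) ^ (1 / 4 : ℝ) := by
  obtain ⟨C, hC, h⟩ := D.r_le (ε := 1 / 8) (by norm_num)
  refine ⟨8 * C, by positivity, fun U n hn => ?_⟩
  have n0 : (0 : ℝ) < n := by exact_mod_cast Nat.pos_of_ne_zero hn
  have h1 : D.sdA U n ≤ ((D.DU U).filter fun m => D.N m = n).card • Real.log n :=
    sum_le_card_nsmul _ _ _ fun m hm => by
      have := D.Λ_le m
      rwa [(mem_filter.1 hm).2] at this
  rw [nsmul_eq_mul] at h1
  have h2 : Real.log n ≤ (n : ℝ) ^ (1 / 8 : ℝ) / (1 / 8) :=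
    Real.log_le_rpow_div n0.le (by norm_num)
  have h3 : (n : ℝ) ^ (1 / 4 : ℝ) = (n : ℝ) ^ (1 / 8 : ℝ) * (n : ℝ) ^ (1 / 8 : ℝ) := by
    rw [← Real.rpow_add n0]
    norm_num
  have h4 : (0 : ℝ) ≤ (n : ℝ) ^ (1 / 8 : ℝ) := by positivity
  calc D.sdA U n ≤ (C * (n : ℝ) ^ (1 / 8 : ℝ)) * ((n : ℝ) ^ (1 / 8 : ℝ) / (1 / 8)) :=
        h1.trans (mul_le_mul (h U n hn) h2 (sd_log n) (by positivity))
    _ = 8 * C * (n : ℝ) ^ (1 / 4 : ℝ) := by rw [h3]; ring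

theorem sd_Aprime {U : ℝ} {p : ℕ} (hp : p.Prime) (k : ¬ p ∣ D.M) (hU : (p : ℝ) ≤ U) :
    D.sdA U p = if D.Spl p then 6 * Real.log p else 0 := by
  unfold sdA
  split_ifs with h
  · rw [sum_congr rfl (g := fun _ => Real.log p) fun m hm => by
      have e := (mem_filter.1 hm).2
      rw [D.Λ_prime (D.prime_of_N (by rw [e]; exact hp)), e], sum_const, D.six hp k h hU,
      nsmul_eq_mul]
    norm_num
  · exact sum_eq_zero fun m hm => absurd ⟨m, (mem_filter.1 hm).2⟩ h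

theorem sd_Azero (U : ℝ) {n : ℕ} (h : ¬ n.Prime) (k : ¬ Sqf n) : D.sdA U n = 0 := by
  refine sum_eq_zero fun m hm => ?_
  by_contra c
  obtain ⟨p, j, hp, hj, e⟩ := D.Λ_ne c
  rw [(mem_filter.1 hm).2] at e
  rcases Nat.lt_or_ge j 2 with h2 | h2
  · obtain rfl : j = 1 := by omega
    exact h (by rw [e, pow_one]; exact hp)
  · refine k ⟨by rw [e]; exact pow_ne_zero _ hp.ne_zero, fun q hq d => ?_⟩
    rw [e] at d ⊢
    rw [(Nat.prime_dvd_prime_iff_eq hq hp).1 (hq.dvd_of_dvd_pow d)]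
    exact pow_dvd_pow _ h2

theorem sd_Λ0 : D.Λ 0 = 0 := by
  by_contra c
  obtain ⟨p, j, hp, -, e⟩ := D.Λ_ne c
  rw [D.N_eq_zero.2 rfl] at e
  exact pow_ne_zero _ hp.ne_zero e.symm

/-- The weighted sum grouped by the norm. -/
theorem sd_group {κ : D.O → ℝ} (hκ : D.Per κ) {R Y U : ℝ} {W : V → ℝ} {ψ : ℝ → ℝ}
    (hW : ∀ z, 0 ≤ W z) (hU : (R * Y) ^ 6 ≤ U)
    (hψ : ∀ x : D.O, x ≠ 0 → ∑ y ∈ (D.ball (R * Y)).filter fun y => Associated y x,
      W (Y⁻¹ • D.e y) = ψ (D.N x / Y ^ 6)) :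
    ∑ n ∈ range (⌊U⌋₊ + 1), ψ (n / Y ^ 6) * (if D.Bad κ n then 1 else -1) * D.sdA U n ≤
      D.S W R Y fun x => D.Λ x * D.sp κ x := by
  have e1 : (D.S W R Y fun x => D.Λ x * D.sp κ x) = ∑ m ∈ D.DU U,
      ∑ y ∈ (D.ball (R * Y)).filter fun y => Associated y m,
        W (Y⁻¹ • D.e y) * (D.Λ y * D.sp κ y) := by
    simp only [sum_filter]
    rw [sum_comm, S]
    refine sum_congr rfl fun x hx => ?_
    by_cases x0 : x = 0
    · subst x0
      simp [D.sd_Λ0]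
    · obtain ⟨m, hm, a⟩ := D.exists_rp x0
      have hm' : m ∈ D.DU U := by
        refine D.mem_DU.2 ⟨hm, ?_⟩
        rw [D.N_assoc a]
        exact (D.N_le x).trans ((pow_le_pow_left₀ (D.sz_nonneg x) (D.mem_ball.1 hx) 6).trans hU)
      rw [sum_eq_single m (fun m' h' ne => if_neg fun c =>
        ne (D.rp_eq (D.mem_DU.1 h').1 hm (c.symm.trans a.symm))) (fun c => absurd hm' c),
        if_pos a.symm]
  have e2 : ∑ n ∈ range (⌊U⌋₊ + 1), ψ (n / Y ^ 6) * (if D.Bad κ n then 1 else -1) * D.sdA U n =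
      ∑ m ∈ D.DU U, ψ (D.N m / Y ^ 6) * (if D.Bad κ (D.N m) then 1 else -1) * D.Λ m := by
    rw [← sum_fiberwise_of_maps_to (s := D.DU U) (t := range (⌊U⌋₊ + 1)) (g := D.N)
      fun m hm => mem_range.2 (Nat.lt_succ_of_le (Nat.le_floor (D.mem_DU.1 hm).2))]
    refine sum_congr rfl fun n _ => ?_
    rw [sdA, mul_sum]
    exact sum_congr rfl fun m hm => by rw [(mem_filter.1 hm).2]
  rw [e1, e2]
  refine sum_le_sum fun m hm => ?_
  rw [← hψ m (D.mem_DU.1 hm).1.1, sum_mul, sum_mul]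
  refine sum_le_sum fun y hy => ?_
  have a := (mem_filter.1 hy).2
  rw [D.Λ_assoc a, mul_assoc, mul_comm _ (D.Λ m)]
  refine mul_le_mul_of_nonneg_left (mul_le_mul_of_nonneg_left ?_ (D.Λ_nonneg m)) (hW _)
  split_ifs with b
  · exact (b.2 y (D.N_assoc a)).ge
  · exact (abs_le.1 (D.sp_abs hκ y)).1

theorem sd_pt (κ : D.O → ℝ) {η X U C : ℝ} {ψ : ℝ → ℝ} (hη : 0 < η) (hX : 0 < X) (hC : 0 ≤ C)
    (hA : ∀ n : ℕ, n ≠ 0 → D.sdA U n ≤ C * (n : ℝ) ^ (1 / 4 : ℝ))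
    (h0 : ∀ u, 0 ≤ ψ u ∧ ψ u ≤ 1) (h1 : ∀ u, 2 * η ≤ u → u ≤ 1 → ψ u = 1)
    (h2 : ∀ u, 1 + η ≤ u → ψ u = 0) {n : ℕ} (hn : (n : ℝ) ≤ U) :
    12 * (if (n.Prime ∧ D.Bad κ n) ∧ (n : ℝ) ≤ X then Real.log n else 0) -
        6 * (if (n.Prime ∧ D.Spl n) ∧ (n : ℝ) ≤ X then Real.log n else 0) ≤
      ψ (n / X) * (if D.Bad κ n then 1 else -1) * D.sdA U n +
        12 * (if n.Prime ∧ (n : ℝ) ≤ 2 * η * X then Real.log n else 0) +
        6 * ((if n.Prime ∧ (n : ℝ) ≤ (1 + η) * X then Real.log n else 0) -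
          if n.Prime ∧ (n : ℝ) ≤ X then Real.log n else 0) +
        if Sqf n ∨ n ∣ D.M then (C + 48) * U ^ (1 / 4 : ℝ) else 0 := by
  have l0 := sd_log n
  have a0 := D.sd_A0 U n
  obtain ⟨p0, p1⟩ := h0 (n / X)
  have hηX : 0 < η * X := mul_pos hη hX
  have t1 : 0 ≤ if n.Prime ∧ (n : ℝ) ≤ 2 * η * X then Real.log n else 0 := by
    split_ifs
    · exact l0
    · exact le_rfl
  have t2 : (if n.Prime ∧ (n : ℝ) ≤ X then Real.log n else 0) ≤
      if n.Prime ∧ (n : ℝ) ≤ (1 + η) * X then Real.log n else 0 := by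
    by_cases c : n.Prime ∧ (n : ℝ) ≤ X
    · rw [if_pos c, if_pos ⟨c.1, by linarith [c.2]⟩]
    · rw [if_neg c]
      split_ifs
      · exact l0
      · exact le_rfl
  have t3 : -D.sdA U n ≤ ψ (n / X) * (if D.Bad κ n then 1 else -1) * D.sdA U n := by
    split_ifs <;> nlinarith
  by_cases c : Sqf n ∨ n ∣ D.M
  · rw [if_pos c]
    have n0 : n ≠ 0 := by
      rcases c with c | c
      · exact c.1
      · exact fun z => D.M0 (Nat.eq_zero_of_zero_dvd (z ▸ c))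
    have r : (n : ℝ) ^ (1 / 4 : ℝ) ≤ U ^ (1 / 4 : ℝ) :=
      Real.rpow_le_rpow (Nat.cast_nonneg n) hn (by norm_num)
    have l1 : Real.log n ≤ (n : ℝ) ^ (1 / 4 : ℝ) / (1 / 4) :=
      Real.log_le_rpow_div (Nat.cast_nonneg n) (by norm_num)
    have a1 := (hA n n0).trans (mul_le_mul_of_nonneg_left r hC)
    have s1 : (if (n.Prime ∧ D.Bad κ n) ∧ (n : ℝ) ≤ X then Real.log n else 0) ≤ Real.log n := by
      split_ifs
      · exact le_rfl
      · exact l0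
    have s2 : 0 ≤ if (n.Prime ∧ D.Spl n) ∧ (n : ℝ) ≤ X then Real.log n else 0 := by
      split_ifs
      · exact l0
      · exact le_rfl
    linarith
  · rw [if_neg c]
    by_cases hp : n.Prime
    · rw [D.sd_Aprime hp (fun d => c (Or.inr d)) hn] at t3 ⊢
      by_cases hs : D.Spl n
      · simp only [hp, hs, true_and, if_true] at t1 t2 t3 ⊢
        by_cases k1 : (n : ℝ) ≤ X
        · simp only [k1, and_true, if_true] at t2 ⊢
          by_cases k2 : (n : ℝ) ≤ 2 * η * X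
          · rw [if_pos k2]
            split_ifs at t1 t2 t3 ⊢ <;> nlinarith
          · have e : ψ (n / X) = 1 := h1 _ ((le_div_iff₀ hX).2 (not_le.1 k2).le)
              ((div_le_one hX).2 k1)
            rw [e]
            split_ifs at t1 t2 t3 ⊢ <;> linarith
        · simp only [k1, and_false, if_false] at t2 ⊢
          by_cases k2 : (n : ℝ) ≤ (1 + η) * X
          · rw [if_pos k2]
            linarith
          · have e : ψ (n / X) = 0 := h2 _ ((le_div_iff₀ hX).2 (not_le.1 k2).le)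
            rw [e]
            linarith
      · have hb : ¬ D.Bad κ n := fun b => hs b.1
        simp only [hs, hb, and_false, false_and, if_false] at t3 ⊢
        linarith
    · rw [D.sd_Azero U hp fun d => c (Or.inl d)]
      simp [hp]

theorem spin_half {κ : D.O → ℝ} (hκ : D.Per κ) {ε : ℝ} (h : 0 < ε) : ∀ᶠ X : ℕ in atTop,
    ∑ p ∈ (range (X + 1)).filter fun p => p.Prime ∧ D.Bad κ p, Real.log p ≤
      1 / 2 * ∑ p ∈ (range (X + 1)).filter fun p => p.Prime ∧ D.Spl p, Real.log p + ε * X := by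
  obtain ⟨η, hη, η1, ηε⟩ : ∃ η : ℝ, 0 < η ∧ η ≤ 1 ∧ 10 * η ≤ ε :=
    ⟨min 1 (ε / 10), lt_min one_pos (by positivity), min_le_left _ _, by
      linarith [min_le_right 1 (ε / 10)]⟩
  obtain ⟨L, R, W, ψ, hR, hW, hW', W0, Wη, h0, h1, h2, hψ⟩ := D.part hη
  obtain ⟨C, hC, hA⟩ := D.sd_Abd
  obtain ⟨C', hC', hE⟩ := sd_exc D.M D.M0
  have cN : Tendsto (fun X : ℕ => (X : ℝ)) atTop atTop := tendsto_natCast_atTop_atTop
  have v1 : ∀ᶠ X : ℕ in atTop, D.S W R ((X : ℝ) ^ (1 / 6 : ℝ)) (fun x => D.Λ x * D.sp κ x) /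
      ((X : ℝ) ^ (1 / 6 : ℝ)) ^ 6 < η :=
    ((D.an_main hR hW hW' hη Wη hκ).comp
      ((tendsto_rpow_atTop (by norm_num : (0 : ℝ) < 1 / 6)).comp cN)).eventually
      (gt_mem_nhds hη)
  have v2 : ∀ᶠ X : ℕ in atTop, Chebyshev.theta ((1 + η) * X) / ((1 + η) * X) < 1 + η :=
    (Pool.Agent.Shared.PNT.pnt_theta.comp (cN.const_mul_atTop (by linarith))).eventually
      (gt_mem_nhds (by linarith))
  have v3 : ∀ᶠ X : ℕ in atTop, 1 - η < Chebyshev.theta X / X :=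
    (Pool.Agent.Shared.PNT.pnt_theta.comp cN).eventually (lt_mem_nhds (by linarith))
  have v4 : ∀ᶠ X : ℕ in atTop,
      C' * (C + 48) * (R ^ 6) ^ (19 / 24 : ℝ) * (X : ℝ) ^ (-(5 / 24) : ℝ) < η := by
    have := ((tendsto_rpow_neg_atTop (by norm_num : (0 : ℝ) < 5 / 24)).comp cN).const_mul
      (C' * (C + 48) * (R ^ 6) ^ (19 / 24 : ℝ))
    rw [mul_zero] at this
    exact this.eventually (gt_mem_nhds hη)
  filter_upwards [v1, v2, v3, v4, eventually_ge_atTop 1] with X v1 v2 v3 v4 X1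
  have X1' : (1 : ℝ) ≤ X := by exact_mod_cast X1
  have X0 : (0 : ℝ) < X := by linarith
  have Y6 : ((X : ℝ) ^ (1 / 6 : ℝ)) ^ 6 = X := by
    rw [← Real.rpow_natCast, ← Real.rpow_mul X0.le]
    norm_num
  have R6 : (1 : ℝ) ≤ R ^ 6 := one_le_pow₀ hR
  set U : ℝ := R ^ 6 * X with hU
  have XU : (X : ℝ) ≤ U := by nlinarith
  have U1 : 1 ≤ U := X1'.trans XU
  have hK : range (X + 1) ⊆ range (⌊U⌋₊ + 1) :=
    range_subset_range.2 (Nat.succ_le_succ (Nat.le_floor XU))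
  have g := D.sd_group hκ (U := U) W0 (by rw [mul_pow, Y6]) (hψ _ (by positivity))
  rw [Y6] at g v1
  have pt := sum_le_sum (s := range (⌊U⌋₊ + 1)) fun n hn =>
    D.sd_pt κ hη X0 hC (hA U) h0 h1 h2 (n := n)
      ((Nat.cast_le.2 (Nat.lt_succ_iff.1 (mem_range.1 hn))).trans (Nat.floor_le (by linarith)))
  rw [sum_sub_distrib, ← mul_sum, ← mul_sum, sum_add_distrib, sum_add_distrib, sum_add_distrib,
    ← mul_sum, ← mul_sum, sum_sub_distrib, ← sd_cut _ X _ hK, ← sd_cut _ X _ hK] at pt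
  have b1 := (sd_th (range (⌊U⌋₊ + 1)) (x := 2 * η * X)).trans
    (Chebyshev.theta_le_log4_mul_x (by positivity))
  have b2 := sd_th (range (⌊U⌋₊ + 1)) (x := (1 + η) * X)
  have b3 := sd_th' _ X hK
  have b4 : (∑ n ∈ range (⌊U⌋₊ + 1),
      if Sqf n ∨ n ∣ D.M then (C + 48) * U ^ (1 / 4 : ℝ) else 0) ≤ η * X := by
    rw [← sum_filter, sum_const, nsmul_eq_mul]
    have e : U ^ (13 / 24 : ℝ) * U ^ (1 / 4 : ℝ) =
        (R ^ 6) ^ (19 / 24 : ℝ) * (X : ℝ) ^ (-(5 / 24) : ℝ) * X := by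
      rw [← Real.rpow_add (by linarith), hU, Real.mul_rpow (by linarith) X0.le, mul_assoc,
        ← Real.rpow_add_one X0.ne']
      norm_num
    calc _ ≤ C' * U ^ (13 / 24 : ℝ) * ((C + 48) * U ^ (1 / 4 : ℝ)) :=
          mul_le_mul_of_nonneg_right (hE U U1) (by positivity)
      _ = C' * (C + 48) * (U ^ (13 / 24 : ℝ) * U ^ (1 / 4 : ℝ)) := by ring
      _ = C' * (C + 48) * (R ^ 6) ^ (19 / 24 : ℝ) * (X : ℝ) ^ (-(5 / 24) : ℝ) * X := by
          rw [e]; ring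
      _ ≤ η * X := mul_le_mul_of_nonneg_right v4.le X0.le
  have l4 : Real.log 4 ≤ 3 := by
    have := Real.log_le_sub_one_of_pos (by norm_num : (0 : ℝ) < 4)
    linarith
  rw [div_lt_iff₀ X0] at v1
  rw [div_lt_iff₀ (by positivity)] at v2
  rw [lt_div_iff₀ X0] at v3
  have hηX : 0 < η * X := mul_pos hη X0
  have b5 : Real.log 4 * (2 * η * X) ≤ 3 * (2 * η * X) :=
    mul_le_mul_of_nonneg_right l4 (by positivity)
  have b6 : η * (η * X) ≤ 1 * (η * X) := mul_le_mul_of_nonneg_right η1 hηX.le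
  have b7 : 10 * η * X ≤ ε * X := mul_le_mul_of_nonneg_right ηε X0.le
  nlinarith

end Dat

end Pool.Agent.Spin
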