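import Pool.Agent.Lib.MP_696deb_nt.Spin.PA
import Pool.Agent.Lib.MP_696deb_nt.Spin.PB
import Pool.Agent.Lib.MP_696deb_nt.Spin.PC
import Pool.Agent.Lib.MP_696deb_nt.Spin.SD

/-! The prime ideal theorem for the sextic ring: the split primes have density at most a sixth. -/

set_option autoImplicit false

open scoped Classical
open Finset Filter Topology Asymptotics

namespace Pool.Agent.Spin

/-- A piecewise linear weight supported in the interval from a quarter to one. -/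
noncomputable def pdψ (u : ℝ) : ℝ :=
  max 0 (1 - u) - 3 / 2 * max 0 (1 - 2 * u) + 1 / 2 * max 0 (1 - 4 * u)

theorem pdψ_lip (u v : ℝ) : |pdψ u - pdψ v| ≤ 6 * |u - v| := by
  have h : ∀ c : ℝ, 0 ≤ c → |max 0 (1 - c * u) - max 0 (1 - c * v)| ≤ c * |u - v| := by
    intro c hc
    rw [max_comm, max_comm 0]
    refine (abs_max_sub_max_le_abs _ _ _).trans_eq ?_
    rw [show 1 - c * u - (1 - c * v) = -(c * (u - v)) by ring, abs_neg, abs_mul, abs_of_nonneg hc]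
  have h1 := abs_le.1 (h 1 zero_le_one)
  have h2 := abs_le.1 (h 2 zero_le_two)
  have h4 := abs_le.1 (h 4 (by norm_num))
  simp only [one_mul] at h1
  unfold pdψ
  rw [abs_le]
  constructor <;> linarith [h1.1, h1.2, h2.1, h2.2, h4.1, h4.2]

theorem pdψ_lo {u : ℝ} (h : u ≤ 1 / 4) : pdψ u = 0 := by
  unfold pdψ
  rw [max_eq_right (by linarith), max_eq_right (by linarith), max_eq_right (by linarith)]
  ring

theorem pdψ_hi {u : ℝ} (h : 1 ≤ u) : pdψ u = 0 := by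
  unfold pdψ
  rw [max_eq_left (by linarith), max_eq_left (by linarith), max_eq_left (by linarith)]
  ring

theorem pdψ_bd (u : ℝ) : |pdψ u| ≤ 6 := by
  rcases le_total u (1 / 4) with h | h
  · simp [pdψ_lo h]
  rcases le_total 1 u with k | k
  · simp [pdψ_hi k]
  have := pdψ_lip u 1
  rw [pdψ_hi le_rfl, sub_zero, abs_sub_comm, abs_of_nonneg (sub_nonneg.2 k)] at this
  linarith

theorem pd_wt {L R : ℝ} {W : V → ℝ} (hR : 1 ≤ R) (hW : Wt L R W) :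
    ∃ L', Wt L' R fun z => W z * pdψ (nV z) := by
  let f : ContDiffBump (0 : V) := ⟨R, R + 1, by linarith, by linarith⟩
  obtain ⟨K, hK⟩ := pu_wt (R := R + 1) (f := fun z => f z * nV z) (f.contDiff.mul pu_nV_smooth)
    fun z hz => by rw [f.zero_of_le_dist (by rw [dist_zero_right]; exact hz.le), zero_mul]
  have e : (fun z => W z * pdψ (nV z)) = fun z => W z * pdψ (f z * nV z) := by
    funext z
    rcases le_or_gt ‖z‖ R with h | h
    · rw [f.one_of_mem_closedBall (mem_closedBall_zero_iff.2 h), one_mul]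
    · rw [hW.supp z h, zero_mul, zero_mul]
  have L0 : 0 ≤ L := (abs_nonneg _).trans (hW.bd 0)
  have K0 : 0 ≤ K := (abs_nonneg _).trans (hK.bd 0)
  rw [e]
  refine ⟨L * 6 + L * (6 * K), fun z z' => ?_, fun z => ?_, fun z hz => by rw [hW.supp z hz, zero_mul]⟩
  · rw [show W z * pdψ (f z * nV z) - W z' * pdψ (f z' * nV z') =
      (W z - W z') * pdψ (f z * nV z) + W z' * (pdψ (f z * nV z) - pdψ (f z' * nV z')) by ring]
    refine (abs_add_le _ _).trans ?_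
    rw [abs_mul, abs_mul]
    calc _ ≤ L * ‖z - z'‖ * 6 + L * (6 * (K * ‖z - z'‖)) := add_le_add
          (mul_le_mul (hW.lip _ _) (pdψ_bd _) (abs_nonneg _) (by positivity))
          (mul_le_mul (hW.bd _) ((pdψ_lip _ _).trans (by gcongr; exact hK.lip _ _))
            (abs_nonneg _) L0)
      _ = _ := by ring
  · rw [abs_mul]
    exact (mul_le_mul (hW.bd _) (pdψ_bd _) (abs_nonneg _) L0).trans
      (le_add_of_nonneg_right (by positivity))

namespace Dat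

variable (D : Dat)

/-- The chosen generators of norm `n`. -/
noncomputable def Rn (n : ℕ) : Finset D.O := (D.DU n).filter fun m => D.N m = n

theorem mem_Rn {n : ℕ} {m : D.O} : m ∈ D.Rn n ↔ D.Rp m ∧ D.N m = n := by
  rw [Rn, mem_filter, D.mem_DU]
  exact ⟨fun h => ⟨h.1.1, h.2⟩, fun h => ⟨⟨h.1, by rw [h.2]⟩, h.2⟩⟩

theorem Rn_eq {n : ℕ} {U : ℝ} (h : (n : ℝ) ≤ U) :
    ((D.DU U).filter fun m => D.N m = n) = D.Rn n := by
  ext m
  rw [D.mem_Rn, mem_filter, D.mem_DU]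
  exact ⟨fun k => ⟨k.1.1, k.2⟩, fun k => ⟨⟨k.1, by rw [k.2]; exact h⟩, k.2⟩⟩

theorem pd_count : ∃ κ : ℝ, (fun n : ℕ => ∑ k ∈ Icc 1 n, ((D.Rn k).card : ℝ) - κ * n) =O[atTop]
    fun n => (n : ℝ) ^ (11 / 12 : ℝ) := by
  obtain ⟨L, R, W, ψ, hR, hW, -, -, Wη, -, h1, -, hψ⟩ := D.part (η := 1 / 8) (by norm_num)
  obtain ⟨L', hW'⟩ := pd_wt hR hW
  obtain ⟨κ, C, hC, h⟩ := D.pb_lim hR hW'
  refine pc_sharp (fun n => Nat.cast_nonneg _) (κ := κ) (C := C) fun X X1 => ?_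
  have X0 : 0 < X := by linarith
  obtain ⟨Y, Y1, Y6, Y5⟩ : ∃ Y : ℝ, 1 ≤ Y ∧ Y ^ 6 = X ∧ Y ^ 5 = X ^ (5 / 6 : ℝ) := by
    refine ⟨X ^ (1 / 6 : ℝ), Real.one_le_rpow X1 (by norm_num), ?_, ?_⟩ <;>
      rw [← Real.rpow_natCast, ← Real.rpow_mul X0.le] <;> norm_num
  have Y0 : 0 < Y := by linarith
  have R6 : (1 : ℝ) ≤ R ^ 6 := one_le_pow₀ hR
  obtain ⟨K, hK⟩ := exists_nat_ge (R ^ 6 * X)
  have XK : X ≤ K := by nlinarith
  have e1 : (D.S (fun z => W z * pdψ (nV z)) R Y fun _ => 1) = ∑ m ∈ D.DU K,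
      ∑ y ∈ (D.ball (R * Y)).filter fun y => Associated y m,
        W (Y⁻¹ • D.e y) * pdψ (D.N m / X) := by
    simp only [sum_filter]
    rw [sum_comm, S]
    refine sum_congr rfl fun x hx => ?_
    rw [mul_one, D.nV_smul Y0, Y6]
    by_cases x0 : x = 0
    · rw [x0, D.N_eq_zero.2 rfl, pdψ_lo (by norm_num), mul_zero]
      exact (sum_eq_zero fun m hm => if_neg fun c =>
        (D.mem_DU.1 hm).1.1 ((associated_zero_iff_eq_zero m).1 c.symm)).symm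
    · obtain ⟨m, hm, a⟩ := D.exists_rp x0
      have hm' : m ∈ D.DU K := by
        refine D.mem_DU.2 ⟨hm, ?_⟩
        rw [D.N_assoc a]
        refine (D.N_le x).trans ((pow_le_pow_left₀ (D.sz_nonneg x) (D.mem_ball.1 hx) 6).trans ?_)
        rwa [mul_pow, Y6]
      rw [sum_eq_single m (fun m' h' ne => if_neg fun c =>
        ne (D.rp_eq (D.mem_DU.1 h').1 hm (c.symm.trans a.symm))) (fun c => absurd hm' c),
        if_pos a.symm, D.N_assoc a]
  have e2 : (D.S (fun z => W z * pdψ (nV z)) R Y fun _ => 1) =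
      ∑ n ∈ Icc 1 K, ((D.Rn n).card : ℝ) * pdψ (n / X) := by
    rw [e1, ← sum_fiberwise_of_maps_to (s := D.DU K) (t := Icc 1 K) (g := D.N) fun m hm =>
      mem_Icc.2 ⟨Nat.pos_of_ne_zero (mt D.N_eq_zero.1 (D.mem_DU.1 hm).1.1),
        by exact_mod_cast (D.mem_DU.1 hm).2⟩]
    refine sum_congr rfl fun n hn => ?_
    rw [D.Rn_eq (by exact_mod_cast (mem_Icc.1 hn).2), ← nsmul_eq_mul, ← sum_const]
    refine sum_congr rfl fun m hm => ?_
    obtain ⟨m1, m2⟩ := D.mem_Rn.1 hm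
    rw [← sum_mul, hψ Y Y0 m m1.1, Y6, m2]
    rcases le_total ((n : ℝ) / X) (1 / 4) with k | k
    · rw [pdψ_lo k, mul_zero]
    rcases le_total 1 ((n : ℝ) / X) with k' | k'
    · rw [pdψ_hi k', mul_zero]
    rw [h1 _ (by linarith) k', one_mul]
  have := h Y Y1
  rw [e2, Y6, Y5] at this
  rw [rz_eq _ X0 XK, rz_eq _ (by positivity) (K := K) (by linarith),
    rz_eq _ (by positivity) (K := K) (by linarith), mul_sum, mul_sum, ← sum_sub_distrib,
    ← sum_add_distrib]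
  convert this using 4 with n
  rw [pdψ, show (n : ℝ) / (X / 2) = 2 * (n / X) by field_simp,
    show (n : ℝ) / (X / 4) = 4 * (n / X) by field_simp]
  ring

theorem pd_conv (n : ℕ) (hn : n ≠ 0) : Real.log n * (D.Rn n).card =
    ∑ y ∈ n.divisorsAntidiagonal, D.sdA y.1 y.1 * (D.Rn y.2).card := by
  have e1 : Real.log n * (D.Rn n).card =
      ∑ z ∈ (D.Rn n).sigma fun x => D.pr x, D.Λ z.2.1 := by
    rw [sum_sigma, mul_comm, ← nsmul_eq_mul, ← sum_const]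
    refine sum_congr rfl fun x hx => ?_
    obtain ⟨x1, x2⟩ := D.mem_Rn.1 hx
    rw [D.sum_Λ x1.1, x2]
  have e2 : ∑ y ∈ n.divisorsAntidiagonal, D.sdA y.1 y.1 * (D.Rn y.2).card =
      ∑ z ∈ n.divisorsAntidiagonal.sigma fun y => D.Rn y.1 ×ˢ D.Rn y.2, D.Λ z.2.1 := by
    rw [sum_sigma]
    refine sum_congr rfl fun y _ => ?_
    rw [sum_product, sdA, ← Rn, sum_mul]
    simp [mul_comm]
  rw [e1, e2]
  have hz : ∀ z ∈ (D.Rn n).sigma fun x => D.pr x, D.Rp z.1 ∧ D.N z.1 = n ∧ D.Rp z.2.1 ∧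
      z.2.1 * z.2.2 = z.1 ∧ z.2.2 ≠ 0 := by
    intro z hz
    obtain ⟨h1, h2⟩ := mem_sigma.1 hz
    obtain ⟨h3, h4⟩ := D.mem_Rn.1 h1
    obtain ⟨h5, h6⟩ := (D.mem_pr h3.1).1 h2
    exact ⟨h3, h4, h5, h6, fun k => h3.1 (by rw [← h6, k, mul_zero])⟩
  refine sum_bij (fun z _ => ⟨(D.N z.2.1, D.N z.2.2), (z.2.1, D.gn (Ideal.span {z.2.2}))⟩)
    (fun z h => ?_) (fun z h z' h' e => ?_) (fun w hw => ?_) fun _ _ => rfl
  · obtain ⟨h3, h4, h5, h6, h7⟩ := hz z h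
    obtain ⟨g1, g2⟩ := D.va_gn h7
    exact mem_sigma.2 ⟨Nat.mem_divisorsAntidiagonal.2 ⟨by rw [← D.N_mul, h6, h4], hn⟩,
      mem_product.2 ⟨D.mem_Rn.2 ⟨h5, rfl⟩, D.mem_Rn.2 ⟨g1, D.N_assoc g2⟩⟩⟩
  · obtain ⟨h3, h4, h5, h6, h7⟩ := hz z h
    obtain ⟨k3, k4, k5, k6, k7⟩ := hz z' h'
    obtain ⟨a1, a0⟩ := Prod.mk.inj (eq_of_heq (Sigma.mk.inj e).2)
    have a2 : Associated z.2.2 z'.2.2 := (D.va_gn h7).2.symm.trans (a0 ▸ (D.va_gn k7).2)
    have a3 : z.1 = z'.1 := D.rp_eq h3 k3 (by rw [← h6, ← k6, a1]; exact a2.mul_left _)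
    have a4 : z.2.2 = z'.2.2 := mul_left_cancel₀ h5.1 (by rw [h6, a3, ← k6, a1])
    exact Sigma.ext a3 (heq_of_eq (Prod.ext a1 a4))
  · obtain ⟨⟨a, b⟩, m, m'⟩ := w
    obtain ⟨h1, h2⟩ := mem_sigma.1 hw
    obtain ⟨h3, h4⟩ := mem_product.1 h2
    obtain ⟨h5, h6⟩ := D.mem_Rn.1 h3
    obtain ⟨h7, h8⟩ := D.mem_Rn.1 h4
    obtain ⟨x, hx, u, hu⟩ := D.exists_rp (mul_ne_zero h5.1 h7.1)
    have a1 : Associated m' (m' * (u⁻¹ : D.Oˣ)) := ⟨u⁻¹, rfl⟩
    have a2 : m * (m' * (u⁻¹ : D.Oˣ)) = x := by rw [← mul_assoc, ← hu]; simp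
    dsimp only at h6 h8
    refine ⟨⟨x, m, m' * (u⁻¹ : D.Oˣ)⟩, mem_sigma.2 ⟨D.mem_Rn.2 ⟨hx, ?_⟩,
      (D.mem_pr hx.1).2 ⟨h5, a2⟩⟩, ?_⟩
    · rw [← a2, D.N_mul, ← D.N_assoc a1, h6, h8]
      exact (Nat.mem_divisorsAntidiagonal.1 h1).1
    · simp only [← D.N_assoc a1, h6, h8, D.dv_gn h7 a1]

theorem pd_cheb : ∃ C : ℝ, ∀ n : ℕ, ∑ k ∈ Icc 1 n, D.sdA k k ≤ C * n := by
  obtain ⟨C, hC, hA⟩ := D.sd_Abd
  obtain ⟨C', hC', hE⟩ := sd_exc D.M D.M0
  refine ⟨6 * Real.log 4 + C' * C, fun n => ?_⟩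
  rcases Nat.eq_zero_or_pos n with rfl | hn
  · simp
  have n1 : (1 : ℝ) ≤ n := by exact_mod_cast hn
  have pt : ∀ k ∈ Icc 1 n, D.sdA k k ≤ 6 * (if k.Prime ∧ (k : ℝ) ≤ n then Real.log k else 0) +
      if Sqf k ∨ k ∣ D.M then C * (n : ℝ) ^ (1 / 4 : ℝ) else 0 := by
    intro k hk
    obtain ⟨k1, k2⟩ := mem_Icc.1 hk
    have k3 : (k : ℝ) ≤ n := by exact_mod_cast k2
    have l := sd_log k
    by_cases c : Sqf k ∨ k ∣ D.M
    · rw [if_pos c]
      refine le_add_of_nonneg_of_le (by split_ifs <;> positivity) ((hA _ k (by omega)).trans ?_)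
      gcongr
    · rw [if_neg c, add_zero]
      by_cases p : k.Prime
      · rw [if_pos ⟨p, k3⟩, D.sd_Aprime p (fun d => c (Or.inr d)) le_rfl]
        split_ifs <;> linarith
      · rw [D.sd_Azero _ p fun d => c (Or.inl d), if_neg fun d => p d.1, mul_zero]
  refine (sum_le_sum pt).trans ?_
  rw [sum_add_distrib, ← mul_sum, add_mul]
  refine add_le_add ?_ ?_
  · have := (sd_th (Icc 1 n) (x := n)).trans (Chebyshev.theta_le_log4_mul_x (by positivity))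
    linarith
  · rw [← sum_filter, sum_const, nsmul_eq_mul]
    have c1 : (((Icc 1 n).filter fun k => Sqf k ∨ k ∣ D.M).card : ℝ) ≤
        C' * (n : ℝ) ^ (13 / 24 : ℝ) := by
      refine le_trans ?_ (hE n n1)
      exact_mod_cast card_le_card (filter_subset_filter _ fun k hk =>
        mem_range.2 (by rw [Nat.floor_natCast]; exact Nat.lt_succ_of_le (mem_Icc.1 hk).2))
    calc _ ≤ C' * (n : ℝ) ^ (13 / 24 : ℝ) * (C * (n : ℝ) ^ (1 / 4 : ℝ)) := by gcongr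
      _ = C' * C * (n : ℝ) ^ (13 / 24 + 1 / 4 : ℝ) := by rw [Real.rpow_add (by linarith)]; ring
      _ ≤ _ := by
        gcongr
        exact Real.rpow_le_self_of_one_le n1 (by norm_num)

/-- The primes that are norms have upper density at most a sixth. -/
theorem spl_le {ε : ℝ} (h : 0 < ε) : ∀ᶠ X : ℕ in atTop,
    ∑ p ∈ (range (X + 1)).filter fun p => p.Prime ∧ D.Spl p, Real.log p ≤ (1 / 6 + ε) * X := by
  obtain ⟨κ, hκ⟩ := D.pd_count
  obtain ⟨C, hC⟩ := D.pd_cheb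
  obtain ⟨m, hm, a⟩ := D.exists_rp (one_ne_zero (α := D.O))
  obtain ⟨A, A1, hA⟩ := landau (fun n => (D.Rn n).card) (fun n => D.sdA n n)
    (fun n => Nat.cast_nonneg _) (by
      exact_mod_cast card_pos.2 ⟨m, D.mem_Rn.2 ⟨hm, by
        rw [D.N_assoc a]; exact D.N_eq_one.2 isUnit_one⟩⟩)
    (fun n => D.sd_A0 _ n) D.pd_conv C hC (by norm_num) (by norm_num) hκ
  have cN : Tendsto (fun X : ℕ => (X : ℝ)) atTop atTop := tendsto_natCast_atTop_atTop
  filter_upwards [(hA.comp cN).eventually (gt_mem_nhds (show A < 1 + 3 * ε by linarith)),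
    cN.eventually_ge_atTop (2 * (∑ k ∈ D.M.divisors, Real.log k) / ε), eventually_ge_atTop 1]
    with X v1 v2 X1
  have X0 : (0 : ℝ) < X := by exact_mod_cast X1
  simp only [Function.comp, Nat.floor_natCast] at v1
  rw [div_lt_iff₀ X0] at v1
  rw [div_le_iff₀ h] at v2
  set P := (range (X + 1)).filter fun p => p.Prime ∧ D.Spl p with hP
  have b1 : ∑ p ∈ P.filter (· ∣ D.M), Real.log p ≤ ∑ k ∈ D.M.divisors, Real.log k :=
    sum_le_sum_of_subset_of_nonneg (fun p hp => Nat.mem_divisors.2 ⟨(mem_filter.1 hp).2, D.M0⟩)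
      fun k _ _ => sd_log k
  have b2 : 6 * ∑ p ∈ P.filter (¬ · ∣ D.M), Real.log p ≤ ∑ k ∈ Icc 1 X, D.sdA k k := by
    rw [mul_sum]
    refine le_trans (sum_le_sum fun p hp => ?_) (sum_le_sum_of_subset_of_nonneg
      (s := P.filter (¬ · ∣ D.M)) (fun p hp => ?_) fun k _ _ => D.sd_A0 _ k)
    · obtain ⟨h1, h2⟩ := mem_filter.1 hp
      obtain ⟨-, h3, h4⟩ := mem_filter.1 h1
      rw [D.sd_Aprime h3 h2 le_rfl, if_pos h4]
    · obtain ⟨h1, h3, -⟩ := mem_filter.1 (mem_filter.1 hp).1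
      exact mem_Icc.2 ⟨h3.pos, Nat.lt_succ_iff.1 (mem_range.1 h1)⟩
  rw [← sum_filter_add_sum_filter_not P (· ∣ D.M)]
  linarith

/-- The primes with positive spin have upper density at most a twelfth. -/
theorem bad_le {κ : D.O → ℝ} (hκ : D.Per κ) {ε : ℝ} (h : 0 < ε) : ∀ᶠ X : ℕ in atTop,
    ∑ p ∈ (range (X + 1)).filter fun p => p.Prime ∧ D.Bad κ p, Real.log p ≤
      (1 / 12 + ε) * X := by
  filter_upwards [D.spl_le h, D.spin_half hκ (half_pos h)] with X h1 h2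
  linarith

end Dat

end Pool.Agent.Spin
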