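import Pool.Agent.Lib.MP_696deb_nt.Spin.D0

/-! The norm formula and balanced units for a totally complex sextic field with an automorphism of
order three. -/

set_option autoImplicit false

open scoped Classical
open Finset NumberField NumberField.InfinitePlace

namespace Pool.Agent.Spin

section
variable {K : Type} [Field K] [NumberField K] [IsTotallyComplex K]

theorem in_nrm (f : Fin 3 → (K →+* ℂ)) (hf : Function.Bijective fun i => InfinitePlace.mk (f i))
    (x : 𝓞 K) : (Ideal.absNorm (Ideal.span {x}) : ℝ) = nV fun i => f i (x : K) := by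
  have h1 := prod_eq_abs_norm (x : K)
  rw [← hf.prod_comp] at h1
  have h2 : ∀ i, mult (InfinitePlace.mk (f i)) = 2 := fun i =>
    (IsTotallyComplex.isComplex _).mult_eq_two
  simp only [h2, InfinitePlace.apply, Fin.prod_univ_three] at h1
  rw [Ideal.absNorm_span_singleton, nV, mul_pow, mul_pow, h1, ← Algebra.coe_norm_int]
  rw [Nat.cast_natAbs]
  push_cast
  rfl

theorem in_bal (h6 : Module.finrank ℚ K = 6) (f : Fin 3 → (K →+* ℂ))
    (hf : Function.Bijective fun i => InfinitePlace.mk (f i)) :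
    ∃ R : ℝ, ∀ z : V, nV z ≠ 0 → ∃ u : 𝓞 K, IsUnit u ∧
      ‖((fun i => f i (u : K)) * z : V)‖ ^ 6 ≤ R * nV z := by
  obtain ⟨R, hR⟩ := (mixedEmbedding.fundamentalCone.isBounded_normLeOne K).exists_norm_le
  refine ⟨R ^ 6, fun z hz => ?_⟩
  let g := Equiv.ofBijective _ hf
  let x : mixedEmbedding.mixedSpace K := (0, fun w => z (g.symm w.1))
  have hx : ∀ i, mixedEmbedding.normAtPlace (InfinitePlace.mk (f i)) x = ‖z i‖ := by
    intro i
    rw [mixedEmbedding.normAtPlace_apply_of_isComplex (IsTotallyComplex.isComplex _)]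
    change ‖z (g.symm (g i))‖ = _
    rw [g.symm_apply_apply]
  have h2 : ∀ i, mult (InfinitePlace.mk (f i)) = 2 := fun i =>
    (IsTotallyComplex.isComplex _).mult_eq_two
  have hn : mixedEmbedding.norm x = nV z := by
    rw [mixedEmbedding.norm_apply, ← hf.prod_comp]
    simp only [h2, hx, Fin.prod_univ_three, nV, mul_pow]
  have hpos : 0 < nV z := lt_of_le_of_ne (by rw [nV]; positivity) (Ne.symm hz)
  obtain ⟨u, hu⟩ := mixedEmbedding.fundamentalCone.exists_unit_smul_mem (x := x) (by rwa [hn])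
  obtain ⟨c, hc, hc6⟩ : ∃ c : ℝ, 0 < c ∧ c ^ 6 = nV z :=
    ⟨nV z ^ ((6 : ℕ) : ℝ)⁻¹, Real.rpow_pos_of_pos hpos _,
      Real.rpow_inv_natCast_pow hpos.le (by norm_num)⟩
  have hm : c⁻¹ • (u • x) ∈ mixedEmbedding.fundamentalCone.normLeOne K := by
    refine ⟨mixedEmbedding.fundamentalCone.smul_mem_of_mem hu (inv_ne_zero hc.ne'), ?_⟩
    change mixedEmbedding.norm (c⁻¹ • (u • x)) ≤ 1
    rw [mixedEmbedding.norm_smul, mixedEmbedding.norm_unit_smul, hn, h6, abs_of_pos (inv_pos.2 hc),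
      inv_pow, hc6, inv_mul_cancel₀ hz]
  have hb := hR _ hm
  have hR0 : 0 ≤ R := (norm_nonneg _).trans hb
  refine ⟨(u : 𝓞 K), u.isUnit, ?_⟩
  rw [← hc6, ← mul_pow]
  refine pow_le_pow_left₀ (norm_nonneg _) ?_ 6
  refine (pi_norm_le_iff_of_nonneg (by positivity)).2 fun i => ?_
  have h3 : mixedEmbedding.normAtPlace (InfinitePlace.mk (f i)) (c⁻¹ • (u • x)) ≤ R := by
    refine le_trans ?_ hb
    rw [mixedEmbedding.norm_eq_sup'_normAtPlace]
    exact Finset.le_sup' (fun w => mixedEmbedding.normAtPlace w (c⁻¹ • (u • x))) (mem_univ _)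
  rw [mixedEmbedding.normAtPlace_smul, mixedEmbedding.unitSMul_smul, map_mul,
    mixedEmbedding.normAtPlace_apply, hx, abs_of_pos (inv_pos.2 hc), InfinitePlace.apply,
    inv_mul_le_iff₀ hc] at h3
  rw [Pi.mul_apply, norm_mul, mul_comm R c]
  exact h3

omit [NumberField K] [IsTotallyComplex K] in
theorem in_ne (s : K →+* K) (h3 : ∀ x, s (s (s x)) = x) (hne : ∃ x, s x ≠ x) (φ : K →+* ℂ) :
    InfinitePlace.mk φ ≠ InfinitePlace.mk (φ.comp s) := by
  intro h
  obtain ⟨y, hy⟩ := hne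
  rcases mk_eq_iff.1 h with h | h
  · exact hy (φ.injective (RingHom.congr_fun h y)).symm
  · have h1 : ∀ x, starRingEnd ℂ (φ x) = φ (s x) := fun x => RingHom.congr_fun h x
    have h2 : ∀ x, s (s x) = x := by
      intro x
      apply φ.injective
      rw [← h1, ← h1, Complex.conj_conj]
    apply hy
    have := h3 y
    rwa [h2] at this

theorem in_bij (h6 : Module.finrank ℚ K = 6) (s : K →+* K) (h3 : ∀ x, s (s (s x)) = x)
    (hne : ∃ x, s x ≠ x) (φ : K →+* ℂ) :
    Function.Bijective fun i => InfinitePlace.mk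
      ((![φ, φ.comp s, (φ.comp s).comp s] : Fin 3 → (K →+* ℂ)) i) := by
  have hc : Fintype.card (InfinitePlace K) = 3 := by
    have h1 := card_eq_nrRealPlaces_add_nrComplexPlaces K
    have h2 := IsTotallyComplex.finrank K
    have h4 : nrRealPlaces K = 0 := nrRealPlaces_eq_zero_iff.2 inferInstance
    omega
  rw [Fintype.bijective_iff_injective_and_card]
  refine ⟨?_, by simp [hc]⟩
  have a := in_ne s h3 hne φ
  have b := in_ne s h3 hne (φ.comp s)
  have c := in_ne s h3 hne ((φ.comp s).comp s)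
  have e : ((φ.comp s).comp s).comp s = φ := RingHom.ext fun x => by simp [h3]
  rw [e] at c
  intro i j hij
  fin_cases i <;> fin_cases j
  · rfl
  · exact absurd hij a
  · exact absurd hij c.symm
  · exact absurd hij a.symm
  · rfl
  · exact absurd hij b
  · exact absurd hij c
  · exact absurd hij b.symm
  · rfl

/-- The field `nrm` of the data. -/
theorem nrm_of (h6 : Module.finrank ℚ K = 6) (s : K →+* K) (h3 : ∀ x, s (s (s x)) = x)
    (hne : ∃ x, s x ≠ x) (φ : K →+* ℂ) (σ : 𝓞 K ≃+* 𝓞 K) (hσ : ∀ x, (σ x : K) = s x)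
    (ψ : 𝓞 K →+* ℂ) (hψ : ∀ x, ψ x = φ x) (x : 𝓞 K) :
    (Ideal.absNorm (Ideal.span {x}) : ℝ) = nV ![ψ x, ψ (σ x), ψ (σ (σ x))] := by
  rw [in_nrm _ (in_bij h6 s h3 hne φ) x]
  congr 1
  funext i
  fin_cases i <;> simp [hψ, hσ]

/-- The field `bal` of the data. -/
theorem bal_of (h6 : Module.finrank ℚ K = 6) (s : K →+* K) (h3 : ∀ x, s (s (s x)) = x)
    (hne : ∃ x, s x ≠ x) (φ : K →+* ℂ) (σ : 𝓞 K ≃+* 𝓞 K) (hσ : ∀ x, (σ x : K) = s x)
    (ψ : 𝓞 K →+* ℂ) (hψ : ∀ x, ψ x = φ x) :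
    ∃ R : ℝ, ∀ z : V, nV z ≠ 0 → ∃ u : 𝓞 K, IsUnit u ∧
      ‖(![ψ u, ψ (σ u), ψ (σ (σ u))] * z : V)‖ ^ 6 ≤ R * nV z := by
  obtain ⟨R, hR⟩ := in_bal h6 _ (in_bij h6 s h3 hne φ)
  refine ⟨R, fun z hz => ?_⟩
  obtain ⟨u, hu, h⟩ := hR z hz
  refine ⟨u, hu, ?_⟩
  convert h using 4
  funext i
  fin_cases i <;> simp [hψ, hσ]

end

end Pool.Agent.Spin
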