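import Pool.Agent.Lib.MP_696deb_nt.Spin.RA

/-! Quadratic reciprocity in a totally complex field of class number one (Hecke). -/

set_option autoImplicit false

open scoped Classical
open Finset NumberField

namespace Pool.Agent.Spin

open Pool.Agent.Lib.MP_aed2da_nt.QR

variable {K : Type} [Field K] [NumberField K] [IsPrincipalIdealRing (𝓞 K)] {γ : K} {M : ℕ}

omit [NumberField K] [IsPrincipalIdealRing (𝓞 K)] in
theorem cop_two (h2 : 2 ∣ M) {b : 𝓞 K} (hb : IsCoprime b (M : 𝓞 K)) : IsCoprime b 2 := by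
  obtain ⟨k, rfl⟩ := h2
  push_cast at hb
  exact hb.of_mul_right_left

omit [NumberField K] [IsPrincipalIdealRing (𝓞 K)] in
theorem cop_four {b : 𝓞 K} (hb : IsCoprime b 2) : IsCoprime b 4 := by
  have := hb.pow_right (n := 2)
  rwa [show (2 : 𝓞 K) ^ 2 = 4 by norm_num] at this

omit [IsPrincipalIdealRing (𝓞 K)] in
theorem ne_of_odd {b : 𝓞 K} (hb : IsCoprime b 2) : b ≠ 0 := by
  rintro rfl
  have h := (isCoprime_zero_left.1 hb).map (Algebra.norm ℤ)
  rw [show (2 : 𝓞 K) = algebraMap ℤ _ 2 by simp, Algebra.norm_algebraMap,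
    isUnit_pow_iff Module.finrank_pos.ne'] at h
  exact absurd (Int.isUnit_iff.1 h) (by decide)

theorem Gs_jac (hγ : IsDiff γ) (h2 : 2 ∣ M) {b : 𝓞 K} (hs : Squarefree b)
    (hM : IsCoprime b (M : 𝓞 K)) : ∀ a c : 𝓞 K, IsCoprime a b → IsCoprime c b →
      Gs γ (a * c / b) = jac M a b * Gs γ (c / b) := by
  induction b using UniqueFactorizationMonoid.induction_on_prime with
  | h₁ => exact absurd rfl hs.ne_zero
  | h₂ x hx =>
    intro a c _ _
    obtain ⟨u, rfl⟩ := hx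
    have hu : ((u : 𝓞 K) : K) * ((u⁻¹ : (𝓞 K)ˣ) : 𝓞 K) = 1 := by
      rw [← map_mul]; simp
    have e : ∀ z : 𝓞 K, (z : K) / (u : 𝓞 K) = (z * (u⁻¹ : (𝓞 K)ˣ) : 𝓞 K) := fun z => by
      push_cast
      rw [div_eq_mul_inv]
      exact congrArg _ (eq_inv_of_mul_eq_one_right hu).symm
    rw [jac_unit _ u.isUnit, ← map_mul, e, e, Gs_int hγ, Gs_int hγ]
    simp
  | h₃ x p hx hp ih =>
    intro a c ha hc
    have hpx : IsCoprime p x := (squarefree_mul_iff.1 hs).1.isCoprime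
    have nd : ∀ z : 𝓞 K, IsCoprime z p → ¬ p ∣ z := fun z hz k =>
      hp.not_isUnit (hz.isUnit_of_dvd' k dvd_rfl)
    have e1 := Gs_crt hγ (a * c) hp.ne_zero hx hpx
    have e2 := Gs_crt hγ c hp.ne_zero hx hpx
    have e3 := Gs_chi hγ (u := a) (b := c * x) hp
      (nd _ (cop_two h2 hM.of_mul_left_left).symm) (nd _ ha.of_mul_right_left)
      (nd _ (hc.of_mul_right_left.mul_left hpx.symm))
    have e4 := ih hs.of_mul_right hM.of_mul_left_right a (c * p) ha.of_mul_right_right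
      (hc.of_mul_right_right.mul_left hpx)
    have e5 : (chi p a : ℂ) = (leg M a (Ideal.span {p}) : ℤ) := by
      unfold chi leg
      simp only [Ideal.mem_span_singleton]
      rw [if_neg (nd _ hM.of_mul_left_left.symm), if_neg (nd _ ha.of_mul_right_left)]
      have : (∃ r, p ∣ a - r ^ 2) ↔ ∃ t, p ∣ t * t - a :=
        exists_congr fun t => by rw [dvd_sub_comm, sq]
      simp only [this]
      split_ifs <;> simp
    rw [jac_mul_right a hp.ne_zero hx, jac_prime a hp]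
    simp only [map_mul, mul_assoc] at e1 e2 e3 e4 ⊢
    rw [e1, e2, e3, e4, e5]
    push_cast
    ring

theorem jac_sqf {a s b : 𝓞 K} (hs : s ≠ 0) (hb : b ≠ 0) (h : IsCoprime a s) :
    jac M a (s ^ 2 * b) = jac M a b := by
  rw [jac_mul_right a (pow_ne_zero 2 hs) hb, sq, jac_mul_right a hs hs, jac_sq h, one_mul]

theorem jac_sqf' {a s b : 𝓞 K} (h : IsCoprime s b) : jac M (s ^ 2 * a) b = jac M a b := by
  rw [jac_mul_left, sq, jac_mul_left, jac_sq h, one_mul]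

theorem sign_eq {j j' : ℤ} {X Y : ℂ} {r r' : ℝ} (hj : j * j = 1) (hj' : j' * j' = 1) (hr : 0 < r)
    (hr' : 0 < r') (hY : Y ≠ 0) (h : j * X = r * Y) (h' : j' * X = r' * Y) : j = j' := by
  have e : ((j : ℝ) * r' : ℝ) = ((j' : ℝ) * r : ℝ) := by
    have : ((j : ℂ) * r') * Y = ((j' : ℂ) * r) * Y := by
      linear_combination (j' : ℂ) * h - (j : ℂ) * h'
    exact_mod_cast mul_right_cancel₀ hY this
  rcases Int.eq_one_or_neg_one_of_mul_eq_one hj with rfl | rfl <;>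
    rcases Int.eq_one_or_neg_one_of_mul_eq_one hj' with rfl | rfl
  · rfl
  · push_cast at e; linarith
  · push_cast at e; linarith
  · rfl

variable [IsTotallyComplex K]

omit [IsPrincipalIdealRing (𝓞 K)] in
theorem key4 (hγ0 : γ ≠ 0) (hγ : IsDiff γ) {b c : 𝓞 K} (hb : b ≠ 0) (hc : c ≠ 0)
    (h : IsCoprime b (4 * c)) :
    ∃ r : ℝ, 0 < r ∧ Gs γ (c * (4 : 𝓞 K) / b) * Gs γ (b / (4 * c : 𝓞 K)) = r := by
  obtain ⟨r, hr, e⟩ := milgram_c hγ0 hγ (mul_ne_zero hb hc)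
  have e1 := Gs_crt hγ 1 hb (mul_ne_zero (by norm_num) hc) h
  refine ⟨r, hr, ?_⟩
  simp only [map_mul, map_one, one_mul, map_ofNat] at e e1 ⊢
  rw [← e, mul_comm (c : K) 4, ← e1]
  congr 2
  ring

theorem per_aux (hγ0 : γ ≠ 0) (hγ : IsDiff γ) (h2 : 2 ∣ M) {b c : 𝓞 K} (hc : c ≠ 0)
    (hM : IsCoprime b (M : 𝓞 K)) (h : IsCoprime c b) : Gs γ (b / (4 : 𝓞 K)) ≠ 0 ∧
      ∃ r : ℝ, 0 < r ∧ jac M c b * Gs γ (b / (4 * c : 𝓞 K)) = r * Gs γ (b / (4 : 𝓞 K)) := by
  have hb2 := cop_two h2 hM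
  obtain ⟨b1, s, rfl, hs⟩ := exists_sqf (ne_of_odd hb2)
  have s4 : IsCoprime s 4 := cop_four ((IsCoprime.pow_left_iff two_pos).1 hb2.of_mul_left_left)
  have sc : IsCoprime c s := (IsCoprime.pow_right_iff two_pos).1 h.of_mul_right_left
  have s0 : s ≠ 0 := ne_of_odd ((IsCoprime.pow_left_iff two_pos).1 hb2.of_mul_left_left)
  have b4 : IsCoprime b1 4 := cop_four hb2.of_mul_left_right
  obtain ⟨r, hr, e⟩ := key4 hγ0 hγ hs.ne_zero hc (b4.mul_right h.of_mul_right_right.symm)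
  obtain ⟨r', hr', e'⟩ := key4 hγ0 hγ hs.ne_zero one_ne_zero (by simpa using b4)
  rw [Gs_jac hγ h2 hs hM.of_mul_left_right c 4 h.of_mul_right_right b4.symm] at e
  have e1 := Gs_sq hγ b1 (mul_ne_zero (by norm_num) hc) (s4.mul_right sc.symm)
  have e2 := Gs_sq hγ b1 (by norm_num) s4
  simp only [map_one, one_mul, mul_one] at e'
  rw [jac_sqf s0 hs.ne_zero sc, show ((s ^ 2 * b1 : 𝓞 K) : K) = (s : K) ^ 2 * b1 by push_cast; ring,
    e1, e2]
  have hr0 : (r' : ℂ) ≠ 0 := by exact_mod_cast hr'.ne'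
  refine ⟨right_ne_zero_of_mul (e' ▸ hr0), r / r', div_pos hr hr', ?_⟩
  rw [Complex.ofReal_div, div_mul_eq_mul_div, eq_div_iff hr0]
  linear_combination Gs γ (b1 / (4 : 𝓞 K)) * e -
    (jac M c b1 : ℂ) * Gs γ (b1 / (4 * c : 𝓞 K)) * e'

omit [IsTotallyComplex K] [IsPrincipalIdealRing (𝓞 K)] in
theorem Gs_mod (hγ : IsDiff γ) {b b' c : 𝓞 K} (hc : c ≠ 0) (h : c ∣ b - b') :
    Gs γ (b / c) = Gs γ (b' / c) := by
  obtain ⟨z, hz⟩ := h
  have hc' : (c : K) ≠ 0 := by exact_mod_cast hc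
  refine Gs_add_int hγ z ?_
  have : (b : K) = b' + c * z := by exact_mod_cast (by linear_combination hz)
  rw [this]
  field_simp

/-- the symbol `(c / b)` depends only on `b` modulo `4 c` -/
theorem jac_per (h2 : 2 ∣ M) {c b b' : 𝓞 K} (hc : c ≠ 0) (hb : IsCoprime b (M : 𝓞 K))
    (hb' : IsCoprime b' (M : 𝓞 K)) (h : 4 * c ∣ b - b') : jac M c b = jac M c b' := by
  obtain ⟨γ, hγ0, hγ⟩ := exists_isDiff (K := K)
  obtain ⟨z, hz⟩ := h
  have eb : b = b' + c * (4 * z) := by linear_combination hz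
  by_cases k : IsCoprime c b
  · have k' : IsCoprime c b' := by rw [eb] at k; exact k.of_add_mul_left_right
    obtain ⟨n, r, hr, e⟩ := per_aux hγ0 hγ h2 hc hb k
    obtain ⟨-, r', hr', e'⟩ := per_aux hγ0 hγ h2 hc hb' k'
    rw [← Gs_mod hγ (mul_ne_zero (by norm_num) hc) ⟨z, hz⟩,
      ← Gs_mod hγ (b := b) (c := 4) (by norm_num) ⟨c * z, by linear_combination hz⟩] at e'
    exact sign_eq (jac_sq k) (jac_sq k') hr hr' n e e'
  · have k' : ¬ IsCoprime c b' := fun k' => k (by rw [eb]; exact k'.add_mul_left_right _)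
    rw [jac_eq_zero (ne_of_odd (cop_two h2 hb)) hb k,
      jac_eq_zero (ne_of_odd (cop_two h2 hb')) hb' k']

theorem rec_aux (hγ0 : γ ≠ 0) (hγ : IsDiff γ) (h2 : 2 ∣ M) {a b : 𝓞 K}
    (ha : IsCoprime a (M : 𝓞 K)) (hb : IsCoprime b (M : 𝓞 K)) (h : IsCoprime a b) :
    Gs γ (a / (4 : 𝓞 K)) * Gs γ (b / (4 : 𝓞 K)) ≠ 0 ∧ ∃ r : ℝ, 0 < r ∧
      (jac M a b * jac M b a : ℤ) * Gs γ ((a * b : 𝓞 K) / (4 : 𝓞 K)) =
        r * (Gs γ (a / (4 : 𝓞 K)) * Gs γ (b / (4 : 𝓞 K))) := by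
  have ha2 := cop_two h2 ha
  have hb2 := cop_two h2 hb
  obtain ⟨a1, s, rfl, hs⟩ := exists_sqf (ne_of_odd ha2)
  obtain ⟨b1, t, rfl, ht⟩ := exists_sqf (ne_of_odd hb2)
  have s2 : IsCoprime s 2 := (IsCoprime.pow_left_iff two_pos).1 ha2.of_mul_left_left
  have t2 : IsCoprime t 2 := (IsCoprime.pow_left_iff two_pos).1 hb2.of_mul_left_left
  have a4 : IsCoprime a1 4 := cop_four ha2.of_mul_left_right
  have b4 : IsCoprime b1 4 := cop_four hb2.of_mul_left_right
  have ab : IsCoprime a1 b1 := h.of_mul_left_right.of_mul_right_right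
  have sb : IsCoprime s b1 :=
    (IsCoprime.pow_left_iff two_pos).1 h.of_mul_left_left.of_mul_right_right
  have ta : IsCoprime t a1 :=
    (IsCoprime.pow_left_iff two_pos).1 h.symm.of_mul_left_left.of_mul_right_right
  obtain ⟨r, hr, e⟩ := key4 hγ0 hγ (mul_ne_zero hs.ne_zero ht.ne_zero) one_ne_zero
    (by simpa using a4.mul_left b4)
  obtain ⟨r1, hr1, e1⟩ := key4 hγ0 hγ hs.ne_zero one_ne_zero (by simpa using a4)
  obtain ⟨r2, hr2, e2⟩ := key4 hγ0 hγ ht.ne_zero one_ne_zero (by simpa using b4)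
  have c1 := Gs_crt hγ 4 hs.ne_zero ht.ne_zero ab
  have c2 := Gs_jac hγ h2 hs ha.of_mul_left_right b1 4 ab.symm a4.symm
  have c3 := Gs_jac hγ h2 ht hb.of_mul_left_right a1 4 ab b4.symm
  have q1 := Gs_sq hγ a1 (by norm_num) (cop_four s2)
  have q2 := Gs_sq hγ b1 (by norm_num) (cop_four t2)
  have q3 := Gs_sq hγ (a1 * b1) (by norm_num) (cop_four (s2.mul_left t2))
  rw [jac_sqf (ne_of_odd t2) ht.ne_zero
      ((IsCoprime.pow_right_iff two_pos).1 h.of_mul_right_left), jac_sqf' sb,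
    jac_sqf (ne_of_odd s2) hs.ne_zero
      ((IsCoprime.pow_right_iff two_pos).1 h.symm.of_mul_right_left), jac_sqf' ta,
    show s ^ 2 * a1 * (t ^ 2 * b1) = (s * t) ^ 2 * (a1 * b1) by ring]
  simp only [map_mul, map_pow, map_one, one_mul, mul_one] at e e1 e2 q3 ⊢
  rw [q1, q2, q3]
  rw [c1, mul_comm _ (b1 : K), mul_comm _ (a1 : K), c2, c3] at e
  have h1 : (r1 : ℂ) ≠ 0 := by exact_mod_cast hr1.ne'
  have h2 : (r2 : ℂ) ≠ 0 := by exact_mod_cast hr2.ne'
  refine ⟨mul_ne_zero (right_ne_zero_of_mul (e1 ▸ h1)) (right_ne_zero_of_mul (e2 ▸ h2)),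
    r / (r1 * r2), by positivity, ?_⟩
  push_cast
  field_simp
  rw [← e, ← e1, ← e2]
  ring

/-- the sign in the law of reciprocity depends only on the classes modulo four -/
theorem exists_recip (h2 : 2 ∣ M) : ∃ e : 𝓞 K → 𝓞 K → ℤ, (∀ a b, e a b = 1 ∨ e a b = -1) ∧
    (∀ a a' b b', 4 ∣ a - a' → 4 ∣ b - b' → e a b = e a' b') ∧
    ∀ a b, IsCoprime a (M : 𝓞 K) → IsCoprime b (M : 𝓞 K) → jac M a b = e a b * jac M b a := by
  obtain ⟨γ, hγ0, hγ⟩ := exists_isDiff (K := K)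
  refine ⟨fun a b => if ∃ r : ℝ, 0 < r ∧ ((1 : ℤ) : ℂ) * Gs γ ((a * b : 𝓞 K) / (4 : 𝓞 K)) =
    r * (Gs γ (a / (4 : 𝓞 K)) * Gs γ (b / (4 : 𝓞 K))) then 1 else -1, fun a b => ?_,
    fun a a' b b' h h' => ?_, fun a b ha hb => ?_⟩
  · dsimp only
    split_ifs <;> simp
  · dsimp only
    rw [Gs_mod hγ (by norm_num) h, Gs_mod hγ (by norm_num) h',
      Gs_mod hγ (b := a * b) (b' := a' * b') (c := 4) (by norm_num) (by
        rw [show a * b - a' * b' = (a - a') * b + a' * (b - b') by ring]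
        exact (h.mul_right _).add (h'.mul_left _))]
  · dsimp only
    by_cases h : IsCoprime a b
    · obtain ⟨n, r, hr, e⟩ := rec_aux hγ0 hγ h2 ha hb h
      have j1 := jac_sq (M := M) h
      have j2 := jac_sq (M := M) h.symm
      split_ifs with k
      · obtain ⟨r', hr', e'⟩ := k
        have := sign_eq (by linear_combination (jac M b a * jac M b a) * j1 + j2) (by simp)
          hr hr' n e e'
        linear_combination jac M b a * this - jac M a b * j2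
      · rcases Int.eq_one_or_neg_one_of_mul_eq_one (show (jac M a b * jac M b a) *
          (jac M a b * jac M b a) = 1 by linear_combination (jac M b a * jac M b a) * j1 + j2)
          with k' | k'
        · exact absurd ⟨r, hr, by rw [← k']; exact e⟩ k
        · linear_combination jac M b a * k' - jac M a b * j2
    · rw [jac_eq_zero (ne_of_odd (cop_two h2 hb)) hb h,
        jac_eq_zero (ne_of_odd (cop_two h2 ha)) ha (fun k => h k.symm), mul_zero]

/-- reciprocity in the shape of the fields of `Dat` -/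
theorem exists_eps (h8 : 8 ∣ M) : ∃ ε : 𝓞 K → 𝓞 K → ℤ, (∀ a b, |ε a b| ≤ 1) ∧
    (∀ a b b', (M : 𝓞 K) ∣ b - b' → ε a b = ε a b') ∧
    ∀ a b, a ≠ 0 → IsCoprime b (M : 𝓞 K) → jac M a b = ε a b * jac M b a := by
  have h2 : 2 ∣ M := Dvd.dvd.trans (by norm_num) h8
  obtain ⟨e, e1, e2, e3⟩ := exists_recip (K := K) h2
  obtain ⟨k, hk⟩ := h8
  have hM : (M : 𝓞 K) = 4 * (2 * k) := by rw [hk]; push_cast; ring
  have fix : ∀ c : 𝓞 K, c ≠ 0 → c ∣ 2 * k → (∀ b, jac M b c = 1) → ∃ f : 𝓞 K → ℤ,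
      (∀ b, |f b| ≤ 1) ∧ (∀ b b', (M : 𝓞 K) ∣ b - b' → f b = f b') ∧
      ∀ b, IsCoprime b (M : 𝓞 K) → jac M c b = f b * jac M b c := by
    intro c hc hd h1
    refine ⟨fun b => if IsCoprime b (M : 𝓞 K) then jac M c b else 0, fun b => ?_,
      fun b b' h => ?_, fun b hb => by simp [hb, h1]⟩
    · dsimp only
      split_ifs
      · exact jac_abs _ _
      · simp
    · have : IsCoprime b (M : 𝓞 K) ↔ IsCoprime b' (M : 𝓞 K) := by
        obtain ⟨z, hz⟩ := h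
        rw [show b = b' + M * z by linear_combination hz, IsCoprime.add_mul_left_left_iff]
      dsimp only
      by_cases hb : IsCoprime b (M : 𝓞 K)
      · rw [if_pos hb, if_pos (this.1 hb)]
        exact jac_per h2 hc hb (this.1 hb) (Dvd.dvd.trans (hM ▸ mul_dvd_mul_left 4 hd) h)
      · rw [if_neg hb, if_neg (mt this.2 hb)]
  have main : ∀ a : 𝓞 K, ∃ f : 𝓞 K → ℤ, (∀ b, |f b| ≤ 1) ∧
      (∀ b b', (M : 𝓞 K) ∣ b - b' → f b = f b') ∧
      (a ≠ 0 → ∀ b, IsCoprime b (M : 𝓞 K) → jac M a b = f b * jac M b a) := by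
    intro a
    induction a using UniqueFactorizationMonoid.induction_on_prime with
    | h₁ => exact ⟨0, by simp, by simp, fun h => absurd rfl h⟩
    | h₂ x hx =>
      obtain ⟨f, f1, f2, f3⟩ := fix x hx.ne_zero hx.dvd fun b => jac_unit b hx
      exact ⟨f, f1, f2, fun _ => f3⟩
    | h₃ x p hx hp ih =>
      obtain ⟨f, f1, f2, f3⟩ := ih
      obtain ⟨g, g1, g2, g3⟩ : ∃ g : 𝓞 K → ℤ, (∀ b, |g b| ≤ 1) ∧
          (∀ b b', (M : 𝓞 K) ∣ b - b' → g b = g b') ∧
          ∀ b, IsCoprime b (M : 𝓞 K) → jac M p b = g b * jac M b p := by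
        by_cases k : p ∣ (M : 𝓞 K)
        · refine fix p hp.ne_zero ?_ fun b => ?_
          · rw [hM] at k
            refine (hp.dvd_or_dvd k).elim (fun k => ?_) id
            rw [show (4 : 𝓞 K) = 2 ^ 2 by norm_num] at k
            exact (hp.dvd_of_dvd_pow k).mul_right _
          · rw [jac_prime b hp, leg, if_pos (Ideal.mem_span_singleton.2 k)]
        · refine ⟨e p, fun b => by rcases e1 p b with h | h <;> simp [h], fun b b' h =>
            e2 _ _ _ _ (by simp) (Dvd.dvd.trans (hM ▸ dvd_mul_right _ _) h), fun b hb =>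
            e3 _ _ (hp.irreducible.coprime_iff_not_dvd.2 k) hb⟩
      refine ⟨fun b => g b * f b, fun b => ?_, fun b b' h => by simp only [g2 b b' h, f2 b b' h],
        fun _ b hb => ?_⟩
      · rw [abs_mul]
        exact mul_le_one₀ (g1 b) (abs_nonneg _) (f1 b)
      · rw [jac_mul_left, jac_mul_right b hp.ne_zero hx, g3 b hb, f3 hx b hb]
        ring
  choose ε h1 h2 h3 using main
  exact ⟨ε, h1, h2, fun a b ha hb => h3 a ha b hb⟩

end Pool.Agent.Spin
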