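import Pool.Agent.Lib.MP_696deb_nt.Spin.G1

/-! The Jacobi symbol. -/

set_option autoImplicit false

open scoped Classical
open Finset Filter Topology

namespace Pool.Agent.Spin

open UniqueFactorizationMonoid

section Leg

variable {O : Type} [CommRing O] (M : ℕ)

theorem j1_leg_abs (a : O) (P : Ideal O) : |leg M a P| ≤ 1 := by
  unfold leg
  split_ifs <;> simp

theorem j1_leg_congr {a a' : O} {P : Ideal O} (h : a - a' ∈ P) : leg M a P = leg M a' P := by
  have h1 : a ∈ P ↔ a' ∈ P := ⟨fun k => by simpa using P.sub_mem k h,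
    fun k => by simpa using P.add_mem h k⟩
  have h2 : ∀ t, t * t - a ∈ P ↔ t * t - a' ∈ P := fun t =>
    ⟨fun k => by simpa using P.add_mem k h, fun k => by
      have := P.sub_mem k h
      rwa [show t * t - a' - (a - a') = t * t - a by ring] at this⟩
  simp only [leg, h1, h2]

theorem j1_leg_quad {P : Ideal O} [P.IsMaximal] [Fintype (O ⧸ P)] (h : (M : O) ∉ P) (a : O) :
    letI := Ideal.Quotient.field P
    leg M a P = quadraticChar (O ⧸ P) (Ideal.Quotient.mk P a) := by
  let _ := Ideal.Quotient.field P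
  have h2 : (∃ t, t * t - a ∈ P) ↔ IsSquare (Ideal.Quotient.mk P a) :=
    ⟨fun ⟨t, k⟩ => ⟨Ideal.Quotient.mk P t, (Ideal.Quotient.eq.2 k).symm⟩, fun ⟨t, k⟩ => by
      obtain ⟨t, rfl⟩ := Ideal.Quotient.mk_surjective t
      exact ⟨t, Ideal.Quotient.eq.1 k.symm⟩⟩
  rw [leg, if_neg h, quadraticChar_apply, quadraticCharFun]
  simp only [h2, Ideal.Quotient.eq_zero_iff_mem]

theorem j1_leg_mul {P : Ideal O} [P.IsMaximal] [Finite (O ⧸ P)] (a a' : O) :
    leg M (a * a') P = leg M a P * leg M a' P := by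
  by_cases h : (M : O) ∈ P
  · simp [leg, h]
  · have := Fintype.ofFinite (O ⧸ P)
    rw [j1_leg_quad M h, j1_leg_quad M h, j1_leg_quad M h, map_mul, map_mul]

theorem j1_leg_map (f : O ≃+* O) (a b : O) :
    leg M (f a) (Ideal.span {f b}) = leg M a (Ideal.span {b}) := by
  have h1 : ∀ x, f x ∈ Ideal.span {f b} ↔ x ∈ Ideal.span {b} := fun x => by
    rw [Ideal.mem_span_singleton, Ideal.mem_span_singleton, map_dvd_iff]
  have h2 : (∃ t, t * t - f a ∈ Ideal.span {f b}) ↔ ∃ t, t * t - a ∈ Ideal.span {b} := by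
    rw [f.surjective.exists]
    simp only [← map_mul, ← map_sub, h1]
  have h3 := h1 M
  rw [map_natCast] at h3
  simp only [leg, h1, h2, h3]

end Leg

namespace Dat

variable (D : Dat)

theorem j1_zero (a : D.O) : D.J a 0 = 1 := by
  rw [J, jac, Ideal.span_singleton_zero, ← Ideal.zero_eq_bot, normalizedFactors_zero]
  rfl

theorem J_mul_left (a a' b : D.O) : D.J (a * a') b = D.J a b * D.J a' b := by
  rw [J, J, J, jac, jac, jac, ← Multiset.prod_map_mul]
  refine congrArg _ (Multiset.map_congr rfl fun P hP => ?_)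
  have h := prime_of_normalized_factor P hP
  have := (Ideal.isPrime_of_prime h).isMaximal h.ne_zero
  have := P.finiteQuotientOfFreeOfNeBot h.ne_zero
  exact j1_leg_mul _ _ _
theorem J_mul_right (a : D.O) {b b' : D.O} (h : b ≠ 0) (h' : b' ≠ 0) :
    D.J a (b * b') = D.J a b * D.J a b' := by
  rw [J, J, J, jac, jac, jac, ← Ideal.span_singleton_mul_span_singleton,
    normalizedFactors_mul (by simpa using h) (by simpa using h'), Multiset.map_add,
    Multiset.prod_add]
theorem J_congr {a a' b : D.O} (h : b ∣ a - a') : D.J a b = D.J a' b :=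
  congrArg _ (Multiset.map_congr rfl fun _ hP => j1_leg_congr _
    (Ideal.le_of_dvd (dvd_of_mem_normalizedFactors hP) (Ideal.mem_span_singleton.2 h)))
theorem j1_unit (a : D.O) {b : D.O} (h : IsUnit b) : D.J a b = 1 := by
  rw [J, jac, Ideal.span_singleton_eq_top.2 h, ← Ideal.one_eq_top, normalizedFactors_one]
  rfl
theorem j1_prime (a : D.O) {π : D.O} (h : Prime π) :
    D.J a π = leg D.M a (Ideal.span {π}) := by
  rw [J, jac, normalizedFactors_irreducible (Ideal.prime_span_singleton_iff.2 h).irreducible,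
    normalize_eq, Multiset.map_singleton, Multiset.prod_singleton]
theorem j1_map (f : D.O ≃+* D.O) (a b : D.O) : D.J (f a) (f b) = D.J a b := by
  induction b using induction_on_prime with
  | h₁ => rw [map_zero, j1_zero, j1_zero]
  | h₂ b hb => rw [D.j1_unit _ hb, D.j1_unit _ (hb.map f)]
  | h₃ b π hb hπ ih =>
    have h := (MulEquiv.prime_iff f).2 hπ
    rw [map_mul, D.J_mul_right _ h.ne_zero (by simpa using hb), D.J_mul_right _ hπ.ne_zero hb, ih,
      D.j1_prime _ h, D.j1_prime _ hπ, j1_leg_map]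
theorem J_σ (a b : D.O) : D.J (D.σ a) (D.σ b) = D.J a b := D.j1_map _ a b
theorem J_τ (a b : D.O) : D.J (D.τ a) (D.τ b) = D.J a b := D.j1_map _ a b
theorem J_assoc (a : D.O) {b b' : D.O} (h : Associated b b') : D.J a b = D.J a b' := by
  rw [J, J, jac, jac, Ideal.span_singleton_eq_span_singleton.2 h]
theorem J_unit (a : D.O) {b : D.O} (h : IsUnit b) : D.J a b = 1 := D.j1_unit a h
theorem J_prime (a : D.O) {π : D.O} (h : Prime π) :
    D.J a π = leg D.M a (Ideal.span {π}) := D.j1_prime a h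
theorem J_abs (a b : D.O) : |D.J a b| ≤ 1 := by
  rw [J, jac]
  induction normalizedFactors (Ideal.span {b}) using Multiset.induction_on with
  | empty => simp
  | cons P s ih =>
    rw [Multiset.map_cons, Multiset.prod_cons, abs_mul]
    exact mul_le_one₀ (j1_leg_abs _ _ _) (abs_nonneg _) ih
theorem J_rec {a b : D.O} (ha : a ≠ 0) (hb : IsCoprime b (D.M : D.O)) :
    D.J a b = D.ε a b * D.J b a := D.rec' a b ha hb
theorem G_comm (m n : D.O) : D.G m n = D.G n m := mul_comm _ _
theorem G_abs (m n : D.O) : |D.G m n| ≤ 1 := by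
  rw [G, abs_mul]
  exact mul_le_one₀ (D.J_abs _ _) (abs_nonneg _) (D.J_abs _ _)
theorem G_mul (m : D.O) {n n' : D.O} (h : n ≠ 0) (h' : n' ≠ 0) :
    D.G m (n * n') = D.G m n * D.G m n' := by
  rw [G, G, G, map_mul, D.J_mul_right _ (by simpa using h) (by simpa using h'), J_mul_left]
  ring
theorem j1_one (b : D.O) : D.J 1 b = 1 := by
  refine Multiset.prod_eq_one fun x hx => ?_
  obtain ⟨P, hP, rfl⟩ := Multiset.mem_map.1 hx
  have h := (Ideal.isPrime_of_prime (prime_of_normalized_factor P hP)).ne_top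
  rw [leg, if_neg ((Ideal.ne_top_iff_one P).1 h), if_pos (c := ∃ t, t * t - 1 ∈ P) ⟨1, by simp⟩,
    ite_self]
theorem G_prod {ι : Type} (m : D.O) (s : Finset ι) (f : ι → D.O) (h : ∀ i ∈ s, f i ≠ 0) :
    D.G m (∏ i ∈ s, f i) = ∏ i ∈ s, D.G m (f i) := by
  induction s using Finset.induction_on with
  | empty => rw [prod_empty, prod_empty, G, map_one, j1_one, D.J_unit _ isUnit_one, mul_one]
  | insert i s hi ih =>
    have h' := fun j hj => h j (mem_insert_of_mem hj)
    rw [prod_insert hi, prod_insert hi,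
      D.G_mul _ (h i (mem_insert_self _ _)) (prod_ne_zero_iff.2 h'), ih h']
theorem G_eq {m n : D.O} (hm : m ≠ 0) (hn : IsCoprime n (D.M : D.O)) :
    D.G m n = D.ε (D.σ (D.σ m)) n * D.J n (D.σ m * D.σ (D.σ m)) := by
  have h1 : D.J m (D.σ n) = D.J (D.σ (D.σ m)) n := by
    rw [← D.J_σ (D.σ (D.σ m)), D.σ3]
  rw [G, h1, D.J_rec (by simpa using hm) hn,
    D.J_mul_right _ (by simpa using hm) (by simpa using hm)]
  ring
theorem spin_mul {m n : D.O} (hm : m ≠ 0) (hn : n ≠ 0) :
    D.J (m * n) (D.σ (m * n)) = D.J m (D.σ m) * D.J n (D.σ n) * D.G m n := by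
  rw [G, map_mul, D.J_mul_right _ (by simpa using hm) (by simpa using hn), J_mul_left, J_mul_left]
  ring
theorem sp_abs {κ : D.O → ℝ} (h : D.Per κ) (x : D.O) : |D.sp κ x| ≤ 1 := by
  rw [sp, abs_mul]
  exact mul_le_one₀ (h.bd x) (abs_nonneg _) (by exact_mod_cast D.J_abs x (D.σ x))

end Dat

end Pool.Agent.Spin
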