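import Pool.Agent.Lib.MP_696deb_nt.Spin.BI

/-! One block of a sum of type two. -/

set_option autoImplicit false

open scoped Classical
open Finset Filter Topology

namespace Pool.Agent.Spin

theorem t2_fib {ι μ : Type} [DecidableEq μ] (s : Finset ι) (f : ι → μ) (F : ι → ℝ) (E M : ℝ)
    (h : ∀ m0 ∈ s, |∑ m ∈ s.filter (fun m => f m = f m0), F m| ≤
      E * (s.filter fun m => f m = f m0).card + M) :
    |∑ m ∈ s, F m| ≤ E * s.card + M * (s.image f).card := by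
  rw [← sum_fiberwise_of_maps_to (fun x hx => mem_image_of_mem f hx) F,
    card_eq_sum_card_image f s]
  refine (abs_sum_le_sum_abs _ _).trans ?_
  have k : ∀ l ∈ s.image f, |∑ m ∈ s.filter (fun m => f m = l), F m| ≤
      E * (s.filter fun m => f m = l).card + M := by
    intro l hl
    obtain ⟨m0, h0, rfl⟩ := mem_image.1 hl
    exact h m0 h0
  refine (sum_le_sum k).trans (le_of_eq ?_)
  rw [sum_add_distrib, sum_const, nsmul_eq_mul, ← mul_sum, mul_comm M]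
  push_cast
  rfl

theorem t2_fib2 {ι κ μ ν : Type} [DecidableEq μ] [DecidableEq ν] (s : Finset ι) (s' : Finset κ)
    (f : ι → μ) (g : κ → ν)
    (F : ι → κ → ℝ) (E M : ℝ)
    (h : ∀ m0 ∈ s, ∀ n0 ∈ s', |∑ m ∈ s.filter (fun m => f m = f m0),
      ∑ n ∈ s'.filter (fun n => g n = g n0), F m n| ≤
      E * (s.filter fun m => f m = f m0).card * (s'.filter fun n => g n = g n0).card + M) :
    |∑ m ∈ s, ∑ n ∈ s', F m n| ≤
      E * s'.card * s.card + M * (s'.image g).card * (s.image f).card := by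
  refine t2_fib s f _ _ _ fun m0 h0 => ?_
  rw [sum_comm]
  have k := t2_fib s' g (fun n => ∑ m ∈ s.filter (fun m => f m = f m0), F m n)
    (E * (s.filter fun m => f m = f m0).card) M fun n0 h1 => by
      rw [sum_comm]; exact h m0 h0 n0 h1
  refine k.trans (le_of_eq ?_)
  ring

theorem t2_L {L R : ℝ} {W : V → ℝ} (hW : Wt L R W) : 0 ≤ L :=
  (abs_nonneg _).trans (hW.bd 0)

namespace Dat

variable (D : Dat)

theorem t2_norm {Y : ℝ} (hY : 0 < Y) (x : D.O) : ‖(Y⁻¹ • D.e x : V)‖ = D.sz x / Y := by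
  rw [norm_smul, Real.norm_eq_abs, abs_of_pos (inv_pos.2 hY), sz, div_eq_inv_mul]

theorem t2_supp {L R Y : ℝ} {W : V → ℝ} (hW : Wt L R W) (hY : 0 < Y) {x : D.O}
    (h : W (Y⁻¹ • D.e x) ≠ 0) : D.sz x ≤ R * Y := by
  by_contra k
  refine h (hW.supp _ ?_)
  rw [D.t2_norm hY, lt_div_iff₀ hY]
  exact not_le.1 k

theorem t2_lip {L R Y : ℝ} {W : V → ℝ} (hW : Wt L R W) (hY : 0 < Y) (m m0 n : D.O) {a B : ℝ}
    (h : ‖D.e m - D.e m0‖ ≤ a) (hn : D.sz n ≤ B) :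
    |W (Y⁻¹ • D.e (m * n)) - W (Y⁻¹ • D.e (m0 * n))| ≤ L * (a * B / Y) := by
  refine (hW.lip _ _).trans (mul_le_mul_of_nonneg_left ?_ (t2_L hW))
  rw [← smul_sub, ← D.e_sub, D.t2_norm hY, ← sub_mul]
  refine div_le_div_of_nonneg_right ((D.sz_mul_le _ _).trans ?_) hY.le
  have k : D.sz (m - m0) ≤ a := by rw [sz, D.e_sub]; exact h
  exact mul_le_mul k hn (D.sz_nonneg _) ((D.sz_nonneg _).trans k)

theorem t2_J (a b : D.O) : |(D.J a b : ℝ)| ≤ 1 := by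
  have := D.J_abs a b
  exact_mod_cast this

theorem t2_G (a b : D.O) : |(D.G a b : ℝ)| ≤ 1 := by
  have := D.G_abs a b
  exact_mod_cast this

/-- The sum over one fibre. -/
theorem t2_cell {ε : ℝ} (h : 0 < ε) : ∃ C : ℝ, 1 ≤ C ∧ ∀ (L R A B Y a : ℝ) (W : V → ℝ)
    (κ α β : D.O → ℝ) (s s' : Finset D.O) (m0 n0 : D.O), Wt L R W → D.Per κ → 0 < Y → 1 ≤ A →
    1 ≤ B → (∀ m, |α m| ≤ 1) → (∀ n, |β n| ≤ 1) →
    (∀ m ∈ s, D.sz m ≤ A ∧ IsCoprime m (D.M : D.O)) →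
    (∀ n ∈ s', D.sz n ≤ B ∧ IsCoprime n (D.M : D.O)) →
    (∀ m ∈ s, ‖D.e m - D.e m0‖ ≤ a ∧ (D.M : D.O) ∣ m - m0) → (∀ n ∈ s', (D.M : D.O) ∣ n - n0) →
    |∑ m ∈ s, ∑ n ∈ s', W (Y⁻¹ • D.e (m * n)) * (D.sp κ (m * n) * (α m * β n))| ≤
      L * (a * B / Y) * s.card * s'.card +
        (L + 1) * (C * (A * B) ^ 6 * (A * B) ^ ε / min A B ^ (1 / 14 : ℝ)) := by
  obtain ⟨C, C1, hC⟩ := D.bil h
  refine ⟨C, C1, fun L R A B Y a W κ α β s s' m0 n0 hW hκ hY hA hB hα hβ hs hs' hm hn => ?_⟩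
  have L0 := t2_L hW
  have L1 : 0 < L + 1 := by linarith
  have k := hC A B s s' (fun m => α m * D.J m (D.σ m))
    (fun n => β n * D.J n (D.σ n) * (W (Y⁻¹ • D.e (m0 * n)) / (L + 1))) hA hB hs hs'
    (fun m => by
      rw [abs_mul]; exact mul_le_one₀ (hα m) (abs_nonneg _) (D.t2_J _ _))
    (fun n => by
      rw [abs_mul, abs_mul]
      refine mul_le_one₀ (mul_le_one₀ (hβ n) (abs_nonneg _) (D.t2_J _ _)) (abs_nonneg _) ?_
      rw [abs_div, abs_of_pos L1, div_le_one L1]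
      linarith [hW.bd (Y⁻¹ • D.e (m0 * n))])
  have e1 : ∑ m ∈ s, ∑ n ∈ s', W (Y⁻¹ • D.e (m * n)) * (D.sp κ (m * n) * (α m * β n)) =
      (∑ m ∈ s, ∑ n ∈ s', (W (Y⁻¹ • D.e (m * n)) - W (Y⁻¹ • D.e (m0 * n))) *
        (D.sp κ (m * n) * (α m * β n))) + κ (m0 * n0) * (L + 1) * ∑ m ∈ s, ∑ n ∈ s',
        α m * D.J m (D.σ m) * (β n * D.J n (D.σ n) * (W (Y⁻¹ • D.e (m0 * n)) / (L + 1))) *
          D.G m n := by
    rw [mul_sum, ← sum_add_distrib]
    refine sum_congr rfl fun m hm' => ?_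
    rw [mul_sum, ← sum_add_distrib]
    refine sum_congr rfl fun n hn' => ?_
    have e2 : κ (m * n) = κ (m0 * n0) := by
      refine hκ.per _ _ ?_
      have : m * n - m0 * n0 = (m - m0) * n + m0 * (n - n0) := by ring
      rw [this]
      exact dvd_add ((hm m hm').2.mul_right _) ((hn n hn').mul_left _)
    rw [sp, D.spin_mul (D.ne_zero_of_cop (hs m hm').2) (D.ne_zero_of_cop (hs' n hn').2), e2]
    push_cast
    field_simp
    ring
  rw [e1]
  refine (abs_add_le _ _).trans (add_le_add ?_ ?_)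
  · refine (abs_sum_le_sum_abs _ _).trans ?_
    have k2 : ∀ m ∈ s, |∑ n ∈ s', (W (Y⁻¹ • D.e (m * n)) - W (Y⁻¹ • D.e (m0 * n))) *
        (D.sp κ (m * n) * (α m * β n))| ≤ L * (a * B / Y) * s'.card := by
      intro m hm'
      refine (abs_sum_le_sum_abs _ _).trans ?_
      rw [mul_comm _ (s'.card : ℝ), ← nsmul_eq_mul]
      refine sum_le_card_nsmul _ _ _ fun n hn' => ?_
      rw [abs_mul]
      have k3 := D.t2_lip hW hY m m0 n (hm m hm').1 (hs' n hn').1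
      have k4 : |D.sp κ (m * n) * (α m * β n)| ≤ 1 := by
        rw [abs_mul, abs_mul]
        exact mul_le_one₀ (D.sp_abs hκ _) (by positivity)
          (mul_le_one₀ (hα m) (abs_nonneg _) (hβ n))
      exact (mul_le_of_le_one_right (abs_nonneg _) k4).trans k3
    refine (sum_le_card_nsmul _ _ _ k2).trans (le_of_eq ?_)
    rw [nsmul_eq_mul]; ring
  · rw [abs_mul, abs_mul, abs_of_pos L1]
    refine mul_le_mul ?_ k (abs_nonneg _) L1.le
    exact mul_le_of_le_one_left L1.le (hκ.bd _)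

/-- The number of classes modulo `M`. -/
theorem t2_cls : ∃ q : ℝ, 1 ≤ q ∧ ∀ s : Finset D.O,
    ((s.image (Ideal.Quotient.mk (Ideal.span {(D.M : D.O)}))).card : ℝ) ≤ q := by
  have := D.fin_quot
  let := Fintype.ofFinite (D.O ⧸ Ideal.span {(D.M : D.O)})
  refine ⟨Fintype.card (D.O ⧸ Ideal.span {(D.M : D.O)}), ?_, fun s => ?_⟩
  · exact_mod_cast Fintype.card_pos
  · exact_mod_cast card_le_univ _

/-- The sum over one block. -/
theorem t2_block {ε : ℝ} (h : 0 < ε) : ∃ C : ℝ, 1 ≤ C ∧ ∀ (L R A B Y η : ℝ) (W : V → ℝ)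
    (κ α β : D.O → ℝ) (s s' : Finset D.O), Wt L R W → D.Per κ → 0 < Y → 1 ≤ A →
    1 ≤ B → 0 < η → η ≤ 1 → (∀ m, |α m| ≤ 1) → (∀ n, |β n| ≤ 1) → (∀ m ∈ s, D.sz m ≤ A) →
    (∀ m ∈ s, ∀ n, W (Y⁻¹ • D.e (m * n)) ≠ 0 → D.sz n ≤ B) →
    |∑ m ∈ s, ∑ n ∈ s', W (Y⁻¹ • D.e (m * n)) * (D.sp κ (m * n) * (α m * β n))| ≤
      C * (L + 1) * (A * B) ^ 6 *
        (η * (A * B) / Y + (A * B) ^ ε / min A B ^ (1 / 14 : ℝ) / η ^ 6) := by
  obtain ⟨C, C1, hC⟩ := D.t2_cell h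
  obtain ⟨q, q1, hq⟩ := D.t2_cls
  obtain ⟨Cb, Cb1, hb⟩ := D.card_ball
  refine ⟨2 * Cb ^ 2 + C * q ^ 2 * 5 ^ 6, ?_,
    fun L R A B Y η W κ α β s s' hW hκ hY hA hB η0 η1 hα hβ hs hs' => ?_⟩
  · have : 0 ≤ C * q ^ 2 * 5 ^ 6 := by positivity
    nlinarith
  have L0 := t2_L hW
  set u := s.filter fun m => IsCoprime m (D.M : D.O) with hu
  set u' := s'.filter fun n => D.sz n ≤ B ∧ IsCoprime n (D.M : D.O) with hu'
  have e1 : ∑ m ∈ s, ∑ n ∈ s', W (Y⁻¹ • D.e (m * n)) * (D.sp κ (m * n) * (α m * β n)) =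
      ∑ m ∈ u, ∑ n ∈ u', W (Y⁻¹ • D.e (m * n)) * (D.sp κ (m * n) * (α m * β n)) := by
    symm
    have e2 : ∀ m ∈ u, ∑ n ∈ u', W (Y⁻¹ • D.e (m * n)) * (D.sp κ (m * n) * (α m * β n)) =
        ∑ n ∈ s', W (Y⁻¹ • D.e (m * n)) * (D.sp κ (m * n) * (α m * β n)) := by
      intro m hm
      refine sum_filter_of_ne fun n _ hn => ⟨hs' m (mem_filter.1 hm).1 n (left_ne_zero_of_mul hn), ?_⟩
      exact (hκ.cop _ (left_ne_zero_of_mul (left_ne_zero_of_mul
        (right_ne_zero_of_mul hn)))).of_mul_left_right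
    rw [sum_congr rfl e2]
    refine sum_filter_of_ne fun m _ hm => ?_
    obtain ⟨n, _, hn⟩ := exists_ne_zero_of_sum_ne_zero hm
    exact (hκ.cop _ (left_ne_zero_of_mul (left_ne_zero_of_mul
      (right_ne_zero_of_mul hn)))).of_mul_left_left
  rw [e1]
  have hl : 0 < η * A := by positivity
  have k := t2_fib2 u u'
    (fun m => (cell (η * A) (D.e m), Ideal.Quotient.mk (Ideal.span {(D.M : D.O)}) m))
    (Ideal.Quotient.mk (Ideal.span {(D.M : D.O)}))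
    (fun m n => W (Y⁻¹ • D.e (m * n)) * (D.sp κ (m * n) * (α m * β n)))
    (L * (2 * (η * A) * B / Y))
    ((L + 1) * (C * (A * B) ^ 6 * (A * B) ^ ε / min A B ^ (1 / 14 : ℝ))) fun m0 _ n0 _ => by
      refine hC L R A B Y _ W κ α β _ _ m0 n0 hW hκ hY hA hB hα hβ ?_ ?_ ?_ ?_
      · intro m hm
        have := mem_filter.1 (mem_filter.1 hm).1
        exact ⟨hs m this.1, this.2⟩
      · intro n hn
        exact (mem_filter.1 (mem_filter.1 hn).1).2
      · intro m hm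
        have := Prod.ext_iff.1 (mem_filter.1 hm).2
        exact ⟨(cell_near hl this.1).le,
          Ideal.mem_span_singleton.1 (Ideal.Quotient.eq.1 this.2)⟩
      · intro n hn
        exact Ideal.mem_span_singleton.1 (Ideal.Quotient.eq.1 (mem_filter.1 hn).2)
  refine k.trans ?_
  have c1 : (u.card : ℝ) ≤ Cb * A ^ 6 := by
    refine le_trans ?_ (hb A hA)
    exact_mod_cast card_le_card fun m hm => D.mem_ball.2 (hs m (mem_filter.1 hm).1)
  have c2 : (u'.card : ℝ) ≤ Cb * B ^ 6 := by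
    refine le_trans ?_ (hb B hB)
    exact_mod_cast card_le_card fun n (hn : n ∈ u') => D.mem_ball.2 (mem_filter.1 hn).2.1
  have c3 := hq u'
  have c4 : ((u.image fun m => (cell (η * A) (D.e m),
      Ideal.Quotient.mk (Ideal.span {(D.M : D.O)}) m)).card : ℝ) ≤ 5 ^ 6 / η ^ 6 * q := by
    have d1 : (u.image fun m => (cell (η * A) (D.e m),
        Ideal.Quotient.mk (Ideal.span {(D.M : D.O)}) m)) ⊆
        (u.image fun m => cell (η * A) (D.e m)) ×ˢ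
          (u.image (Ideal.Quotient.mk (Ideal.span {(D.M : D.O)}))) := by
      intro z hz
      obtain ⟨m, hm, rfl⟩ := mem_image.1 hz
      exact mem_product.2 ⟨mem_image_of_mem _ hm, mem_image_of_mem _ hm⟩
    have d2 := card_le_card d1
    rw [card_product] at d2
    have d3 := card_cell hl (by linarith : 0 ≤ A) u D.e fun m hm => hs m (mem_filter.1 hm).1
    have d4 : (2 * A / (η * A) + 3) ^ (2 * Fintype.card (Fin 3)) ≤ 5 ^ 6 / η ^ 6 := by
      rw [Fintype.card_fin, ← div_pow]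
      refine pow_le_pow_left₀ (by positivity) ?_ _
      rw [mul_div_mul_right _ _ (by positivity : A ≠ 0), le_div_iff₀ η0, add_mul,
        div_mul_cancel₀ _ η0.ne']
      linarith
    refine le_trans (Nat.cast_le.2 d2) ?_
    push_cast
    exact mul_le_mul (d3.trans d4) (hq u) (by positivity) (by positivity)
  have m0 : 0 < min A B := lt_min (by linarith) (by linarith)
  set P := (A * B) ^ ε / min A B ^ (1 / 14 : ℝ) with hP
  have P0 : 0 ≤ P := by positivity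
  have f1 : L * (2 * (η * A) * B / Y) * u'.card * u.card ≤
      2 * Cb ^ 2 * (L + 1) * (A * B) ^ 6 * (η * (A * B) / Y) := by
    calc _ ≤ (L + 1) * (2 * (η * A) * B / Y) * (Cb * B ^ 6) * (Cb * A ^ 6) := by
          gcongr; linarith
      _ = _ := by ring
  have f2 : (L + 1) * (C * (A * B) ^ 6 * (A * B) ^ ε / min A B ^ (1 / 14 : ℝ)) *
      (u'.image (Ideal.Quotient.mk (Ideal.span {(D.M : D.O)}))).card *
      (u.image fun m => (cell (η * A) (D.e m),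
        Ideal.Quotient.mk (Ideal.span {(D.M : D.O)}) m)).card ≤
      C * q ^ 2 * 5 ^ 6 * (L + 1) * (A * B) ^ 6 * (P / η ^ 6) := by
    calc _ ≤ (L + 1) * (C * (A * B) ^ 6 * (A * B) ^ ε / min A B ^ (1 / 14 : ℝ)) * q *
          (5 ^ 6 / η ^ 6 * q) := by gcongr
      _ = _ := by rw [hP]; ring
  have g1 : 0 ≤ 2 * Cb ^ 2 * (L + 1) * (A * B) ^ 6 * (P / η ^ 6) := by positivity
  have g2 : 0 ≤ C * q ^ 2 * 5 ^ 6 * (L + 1) * (A * B) ^ 6 * (η * (A * B) / Y) := by positivity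
  refine (add_le_add f1 f2).trans ?_
  have g3 : (2 * Cb ^ 2 + C * q ^ 2 * 5 ^ 6) * (L + 1) * (A * B) ^ 6 *
      (η * (A * B) / Y + P / η ^ 6) = 2 * Cb ^ 2 * (L + 1) * (A * B) ^ 6 * (η * (A * B) / Y) +
      C * q ^ 2 * 5 ^ 6 * (L + 1) * (A * B) ^ 6 * (P / η ^ 6) +
      2 * Cb ^ 2 * (L + 1) * (A * B) ^ 6 * (P / η ^ 6) +
      C * q ^ 2 * 5 ^ 6 * (L + 1) * (A * B) ^ 6 * (η * (A * B) / Y) := by ring
  rw [g3]
  linarith

end Dat

end Pool.Agent.Spin
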