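import Pool.Agent.Lib.MP_696deb_nt.Spin.BI
import Pool.Agent.Lib.MP_696deb_nt.Spin.T2a

/-! Sums of type two. -/

set_option autoImplicit false

open scoped Classical
open Finset Filter Topology

namespace Pool.Agent.Spin

theorem t2_root {x : ℝ} (h : 0 ≤ x) : ∃ a : ℝ, 0 ≤ a ∧ a ^ 6 = x :=
  ⟨x ^ (((6 : ℕ) : ℝ)⁻¹), by positivity, Real.rpow_inv_natCast_pow h (by norm_num)⟩

theorem t2_pow8 {Z a : ℝ} (hZ : 1 ≤ Z) (ha : 0 ≤ a) (h : Z ^ 1000 ≤ a ^ 6) :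
    Z ^ 8 ≤ a ^ (1 / 14 : ℝ) := by
  have k : Z ^ 112 ≤ a := by
    refine le_of_pow_le_pow_left₀ (n := 6) (by norm_num) ha (le_trans ?_ h)
    rw [← pow_mul]
    exact pow_le_pow_right₀ hZ (by norm_num)
  refine le_of_pow_le_pow_left₀ (n := 14) (by norm_num) (by positivity) ?_
  have e : (1 / 14 : ℝ) = ((14 : ℕ) : ℝ)⁻¹ := by norm_num
  rw [e, Real.rpow_inv_natCast_pow ha (by norm_num), ← pow_mul]
  exact k

theorem t2_log {θ T : ℝ} (h : 0 < θ) (hT : 1 ≤ T) {n : ℕ} (hn : (n : ℝ) ≤ T ^ 6) :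
    (Nat.log 2 n : ℝ) ≤ 12 * T ^ θ / θ := by
  rcases eq_or_ne n 0 with rfl | h0
  · simp only [Nat.log_zero_right, Nat.cast_zero]; positivity
  have k1 : (2 : ℝ) ^ Nat.log 2 n ≤ T ^ 6 := by
    refine le_trans ?_ hn
    exact_mod_cast Nat.pow_log_le_self 2 h0
  have k2 := Real.log_le_log (by positivity) k1
  rw [Real.log_pow, Real.log_pow] at k2
  have k3 := Real.log_le_rpow_div (by linarith : 0 ≤ T) h
  have k4 := Real.log_two_gt_d9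
  have k5 : (0 : ℝ) ≤ Nat.log 2 n := by positivity
  push_cast at k2
  rw [mul_div_assoc]
  nlinarith

namespace Dat

variable (D : Dat)

/-- The sum of type two as a sum over pairs. -/
theorem t2_pairs {L R Y B : ℝ} {W : V → ℝ} {κ : D.O → ℝ} (hW : Wt L R W) (hκ : D.Per κ)
    (hY : 0 < Y) (α β : D.O → ℝ) (hB : ∀ m n, D.Rp m → D.sz (m * n) ≤ R * Y → D.sz n ≤ B) :
    (D.S W R Y fun x => D.sp κ x * ∑ y ∈ D.pr x, α y.1 * β y.2) =
      ∑ m ∈ D.DU ((R * Y) ^ 6), ∑ n ∈ D.ball B,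
        W (Y⁻¹ • D.e (m * n)) * (D.sp κ (m * n) * (α m * β n)) := by
  rw [← sum_product' (f := fun m n => W (Y⁻¹ • D.e (m * n)) * (D.sp κ (m * n) * (α m * β n))),
    ← sum_filter_of_ne (p := fun y : D.O × D.O => y.1 * y.2 ∈ D.ball (R * Y))
      fun y _ hy => D.mem_ball.2 (D.t2_supp hW hY (left_ne_zero_of_mul hy)),
    ← sum_fiberwise_eq_sum_filter, S]
  refine sum_congr rfl fun x hx => ?_
  have hx' := D.mem_ball.1 hx
  rcases eq_or_ne x 0 with rfl | h0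
  · have k : D.sp κ 0 = 0 := by
      have : κ 0 = 0 := by
        by_contra k
        exact D.ne_zero_of_cop (hκ.cop _ k) rfl
      rw [sp, this, zero_mul]
    rw [k, zero_mul, mul_zero]
    symm
    refine sum_eq_zero fun y hy => ?_
    rw [(mem_filter.1 hy).2, k, zero_mul, mul_zero]
  have e : (D.DU ((R * Y) ^ 6) ×ˢ D.ball B).filter (fun y => y.1 * y.2 = x) = D.pr x := by
    ext y
    rw [mem_filter, mem_product, D.mem_pr h0, D.mem_DU, D.mem_ball]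
    refine ⟨fun k => ⟨k.1.1.1, k.2⟩, fun k => ⟨⟨⟨k.1, ?_⟩, hB _ _ k.1 (k.2 ▸ hx')⟩, k.2⟩⟩
    have k1 : D.N y.1 ≤ D.N x :=
      Nat.le_of_dvd (Nat.pos_of_ne_zero fun z => h0 (D.N_eq_zero.1 z)) (D.N_dvd ⟨_, k.2.symm⟩)
    exact (Nat.cast_le.2 k1).trans ((D.N_le x).trans (pow_le_pow_left₀ (D.sz_nonneg _) hx' _))
  rw [e, mul_sum, mul_sum]
  refine sum_congr rfl fun y hy => ?_
  rw [((D.mem_pr h0).1 hy).2]

/-- The bound for one dyadic block. -/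
theorem t2_dyad {δ : ℝ} (h : 0 < δ) (L R : ℝ) (hR : 1 ≤ R) : ∃ C : ℝ, 0 ≤ C ∧
    ∀ (W : V → ℝ) (κ α β : D.O → ℝ) (Y : ℝ) (i : ℕ) (s s' : Finset D.O), Wt L R W → D.Per κ →
    1 ≤ Y → (∀ m, |α m| ≤ 1) → (∀ n, |β n| ≤ 1) → (∀ m, α m ≠ 0 → Y ^ δ < D.N m) →
    (∀ n, β n ≠ 0 → Y ^ δ < D.N n) → (∀ m ∈ s, D.Rp m ∧ Nat.log 2 (D.N m) = i) →
    |∑ m ∈ s, ∑ n ∈ s', W (Y⁻¹ • D.e (m * n)) * (D.sp κ (m * n) * (α m * β n))| ≤
      C * (Y ^ 6 / Y ^ (δ / 1000)) := by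
  have hε : 0 < δ / 1000 := by positivity
  obtain ⟨C, C1, hC⟩ := D.t2_block hε
  obtain ⟨Cq, Cq1, hq⟩ := D.quot_le
  have R1 := D.one_le_R0
  obtain ⟨K, K0, hK⟩ := t2_root (x := 2 * D.R0 * Cq * R ^ 6) (by positivity)
  refine ⟨C * (|L| + 1) * K ^ 6 * (K + K ^ (δ / 1000)), by positivity,
    fun W κ α β Y i s s' hW hκ hY hα hβ hα' hβ' hs => ?_⟩
  have Y0 : 0 < Y := by linarith
  have L0 := t2_L hW
  rw [abs_of_nonneg L0]
  by_cases hz : ∑ m ∈ s, ∑ n ∈ s', W (Y⁻¹ • D.e (m * n)) * (D.sp κ (m * n) * (α m * β n)) = 0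
  · rw [hz, abs_zero]; positivity
  obtain ⟨A, A0, hA⟩ := t2_root (x := D.R0 * (2 * 2 ^ i)) (by positivity)
  obtain ⟨B, B0, hB⟩ := t2_root (x := Cq * (R * Y) ^ 6 / 2 ^ i) (by positivity)
  have a1 : ∀ m ∈ s, D.sz m ≤ A := by
    intro m hm
    refine le_of_pow_le_pow_left₀ (n := 6) (by norm_num) A0 ((D.rp_sz (hs m hm).1).trans ?_)
    rw [hA]
    refine mul_le_mul_of_nonneg_left ?_ (by linarith)
    have k := Nat.lt_pow_succ_log_self (b := 2) (by norm_num) (D.N m)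
    rw [(hs m hm).2, Nat.succ_eq_add_one, pow_succ, mul_comm] at k
    exact_mod_cast k.le
  have b1 : ∀ m ∈ s, ∀ n, W (Y⁻¹ • D.e (m * n)) ≠ 0 → D.sz n ≤ B := by
    intro m hm n hn
    refine le_of_pow_le_pow_left₀ (n := 6) (by norm_num) B0 ?_
    rw [hB, le_div_iff₀ (by positivity)]
    have k := Nat.pow_log_le_self 2 (x := D.N m) fun z => (hs m hm).1.1 (D.N_eq_zero.1 z)
    rw [(hs m hm).2] at k
    have k' : (2 : ℝ) ^ i ≤ D.N m := by exact_mod_cast k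
    have z0 := D.sz_nonneg n
    calc _ ≤ D.sz n ^ 6 * D.N m := by gcongr
      _ ≤ Cq * D.sz (m * n) ^ 6 := hq m n (hs m hm).1
      _ ≤ _ := mul_le_mul_of_nonneg_left
        (pow_le_pow_left₀ (D.sz_nonneg _) (D.t2_supp hW Y0 hn) _) (by linarith)
  have ab : A * B = K * Y := by
    refine (pow_left_inj₀ (n := 6) (by positivity) (by positivity) (by norm_num)).1 ?_
    rw [mul_pow, mul_pow, hA, hB, hK]
    field_simp
  set Z := Y ^ (δ / 1000) with hZ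
  have Z1 : 1 ≤ Z := Real.one_le_rpow hY hε.le
  have Z0 : 0 < Z := by linarith
  have ZY : Z ^ 1000 = Y ^ δ := by
    rw [hZ, ← Real.rpow_natCast, ← Real.rpow_mul Y0.le]
    congr 1
    push_cast
    ring
  obtain ⟨m, hm, hm'⟩ := exists_ne_zero_of_sum_ne_zero hz
  obtain ⟨n, _, hn⟩ := exists_ne_zero_of_sum_ne_zero hm'
  have n1 := right_ne_zero_of_mul (right_ne_zero_of_mul hn)
  have a2 : Z ^ 1000 ≤ A ^ 6 := by
    rw [ZY]
    exact (hα' m (left_ne_zero_of_mul n1)).le.trans ((D.N_le m).trans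
      (pow_le_pow_left₀ (D.sz_nonneg _) (a1 m hm) _))
  have b2 : Z ^ 1000 ≤ B ^ 6 := by
    rw [ZY]
    exact (hβ' n (right_ne_zero_of_mul n1)).le.trans ((D.N_le n).trans
      (pow_le_pow_left₀ (D.sz_nonneg _) (b1 m hm n (left_ne_zero_of_mul hn)) _))
  have o1 : ∀ a : ℝ, 0 ≤ a → Z ^ 1000 ≤ a ^ 6 → 1 ≤ a := fun a a0 k =>
    le_of_pow_le_pow_left₀ (n := 6) (by norm_num) a0
      (by rw [one_pow]; exact (one_le_pow₀ Z1).trans k)
  have m8 : Z ^ 8 ≤ min A B ^ (1 / 14 : ℝ) := by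
    rcases min_choice A B with k | k <;> rw [k]
    · exact t2_pow8 Z1 A0 a2
    · exact t2_pow8 Z1 B0 b2
  refine (hC L R A B Y Z⁻¹ W κ α β s s' hW hκ Y0 (o1 A A0 a2) (o1 B B0 b2) (inv_pos.2 Z0)
    (inv_le_one_of_one_le₀ Z1) hα hβ a1 b1).trans ?_
  rw [ab, Real.mul_rpow K0 Y0.le, ← hZ]
  have f1 : K ^ (δ / 1000) * Z / min A B ^ (1 / 14 : ℝ) / Z⁻¹ ^ 6 ≤ K ^ (δ / 1000) / Z := by
    calc _ ≤ K ^ (δ / 1000) * Z / Z ^ 8 / Z⁻¹ ^ 6 := by gcongr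
      _ = _ := by field_simp
  calc _ ≤ C * (L + 1) * (K * Y) ^ 6 * (Z⁻¹ * (K * Y) / Y + K ^ (δ / 1000) / Z) := by gcongr
    _ = _ := by field_simp

theorem type_two {δ : ℝ} (h : 0 < δ) : ∃ δ' : ℝ, 0 < δ' ∧ ∀ L R : ℝ, 1 ≤ R → ∃ C : ℝ,
    ∀ (W : V → ℝ) (κ α β : D.O → ℝ) (Y : ℝ), Wt L R W → D.Per κ → 1 ≤ Y → (∀ m, |α m| ≤ 1) →
    (∀ n, |β n| ≤ 1) → (∀ m, α m ≠ 0 → Y ^ δ < D.N m) → (∀ n, β n ≠ 0 → Y ^ δ < D.N n) →
    |D.S W R Y fun x => D.sp κ x * ∑ y ∈ D.pr x, α y.1 * β y.2| ≤ C * Y ^ (6 - δ') := by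
  have hθ : 0 < δ / 2000 := by positivity
  refine ⟨δ / 2000, hθ, fun L R hR => ?_⟩
  obtain ⟨C, C0, hC⟩ := D.t2_dyad h L R hR
  obtain ⟨Cq, Cq1, hq⟩ := D.quot_le
  refine ⟨C * (12 * R ^ (δ / 2000) / (δ / 2000) + 1),
    fun W κ α β Y hW hκ hY hα hβ hα' hβ' => ?_⟩
  have Y0 : 0 < Y := by linarith
  have T1 : 1 ≤ R * Y := one_le_mul_of_one_le_of_one_le hR hY
  rw [D.t2_pairs hW hκ Y0 α β (B := Cq * (R * Y)) fun m n hm hn => by
    refine le_of_pow_le_pow_left₀ (n := 6) (by norm_num) (by positivity) ?_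
    have k1 : (1 : ℝ) ≤ D.N m := by
      exact_mod_cast Nat.pos_of_ne_zero fun z => hm.1 (D.N_eq_zero.1 z)
    have z0 := D.sz_nonneg n
    have z1 := D.sz_nonneg (m * n)
    calc _ ≤ D.sz n ^ 6 * D.N m := le_mul_of_one_le_right (by positivity) k1
      _ ≤ Cq * D.sz (m * n) ^ 6 := hq m n hm
      _ ≤ Cq ^ 6 * (R * Y) ^ 6 := by
        gcongr
        exact le_self_pow₀ Cq1 (by norm_num)
      _ = _ := by ring]
  have k := t2_fib (D.DU ((R * Y) ^ 6)) (fun m => Nat.log 2 (D.N m))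
    (fun m => ∑ n ∈ D.ball (Cq * (R * Y)),
      W (Y⁻¹ • D.e (m * n)) * (D.sp κ (m * n) * (α m * β n))) 0 (C * (Y ^ 6 / Y ^ (δ / 1000)))
    fun m0 _ => by
      rw [zero_mul, zero_add]
      exact hC W κ α β Y _ _ _ hW hκ hY hα hβ hα' hβ' fun m hm =>
        ⟨(D.mem_DU.1 (mem_filter.1 hm).1).1, (mem_filter.1 hm).2⟩
  rw [zero_mul, zero_add] at k
  refine k.trans ?_
  set Z := Y ^ (δ / 2000) with hZ
  have Z1 : 1 ≤ Z := Real.one_le_rpow hY hθ.le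
  have c1 : (((D.DU ((R * Y) ^ 6)).image fun m => Nat.log 2 (D.N m)).card : ℝ) ≤
      (12 * R ^ (δ / 2000) / (δ / 2000) + 1) * Z := by
    have d1 : ((D.DU ((R * Y) ^ 6)).image fun m => Nat.log 2 (D.N m)) ⊆
        range (⌊12 * (R * Y) ^ (δ / 2000) / (δ / 2000)⌋₊ + 1) := by
      intro i hi
      obtain ⟨m, hm, rfl⟩ := mem_image.1 hi
      exact mem_range.2 (Nat.lt_succ_of_le (Nat.le_floor (t2_log hθ T1 (D.mem_DU.1 hm).2)))
    have d2 := card_le_card d1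
    rw [card_range] at d2
    refine le_trans (Nat.cast_le.2 d2) ?_
    push_cast
    have d3 := Nat.floor_le (a := 12 * (R * Y) ^ (δ / 2000) / (δ / 2000)) (by positivity)
    refine (add_le_add d3 Z1).trans (le_of_eq ?_)
    rw [Real.mul_rpow (by linarith) Y0.le]
    ring
  have e1 : Y ^ (δ / 1000) = Z * Z := by
    rw [hZ, ← Real.rpow_add Y0]
    congr 1
    ring
  have e2 : Y ^ (6 - δ / 2000) = Y ^ 6 / Z := by
    rw [Real.rpow_sub Y0, hZ]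
    congr 1
    exact_mod_cast Real.rpow_natCast Y 6
  rw [e1, e2]
  calc _ ≤ C * (Y ^ 6 / (Z * Z)) * ((12 * R ^ (δ / 2000) / (δ / 2000) + 1) * Z) := by gcongr
    _ = _ := by field_simp

end Dat

end Pool.Agent.Spin
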