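import Pool.Agent.Lib.MP_696deb_nt.Spin.J2

/-! The identity of Vaughan. -/

set_option autoImplicit false

open scoped Classical
open Finset Filter Topology

namespace Pool.Agent.Spin

namespace Dat

variable (D : Dat)

theorem va_Λ_eq {x π : D.O} {k : ℕ} (hπ : Prime π) (hk : 0 < k) (h : Associated x (π ^ k)) :
    D.Λ x = Real.log (D.N π) := by
  have e : ∃ π : D.O, Prime π ∧ ∃ k : ℕ, 0 < k ∧ Associated x (π ^ k) := ⟨π, hπ, k, hk, h⟩
  obtain ⟨h1, l, hl, h2⟩ := e.choose_spec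
  have h3 : e.choose ∣ π ^ k := ((dvd_pow_self _ hl.ne').trans h2.symm.dvd).trans h.dvd
  rw [Λ, dif_pos e, D.N_assoc (h1.associated_of_dvd hπ (h1.dvd_of_dvd_pow h3))]

theorem va_Λ_cases (x : D.O) :
    D.Λ x = 0 ∨ ∃ π : D.O, Prime π ∧ ∃ k : ℕ, 0 < k ∧ Associated x (π ^ k) := by
  by_cases e : ∃ π : D.O, Prime π ∧ ∃ k : ℕ, 0 < k ∧ Associated x (π ^ k)
  · exact Or.inr e
  · exact Or.inl (by rw [Λ, dif_neg e])

theorem Λ_nonneg (x : D.O) : 0 ≤ D.Λ x := by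
  rcases D.va_Λ_cases x with h | ⟨π, hπ, k, hk, h⟩
  · exact h.ge
  · rw [D.va_Λ_eq hπ hk h]
    exact Real.log_natCast_nonneg _

theorem Λ_le (x : D.O) : D.Λ x ≤ Real.log (D.N x) := by
  rcases D.va_Λ_cases x with h | ⟨π, hπ, k, hk, h⟩
  · rw [h]
    exact Real.log_natCast_nonneg _
  · rw [D.va_Λ_eq hπ hk h, D.N_assoc h, D.N_pow, Nat.cast_pow, Real.log_pow]
    have h1 : (1 : ℝ) ≤ k := by exact_mod_cast hk
    have h2 := Real.log_natCast_nonneg (D.N π)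
    nlinarith

theorem Λ_assoc {x y : D.O} (h : Associated x y) : D.Λ x = D.Λ y := by
  rcases D.va_Λ_cases x with hx | ⟨π, hπ, k, hk, hx⟩
  · rcases D.va_Λ_cases y with hy | ⟨π, hπ, k, hk, hy⟩
    · rw [hx, hy]
    · rw [D.va_Λ_eq hπ hk hy, D.va_Λ_eq hπ hk (h.trans hy)]
  · rw [D.va_Λ_eq hπ hk hx, D.va_Λ_eq hπ hk (h.symm.trans hx)]

theorem Λ_prime {x : D.O} (h : Prime x) : D.Λ x = Real.log (D.N x) :=
  D.va_Λ_eq h Nat.one_pos (by rw [pow_one])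

theorem Λ_ne {x : D.O} (h : D.Λ x ≠ 0) : ∃ p k : ℕ, p.Prime ∧ 0 < k ∧ D.N x = p ^ k := by
  rcases D.va_Λ_cases x with hx | ⟨π, hπ, k, hk, hx⟩
  · exact absurd hx h
  · obtain ⟨p, l, hp, hl, e⟩ := D.N_prime hπ
    exact ⟨p, l * k, hp, Nat.mul_pos hl hk, by rw [D.N_assoc hx, D.N_pow, e, pow_mul]⟩

theorem μ_abs (x : D.O) : |D.μ x| ≤ 1 := by
  rw [μ]
  by_cases h : Squarefree x
  · rw [h.moebius_eq]
    push_cast
    rw [abs_pow, abs_neg, abs_one, one_pow]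
  · rw [UniqueFactorizationMonoid.moebius_of_not_squarefree h]
    simp

theorem va_gn {x : D.O} (h : x ≠ 0) :
    D.Rp (D.gn (Ideal.span {x})) ∧ Associated (D.gn (Ideal.span {x})) x := by
  obtain ⟨m, h1, h2⟩ := D.exists_rp h
  have e : D.gn (Ideal.span {x}) = m := by
    rw [← Ideal.span_singleton_eq_span_singleton.2 h2]
    exact h1.2
  rw [e]
  exact ⟨h1, h2⟩

theorem va_mem {x : D.O} (h : x ≠ 0) {d : D.O} :
    d ∈ (D.pr x).image Prod.fst ↔ D.Rp d ∧ d ∣ x := by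
  rw [mem_image]
  constructor
  · rintro ⟨y, hy, rfl⟩
    obtain ⟨h1, h2⟩ := (D.mem_pr h).1 hy
    exact ⟨h1, y.2, h2.symm⟩
  · rintro ⟨h1, c, h2⟩
    exact ⟨(d, c), (D.mem_pr h).2 ⟨h1, h2.symm⟩, rfl⟩

theorem va_sum {x : D.O} (h : x ≠ 0) (f : D.O → ℝ) :
    ∑ y ∈ D.pr x, f y.1 = ∑ d ∈ (D.pr x).image Prod.fst, f d := by
  refine (sum_image ?_).symm
  intro y hy z hz e
  obtain ⟨h1, h2⟩ := (D.mem_pr h).1 (mem_coe.1 hy)
  obtain ⟨-, h4⟩ := (D.mem_pr h).1 (mem_coe.1 hz)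
  refine Prod.ext e (mul_left_cancel₀ h1.1 ?_)
  rw [h2, e, h4]

theorem va_step {x p : D.O} (h : x ≠ 0) (hp : Prime p) :
    ∑ d ∈ (D.pr (p * x)).image Prod.fst, D.Λ d =
      ∑ d ∈ (D.pr x).image Prod.fst, D.Λ d + Real.log (D.N p) := by
  have hpx : p * x ≠ 0 := mul_ne_zero hp.ne_zero h
  obtain ⟨v, x', hx', e⟩ := WfDvdMonoid.max_power_factor h hp.irreducible
  have hq : p ^ (v + 1) ≠ 0 := pow_ne_zero _ hp.ne_zero
  obtain ⟨d0, r0, a0⟩ := D.exists_rp hq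
  have e' : p * x = p ^ (v + 1) * x' := by rw [e]; ring
  have sub : (D.pr x).image Prod.fst ⊆ (D.pr (p * x)).image Prod.fst := by
    intro d hd
    obtain ⟨h1, h2⟩ := (D.va_mem h).1 hd
    exact (D.va_mem hpx).2 ⟨h1, h2.mul_left p⟩
  have le : ∀ {k w : ℕ}, p ^ k ∣ p ^ w * x' → k ≤ w := fun hk =>
    (pow_dvd_pow_iff hp.ne_zero hp.not_isUnit).1 (hp.pow_dvd_of_dvd_mul_right _ hx' hk)
  rw [← sum_sdiff sub, add_comm]
  congr 1
  rw [sum_eq_single_of_mem d0]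
  · exact D.va_Λ_eq hp (Nat.succ_pos v) a0
  · refine mem_sdiff.2 ⟨(D.va_mem hpx).2 ⟨r0, a0.dvd.trans ⟨x', e'⟩⟩, fun hd => ?_⟩
    have h1 : p ^ (v + 1) ∣ p ^ v * x' := e ▸ a0.symm.dvd.trans ((D.va_mem h).1 hd).2
    exact absurd (le h1) (by omega)
  · intro d hd hne
    obtain ⟨h1, h2⟩ := mem_sdiff.1 hd
    obtain ⟨r, h3⟩ := (D.va_mem hpx).1 h1
    have h4 : ¬ d ∣ x := fun k => h2 ((D.va_mem h).2 ⟨r, k⟩)
    rcases D.va_Λ_cases d with hz | ⟨π, hπ, k, -, ha⟩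
    · exact hz
    · exfalso
      by_cases c : π ∣ p
      · have a1 : Associated d (p ^ k) := ha.trans (hπ.associated_of_dvd hp c).pow_pow
        have k1 : k ≤ v + 1 := le (e' ▸ a1.symm.dvd.trans h3)
        have k2 : ¬ k ≤ v := fun k2 =>
          h4 (a1.dvd.trans ((pow_dvd_pow p k2).trans ⟨x', e⟩))
        have k3 : k = v + 1 := by omega
        exact hne (D.rp_eq r r0 (a1.trans (k3 ▸ a0.symm)))
      · exact h4 (ha.dvd.trans (hπ.pow_dvd_of_dvd_mul_left k c (ha.symm.dvd.trans h3)))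

theorem sum_Λ {x : D.O} (h : x ≠ 0) : ∑ y ∈ D.pr x, D.Λ y.1 = Real.log (D.N x) := by
  rw [D.va_sum h]
  induction x using UniqueFactorizationMonoid.induction_on_prime with
  | h₁ => exact absurd rfl h
  | h₂ x hx =>
    rw [D.N_eq_one.2 hx, Nat.cast_one, Real.log_one]
    refine sum_eq_zero fun d hd => ?_
    have hu : IsUnit d := isUnit_of_dvd_unit ((D.va_mem h).1 hd).2 hx
    rcases D.va_Λ_cases d with hz | ⟨π, hπ, k, hk, ha⟩
    · exact hz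
    · exact absurd (isUnit_of_dvd_unit ((dvd_pow_self π hk.ne').trans ha.symm.dvd) hu) hπ.not_isUnit
  | h₃ a p ha hp ih =>
    have h1 : (D.N a : ℝ) ≠ 0 := Nat.cast_ne_zero.2 fun k => ha (D.N_eq_zero.1 k)
    have h2 : (D.N p : ℝ) ≠ 0 := Nat.cast_ne_zero.2 fun k => hp.ne_zero (D.N_eq_zero.1 k)
    rw [D.va_step ha hp, ih ha, D.N_mul, Nat.cast_mul, Real.log_mul h2 h1, add_comm]

theorem va_μ_assoc {x y : D.O} (h : Associated x y) : D.μ x = D.μ y := by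
  rw [μ, μ, h.moebius_eq]

theorem va_μ_mul {p d : D.O} (hp : Prime p) (h : ¬ p ∣ d) : D.μ (p * d) = -D.μ d := by
  rw [μ, μ, (hp.irreducible.isRelPrime_iff_not_dvd.2 h).moebius_mul, hp.irreducible.moebius_eq]
  push_cast
  ring

theorem sum_μ {x : D.O} (h : x ≠ 0) : ∑ y ∈ D.pr x, D.μ y.1 = if IsUnit x then 1 else 0 := by
  rw [D.va_sum h]
  split_ifs with hx
  · obtain ⟨m, r, a⟩ := D.exists_rp h
    rw [sum_eq_single_of_mem m ((D.va_mem h).2 ⟨r, a.dvd⟩)]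
    · rw [μ, (isUnit_of_dvd_unit a.dvd hx).moebius_eq, Int.cast_one]
    · intro d hd hne
      obtain ⟨r', k⟩ := (D.va_mem h).1 hd
      exact absurd (D.rp_eq r' r (((associated_one_iff_isUnit.2 (isUnit_of_dvd_unit k hx)).trans
        (associated_one_iff_isUnit.2 hx).symm).trans a.symm)) hne
  · obtain ⟨p, hi, hpx⟩ := WfDvdMonoid.exists_irreducible_factor hx h
    have hp : Prime p := UniqueFactorizationMonoid.irreducible_iff_prime.1 hi
    set T := (D.pr x).image Prod.fst with hT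
    have s1 : ∑ d ∈ T.filter (fun d => p ∣ d), D.μ d =
        ∑ d ∈ T.filter (fun d => p ∣ d ∧ ¬ p * p ∣ d), D.μ d := by
      refine (sum_subset (fun d hd => ?_) fun d hd hn => ?_).symm
      · exact mem_filter.2 ⟨(mem_filter.1 hd).1, (mem_filter.1 hd).2.1⟩
      · have h2 : p * p ∣ d := by
          by_contra h2
          exact hn (mem_filter.2 ⟨(mem_filter.1 hd).1, (mem_filter.1 hd).2, h2⟩)
        rw [μ, UniqueFactorizationMonoid.moebius_of_not_squarefree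
          fun k => hp.not_isUnit (k p h2), Int.cast_zero]
    have s2 : ∑ d ∈ T.filter (fun d => ¬ p ∣ d), -D.μ d =
        ∑ d ∈ T.filter (fun d => p ∣ d ∧ ¬ p * p ∣ d), D.μ d := by
      refine sum_bij (fun d _ => D.gn (Ideal.span {p * d})) ?_ ?_ ?_ ?_
      · intro d hd
        obtain ⟨h1, h2⟩ := mem_filter.1 hd
        obtain ⟨r, k⟩ := (D.va_mem h).1 h1
        obtain ⟨r', a⟩ := D.va_gn (mul_ne_zero hp.ne_zero r.1)
        refine mem_filter.2 ⟨(D.va_mem h).2 ⟨r', a.dvd.trans ?_⟩,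
          (dvd_mul_right p d).trans a.symm.dvd, fun k' => h2 ?_⟩
        · exact (hp.irreducible.isRelPrime_iff_not_dvd.2 h2).mul_dvd hpx k
        · exact (mul_dvd_mul_iff_left hp.ne_zero).1 (k'.trans a.dvd)
      · intro d hd d' hd' e
        obtain ⟨r, -⟩ := (D.va_mem h).1 (mem_filter.1 hd).1
        obtain ⟨r', -⟩ := (D.va_mem h).1 (mem_filter.1 hd').1
        have a := (D.va_gn (mul_ne_zero hp.ne_zero r.1)).2
        have a' := (D.va_gn (mul_ne_zero hp.ne_zero r'.1)).2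
        have e' : D.gn (Ideal.span {p * d}) = D.gn (Ideal.span {p * d'}) := e
        rw [e'] at a
        exact D.rp_eq r r' ((a.symm.trans a').of_mul_left (Associated.refl p) hp.ne_zero)
      · intro b hb
        obtain ⟨h1, ⟨c, rfl⟩, h3⟩ := mem_filter.1 hb
        obtain ⟨r, k⟩ := (D.va_mem h).1 h1
        obtain ⟨d, r', a⟩ := D.exists_rp (right_ne_zero_of_mul r.1)
        refine ⟨d, mem_filter.2 ⟨(D.va_mem h).2 ⟨r', a.dvd.trans ((dvd_mul_left c p).trans k)⟩,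
          fun k' => h3 (mul_dvd_mul_left p (k'.trans a.dvd))⟩, ?_⟩
        obtain ⟨r2, a2⟩ := D.va_gn (mul_ne_zero hp.ne_zero r'.1)
        exact D.rp_eq r2 r (a2.trans ((Associated.refl p).mul_mul a))
      · intro d hd
        obtain ⟨h1, h2⟩ := mem_filter.1 hd
        obtain ⟨r, -⟩ := (D.va_mem h).1 h1
        rw [D.va_μ_assoc (D.va_gn (mul_ne_zero hp.ne_zero r.1)).2, D.va_μ_mul hp h2]
    rw [← sum_filter_add_sum_filter_not T (fun d => p ∣ d), s1, ← s2, sum_neg_distrib,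
      neg_add_cancel]

theorem vab_sum (U : ℝ) {n : D.O} (h : n ≠ 0) (f : D.O → ℝ) :
    (∑ d ∈ D.DU U, if d ∣ n then f d else 0) =
      ∑ y ∈ D.pr n, if (D.N y.1 : ℝ) ≤ U then f y.1 else 0 := by
  rw [← sum_filter, ← sum_filter]
  refine (sum_bij (fun y _ => y.1) ?_ ?_ ?_ (fun _ _ => rfl)).symm
  · intro y hy
    rw [mem_filter, D.mem_pr h] at hy
    exact mem_filter.2 ⟨D.mem_DU.2 ⟨hy.1.1, hy.2⟩, ⟨y.2, hy.1.2.symm⟩⟩
  · intro y hy z hz hyz
    rw [mem_filter, D.mem_pr h] at hy hz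
    refine Prod.ext hyz (mul_left_cancel₀ hy.1.1.1 ?_)
    rw [hy.1.2, hyz, hz.1.2]
  · intro d hd
    rw [mem_filter, D.mem_DU] at hd
    obtain ⟨⟨h1, h2⟩, z, hz⟩ := hd
    exact ⟨(d, z), mem_filter.2 ⟨(D.mem_pr h).2 ⟨h1, hz.symm⟩, h2⟩, rfl⟩

theorem E_zero {U : ℝ} {n : D.O} (h : n ≠ 0) (k : (D.N n : ℝ) ≤ U) : D.E U n = 0 := by
  rw [E, D.vab_sum U h, ← D.sum_μ h, sub_eq_zero]
  refine sum_congr rfl fun y hy => if_pos (le_trans ?_ k)
  have h1 := ((D.mem_pr h).1 hy).2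
  exact_mod_cast Nat.le_of_dvd (Nat.pos_of_ne_zero fun h0 => h (D.N_eq_zero.1 h0))
    (D.N_dvd ⟨y.2, h1.symm⟩)

theorem E_abs (U : ℝ) {n : D.O} (h : n ≠ 0) : |D.E U n| ≤ (D.pr n).card + 1 := by
  rw [E, D.vab_sum U h]
  refine (abs_sub _ _).trans (add_le_add ?_ ?_)
  · refine (abs_sum_le_sum_abs _ _).trans ?_
    refine (sum_le_card_nsmul _ _ 1 fun y _ => ?_).trans (by simp)
    split_ifs
    · exact D.μ_abs _
    · simp
  · split_ifs <;> simp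

theorem vab_log {x d : D.O} (h : x ≠ 0) :
    (∑ y ∈ D.pr x, if d ∣ y.2 then D.Λ y.1 else 0) =
      if d ∣ x then Real.log (D.N x) - Real.log (D.N d) else 0 := by
  split_ifs with hd
  · obtain ⟨z, rfl⟩ := hd
    have hd0 : d ≠ 0 := left_ne_zero_of_mul h
    have hz0 : z ≠ 0 := right_ne_zero_of_mul h
    have h1 : (D.N d : ℝ) ≠ 0 := by exact_mod_cast fun h0 => hd0 (D.N_eq_zero.1 h0)
    have h2 : (D.N z : ℝ) ≠ 0 := by exact_mod_cast fun h0 => hz0 (D.N_eq_zero.1 h0)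
    rw [D.N_mul, Nat.cast_mul, Real.log_mul h1 h2, add_sub_cancel_left, ← D.sum_Λ hz0, ← sum_filter]
    refine (sum_bij (fun y _ => (y.1, d * y.2)) ?_ ?_ ?_ (fun _ _ => rfl)).symm
    · intro y hy
      rw [D.mem_pr hz0] at hy
      refine mem_filter.2 ⟨(D.mem_pr h).2 ⟨hy.1, ?_⟩, dvd_mul_right _ _⟩
      rw [← hy.2]; ring
    · intro y _ w _ hyw
      rw [Prod.mk.injEq] at hyw
      exact Prod.ext hyw.1 (mul_left_cancel₀ hd0 hyw.2)
    · intro y hy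
      rw [mem_filter, D.mem_pr h] at hy
      obtain ⟨⟨h3, h4⟩, w, hw⟩ := hy
      refine ⟨(y.1, w), (D.mem_pr hz0).2 ⟨h3, mul_left_cancel₀ hd0 ?_⟩, Prod.ext rfl hw.symm⟩
      rw [← h4, hw]; ring
  · refine sum_eq_zero fun y hy => if_neg fun h1 => hd ?_
    rw [← ((D.mem_pr h).1 hy).2]
    exact h1.mul_left _

theorem vab_unit {x : D.O} (h : x ≠ 0) :
    (∑ y ∈ D.pr x, D.Λ y.1 * if IsUnit y.2 then 1 else 0) = D.Λ x := by
  obtain ⟨m, hm, u, hu⟩ := D.exists_rp h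
  rw [sum_eq_single_of_mem (m, (u : D.O)) ((D.mem_pr h).2 ⟨hm, hu⟩), if_pos u.isUnit, mul_one]
  · exact D.Λ_assoc ⟨u, hu⟩
  · intro y hy hne
    rw [D.mem_pr h] at hy
    rw [if_neg, mul_zero]
    rintro ⟨v, hv⟩
    have h1 : y.1 = m :=
      D.rp_eq hy.1 hm (Associated.trans ⟨v, by rw [hv, hy.2]⟩ (Associated.symm ⟨u, hu⟩))
    refine hne (Prod.ext h1 (mul_left_cancel₀ hm.1 ?_))
    rw [hu, ← h1, hy.2]

theorem vab_small {U : ℝ} {x : D.O} (h0 : x ≠ 0) (h : U < D.N x) :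
    ∑ y ∈ D.pr x, (if (D.N y.1 : ℝ) ≤ U then D.Λ y.1 else 0) * D.E U y.2 =
      ∑ c ∈ D.DU U, ∑ d ∈ D.DU U, if c * d ∣ x then D.Λ c * D.μ d else 0 := by
  have h1 : ∀ c ∈ D.DU U, (∑ d ∈ D.DU U, if c * d ∣ x then D.Λ c * D.μ d else 0) =
      if c ∣ x then ∑ d ∈ D.DU U, if c * d ∣ x then D.Λ c * D.μ d else 0 else 0 := by
    intro c _
    split_ifs with hc
    · rfl
    · exact sum_eq_zero fun d _ => if_neg fun h2 => hc (dvd_of_mul_right_dvd h2)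
  rw [sum_congr rfl h1, D.vab_sum U h0]
  refine sum_congr rfl fun y hy => ?_
  rw [D.mem_pr h0] at hy
  split_ifs with hU
  · have h2 : ¬ IsUnit y.2 := fun h3 => by
      rw [← hy.2, D.N_mul, D.N_eq_one.2 h3, mul_one] at h
      exact absurd hU (not_le.2 h)
    rw [E, if_neg h2, sub_zero, mul_sum]
    refine sum_congr rfl fun d _ => ?_
    rw [← hy.2, mul_dvd_mul_iff_left hy.1.1, mul_ite, mul_zero]
  · exact zero_mul _

theorem vaughan {U : ℝ} (hU : 1 ≤ U) {x : D.O} (h : U < D.N x) : D.Λ x =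
    (∑ d ∈ D.DU U, if d ∣ x then D.μ d * (Real.log (D.N x) - Real.log (D.N d)) else 0) -
    (∑ c ∈ D.DU U, ∑ d ∈ D.DU U, if c * d ∣ x then D.Λ c * D.μ d else 0) -
    ∑ y ∈ D.pr x, (if U < D.N y.1 then D.Λ y.1 else 0) * D.E U y.2 := by
  have h0 : x ≠ 0 := by
    rintro rfl
    rw [D.N_eq_zero.2 rfl, Nat.cast_zero] at h
    linarith
  have h1 : ∑ y ∈ D.pr x, D.Λ y.1 * D.E U y.2 =
      (∑ d ∈ D.DU U, if d ∣ x then D.μ d * (Real.log (D.N x) - Real.log (D.N d)) else 0) -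
        D.Λ x := by
    simp only [E, mul_sub (D.Λ _), sum_sub_distrib]
    rw [D.vab_unit h0]
    congr 1
    simp only [mul_sum]
    rw [sum_comm]
    refine sum_congr rfl fun d _ => ?_
    have h2 := congrArg (D.μ d * ·) (D.vab_log (d := d) h0)
    simp only [mul_sum, mul_ite, mul_zero] at h2 ⊢
    rw [← h2]
    exact sum_congr rfl fun y _ => by rw [mul_comm]
  have h2 : ∑ y ∈ D.pr x, D.Λ y.1 * D.E U y.2 =
      ∑ y ∈ D.pr x, (if (D.N y.1 : ℝ) ≤ U then D.Λ y.1 else 0) * D.E U y.2 +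
        ∑ y ∈ D.pr x, (if U < D.N y.1 then D.Λ y.1 else 0) * D.E U y.2 := by
    rw [← sum_add_distrib]
    refine sum_congr rfl fun y _ => ?_
    by_cases h3 : (D.N y.1 : ℝ) ≤ U
    · rw [if_pos h3, if_neg (not_lt.2 h3), zero_mul, add_zero]
    · rw [if_neg h3, if_pos (not_le.1 h3), zero_mul, zero_add]
  rw [D.vab_small h0 h] at h2
  linarith

end Dat

end Pool.Agent.Spin
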