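import Pool.Agent.Lib.MP_696deb_nt.Spin.T1
import Pool.Agent.Lib.MP_696deb_nt.Spin.T2
import Pool.Agent.Lib.MP_696deb_nt.Spin.VA

/-! The weighted sum of the spin over primes. -/

set_option autoImplicit false

open scoped Classical
open Finset Filter Topology

namespace Pool.Agent.Spin

theorem an_lim (c0 c1 : ℝ) {a : ℝ} (ha : 0 < a) :
    Tendsto (fun Y : ℝ => (c0 + c1 * Real.log Y) * Y ^ (-a)) atTop (𝓝 0) := by
  have h1 := tendsto_rpow_neg_atTop ha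
  have h2 : Tendsto (fun Y : ℝ => Real.log Y * Y ^ (-a)) atTop (𝓝 0) := by
    refine (isLittleO_log_rpow_atTop ha).tendsto_div_nhds_zero.congr' ?_
    filter_upwards [eventually_gt_atTop 0] with Y hY
    rw [Real.rpow_neg hY.le, div_eq_mul_inv]
  have h3 := (h1.const_mul c0).add (h2.const_mul c1)
  rw [mul_zero, mul_zero, add_zero] at h3
  exact h3.congr fun Y => by ring

theorem an_sq {f : ℝ → ℝ} (c0 c1 : ℝ) {a : ℝ} (ha : 0 < a)
    (h : ∀ Y : ℝ, 1 ≤ Y → |f Y| ≤ (c0 + c1 * Real.log Y) * Y ^ (6 - a)) :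
    Tendsto (fun Y : ℝ => f Y / Y ^ 6) atTop (𝓝 0) := by
  refine squeeze_zero_norm' ?_ (an_lim c0 c1 ha)
  filter_upwards [eventually_ge_atTop 1] with Y hY
  have y0 : 0 < Y := by linarith
  have y6 : 0 < Y ^ 6 := by positivity
  have e : Y ^ (6 - a) = Y ^ (-a) * Y ^ 6 := by
    rw [← Real.rpow_natCast, ← Real.rpow_add y0]
    congr 1
    push_cast
    ring
  rw [Real.norm_eq_abs, abs_div, abs_of_pos y6, div_le_iff₀ y6, mul_assoc, ← e]
  exact h Y hY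

namespace Dat

variable (D : Dat)

theorem an_one_le {d : D.O} (h : d ≠ 0) : (1 : ℝ) ≤ D.N d := by
  exact_mod_cast Nat.one_le_iff_ne_zero.2 fun h0 => h (D.N_eq_zero.1 h0)

theorem an_log {Y : ℝ} (hY : 1 ≤ Y) {d : D.O} (h : d ∈ D.DU (Y ^ (1 / 4000 : ℝ))) :
    0 ≤ Real.log (D.N d) ∧ Real.log (D.N d) ≤ Real.log Y := by
  obtain ⟨h1, h2⟩ := D.mem_DU.1 h
  have h3 := D.an_one_le h1.1
  refine ⟨Real.log_nonneg h3, Real.log_le_log (by linarith) (h2.trans ?_)⟩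
  exact Real.rpow_le_self_of_one_le hY (by norm_num)

theorem an_A {L R : ℝ} {W W' : V → ℝ} {κ : D.O → ℝ} (hR : 1 ≤ R) (hW : Wt L R W)
    (hW' : Wt L R W') (hκ : D.Per κ) :
    Tendsto (fun Y : ℝ => (∑ d ∈ D.DU (Y ^ (1 / 4000 : ℝ)), D.μ d *
      ((6 * Real.log Y - Real.log (D.N d)) * D.S W R Y (fun x => if d ∣ x then D.sp κ x else 0) +
        D.S W' R Y fun x => if d ∣ x then D.sp κ x else 0)) / Y ^ 6) atTop (𝓝 0) := by
  obtain ⟨C, H⟩ := D.type_one L R hR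
  obtain ⟨K, hK, HK⟩ := D.card_DU
  refine an_sq (K * |C|) (6 * K * |C|) (a := 1 / 2000) (by norm_num) fun Y hY => ?_
  have y0 : 0 < Y := by linarith
  have l0 := Real.log_nonneg hY
  have u1 : 1 ≤ Y ^ (1 / 4000 : ℝ) := Real.one_le_rpow hY (by norm_num)
  have p0 : 0 ≤ |C| * Y ^ (6 - 1 / 1200 : ℝ) := by positivity
  refine (abs_sum_le_sum_abs _ _).trans
    ((sum_le_card_nsmul _ _ ((1 + 6 * Real.log Y) * (|C| * Y ^ (6 - 1 / 1200 : ℝ)))
      fun d hd => ?_).trans ?_)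
  · obtain ⟨h1, h2⟩ := D.mem_DU.1 hd
    obtain ⟨h3, h4⟩ := D.an_log hY hd
    have h5 : (D.N d : ℝ) ≤ Y ^ (1 / 100 : ℝ) :=
      h2.trans (Real.rpow_le_rpow_of_exponent_le hY (by norm_num))
    have h6 : C * Y ^ (6 - 1 / 1200 : ℝ) ≤ |C| * Y ^ (6 - 1 / 1200 : ℝ) :=
      mul_le_mul_of_nonneg_right (le_abs_self C) (by positivity)
    have a1 := (H W κ Y d hW hκ hY h1.1 h5).trans h6
    have a2 := (H W' κ Y d hW' hκ hY h1.1 h5).trans h6
    have a3 : |6 * Real.log Y - Real.log (D.N d)| ≤ 6 * Real.log Y := by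
      rw [abs_le]; constructor <;> linarith
    rw [abs_mul]
    refine (mul_le_of_le_one_left (abs_nonneg _) (D.μ_abs d)).trans ((abs_add_le _ _).trans ?_)
    rw [abs_mul]
    have a4 := mul_le_mul a3 a1 (abs_nonneg _) (by linarith)
    linarith
  · rw [nsmul_eq_mul]
    refine (mul_le_mul_of_nonneg_right (HK _ u1) (by positivity)).trans ?_
    have e : Y ^ (1 / 4000 : ℝ) * Y ^ (6 - 1 / 1200 : ℝ) ≤ Y ^ (6 - 1 / 2000 : ℝ) := by
      rw [← Real.rpow_add y0]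
      exact Real.rpow_le_rpow_of_exponent_le hY (by norm_num)
    have k0 : 0 ≤ K * |C| + 6 * K * |C| * Real.log Y := by positivity
    have := mul_le_mul_of_nonneg_left e k0
    linarith

theorem an_B {L R : ℝ} {W : V → ℝ} {κ : D.O → ℝ} (hR : 1 ≤ R) (hW : Wt L R W) (hκ : D.Per κ) :
    Tendsto (fun Y : ℝ => (∑ c ∈ D.DU (Y ^ (1 / 4000 : ℝ)), ∑ d ∈ D.DU (Y ^ (1 / 4000 : ℝ)),
      D.Λ c * D.μ d * D.S W R Y fun x => if c * d ∣ x then D.sp κ x else 0) / Y ^ 6)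
      atTop (𝓝 0) := by
  obtain ⟨C, H⟩ := D.type_one L R hR
  obtain ⟨K, hK, HK⟩ := D.card_DU
  refine an_sq 0 (K * K * |C|) (a := 1 / 3000) (by norm_num) fun Y hY => ?_
  have y0 : 0 < Y := by linarith
  have l0 := Real.log_nonneg hY
  have u1 : 1 ≤ Y ^ (1 / 4000 : ℝ) := Real.one_le_rpow hY (by norm_num)
  have p0 : 0 ≤ |C| * Y ^ (6 - 1 / 1200 : ℝ) := by positivity
  refine (abs_sum_le_sum_abs _ _).trans
    ((sum_le_card_nsmul _ _ (K * Y ^ (1 / 4000 : ℝ) * (Real.log Y * (|C| * Y ^ (6 - 1 / 1200 : ℝ))))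
      fun c hc => (abs_sum_le_sum_abs _ _).trans ((sum_le_card_nsmul _ _
        (Real.log Y * (|C| * Y ^ (6 - 1 / 1200 : ℝ))) fun d hd => ?_).trans ?_)).trans ?_)
  · obtain ⟨h1, h2⟩ := D.mem_DU.1 hc
    obtain ⟨h1', h2'⟩ := D.mem_DU.1 hd
    obtain ⟨h3, h4⟩ := D.an_log hY hc
    have h5 : (D.N (c * d) : ℝ) ≤ Y ^ (1 / 100 : ℝ) := by
      rw [D.N_mul]
      push_cast
      refine (mul_le_mul h2 h2' (by positivity) (by positivity)).trans ?_
      rw [← Real.rpow_add y0]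
      exact Real.rpow_le_rpow_of_exponent_le hY (by norm_num)
    have h6 : C * Y ^ (6 - 1 / 1200 : ℝ) ≤ |C| * Y ^ (6 - 1 / 1200 : ℝ) :=
      mul_le_mul_of_nonneg_right (le_abs_self C) (by positivity)
    have a1 := (H W κ Y (c * d) hW hκ hY (mul_ne_zero h1.1 h1'.1) h5).trans h6
    have a3 : |D.Λ c * D.μ d| ≤ Real.log Y := by
      rw [abs_mul, abs_of_nonneg (D.Λ_nonneg c)]
      exact (mul_le_of_le_one_right (D.Λ_nonneg c) (D.μ_abs d)).trans ((D.Λ_le c).trans h4)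
    rw [abs_mul]
    exact mul_le_mul a3 a1 (abs_nonneg _) l0
  · rw [nsmul_eq_mul]
    exact mul_le_mul_of_nonneg_right (HK _ u1) (by positivity)
  · rw [nsmul_eq_mul]
    refine (mul_le_mul_of_nonneg_right (HK _ u1) (by positivity)).trans (le_of_eq ?_)
    have e : Y ^ (1 / 4000 : ℝ) * Y ^ (1 / 4000 : ℝ) * Y ^ (6 - 1 / 1200 : ℝ) =
        Y ^ (6 - 1 / 3000 : ℝ) := by
      rw [← Real.rpow_add y0, ← Real.rpow_add y0]
      norm_num
    rw [← e]
    ring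

theorem an_C {L R : ℝ} {W : V → ℝ} {κ : D.O → ℝ} (hR : 1 ≤ R) (hW : Wt L R W) (hκ : D.Per κ) :
    Tendsto (fun Y : ℝ => (D.S W R Y fun x => D.sp κ x * ∑ y ∈ D.pr x,
      (if Y ^ (1 / 4000 : ℝ) < D.N y.1 then D.Λ y.1 else 0) * D.E (Y ^ (1 / 4000 : ℝ)) y.2) / Y ^ 6)
      atTop (𝓝 0) := by
  obtain ⟨δ, hδ, H⟩ := D.type_two (δ := 1 / 4000) (by norm_num)
  obtain ⟨C, H⟩ := H L R hR
  obtain ⟨K, hK, HK⟩ := D.tau_le (ε := δ / 12) (by positivity)
  have r0 : 0 < R := by linarith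
  refine an_sq ((1 + 6 * Real.log R) * ((K * R ^ (δ / 2) + 1) * |C|))
    (6 * ((K * R ^ (δ / 2) + 1) * |C|)) (a := δ / 2) (by positivity) fun Y hY => ?_
  have y0 : 0 < Y := by linarith
  have l0 := Real.log_nonneg hY
  have l1 := Real.log_nonneg hR
  have t1 : 1 ≤ Y ^ (δ / 2) := Real.one_le_rpow hY (by positivity)
  obtain ⟨U, hU⟩ : ∃ U, U = Y ^ (1 / 4000 : ℝ) := ⟨_, rfl⟩
  obtain ⟨K1, hK1⟩ : ∃ K1, K1 = 1 + 6 * Real.log R + 6 * Real.log Y := ⟨_, rfl⟩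
  obtain ⟨K2, hK2⟩ : ∃ K2, K2 = (K * R ^ (δ / 2) + 1) * Y ^ (δ / 2) := ⟨_, rfl⟩
  have k1 : 0 < K1 := by rw [hK1]; positivity
  have k2 : 0 < K2 := by rw [hK2]; positivity
  have a1 := H W κ (fun m => if U < D.N m ∧ (D.N m : ℝ) ≤ (R * Y) ^ 6 then D.Λ m / K1 else 0)
    (fun n => if n ≠ 0 ∧ (D.N n : ℝ) ≤ (R * Y) ^ 6 then D.E U n / K2 else 0) Y hW hκ hY
    (fun m => by
      split_ifs with h
      · rw [abs_div, abs_of_pos k1, div_le_one k1, abs_of_nonneg (D.Λ_nonneg m)]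
        have b0 : (0 : ℝ) < D.N m := lt_trans (by rw [hU]; positivity) h.1
        have b1 := Real.log_le_log b0 h.2
        rw [Real.log_pow, Real.log_mul r0.ne' y0.ne'] at b1
        have b2 := D.Λ_le m
        push_cast at b1
        linarith
      · simp)
    (fun n => by
      split_ifs with h
      · rw [abs_div, abs_of_pos k2, div_le_one k2]
        have b1 := D.E_abs U h.1
        have b2 := HK n h.1
        have b3 : (D.N n : ℝ) ^ (δ / 12) ≤ R ^ (δ / 2) * Y ^ (δ / 2) := by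
          refine (Real.rpow_le_rpow (by positivity) h.2 (by positivity)).trans (le_of_eq ?_)
          rw [← Real.mul_rpow r0.le y0.le, ← Real.rpow_natCast, ← Real.rpow_mul (by positivity)]
          congr 1
          push_cast
          ring
        have b4 := mul_le_mul_of_nonneg_left b3 (by linarith : 0 ≤ K)
        rw [hK2]
        linarith
      · simp)
    (fun m h => by
      by_contra h'
      exact h (if_neg fun h'' => h' (hU ▸ h''.1)))
    (fun n h => by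
      by_contra h'
      refine h ?_
      split_ifs with h''
      · rw [D.E_zero h''.1 (hU ▸ not_lt.1 h'), zero_div]
      · rfl)
  have e1 : (D.S W R Y fun x => D.sp κ x * ∑ y ∈ D.pr x,
      (if U < D.N y.1 then D.Λ y.1 else 0) * D.E U y.2) = K1 * K2 * D.S W R Y fun x =>
      D.sp κ x * ∑ y ∈ D.pr x,
        (if U < D.N y.1 ∧ (D.N y.1 : ℝ) ≤ (R * Y) ^ 6 then D.Λ y.1 / K1 else 0) *
        (if y.2 ≠ 0 ∧ (D.N y.2 : ℝ) ≤ (R * Y) ^ 6 then D.E U y.2 / K2 else 0) := by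
    rw [S, S, mul_sum]
    refine sum_congr rfl fun x hx => ?_
    by_cases hx0 : κ x = 0
    · simp [sp, hx0]
    have x0 := D.ne_zero_of_cop (hκ.cop x hx0)
    have xN : (D.N x : ℝ) ≤ (R * Y) ^ 6 :=
      (D.N_le x).trans (pow_le_pow_left₀ (D.sz_nonneg x) (D.mem_ball.1 hx) 6)
    rw [mul_left_comm (K1 * K2), mul_left_comm (K1 * K2), mul_sum _ _ (K1 * K2)]
    congr 2
    refine sum_congr rfl fun y hy => ?_
    obtain ⟨c1, c2⟩ := (D.mem_pr x0).1 hy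
    have c3 : y.2 ≠ 0 := fun h => x0 (by rw [← c2, h, mul_zero])
    have c4 := D.an_one_le c1.1
    have c5 := D.an_one_le c3
    have c6 : (D.N y.1 : ℝ) * D.N y.2 = D.N x := by rw [← c2, D.N_mul]; push_cast; rfl
    have c7 : (D.N y.1 : ℝ) ≤ (R * Y) ^ 6 := by nlinarith
    have c8 : (D.N y.2 : ℝ) ≤ (R * Y) ^ 6 := by nlinarith
    rw [if_pos (⟨c3, c8⟩ : y.2 ≠ 0 ∧ _)]
    by_cases c9 : U < D.N y.1
    · rw [if_pos c9, if_pos ⟨c9, c7⟩]
      field_simp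
    · rw [if_neg c9, if_neg fun h => c9 h.1]
      ring
  rw [← hU, e1, abs_mul, abs_of_pos (mul_pos k1 k2)]
  have h6 : C * Y ^ (6 - δ) ≤ |C| * Y ^ (6 - δ) :=
    mul_le_mul_of_nonneg_right (le_abs_self C) (by positivity)
  refine (mul_le_mul_of_nonneg_left (a1.trans h6) (mul_pos k1 k2).le).trans (le_of_eq ?_)
  have e : Y ^ (δ / 2) * Y ^ (6 - δ) = Y ^ (6 - δ / 2) := by
    rw [← Real.rpow_add y0]
    congr 1
    ring
  rw [← e, hK1, hK2]
  ring

theorem an_split {R n0 Y U : ℝ} {W : V → ℝ} {κ : D.O → ℝ}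
    (hn : ∀ z, W z ≠ 0 → n0 ≤ nV z) (hY : 0 < Y) (hU : 1 ≤ U) (hU' : U < n0 * Y ^ 6) :
    D.S W R Y (fun x => D.Λ x * D.sp κ x) =
      (∑ d ∈ D.DU U, D.μ d *
        ((6 * Real.log Y - Real.log (D.N d)) * D.S W R Y (fun x => if d ∣ x then D.sp κ x else 0) +
          D.S (fun z => W z * Real.log (nV z)) R Y fun x => if d ∣ x then D.sp κ x else 0)) -
      (∑ c ∈ D.DU U, ∑ d ∈ D.DU U,
        D.Λ c * D.μ d * D.S W R Y fun x => if c * d ∣ x then D.sp κ x else 0) -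
      D.S W R Y fun x => D.sp κ x * ∑ y ∈ D.pr x,
        (if U < D.N y.1 then D.Λ y.1 else 0) * D.E U y.2 := by
  have y6 : 0 < Y ^ 6 := by positivity
  have eA : (∑ d ∈ D.DU U, D.μ d *
      ((6 * Real.log Y - Real.log (D.N d)) * D.S W R Y (fun x => if d ∣ x then D.sp κ x else 0) +
        D.S (fun z => W z * Real.log (nV z)) R Y fun x => if d ∣ x then D.sp κ x else 0)) =
      ∑ x ∈ D.ball (R * Y), W (Y⁻¹ • D.e x) * D.sp κ x * ∑ d ∈ D.DU U, if d ∣ x then D.μ d *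
        (6 * Real.log Y + Real.log (nV (Y⁻¹ • D.e x)) - Real.log (D.N d)) else 0 := by
    simp only [S, mul_sum, ← sum_add_distrib]
    rw [sum_comm]
    refine sum_congr rfl fun x _ => sum_congr rfl fun d _ => ?_
    split_ifs <;> ring
  have eB : (∑ c ∈ D.DU U, ∑ d ∈ D.DU U,
      D.Λ c * D.μ d * D.S W R Y fun x => if c * d ∣ x then D.sp κ x else 0) =
      ∑ x ∈ D.ball (R * Y), W (Y⁻¹ • D.e x) * D.sp κ x *
        ∑ c ∈ D.DU U, ∑ d ∈ D.DU U, if c * d ∣ x then D.Λ c * D.μ d else 0 := by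
    simp only [S, mul_sum]
    rw [sum_comm (s := D.ball (R * Y))]
    refine sum_congr rfl fun c _ => ?_
    rw [sum_comm]
    refine sum_congr rfl fun x _ => sum_congr rfl fun d _ => ?_
    split_ifs <;> ring
  rw [eA, eB, S, S, ← sum_sub_distrib, ← sum_sub_distrib]
  refine sum_congr rfl fun x _ => ?_
  by_cases hw : W (Y⁻¹ • D.e x) = 0
  · simp [hw]
  have a1 := hn _ hw
  have a2 := D.nV_smul hY x
  have a3 : U < D.N x := by
    rw [a2, le_div_iff₀ y6] at a1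
    linarith
  have a4 : 6 * Real.log Y + Real.log (nV (Y⁻¹ • D.e x)) = Real.log (D.N x) := by
    rw [a2, Real.log_div (by linarith) y6.ne', Real.log_pow]
    push_cast
    ring
  rw [a4, D.vaughan hU a3]
  ring

theorem an_main {L R n0 : ℝ} {W : V → ℝ} {κ : D.O → ℝ} (hR : 1 ≤ R) (hW : Wt L R W)
    (hW' : Wt L R fun z => W z * Real.log (nV z)) (h0 : 0 < n0) (hn : ∀ z, W z ≠ 0 → n0 ≤ nV z)
    (hκ : D.Per κ) :
    Tendsto (fun Y : ℝ => D.S W R Y (fun x => D.Λ x * D.sp κ x) / Y ^ 6) atTop (𝓝 0) := by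
  have h := ((D.an_A hR hW hW' hκ).sub (D.an_B hR hW hκ)).sub (D.an_C hR hW hκ)
  rw [sub_zero, sub_zero] at h
  refine h.congr' ?_
  filter_upwards [eventually_ge_atTop 1, eventually_gt_atTop n0⁻¹] with Y hY hY'
  have y0 : 0 < Y := by linarith
  have u1 : Y ^ (1 / 4000 : ℝ) ≤ Y := Real.rpow_le_self_of_one_le hY (by norm_num)
  have u2 : Y < n0 * Y ^ 6 := by
    have b1 : 1 < n0 * Y := by
      rw [inv_lt_iff_one_lt_mul₀' h0] at hY'
      exact hY'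
    have b2 : Y ^ 2 ≤ Y ^ 6 := pow_le_pow_right₀ hY (by norm_num)
    nlinarith
  rw [D.an_split hn y0 (Real.one_le_rpow hY (by norm_num)) (u1.trans_lt u2), sub_div, sub_div]

end Dat

end Pool.Agent.Spin
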