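import Pool.Agent.Lib.MP_696deb_nt.Spin.MS

/-! The bilinear bound. -/

set_option autoImplicit false

open scoped Classical
open Finset Filter Topology

namespace Pool.Agent.Spin

namespace Dat

variable (D : Dat)

theorem bi_pow (s s' : Finset D.O) (α β : D.O → ℝ) (h0 : ∀ n ∈ s', n ≠ 0) (hα : ∀ m, |α m| ≤ 1)
    (hβ : ∀ n, |β n| ≤ 1) :
    |∑ m ∈ s, ∑ n ∈ s', α m * β n * D.G m n| ^ 14 ≤ (s.card : ℝ) ^ 13 *
      ∑ f ∈ Fintype.piFinset fun _ : Fin 14 => s', |∑ m ∈ s, (D.G m (∏ i, f i) : ℝ)| := by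
  have h1 : |∑ m ∈ s, ∑ n ∈ s', α m * β n * D.G m n| ≤
      ∑ m ∈ s, |∑ n ∈ s', β n * (D.G m n : ℝ)| := by
    refine (abs_sum_le_sum_abs _ _).trans (sum_le_sum fun m _ => ?_)
    simp only [mul_assoc, ← mul_sum, abs_mul]
    exact mul_le_of_le_one_left (abs_nonneg _) (hα m)
  refine (pow_le_pow_left₀ (abs_nonneg _) h1 14).trans
    ((pow_sum_le_card_mul_sum_pow (fun _ _ => abs_nonneg _) 13).trans ?_)
  refine mul_le_mul_of_nonneg_left ?_ (by positivity)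
  have h2 : ∀ m, |∑ n ∈ s', β n * (D.G m n : ℝ)| ^ (13 + 1) =
      ∑ f ∈ Fintype.piFinset fun _ : Fin 14 => s', (∏ i, β (f i)) * (D.G m (∏ i, f i) : ℝ) := by
    intro m
    rw [Even.pow_abs (by decide), sum_pow']
    refine sum_congr rfl fun f hf => ?_
    rw [prod_mul_distrib, D.G_prod m univ f fun i _ => h0 _ (Fintype.mem_piFinset.1 hf i),
      Int.cast_prod]
  simp only [h2]
  rw [sum_comm]
  refine sum_le_sum fun f _ => ?_
  rw [← mul_sum]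
  refine (le_abs_self _).trans ?_
  rw [abs_mul, abs_prod]
  exact mul_le_of_le_one_left (abs_nonneg _)
    (prod_le_one (fun _ _ => abs_nonneg _) fun _ _ => hβ _)

theorem bi_sq {ε : ℝ} (h : 0 < ε) : ∃ C : ℝ, 1 ≤ C ∧ ∀ (A B : ℝ) (s s' : Finset D.O), 1 ≤ A →
    A ≤ B → (∀ m ∈ s, D.sz m ≤ A ∧ IsCoprime m (D.M : D.O)) →
    (∀ n ∈ s', D.sz n ≤ B ∧ IsCoprime n (D.M : D.O)) →
    ∑ f ∈ Fintype.piFinset fun _ : Fin 14 => s', |∑ m ∈ s, (D.G m (∏ i, f i) : ℝ)| ^ 2 ≤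
      C * (B ^ ε) ^ 28 * (A ^ 10 * B ^ 84) := by
  obtain ⟨C2, hC2, H2⟩ := D.mean_sq
  obtain ⟨C3, hC3, H3⟩ := D.div_le (ε := ε / 7) (by positivity)
  refine ⟨C3 ^ 14 * C2, one_le_mul_of_one_le_of_one_le (one_le_pow₀ hC3) hC2,
    fun A B s s' hA hAB hs hs' => ?_⟩
  have hB : 1 ≤ B := hA.trans hAB
  have hB0 : 0 < B := by linarith
  have hB1 : B ≤ B ^ 14 := le_self_pow₀ hB (by decide)
  have him : ∀ n ∈ (Fintype.piFinset fun _ : Fin 14 => s').image fun f => ∏ i, f i,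
      D.sz n ≤ B ^ 14 ∧ IsCoprime n (D.M : D.O) := by
    intro n hn
    obtain ⟨f, hf, rfl⟩ := mem_image.1 hn
    refine ⟨?_, IsCoprime.prod_left fun i _ => (hs' _ (Fintype.mem_piFinset.1 hf i)).2⟩
    simpa using D.sz_prod_le univ f fun i _ => (hs' _ (Fintype.mem_piFinset.1 hf i)).1
  have h1 := H2 A (B ^ 14) s _ (fun _ => 1) hA
    ((pow_le_pow_left₀ (by linarith) hAB 12).trans (pow_le_pow_right₀ hB (by decide))) hs him
    (fun _ => by simp)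
  simp only [one_mul] at h1
  simp only [sq_abs]
  rw [sum_comp (fun n => (∑ m ∈ s, (D.G m n : ℝ)) ^ 2) fun f : Fin 14 → D.O => ∏ i, f i]
  have e : (B ^ 14) ^ (ε / 7) = (B ^ ε) ^ 2 := by
    rw [← Real.rpow_natCast, ← Real.rpow_mul hB0.le, ← Real.rpow_natCast, ← Real.rpow_mul hB0.le]
    congr 1
    push_cast
    ring
  calc _ ≤ ∑ n ∈ (Fintype.piFinset fun _ : Fin 14 => s').image fun f => ∏ i, f i,
        (C3 * (B ^ ε) ^ 2) ^ 14 * (∑ m ∈ s, (D.G m n : ℝ)) ^ 2 := by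
        refine sum_le_sum fun n hn => ?_
        rw [nsmul_eq_mul]
        refine mul_le_mul_of_nonneg_right ?_ (sq_nonneg _)
        have h2 := H3 (B ^ 14) (hB.trans hB1) n (D.ne_zero_of_cop (him n hn).2) (him n hn).1
        rw [e] at h2
        refine le_trans ?_ (pow_le_pow_left₀ (Nat.cast_nonneg _) h2 14)
        have h3 : ((Fintype.piFinset fun _ : Fin 14 => s').filter fun f => ∏ i, f i = n) ⊆
            Fintype.piFinset fun _ : Fin 14 => (D.ball (B ^ 14)).filter fun y => y ∣ n := by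
          intro f hf
          obtain ⟨hg, rfl⟩ := mem_filter.1 hf
          exact Fintype.mem_piFinset.2 fun i => mem_filter.2
            ⟨D.mem_ball.2 ((hs' _ (Fintype.mem_piFinset.1 hg i)).1.trans hB1),
              dvd_prod_of_mem _ (mem_univ i)⟩
        have h4 := card_le_card h3
        rw [Fintype.card_piFinset_const] at h4
        exact_mod_cast h4
    _ ≤ (C3 * (B ^ ε) ^ 2) ^ 14 * (C2 * A ^ 10 * (B ^ 14) ^ 6) := by
        rw [← mul_sum]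
        exact mul_le_mul_of_nonneg_left h1 (by positivity)
    _ = _ := by ring

theorem bi_le {ε : ℝ} (h : 0 < ε) : ∃ C : ℝ, 1 ≤ C ∧ ∀ (A B : ℝ) (s s' : Finset D.O)
    (α β : D.O → ℝ), 1 ≤ A → A ≤ B → (∀ m ∈ s, D.sz m ≤ A ∧ IsCoprime m (D.M : D.O)) →
    (∀ n ∈ s', D.sz n ≤ B ∧ IsCoprime n (D.M : D.O)) → (∀ m, |α m| ≤ 1) → (∀ n, |β n| ≤ 1) →
    |∑ m ∈ s, ∑ n ∈ s', α m * β n * D.G m n| ≤
      C * (A * B) ^ 6 * (A * B) ^ ε / A ^ (1 / 14 : ℝ) := by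
  obtain ⟨C1, hC1, H1⟩ := D.card_ball
  obtain ⟨C2, hC2, H2⟩ := D.bi_sq h
  refine ⟨C1 ^ 2 * C2, one_le_mul_of_one_le_of_one_le (one_le_pow₀ hC1) hC2,
    fun A B s s' α β hA hAB hs hs' hα hβ => ?_⟩
  have hB : 1 ≤ B := hA.trans hAB
  have hA0 : 0 < A := by linarith
  have hB0 : 0 < B := by linarith
  have c1 : (s.card : ℝ) ≤ C1 * A ^ 6 :=
    (Nat.cast_le.2 (card_le_card fun m hm => D.mem_ball.2 (hs m hm).1)).trans (H1 A hA)
  have c2 : (s'.card : ℝ) ≤ C1 * B ^ 6 :=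
    (Nat.cast_le.2 (card_le_card fun m hm => D.mem_ball.2 (hs' m hm).1)).trans (H1 B hB)
  have h1 := D.bi_pow s s' α β (fun n hn => D.ne_zero_of_cop (hs' n hn).2) hα hβ
  have h2 := (sq_sum_le_card_mul_sum_sq (s := Fintype.piFinset fun _ : Fin 14 => s')
    (f := fun f => |∑ m ∈ s, (D.G m (∏ i, f i) : ℝ)|)).trans
    (mul_le_mul_of_nonneg_left (H2 A B s s' hA hAB hs hs') (Nat.cast_nonneg _))
  rw [Fintype.card_piFinset_const, Nat.cast_pow] at h2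
  have h3 : B ^ ε ≤ (A * B) ^ ε :=
    Real.rpow_le_rpow hB0.le (le_mul_of_one_le_left hB0.le hA) h.le
  have e : (A ^ (1 / 14 : ℝ)) ^ 28 = A ^ 2 := by
    rw [← Real.rpow_natCast, ← Real.rpow_mul hA0.le, ← Real.rpow_natCast]
    congr 1
    norm_num
  refine le_of_pow_le_pow_left₀ (n := 28) (by decide) (by positivity) ?_
  rw [div_pow, e, le_div_iff₀ (by positivity)]
  have k1 : C1 ^ 40 * C2 ≤ (C1 ^ 2 * C2) ^ 28 := by
    rw [mul_pow, ← pow_mul]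
    exact mul_le_mul (pow_le_pow_right₀ hC1 (by decide)) (le_self_pow₀ hC2 (by decide))
      (by linarith) (by positivity)
  calc _ = (|∑ m ∈ s, ∑ n ∈ s', α m * β n * D.G m n| ^ 14) ^ 2 * A ^ 2 := by
        rw [← pow_mul]
    _ ≤ ((s.card : ℝ) ^ 13) ^ 2 * ((s'.card : ℝ) ^ 14 *
        (C2 * (B ^ ε) ^ 28 * (A ^ 10 * B ^ 84))) * A ^ 2 := by
        refine mul_le_mul_of_nonneg_right ((pow_le_pow_left₀ (by positivity) h1 2).trans ?_)
          (by positivity)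
        rw [mul_pow]
        exact mul_le_mul_of_nonneg_left h2 (by positivity)
    _ ≤ ((C1 * A ^ 6) ^ 13) ^ 2 * ((C1 * B ^ 6) ^ 14 *
        (C2 * ((A * B) ^ ε) ^ 28 * (A ^ 10 * B ^ 84))) * A ^ 2 := by gcongr
    _ = (C1 ^ 40 * C2) * (((A * B) ^ 6) ^ 28 * ((A * B) ^ ε) ^ 28) := by
        generalize (A * B) ^ ε = x
        ring
    _ ≤ (C1 ^ 2 * C2) ^ 28 * (((A * B) ^ 6) ^ 28 * ((A * B) ^ ε) ^ 28) :=
        mul_le_mul_of_nonneg_right k1 (by positivity)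
    _ = _ := by rw [mul_pow _ ((A * B) ^ ε), mul_pow _ ((A * B) ^ 6), mul_assoc]

theorem bil {ε : ℝ} (h : 0 < ε) : ∃ C : ℝ, 1 ≤ C ∧ ∀ (A B : ℝ) (s s' : Finset D.O)
    (α β : D.O → ℝ), 1 ≤ A → 1 ≤ B → (∀ m ∈ s, D.sz m ≤ A ∧ IsCoprime m (D.M : D.O)) →
    (∀ n ∈ s', D.sz n ≤ B ∧ IsCoprime n (D.M : D.O)) → (∀ m, |α m| ≤ 1) → (∀ n, |β n| ≤ 1) →
    |∑ m ∈ s, ∑ n ∈ s', α m * β n * D.G m n| ≤
      C * (A * B) ^ 6 * (A * B) ^ ε / min A B ^ (1 / 14 : ℝ) := by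
  obtain ⟨C, hC, H⟩ := D.bi_le h
  refine ⟨C, hC, fun A B s s' α β hA hB hs hs' hα hβ => ?_⟩
  rcases le_total A B with hAB | hAB
  · rw [min_eq_left hAB]
    exact H A B s s' α β hA hAB hs hs' hα hβ
  · have h1 := H B A s' s β α hB hAB hs' hs hβ hα
    rw [min_eq_right hAB, mul_comm A B, sum_comm]
    simpa only [D.G_comm, mul_comm (α _)] using h1

end Dat

end Pool.Agent.Spin
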