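import Pool.Agent.Lib.MP_696deb_nt.Spin.Z1
import Pool.Agent.Shared.Weil.Stepanov

/-! The moment of short sums of Jacobi symbols. -/

set_option autoImplicit false

open scoped Classical
open Finset Filter Topology

namespace Pool.Agent.Spin

theorem we_field {F : Type} [Field F] [Fintype F] {q : ℕ} (hq : Fintype.card F = q)
    (hp : q % 2 = 1) (hL : 24 < q.sqrt) {ι : Type} [Fintype ι] (hι : Fintype.card ι = 24)
    (a : ι → F) (i : ι) (h : ∀ j, j ≠ i → a j ≠ a i) :
    |∑ y, ∏ j, quadraticChar F (y + a j)| ≤ 360 * q.sqrt + 24 := by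
  set O := (univ.image a).filter fun b => Odd (univ.filter fun j => a j = b).card with hO
  set f : Polynomial F := ∏ b ∈ O, (Polynomial.X - Polynomial.C (-b)) with hf
  have hsep : f.Separable :=
    Polynomial.separable_prod_X_sub_C_iff'.2 fun _ _ _ _ e => neg_injective e
  have hd : f.natDegree = O.card := Polynomial.natDegree_finsetProd_X_sub_C_eq_card _ _
  have hA : (univ.image a).card ≤ 24 := card_image_le.trans hι.le
  have hc : O.card ≤ 24 := (card_filter_le _ _).trans hA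
  have hi : a i ∈ O := by
    refine mem_filter.2 ⟨mem_image_of_mem _ (mem_univ _), ?_⟩
    have : (univ.filter fun j => a j = a i) = {i} := by
      ext j
      simp only [mem_filter, mem_univ, true_and, mem_singleton]
      exact ⟨fun e => by_contra fun n => h j n e, fun e => e ▸ rfl⟩
    rw [this]; simp
  have h1 := Pool.Agent.Shared.Weil.abs_quadChar_sum_le hq hp hsep
    (by rw [hd]; exact card_pos.2 ⟨_, hi⟩) (by omega) (by omega)
  have h2 : ∀ y, |∏ j, quadraticChar F (y + a j) - quadraticChar F (f.eval y)| ≤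
      if -y ∈ univ.image a then 1 else 0 := by
    intro y
    split_ifs with hy
    · obtain ⟨j, -, e⟩ := mem_image.1 hy
      rw [prod_eq_zero (mem_univ j) (by rw [e]; simp), zero_sub, abs_neg]
      rcases quadraticChar_isQuadratic F (f.eval y) with e | e | e <;> simp [e]
    · rw [prod_comp (fun b => quadraticChar F (y + b)) a, hf, Polynomial.eval_prod, map_prod, hO,
        prod_filter, abs_nonpos_iff, sub_eq_zero]
      refine prod_congr rfl fun b hb => ?_
      have hb0 : y + b ≠ 0 := fun e => hy (by rwa [neg_eq_of_add_eq_zero_right e])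
      have e2 := quadraticChar_dichotomy hb0
      split_ifs with ho
      · simp only [Polynomial.eval_sub, Polynomial.eval_X, Polynomial.eval_C, sub_neg_eq_add]
        rcases e2 with e | e <;> rw [e]
        · exact one_pow _
        · exact ho.neg_one_pow
      · rcases e2 with e | e <;> rw [e]
        · exact one_pow _
        · exact (Nat.not_odd_iff_even.1 ho).neg_one_pow
  have h3 : ∑ y : F, (if -y ∈ univ.image a then (1 : ℤ) else 0) ≤ 24 := by
    rw [← Equiv.sum_comp (Equiv.neg F)]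
    simp only [Equiv.neg_apply, neg_neg, sum_ite_mem, univ_inter, sum_const, nsmul_eq_mul, mul_one]
    exact_mod_cast hA
  have h4 := ((abs_sum_le_sum_abs _ _).trans (sum_le_sum fun y (_ : y ∈ univ) => h2 y)).trans h3
  rw [sum_sub_distrib] at h4
  have h5 : (f.natDegree : ℤ) * q.sqrt ≤ 24 * q.sqrt := by
    rw [hd]
    exact mul_le_mul_of_nonneg_right (by exact_mod_cast hc) (by positivity)
  have := abs_le.1 h1
  have := abs_le.1 h4
  rw [abs_le]
  constructor <;> linarith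

theorem we_triv (q : ℕ) (τ : Fin 24 → ℕ) :
    |∑ s ∈ range q, ∏ j, (jacobiSym ((s + τ j : ℕ) : ℤ) q : ℝ)| ≤ q := by
  refine (abs_sum_le_sum_abs _ _).trans ((sum_le_card_nsmul _ _ 1 fun s _ => ?_).trans (by simp))
  rw [abs_prod]
  refine prod_le_one (fun _ _ => abs_nonneg _) fun j _ => ?_
  rcases jacobiSym.trichotomy ((s + τ j : ℕ) : ℤ) q with e | e | e <;> rw [e] <;> simp

theorem we_crt {m n : ℕ} (h : m.Coprime n) (hm : m ≠ 0) (hn : n ≠ 0) (f g : ℕ → ℝ)
    (hf : ∀ s, f (s % m) = f s) (hg : ∀ s, g (s % n) = g s) :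
    ∑ s ∈ range (m * n), f s * g s = (∑ s ∈ range m, f s) * ∑ s ∈ range n, g s := by
  rw [sum_mul_sum, ← sum_product']
  refine sum_nbij (fun s => (s % m, s % n)) (fun s _ => ?_) (fun s hs t ht e => ?_)
    (fun y hy => ?_) fun s _ => by rw [hf, hg]
  · exact mem_product.2 ⟨mem_range.2 (Nat.mod_lt _ (by omega)),
      mem_range.2 (Nat.mod_lt _ (by omega))⟩
  · exact ((Nat.modEq_and_modEq_iff_modEq_mul h).1 (Prod.mk.inj e)).eq_of_lt_of_lt
      (mem_range.1 hs) (mem_range.1 ht)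
  · obtain ⟨h1, h2⟩ := mem_product.1 (mem_coe.1 hy)
    refine ⟨Nat.chineseRemainder h y.1 y.2,
      mem_coe.2 (mem_range.2 (Nat.chineseRemainder_lt_mul h _ _ hm hn)), Prod.ext ?_ ?_⟩
    · exact Eq.trans (Nat.chineseRemainder h y.1 y.2).2.1 (Nat.mod_eq_of_lt (mem_range.1 h1))
    · exact Eq.trans (Nat.chineseRemainder h y.1 y.2).2.2 (Nat.mod_eq_of_lt (mem_range.1 h2))

theorem we_mod (q s : ℕ) (τ : Fin 24 → ℕ) :
    ∏ j, (jacobiSym ((s % q + τ j : ℕ) : ℤ) q : ℝ) = ∏ j, (jacobiSym ((s + τ j : ℕ) : ℤ) q : ℝ) := by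
  refine prod_congr rfl fun j _ => congrArg _ (jacobiSym.mod_left' ?_)
  exact_mod_cast (Nat.mod_modEq s q).add_right (τ j)

theorem weil_prime : ∃ K : ℝ, 1 ≤ K ∧ ∀ (p : ℕ) (τ : Fin 24 → ℕ) (i : Fin 24), p.Prime → p ≠ 2 →
    (∀ j, j ≠ i → ¬ τ j ≡ τ i [MOD p]) →
    |∑ s ∈ range p, ∏ j, (jacobiSym ((s + τ j : ℕ) : ℤ) p : ℝ)| ≤ K * √p := by
  refine ⟨400, by norm_num, fun p τ i hp h2 h => ?_⟩
  have h1 : (1 : ℝ) ≤ √p := Real.one_le_sqrt.2 (by exact_mod_cast hp.one_le)
  by_cases hL : 24 < p.sqrt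
  · have := Fact.mk hp
    have h3 := we_field (ZMod.card p) (hp.eq_two_or_odd.resolve_left h2) hL
      (Fintype.card_fin 24) (fun j => (τ j : ZMod p)) i fun j hj e => h j hj ((ZMod.natCast_eq_natCast_iff _ _ _).1 e)
    have e : ∑ s ∈ range p, ∏ j, jacobiSym ((s + τ j : ℕ) : ℤ) p =
        ∑ y : ZMod p, ∏ j, quadraticChar (ZMod p) (y + τ j) := by
      refine sum_nbij (fun s => (s : ZMod p)) (fun _ _ => mem_univ _) (fun s hs t ht e => ?_)
        (fun y _ => ⟨y.val, mem_coe.2 (mem_range.2 y.val_lt), y.natCast_zmod_val⟩)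
        fun s _ => prod_congr rfl fun j _ => ?_
      · exact ((ZMod.natCast_eq_natCast_iff _ _ _).1 e).eq_of_lt_of_lt (mem_range.1 hs)
          (mem_range.1 ht)
      · rw [← jacobiSym.legendreSym.to_jacobiSym, legendreSym]
        push_cast
        congr
    have h4 : |∑ s ∈ range p, ∏ j, jacobiSym ((s + τ j : ℕ) : ℤ) p| ≤ 360 * p.sqrt + 24 := by
      rw [e, show ZMod.decidableEq p = fun a b => Classical.propDecidable (a = b) from
        Subsingleton.elim _ _]
      exact h3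
    have h5 : |∑ s ∈ range p, ∏ j, (jacobiSym ((s + τ j : ℕ) : ℤ) p : ℝ)| ≤ 360 * p.sqrt + 24 := by
      exact_mod_cast h4
    have h6 : (p.sqrt : ℝ) ≤ √p := Real.nat_sqrt_le_real_sqrt
    linarith
  · have h3 : p < 25 * 25 := Nat.sqrt_lt.1 (by omega)
    have h4 : √p ≤ 25 := Real.sqrt_le_iff.2 ⟨by norm_num, by exact_mod_cast (by omega)⟩
    have h5 : √p * √p = p := Real.mul_self_sqrt (Nat.cast_nonneg p)
    have := we_triv p τ
    nlinarith

theorem weil_comp : ∃ K : ℝ, 1 ≤ K ∧ ∀ (q : ℕ) (τ : Fin 24 → ℕ) (i : Fin 24), Odd q →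
    Squarefree q → |∑ s ∈ range q, ∏ j, (jacobiSym ((s + τ j : ℕ) : ℤ) q : ℝ)| ≤
      K ^ q.primeFactors.card * √q *
        ∏ j ∈ univ.erase i, (Int.gcd ((τ j : ℤ) - τ i) q : ℝ) := by
  obtain ⟨K, hK, H⟩ := weil_prime
  refine ⟨K, hK, fun q τ i => ?_⟩
  induction q using induction_on_primes with
  | zero => exact fun h => absurd h (by simp)
  | one => intro _ _; simp
  | prime_mul p a hp ih =>
    intro ho hs
    have hc : p.Coprime a := Nat.coprime_of_squarefree_mul hs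
    have ha : a ≠ 0 := by rintro rfl; simp at ho
    obtain ⟨op, oa⟩ := Nat.odd_mul.1 ho
    have h1 := ih oa hs.of_mul_right
    have s1 : (1 : ℝ) ≤ √p := Real.one_le_sqrt.2 (by exact_mod_cast hp.one_le)
    have g1 : ∀ j, (1 : ℝ) ≤ Int.gcd ((τ j : ℤ) - τ i) p := fun j => by
      exact_mod_cast Int.gcd_pos_of_ne_zero_right _ (by exact_mod_cast hp.ne_zero)
    have h2 : |∑ s ∈ range p, ∏ j, (jacobiSym ((s + τ j : ℕ) : ℤ) p : ℝ)| ≤
        K * √p * ∏ j ∈ univ.erase i, (Int.gcd ((τ j : ℤ) - τ i) p : ℝ) := by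
      by_cases h : ∀ j, j ≠ i → ¬ τ j ≡ τ i [MOD p]
      · refine (H p τ i hp (by rintro rfl; exact absurd op (by decide)) h).trans
          (le_mul_of_one_le_right (by positivity) (one_le_prod fun j _ => g1 j))
      · push Not at h
        obtain ⟨j, hj, h⟩ := h
        have e : Int.gcd ((τ j : ℤ) - τ i) p = p := by
          simpa using Int.gcd_eq_natAbs_right h.symm.dvd
        rw [← mul_prod_erase _ _ (mem_erase.2 ⟨hj, mem_univ j⟩), e]
        refine (we_triv p τ).trans ((le_mul_of_one_le_right (by positivity)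
          (one_le_prod fun j _ => g1 j)).trans
          (le_mul_of_one_le_left (by positivity) (by nlinarith)))
    have e1 : (p * a).primeFactors.card = 1 + a.primeFactors.card := by
      rw [hc.primeFactors_mul, card_union_of_disjoint hc.disjoint_primeFactors, hp.primeFactors,
        card_singleton]
    have e2 : ∀ x : ℤ, Int.gcd x (p * a : ℕ) = Int.gcd x p * Int.gcd x a := fun x =>
      Nat.Coprime.gcd_mul _ hc
    simp only [jacobiSym.mul_right' _ hp.ne_zero ha, Int.cast_mul, prod_mul_distrib]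
    rw [we_crt hc hp.ne_zero ha _ _ (fun s => we_mod p s τ) (fun s => we_mod a s τ), abs_mul, e1]
    simp only [e2, Nat.cast_mul (α := ℝ), prod_mul_distrib]
    rw [Real.sqrt_mul (Nat.cast_nonneg p)]
    refine (mul_le_mul h2 h1 (abs_nonneg _) (by positivity)).trans_eq (by ring)

lemma we_few {ι κ : Type} [Fintype ι] [Fintype κ] [Nonempty ι]
    (h : Fintype.card ι ≤ 2 * Fintype.card κ) (T : ℕ) (S : Finset (ι → ℕ))
    (hS : ∀ τ ∈ S, (∀ j, τ j ∈ range T) ∧ ¬ ∃ i, ∀ j, j ≠ i → τ j ≠ τ i) :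
    S.card ≤ T ^ Fintype.card κ * Fintype.card κ ^ Fintype.card ι := by
  have h1 : S ⊆ (Fintype.piFinset fun _ : κ => range T).biUnion
      fun g => Fintype.piFinset fun _ : ι => univ.image g := by
    intro τ hτ
    obtain ⟨h2, h3⟩ := hS τ hτ
    have h4 : 2 * (univ.image τ).card ≤ (univ : Finset ι).card :=
      mul_card_image_le_card _ _ fun b hb => by
        obtain ⟨i, -, rfl⟩ := mem_image.1 hb
        by_contra h5
        exact h3 ⟨i, fun j hj e => h5 (one_lt_card.2 ⟨j, by simp [e], i, by simp, hj⟩)⟩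
    obtain ⟨e⟩ : Nonempty (univ.image τ ↪ κ) := Function.Embedding.nonempty_of_card_le (by
      rw [Fintype.card_coe]
      rw [card_univ] at h4
      omega)
    have : Nonempty (univ.image τ) :=
      ⟨⟨τ (Classical.arbitrary ι), mem_image_of_mem _ (mem_univ _)⟩⟩
    refine mem_biUnion.2 ⟨fun k => (Function.invFun e k).1, Fintype.mem_piFinset.2 fun k => ?_,
      Fintype.mem_piFinset.2 fun j => mem_image.2
        ⟨e ⟨τ j, mem_image_of_mem _ (mem_univ _)⟩, mem_univ _, ?_⟩⟩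
    · obtain ⟨j, -, hj⟩ := mem_image.1 (Function.invFun e k).2
      exact hj ▸ h2 j
    · rw [Function.leftInverse_invFun e.injective]
  refine (card_le_card h1).trans ((card_biUnion_le_card_mul _ _
    (Fintype.card κ ^ Fintype.card ι) fun g _ => ?_).trans ?_)
  · rw [Fintype.card_piFinset, prod_const, card_univ]
    exact Nat.pow_le_pow_left card_image_le _
  · simp

/-- The greatest common divisor of a nonzero difference with the modulus. -/
noncomputable def we_g (q n m : ℕ) : ℝ := if n = m then 0 else (Int.gcd ((n : ℤ) - m) q : ℝ)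

lemma we_g_nonneg (q n m : ℕ) : 0 ≤ we_g q n m := by
  unfold we_g
  split_ifs <;> positivity

lemma we_gcd {q T m : ℕ} (hq : q ≠ 0) (hm : m < T) :
    ∑ n ∈ range T, we_g q n m ≤ T * q.divisors.card := by
  have h1 : ∀ n, we_g q n m ≤ ∑ d ∈ q.divisors, if n ≡ m [MOD d] ∧ n ≠ m then (d : ℝ) else 0 := by
    intro n
    unfold we_g
    split_ifs with h
    · simp [h]
    · have h2 : Int.gcd ((n : ℤ) - m) q ∈ q.divisors :=
        Nat.mem_divisors.2 ⟨Int.natCast_dvd_natCast.1 (Int.gcd_dvd_right _ _), hq⟩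
      refine le_trans (le_of_eq ?_) (single_le_sum (fun d _ => by split_ifs <;> positivity) h2)
      rw [if_pos ⟨(Nat.modEq_iff_dvd.2 (Int.gcd_dvd_left _ _)).symm, h⟩]
  refine (sum_le_sum fun n _ => h1 n).trans ?_
  rw [sum_comm, mul_comm, ← nsmul_eq_mul]
  refine sum_le_card_nsmul _ _ _ fun d hd => ?_
  have h0 : 0 < d := Nat.pos_of_mem_divisors hd
  have h2 : ((range T).filter fun n => n ≡ m [MOD d] ∧ n ≠ m).card ≤ T / d := by
    have h3 := Nat.count_modEq_card T h0 m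
    rw [Nat.count_eq_card_filter_range] at h3
    have h4 : ((range T).filter fun n => n ≡ m [MOD d] ∧ n ≠ m) =
        ((range T).filter fun n => n ≡ m [MOD d]).erase m := by
      ext n
      simp only [mem_filter, mem_erase]
      tauto
    rw [h4, card_erase_of_mem (by simp [hm, Nat.ModEq.refl]), h3]
    generalize T / d = a
    split_ifs <;> omega
  rw [← sum_filter, sum_const, nsmul_eq_mul]
  exact_mod_cast (Nat.mul_le_mul_right d h2).trans (Nat.div_mul_le_self T d)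

lemma we_prod {q : ℕ} (hq : q ≠ 0) (T : ℕ) (i : Fin 24) :
    ∑ τ ∈ Fintype.piFinset fun _ : Fin 24 => range T, ∏ j ∈ univ.erase i, we_g q (τ j) (τ i) ≤
      T * (T * q.divisors.card : ℝ) ^ 23 := by
  have h1 : ∀ τ ∈ Fintype.piFinset fun _ : Fin 24 => range T,
      ∏ j ∈ univ.erase i, we_g q (τ j) (τ i) = ∑ m ∈ range T,
        ∏ j, if j = i then (if τ j = m then 1 else 0) else we_g q (τ j) m := by
    intro τ hτ
    rw [sum_eq_single_of_mem (τ i) (Fintype.mem_piFinset.1 hτ i) fun m _ hm =>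
      prod_eq_zero (mem_univ i) (by rw [if_pos rfl, if_neg hm.symm]),
      ← mul_prod_erase _ _ (mem_univ i), if_pos rfl, if_pos rfl, one_mul]
    exact prod_congr rfl fun j hj => (if_neg (ne_of_mem_erase hj)).symm
  rw [sum_congr rfl h1, sum_comm]
  refine (sum_le_card_nsmul _ _ _ fun m hm => ?_).trans_eq (by rw [card_range, nsmul_eq_mul])
  rw [← prod_univ_sum (fun _ : Fin 24 => range T)
      fun j n => if j = i then (if n = m then (1 : ℝ) else 0) else we_g q n m,
    ← mul_prod_erase _ _ (mem_univ i)]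
  simp only [if_true, sum_ite_eq', hm, one_mul]
  refine (prod_le_prod (fun j hj => ?_) fun j hj => ?_).trans_eq
    (by rw [prod_const, card_erase_of_mem (mem_univ i), card_univ, Fintype.card_fin])
  · simp only [if_neg (ne_of_mem_erase hj)]
    exact sum_nonneg fun n _ => we_g_nonneg _ _ _
  · simp only [if_neg (ne_of_mem_erase hj)]
    exact we_gcd hq (mem_range.1 hm)

theorem moment {ε : ℝ} (h : 0 < ε) : ∃ C : ℝ, 1 ≤ C ∧ ∀ q T : ℕ, Odd q → Squarefree q →
    ∑ s ∈ range q, (∑ τ ∈ range T, (jacobiSym ((s + τ : ℕ) : ℤ) q : ℝ)) ^ 24 ≤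
      C * (q : ℝ) ^ ε * (q * (T : ℝ) ^ 12 + (T : ℝ) ^ 24 * √q) := by
  obtain ⟨K, hK, hW⟩ := weil_comp
  obtain ⟨C1, h1, hC1⟩ := om_le K (half_pos h)
  obtain ⟨C2, h2, hC2⟩ := dv_le (show 0 < ε / 46 by positivity)
  have h0 : (0 : ℝ) ≤ 24 * C1 * C2 ^ 23 := by positivity
  refine ⟨12 ^ 24 + 24 * C1 * C2 ^ 23, le_add_of_le_of_nonneg (by norm_num) h0,
    fun q T ho hs => ?_⟩
  have hq : q ≠ 0 := hs.ne_zero
  have hq0 : (0 : ℝ) < q := by positivity
  have hq1 : (1 : ℝ) ≤ (q : ℝ) ^ ε := Real.one_le_rpow (by exact_mod_cast Nat.pos_of_ne_zero hq) h.le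
  have hA : 0 ≤ K ^ q.primeFactors.card * √q := by positivity
  have key : ∀ τ : Fin 24 → ℕ, ∑ s ∈ range q, ∏ j, (jacobiSym ((s + τ j : ℕ) : ℤ) q : ℝ) ≤
      (if ¬ ∃ i, ∀ j, j ≠ i → τ j ≠ τ i then (q : ℝ) else 0) + K ^ q.primeFactors.card * √q *
        ∑ i, ∏ j ∈ univ.erase i, we_g q (τ j) (τ i) := by
    intro τ
    have h3 : ∀ i, 0 ≤ ∏ j ∈ univ.erase i, we_g q (τ j) (τ i) :=
      fun i => prod_nonneg fun j _ => we_g_nonneg _ _ _
    by_cases hi : ∃ i, ∀ j, j ≠ i → τ j ≠ τ i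
    · rw [if_neg (not_not.2 hi), zero_add]
      obtain ⟨i, hi⟩ := hi
      refine (le_abs_self _).trans ((hW q τ i ho hs).trans (mul_le_mul_of_nonneg_left ?_ hA))
      refine le_trans (le_of_eq ?_) (single_le_sum (fun i _ => h3 i) (mem_univ i))
      exact prod_congr rfl fun j hj => (if_neg (hi j (ne_of_mem_erase hj))).symm
    · rw [if_pos hi]
      refine le_add_of_le_of_nonneg ?_ (mul_nonneg hA (sum_nonneg fun i _ => h3 i))
      refine (sum_le_card_nsmul _ _ 1 fun s _ => (le_abs_self _).trans ?_).trans_eq (by simp)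
      rw [abs_prod]
      refine prod_le_one (fun _ _ => abs_nonneg _) fun j _ => ?_
      rcases jacobiSym.trichotomy ((s + τ j : ℕ) : ℤ) q with e | e | e <;> rw [e] <;> simp
  have e1 : ∀ s, (∑ τ ∈ range T, (jacobiSym ((s + τ : ℕ) : ℤ) q : ℝ)) ^ 24 =
      ∑ τ ∈ Fintype.piFinset fun _ : Fin 24 => range T,
        ∏ j, (jacobiSym ((s + τ j : ℕ) : ℤ) q : ℝ) := fun s => sum_pow' _ _ 24
  have h4 : (q.divisors.card : ℝ) ^ 23 ≤ C2 ^ 23 * (q : ℝ) ^ (ε / 2) := by
    refine (pow_le_pow_left₀ (by positivity) (hC2 q hq) 23).trans_eq ?_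
    rw [mul_pow, ← Real.rpow_mul_natCast hq0.le]
    congr 2
    push_cast; ring
  have h5 : K ^ q.primeFactors.card * (q.divisors.card : ℝ) ^ 23 ≤ C1 * C2 ^ 23 * (q : ℝ) ^ ε := by
    refine (mul_le_mul (hC1 q hq) h4 (by positivity) (by positivity)).trans_eq ?_
    rw [mul_mul_mul_comm, ← Real.rpow_add hq0, add_halves]
  have h6 : (((Fintype.piFinset fun _ : Fin 24 => range T).filter
      fun τ => ¬ ∃ i, ∀ j, j ≠ i → τ j ≠ τ i).card : ℝ) ≤ (T : ℝ) ^ 12 * 12 ^ 24 := by
    have := we_few (ι := Fin 24) (κ := Fin 12) (by simp) T _ fun τ (hτ : τ ∈ (Fintype.piFinset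
      fun _ : Fin 24 => range T).filter fun τ => ¬ ∃ i, ∀ j, j ≠ i → τ j ≠ τ i) =>
        ⟨Fintype.mem_piFinset.1 (mem_filter.1 hτ).1, (mem_filter.1 hτ).2⟩
    rw [Fintype.card_fin, Fintype.card_fin] at this
    exact_mod_cast this
  have h7 : ∑ τ ∈ Fintype.piFinset fun _ : Fin 24 => range T,
      ∑ i, ∏ j ∈ univ.erase i, we_g q (τ j) (τ i) ≤ 24 * (T * (T * q.divisors.card : ℝ) ^ 23) := by
    rw [sum_comm]
    exact (sum_le_card_nsmul _ _ _ fun i _ => we_prod hq T i).trans_eq (by simp)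
  simp only [e1]
  rw [sum_comm]
  refine (sum_le_sum fun τ _ => key τ).trans ?_
  rw [sum_add_distrib, ← sum_filter, sum_const, nsmul_eq_mul, ← mul_sum]
  have a1 : 0 ≤ q * (T : ℝ) ^ 12 := by positivity
  have a2 : 0 ≤ (T : ℝ) ^ 24 * √q := by positivity
  calc _ ≤ (T : ℝ) ^ 12 * 12 ^ 24 * q + K ^ q.primeFactors.card * √q *
        (24 * (T * (T * q.divisors.card : ℝ) ^ 23)) := by gcongr
    _ = 12 ^ 24 * 1 * (q * (T : ℝ) ^ 12) + 24 * (K ^ q.primeFactors.card *
        (q.divisors.card : ℝ) ^ 23) * ((T : ℝ) ^ 24 * √q) := by ring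
    _ ≤ 12 ^ 24 * (q : ℝ) ^ ε * (q * (T : ℝ) ^ 12 + (T : ℝ) ^ 24 * √q) +
        24 * (C1 * C2 ^ 23 * (q : ℝ) ^ ε) * (q * (T : ℝ) ^ 12 + (T : ℝ) ^ 24 * √q) := by
      gcongr
      · exact le_add_of_nonneg_right a2
      · exact le_add_of_nonneg_left a1
    _ = _ := by ring

end Pool.Agent.Spin
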