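import Pool.Agent.Lib.MP_696deb_nt.Spin.DV
import Pool.Agent.Lib.MP_696deb_nt.Spin.WE

/-! The method of Burgess on boxes of the quadratic order. -/

set_option autoImplicit false

open scoped Classical
open Finset Filter Topology

namespace Pool.Agent.Spin

theorem bu_hold {α : Type} (s : Finset α) (g : α → ℕ) (f : ℕ → ℝ) {q : ℕ} (m : ∀ y ∈ s, g y < q) :
    (∑ y ∈ s, |f (g y)|) ^ 24 ≤ (s.card : ℝ) ^ 22 *
      (((s ×ˢ s).filter fun y => g y.1 = g y.2).card * ∑ n ∈ range q, f n ^ 24) := by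
  have m' : ∀ y ∈ s, g y ∈ range q := fun y hy => mem_range.2 (m y hy)
  have e3 : (∑ y ∈ s, |f (g y)|) ^ 12 ≤ s.card ^ 11 * ∑ y ∈ s, |f (g y)| ^ 12 :=
    pow_sum_le_card_mul_sum_pow (f := fun y => |f (g y)|) (fun _ _ => abs_nonneg _) 11
  have e4 : ∑ y ∈ s, |f (g y)| ^ 12 =
      ∑ n ∈ range q, ((s.filter fun y => g y = n).card : ℝ) * f n ^ 12 := by
    rw [← sum_fiberwise_of_maps_to m']
    refine sum_congr rfl fun n _ => ?_
    rw [sum_congr rfl fun y hy => by rw [(mem_filter.1 hy).2], sum_const, nsmul_eq_mul,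
      Even.pow_abs (by decide)]
  have e5 : ∑ n ∈ range q, (s.filter fun y => g y = n).card ^ 2 =
      ((s ×ˢ s).filter fun y => g y.1 = g y.2).card := by
    rw [card_eq_sum_card_fiberwise (f := fun y => g y.1) (t := range q)
      fun y hy => m' _ (mem_product.1 (mem_filter.1 hy).1).1]
    refine sum_congr rfl fun n _ => ?_
    rw [sq, ← card_product]
    congr 1
    ext y
    simp only [mem_product, mem_filter]
    constructor
    · rintro ⟨⟨a, b⟩, c, d⟩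
      exact ⟨⟨⟨a, c⟩, b.trans d.symm⟩, b⟩
    · rintro ⟨⟨⟨a, c⟩, b⟩, d⟩
      exact ⟨⟨a, d⟩, c, b.symm.trans d⟩
  have e6 := sum_mul_sq_le_sq_mul_sq (range q)
    (fun n => ((s.filter fun y => g y = n).card : ℝ)) fun n => f n ^ 12
  simp only [← pow_mul] at e6
  rw [← e5, Nat.cast_sum]
  simp only [Nat.cast_pow]
  calc _ = ((∑ y ∈ s, |f (g y)|) ^ 12) ^ 2 := by ring
    _ ≤ ((s.card : ℝ) ^ 11 * ∑ y ∈ s, |f (g y)| ^ 12) ^ 2 := by gcongr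
    _ = (s.card : ℝ) ^ 22 * (∑ y ∈ s, |f (g y)| ^ 12) ^ 2 := by ring
    _ ≤ _ := by
        rw [e4]
        gcongr

namespace Dat

variable (D : Dat)

/-- The element of the quadratic order with integer coordinates. -/
def ri (a : ℤ × ℤ) : D.O := a.1 + a.2 * D.ω

theorem bu_norm (a : ℤ × ℤ) : D.ri a * D.ri (a.1 + D.t * a.2, -a.2) =
    ((a.1 ^ 2 + D.t * a.1 * a.2 + D.c * a.2 ^ 2 : ℤ) : D.O) := by
  simp only [ri]
  push_cast
  linear_combination (-(a.2 : D.O) ^ 2) * D.hω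

theorem bu_form {a : ℤ × ℤ} (h : a.1 ^ 2 + D.t * a.1 * a.2 + D.c * a.2 ^ 2 = 0) : a = 0 := by
  have h1 := D.disc
  have h2 : a.2 = 0 := by
    by_contra k
    have := pow_pos (abs_pos.2 k) 2
    rw [sq_abs] at this
    nlinarith [sq_nonneg (2 * a.1 + D.t * a.2)]
  rw [h2] at h
  exact Prod.ext (by simpa using h) h2

theorem bu_zero {a : ℤ × ℤ} (h : D.ri a = 0) : a = 0 := by
  have h1 := congrArg D.φ (D.bu_norm a)
  rw [h, zero_mul, map_zero, map_intCast] at h1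
  exact D.bu_form (by exact_mod_cast h1.symm)

theorem bu_sub (a b : ℤ × ℤ) : D.ri (a - b) = D.ri a - D.ri b := by
  simp only [ri, Prod.fst_sub, Prod.snd_sub]
  push_cast
  ring

theorem bu_inj : Function.Injective D.ri := fun a b h =>
  sub_eq_zero.1 (D.bu_zero (by rw [bu_sub, h, sub_self]))

/-- The difference of two pairs of natural numbers. -/
def df (a b : ℕ × ℕ) : ℤ × ℤ := ((a.1 : ℤ) - b.1, (a.2 : ℤ) - b.2)

theorem bu_df (a b : ℕ × ℕ) : D.ri (df a b) = D.re a - D.re b := by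
  simp only [ri, re, df]
  push_cast
  ring

theorem bu_small : ∃ K : ℝ, 1 ≤ K ∧ ∀ (q : ℕ) (r : D.O →+* ZMod q) (H B : ℝ) (x y : ℤ × ℤ)
    (b b' : ℕ × ℕ), |(x.1 : ℝ)| ≤ H → |(x.2 : ℝ)| ≤ H → |(y.1 : ℝ)| ≤ H → |(y.2 : ℝ)| ≤ H →
    (b.1 : ℝ) ≤ B → (b.2 : ℝ) ≤ B → (b'.1 : ℝ) ≤ B → (b'.2 : ℝ) ≤ B → K * (H * B) ^ 2 < q →
    r (D.ri x * D.re b') = r (D.ri y * D.re b) → D.ri x * D.re b' = D.ri y * D.re b := by
  obtain ⟨A, hA⟩ : ∃ A : ℝ, A = 4 + 2 * |(D.t : ℝ)| + 2 * |(D.c : ℝ)| := ⟨_, rfl⟩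
  have ht := abs_nonneg (D.t : ℝ)
  have hc := abs_nonneg (D.c : ℝ)
  refine ⟨A ^ 3, one_le_pow₀ (by linarith), fun q r H B x y b b' x1 x2 y1 y2 b1 b2 c1 c2 hq h => ?_⟩
  obtain ⟨z, hz⟩ : ∃ z : ℤ × ℤ, z = (x.1 * b'.1 - D.c * (x.2 * b'.2) - y.1 * b.1 + D.c * (y.2 * b.2),
    x.1 * b'.2 + x.2 * b'.1 + D.t * (x.2 * b'.2) - y.1 * b.2 - y.2 * b.1 - D.t * (y.2 * b.2)) :=
    ⟨_, rfl⟩
  have e : D.ri x * D.re b' - D.ri y * D.re b = D.ri z := by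
    simp only [ri, re, hz]
    push_cast
    linear_combination ((x.2 : D.O) * b'.2 - y.2 * b.2) * D.hω
  have k : ∀ (u : ℤ) (v : ℕ), |(u : ℝ)| ≤ H → (v : ℝ) ≤ B → |(u : ℝ) * v| ≤ H * B :=
    fun u v hu hv => by
      rw [abs_mul, Nat.abs_cast]
      exact mul_le_mul hu hv (Nat.cast_nonneg _) ((abs_nonneg _).trans hu)
  have k' : ∀ (w u : ℤ) (v : ℕ), |(u : ℝ)| ≤ H → (v : ℝ) ≤ B →
      |(w : ℝ) * (u * v)| ≤ |(w : ℝ)| * (H * B) := fun w u v hu hv => by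
    rw [abs_mul]
    exact mul_le_mul_of_nonneg_left (k u v hu hv) (abs_nonneg _)
  have p0 : 0 ≤ H * B := (abs_nonneg _).trans (k _ _ x1 b1)
  have z1 : |(z.1 : ℝ)| ≤ A * (H * B) := by
    have a1 := abs_le.1 (k _ _ x1 c1)
    have a2 := abs_le.1 (k' D.c _ _ x2 c2)
    have a3 := abs_le.1 (k _ _ y1 b1)
    have a4 := abs_le.1 (k' D.c _ _ y2 b2)
    have := mul_nonneg ht p0
    rw [hz, hA, abs_le]
    push_cast
    constructor <;> linarith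
  have z2 : |(z.2 : ℝ)| ≤ A * (H * B) := by
    have a1 := abs_le.1 (k _ _ x1 c2)
    have a2 := abs_le.1 (k _ _ x2 c1)
    have a3 := abs_le.1 (k' D.t _ _ x2 c2)
    have a4 := abs_le.1 (k _ _ y1 b2)
    have a5 := abs_le.1 (k _ _ y2 b1)
    have a6 := abs_le.1 (k' D.t _ _ y2 b2)
    have := mul_nonneg hc p0
    rw [hz, hA, abs_le]
    push_cast
    constructor <;> linarith
  have h0 : r (D.ri z) = 0 := by rw [← e, map_sub, h, sub_self]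
  have h1 := congrArg r (D.bu_norm z)
  rw [map_mul, h0, zero_mul, map_intCast, eq_comm, ZMod.intCast_zmod_eq_zero_iff_dvd] at h1
  have h2 : |((z.1 ^ 2 + D.t * z.1 * z.2 + D.c * z.2 ^ 2 : ℤ) : ℝ)| < q := by
    refine lt_of_le_of_lt ?_ hq
    obtain ⟨P, hP⟩ : ∃ P, P = A * (H * B) := ⟨_, rfl⟩
    rw [← hP] at z1 z2
    have a1 : |(z.1 : ℝ)| ^ 2 ≤ P ^ 2 := pow_le_pow_left₀ (abs_nonneg _) z1 2
    have a2 : |(z.2 : ℝ)| ^ 2 ≤ P ^ 2 := pow_le_pow_left₀ (abs_nonneg _) z2 2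
    have a3 : |(z.1 : ℝ)| * |(z.2 : ℝ)| ≤ P ^ 2 := by
      nlinarith [sq_nonneg (|(z.1 : ℝ)| - |(z.2 : ℝ)|)]
    push_cast
    refine (abs_add_three _ _ _).trans ?_
    rw [abs_mul, abs_mul, abs_mul, abs_pow, abs_pow, mul_assoc,
      show A ^ 3 * (H * B) ^ 2 = A * P ^ 2 by rw [hP]; ring, hA]
    nlinarith [mul_le_mul_of_nonneg_left a3 ht, mul_le_mul_of_nonneg_left a2 hc, sq_nonneg P,
      mul_nonneg ht (sq_nonneg P), mul_nonneg hc (sq_nonneg P)]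
  have h3 := Int.eq_zero_of_abs_lt_dvd h1 (by exact_mod_cast h2)
  rw [← sub_eq_zero, e, D.bu_form h3]
  simp [ri]

theorem bu_quad {ε : ℝ} (hε : 0 < ε) : ∃ C : ℝ, 1 ≤ C ∧ ∀ h B : ℕ, 1 ≤ B → B ≤ h →
    (((((Ioo (-h : ℤ) h ×ˢ Ioo (-h : ℤ) h) ×ˢ (range B ×ˢ range B)) ×ˢ
      ((Ioo (-h : ℤ) h ×ˢ Ioo (-h : ℤ) h) ×ˢ (range B ×ˢ range B))).filter fun y =>
        D.re y.1.2 ≠ 0 ∧ D.re y.2.2 ≠ 0 ∧
        D.ri y.1.1 * D.re y.1.2 = D.ri y.2.1 * D.re y.2.2).card : ℝ) ≤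
      C * ((h : ℝ) * B) ^ ε * ((h : ℝ) * B) ^ 2 := by
  obtain ⟨C, hC, h1⟩ := D.div_le hε
  obtain ⟨A, hA, h2⟩ := D.sz_re
  obtain ⟨E, hE⟩ : ∃ E : ℝ, E = 2 * A * A := ⟨_, rfl⟩
  have hE1 : 1 ≤ E := by nlinarith
  have hE2 : 1 ≤ E ^ ε := Real.one_le_rpow hE1 hε.le
  refine ⟨1 + 4 * C * E ^ ε, by nlinarith, fun h B hB hh => ?_⟩
  have b1 : (1 : ℝ) ≤ B := by exact_mod_cast hB
  have b2 : (B : ℝ) ≤ h := by exact_mod_cast hh
  have b3 : (1 : ℝ) ≤ h * B := by nlinarith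
  have b4 : 1 ≤ ((h : ℝ) * B) ^ ε := Real.one_le_rpow b3 hε.le
  have key : ∀ p ∈ (Ioo (-h : ℤ) h ×ˢ Ioo (-h : ℤ) h) ×ˢ (range B ×ˢ range B),
      ((((Ioo (-h : ℤ) h ×ˢ Ioo (-h : ℤ) h) ×ˢ (range B ×ˢ range B)).filter fun y =>
        D.re p.2 ≠ 0 ∧ D.re y.2 ≠ 0 ∧ D.ri p.1 * D.re p.2 = D.ri y.1 * D.re y.2).card : ℝ) ≤
      (if p.1 = 0 then (B : ℝ) ^ 2 else 0) + C * (E * (h * B)) ^ ε := fun p hp => by
    have inj : ∀ y y' : (ℤ × ℤ) × ℕ × ℕ, D.re y.2 ≠ 0 → D.ri p.1 * D.re p.2 = D.ri y.1 * D.re y.2 →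
        D.ri p.1 * D.re p.2 = D.ri y'.1 * D.re y'.2 → y.2 = y'.2 → y = y' :=
      fun y y' k1 k2 k3 k4 => Prod.ext (D.bu_inj (mul_right_cancel₀ k1 (by
        rw [← k2, k3, k4]))) k4
    have c0 : 0 ≤ C * (E * (h * B)) ^ ε := by positivity
    split_ifs with k
    · refine le_trans ?_ (le_add_of_nonneg_right c0)
      have := card_le_card_of_injOn (t := range B ×ˢ range B) (fun y => y.2)
        (s := ((Ioo (-h : ℤ) h ×ˢ Ioo (-h : ℤ) h) ×ˢ (range B ×ˢ range B)).filter fun y =>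
          D.re p.2 ≠ 0 ∧ D.re y.2 ≠ 0 ∧ D.ri p.1 * D.re p.2 = D.ri y.1 * D.re y.2)
        (fun y hy => (mem_product.1 (mem_filter.1 hy).1).2)
        fun y hy y' hy' => inj y y' (mem_filter.1 hy).2.2.1 (mem_filter.1 hy).2.2.2
          (mem_filter.1 hy').2.2.2
      rw [card_product, card_range] at this
      rw [sq]
      exact_mod_cast this
    by_cases k0 : D.re p.2 = 0
    · rw [filter_false_of_mem fun y _ hy => hy.1 k0, card_empty, Nat.cast_zero, zero_add]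
      exact c0
    have s1 : ∀ b ∈ range B ×ˢ range B, D.sz (D.re b) ≤ A * B := h2 B
    have s2 : D.sz (D.ri p.1) ≤ 2 * A * h := by
      have m := mem_product.1 (mem_product.1 hp).1
      have m1 := mem_Ioo.1 m.1
      have m2 := mem_Ioo.1 m.2
      have : p.1 = df (p.1.1.toNat, p.1.2.toNat) ((-p.1.1).toNat, (-p.1.2).toNat) := by
        simp [df]
      rw [this, bu_df]
      have t1 := h2 h (p.1.1.toNat, p.1.2.toNat) (by simp only [mem_product, mem_range]; omega)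
      have t2 := h2 h ((-p.1.1).toNat, (-p.1.2).toNat) (by
        simp only [mem_product, mem_range]; omega)
      linarith [D.sz_sub_le (D.re (p.1.1.toNat, p.1.2.toNat))
        (D.re ((-p.1.1).toNat, (-p.1.2).toNat))]
    have s3 : D.sz (D.ri p.1 * D.re p.2) ≤ E * (h * B) := (D.sz_mul_le _ _).trans <| by
      have := mul_le_mul s2 (s1 _ (mem_product.1 hp).2) (D.sz_nonneg _) (by positivity)
      rw [hE]
      linarith
    rw [zero_add]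
    refine le_trans (Nat.cast_le.2 (card_le_card_of_injOn (fun y => D.re y.2) (fun y hy => ?_)
      fun y hy y' hy' k => inj y y' (mem_filter.1 hy).2.2.1 (mem_filter.1 hy).2.2.2
        (mem_filter.1 hy').2.2.2 (D.re_inj k)))
      (h1 _ (by nlinarith) _ (mul_ne_zero (fun e => k (D.bu_zero e)) k0) s3)
    have hy' := mem_filter.1 hy
    refine mem_filter.2 ⟨D.mem_ball.2 ((s1 _ (mem_product.1 hy'.1).2).trans ?_),
      Dvd.intro_left _ hy'.2.2.2.symm⟩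
    have : A ≤ E := by nlinarith
    have : (B : ℝ) ≤ h * B := by nlinarith
    gcongr
  rw [card_filter, sum_product]
  simp only [← card_filter]
  push_cast
  refine (sum_le_sum key).trans ?_
  rw [sum_add_distrib, sum_const, sum_product, sum_comm]
  simp only [sum_ite_eq', card_product, card_range, Int.card_Ioo, nsmul_eq_mul, sum_const]
  have c1 : (((h : ℤ) - -h - 1).toNat : ℝ) ≤ 2 * h := by
    exact_mod_cast (by omega : ((h : ℤ) - -h - 1).toNat ≤ 2 * h)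
  have c2 : (if (0 : ℤ × ℤ) ∈ Ioo (-h : ℤ) h ×ˢ Ioo (-h : ℤ) h then (B : ℝ) ^ 2 else 0) ≤
      (h : ℝ) ^ 2 := by
    split_ifs
    · gcongr
    · positivity
  rw [Real.mul_rpow (by positivity) (by positivity)]
  push_cast
  calc _ ≤ (B : ℝ) * B * (h : ℝ) ^ 2 + 2 * h * (2 * h) * (B * B) * (C * (E ^ ε * (h * B) ^ ε)) := by
        gcongr
    _ = (1 + 4 * C * E ^ ε * (h * B) ^ ε) * (h * B) ^ 2 := by ring
    _ ≤ _ := by
        gcongr
        nlinarith [mul_nonneg (by positivity : 0 ≤ 4 * C * E ^ ε) (by positivity : 0 ≤ ((h : ℝ) * B) ^ ε)]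

theorem energy {ε : ℝ} (hε : 0 < ε) : ∃ C K : ℝ, 1 ≤ C ∧ ∀ (q h B : ℕ) (r : D.O →+* ZMod q)
    (u : ZMod q), 1 ≤ B → B ≤ h → K * ((h : ℝ) * B) ^ 2 < q →
    (((((range h ×ˢ range h) ×ˢ (range B ×ˢ range B)) ×ˢ
      ((range h ×ˢ range h) ×ˢ (range B ×ˢ range B))).filter fun y =>
        IsUnit (r (D.re y.1.2)) ∧ IsUnit (r (D.re y.2.2)) ∧
        (u + r (D.re y.1.1)) * r (D.re y.2.2) = (u + r (D.re y.2.1)) * r (D.re y.1.2)).card : ℝ) ≤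
      C * (q : ℝ) ^ ε * ((h : ℝ) * B) ^ 2 := by
  obtain ⟨C, hC, h1⟩ := D.bu_quad hε
  obtain ⟨K, hK, h2⟩ := D.bu_small
  refine ⟨C, K, hC, fun q h B r u hB hh hq => ?_⟩
  have b1 : (1 : ℝ) ≤ B := by exact_mod_cast hB
  have b2 : (B : ℝ) ≤ h := by exact_mod_cast hh
  have b3 : (1 : ℝ) ≤ h * B := by nlinarith
  have b4 : (h : ℝ) * B < q := by nlinarith
  have : Fact (1 < q) := ⟨by exact_mod_cast b3.trans_lt b4⟩
  refine le_trans ?_ ((h1 h B hB hh).trans (by gcongr))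
  refine (?_ : ∀ s : Finset (((ℕ × ℕ) × ℕ × ℕ) × (ℕ × ℕ) × ℕ × ℕ), (∀ y ∈ s,
    y ∈ ((range h ×ˢ range h) ×ˢ (range B ×ˢ range B)) ×ˢ
      ((range h ×ˢ range h) ×ˢ (range B ×ˢ range B)) ∧
        IsUnit (r (D.re y.1.2)) ∧ IsUnit (r (D.re y.2.2)) ∧
        (u + r (D.re y.1.1)) * r (D.re y.2.2) = (u + r (D.re y.2.1)) * r (D.re y.1.2)) →
    (s.card : ℝ) ≤ _) _ fun y hy => by simpa only [mem_filter] using hy
  intro s hs
  have h3 : ∀ b : (ℕ × ℕ) × ℕ × ℕ, ∃ a : (ℕ × ℕ) × ℕ × ℕ, (∃ y ∈ s, (y.1.2, y.2.2) = b) →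
      ((a.1, b.1), (a.2, b.2)) ∈ s := fun b => by
    by_cases k : ∃ y ∈ s, (y.1.2, y.2.2) = b
    · obtain ⟨y, hy, rfl⟩ := k
      exact ⟨(y.1.1, y.2.1), fun _ => hy⟩
    · exact ⟨b, fun k' => absurd k' k⟩
  choose g hg using h3
  refine Nat.cast_le.2 (card_le_card_of_injOn (fun y => ((df y.1.1 (g (y.1.2, y.2.2)).1, y.2.2),
    (df y.2.1 (g (y.1.2, y.2.2)).2, y.1.2))) (fun y hy => ?_) fun y _ y' _ k => ?_)
  · have k := hs _ (hg (y.1.2, y.2.2) ⟨y, hy, rfl⟩)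
    replace hy := hs y hy
    beta_reduce
    generalize g (y.1.2, y.2.2) = a at k ⊢
    simp only [mem_product, mem_range] at hy k
    obtain ⟨⟨⟨⟨m1, m2⟩, m3, m4⟩, ⟨m5, m6⟩, m7, m8⟩, u1, u2, u3⟩ := hy
    obtain ⟨⟨⟨⟨n1, n2⟩, -⟩, ⟨n5, n6⟩, -⟩, -, -, u4⟩ := k
    have nz : ∀ x : D.O, IsUnit (r x) → x ≠ 0 := fun x hx e => hx.ne_zero (by rw [e, map_zero])
    have ab : ∀ i j : ℕ, i < h → j < h → |((((i : ℤ) - j : ℤ)) : ℝ)| ≤ h := fun i j hi hj => by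
      exact_mod_cast (abs_le.2 ⟨by omega, by omega⟩ : |(i : ℤ) - j| ≤ h)
    simp only [mem_coe, mem_filter, mem_product, mem_range, mem_Ioo]
    refine ⟨by simp only [df]; omega, nz _ u2, nz _ u1, h2 q r h B _ _ _ _ (ab _ _ m1 n1)
      (ab _ _ m2 n2) (ab _ _ m5 n5) (ab _ _ m6 n6) (by exact_mod_cast m3.le)
      (by exact_mod_cast m4.le) (by exact_mod_cast m7.le) (by exact_mod_cast m8.le) hq ?_⟩
    rw [bu_df, bu_df, map_mul, map_mul, map_sub, map_sub]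
    linear_combination u3 - u4
  · obtain ⟨⟨a, b⟩, a', b'⟩ := y
    obtain ⟨⟨c, d⟩, c', d'⟩ := y'
    simp only [Prod.mk.injEq] at k
    obtain ⟨⟨k1, rfl⟩, k2, rfl⟩ := k
    simp only [df, Prod.mk.injEq, sub_left_inj, Nat.cast_inj] at k1 k2
    rw [Prod.ext k1.1 k1.2, Prod.ext k2.1 k2.2]

theorem burg {ε : ℝ} (hε : 0 < ε) : ∃ C K : ℝ, 1 ≤ C ∧ ∀ (q h B T : ℕ) (r : D.O →+* ZMod q)
    (u : ZMod q), Odd q → Squarefree q → 1 ≤ B → B ≤ h → K * ((h : ℝ) * B) ^ 2 < q →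
    (∑ a ∈ range h ×ˢ range h, ∑ b ∈ (range B ×ˢ range B).filter fun b => IsUnit (r (D.re b)),
      |∑ τ ∈ range T, (jacobiSym ((u + r (D.re a) + r (D.re b) * τ).val : ℤ) q : ℝ)|) ^ 24 ≤
      C * (q : ℝ) ^ ε * ((h : ℝ) * B) ^ 46 * (q * (T : ℝ) ^ 12 + (T : ℝ) ^ 24 * √q) := by
  obtain ⟨C, K, hC, h1⟩ := D.energy (half_pos hε)
  obtain ⟨C', hC', h2⟩ := moment (half_pos hε)
  refine ⟨C * C', K, by nlinarith, fun q h B T r u ho hq hB hh hK => ?_⟩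
  obtain ⟨U, hU⟩ : ∃ U, U = (range B ×ˢ range B).filter fun b => IsUnit (r (D.re b)) := ⟨_, rfl⟩
  have hU' : ∀ b ∈ U, b ∈ range B ×ˢ range B ∧ IsUnit (r (D.re b)) := fun b hb =>
    mem_filter.1 (hU ▸ hb)
  rw [← hU]
  clear hU
  have : NeZero q := ⟨hq.ne_zero⟩
  have q0 : (0 : ℝ) < q := by exact_mod_cast Nat.pos_of_ne_zero hq.ne_zero
  obtain ⟨s, hs⟩ : ∃ s, s = (range h ×ˢ range h) ×ˢ U := ⟨_, rfl⟩
  obtain ⟨g, hg⟩ : ∃ g : (ℕ × ℕ) × ℕ × ℕ → ℕ,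
    ∀ y, g y = ((u + r (D.re y.1)) * (r (D.re y.2))⁻¹).val := ⟨_, fun _ => rfl⟩
  obtain ⟨f, hf⟩ : ∃ f : ℕ → ℝ,
    ∀ n, f n = ∑ τ ∈ range T, (jacobiSym ((n + τ : ℕ) : ℤ) q : ℝ) := ⟨_, fun _ => rfl⟩
  have e1 : ∑ a ∈ range h ×ˢ range h, ∑ b ∈ U, |∑ τ ∈ range T,
        (jacobiSym ((u + r (D.re a) + r (D.re b) * τ).val : ℤ) q : ℝ)| ≤ ∑ y ∈ s, |f (g y)| := by
    rw [hs, sum_product _ U]
    refine sum_le_sum fun a _ => sum_le_sum fun b hb => ?_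
    have hu := (hU' b hb).2
    have : ∀ τ : ℕ, jacobiSym ((u + r (D.re a) + r (D.re b) * τ).val : ℤ) q =
        jacobiSym ((r (D.re b)).val : ℤ) q * jacobiSym ((g (a, b) + τ : ℕ) : ℤ) q := fun τ => by
      rw [← jacobiSym.mul_left]
      refine jacobiSym.mod_left' ((ZMod.intCast_eq_intCast_iff' _ _ _).1 ?_)
      simp only [hg]
      push_cast
      simp only [ZMod.natCast_val, ZMod.cast_id', id_eq]
      linear_combination (-(u + r (D.re a))) * ZMod.mul_inv_of_unit _ hu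
    simp only [this, hf]
    push_cast
    rw [← mul_sum, abs_mul]
    refine mul_le_of_le_one_left (abs_nonneg _) ?_
    rcases jacobiSym.trichotomy ((r (D.re b)).val : ℤ) q with k | k | k <;> rw [k] <;> simp
  have e2 : (s.card : ℝ) ≤ ((h : ℝ) * B) ^ 2 := by
    have := card_le_card fun b hb => (hU' b hb).1
    rw [hs, card_product, card_product, card_range]
    rw [card_product, card_range] at this
    exact_mod_cast (Nat.mul_le_mul_left _ this).trans_eq (by ring)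
  have e5 : (((s ×ˢ s).filter fun y => g y.1 = g y.2).card : ℝ) ≤
      C * (q : ℝ) ^ (ε / 2) * ((h : ℝ) * B) ^ 2 := by
    refine le_trans (Nat.cast_le.2 (card_le_card fun y hy => ?_)) (h1 q h B r u hB hh hK)
    simp only [hs, hg, mem_filter, mem_product (t := U), mem_product (t := _ ×ˢ U)] at hy
    obtain ⟨⟨⟨a1, a2⟩, a4, a5⟩, k⟩ := hy
    have a3 := (hU' _ a2).2
    have a6 := (hU' _ a5).2
    simp only [mem_filter]
    refine ⟨mem_product.2 ⟨mem_product.2 ⟨a1, (hU' _ a2).1⟩,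
      mem_product.2 ⟨a4, (hU' _ a5).1⟩⟩, a3, a6, ?_⟩
    have k' := ZMod.val_injective q k
    linear_combination r (D.re y.1.2) * r (D.re y.2.2) * k' -
      (u + r (D.re y.1.1)) * r (D.re y.2.2) * ZMod.mul_inv_of_unit _ a3 +
      (u + r (D.re y.2.1)) * r (D.re y.1.2) * ZMod.mul_inv_of_unit _ a6
  have e7 := h2 q T ho hq
  simp only [← hf] at e7
  have e8 : 0 ≤ ∑ n ∈ range q, f n ^ 24 := sum_nonneg fun _ _ => Even.pow_nonneg (by decide) _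
  refine (pow_le_pow_left₀ (sum_nonneg fun _ _ => sum_nonneg fun _ _ => abs_nonneg _) e1 24).trans
    ((bu_hold s g f fun y _ => (hg y).trans_lt (ZMod.val_lt _)).trans ?_)
  calc _ ≤ (((h : ℝ) * B) ^ 2) ^ 22 * ((C * (q : ℝ) ^ (ε / 2) * ((h : ℝ) * B) ^ 2) *
        (C' * (q : ℝ) ^ (ε / 2) * (q * (T : ℝ) ^ 12 + (T : ℝ) ^ 24 * √q))) := by gcongr
    _ = C * C' * ((q : ℝ) ^ (ε / 2) * (q : ℝ) ^ (ε / 2)) * ((h : ℝ) * B) ^ 46 *
        (q * (T : ℝ) ^ 12 + (T : ℝ) ^ 24 * √q) := by ring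
    _ = _ := by rw [← Real.rpow_add q0, add_halves]

theorem unit_count {ε : ℝ} (hε : 0 < ε) : ∃ C : ℝ, 1 ≤ C ∧ ∀ (q B : ℕ) (r : D.O →+* ZMod q),
    Squarefree q → B * (B / (C * (q : ℝ) ^ ε) - C * (q : ℝ) ^ ε) ≤
      (((range B ×ˢ range B).filter fun b => IsUnit (r (D.re b))).card : ℝ) := by
  obtain ⟨C, hC, h⟩ := cop_count hε
  refine ⟨C, hC, fun q B r hq => ?_⟩
  rw [card_filter, sum_product_right, Nat.cast_sum]
  refine le_trans (by rw [card_range, nsmul_eq_mul]) (card_nsmul_le_sum _ _ _ fun b _ =>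
    (h q (r (b * D.ω)).val B hq).trans_eq ?_)
  rw [← card_filter]
  congr 2
  ext n
  rw [mem_filter, mem_filter, ← ZMod.isUnit_iff_coprime]
  have : NeZero q := ⟨hq.ne_zero⟩
  simp [re]

end Dat

end Pool.Agent.Spin
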