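import Pool.Agent.Lib.MP_696deb_nt.Spin.DV

/-! Exceptional differences. -/

set_option autoImplicit false

open scoped Classical
open Finset Filter Topology

namespace Pool.Agent.Spin

namespace Dat

variable (D : Dat)

theorem bad_count : ∃ C : ℝ, 1 ≤ C ∧ ∀ T Z : ℝ, 1 ≤ T → 1 ≤ Z →
    (((D.ball T).filter fun β => β ≠ 0 ∧ β + D.σ β + D.σ (D.σ β) = 0 ∧
      ∃ q g : ℕ, D.N β = q * g ∧ q.Coprime g ∧ Sqf g ∧ Z < g).card : ℝ) ≤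
      C * T ^ 4 / Z ^ (1 / 12 : ℝ) := by
  obtain ⟨C1, h1, k1⟩ := D.sep4
  obtain ⟨C2, h2, k2⟩ := D.r_le (ε := 1 / 24) (by norm_num)
  obtain ⟨C3, h3, k3⟩ := sq_sum
  refine ⟨C1 * C2 * C3, one_le_mul_of_one_le_of_one_le (one_le_mul_of_one_le_of_one_le h1 h2) h3,
    fun T Z hT hZ => ?_⟩
  set Y := (D.DU (T ^ 6)).filter fun y => Sqf (D.N y) ∧ Z < D.N y with hY
  have hsub : ((D.ball T).filter fun β => β ≠ 0 ∧ β + D.σ β + D.σ (D.σ β) = 0 ∧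
      ∃ q g : ℕ, D.N β = q * g ∧ q.Coprime g ∧ Sqf g ∧ Z < g) ⊆
      Y.biUnion fun y => (D.ball T).filter fun β =>
        β ≠ 0 ∧ y ∣ β ∧ β + D.σ β + D.σ (D.σ β) = 0 := by
    intro β hβ
    rw [mem_filter] at hβ
    obtain ⟨hb, h0, htr, q, g, hN, hc, hs, hZg⟩ := hβ
    obtain ⟨a, b, hab, -, hbg⟩ := D.split_norm h0 hN hc
    have hb0 : b ≠ 0 := by
      rintro rfl
      exact h0 (by rw [hab, mul_zero])
    obtain ⟨y, hy, hyb⟩ := D.exists_rp hb0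
    have hyN : D.N y = g := (D.N_assoc hyb).trans hbg
    have hyβ : y ∣ β := hyb.dvd.trans ⟨a, by rw [hab, mul_comm]⟩
    have hle : D.N y ≤ D.N β :=
      Nat.le_of_dvd (Nat.pos_of_ne_zero fun h => h0 (D.N_eq_zero.1 h)) (D.N_dvd hyβ)
    have hle' : (D.N y : ℝ) ≤ T ^ 6 := by
      refine (Nat.cast_le.2 hle).trans ((D.N_le β).trans ?_)
      exact pow_le_pow_left₀ (D.sz_nonneg β) (D.mem_ball.1 hb) 6
    rw [mem_biUnion]
    refine ⟨y, ?_, mem_filter.2 ⟨hb, h0, hyβ, htr⟩⟩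
    rw [hY, mem_filter, D.mem_DU, hyN]
    exact ⟨⟨hy, hyN ▸ hle'⟩, hs, hZg⟩
  have hZ0 : 0 < Z := by linarith
  have hT4 : 0 ≤ C1 * T ^ 4 := by positivity
  have hs1 : ∀ y ∈ Y, (((D.ball T).filter fun β =>
        β ≠ 0 ∧ y ∣ β ∧ β + D.σ β + D.σ (D.σ β) = 0).card : ℝ) ≤
      C1 * T ^ 4 / (D.N y : ℝ) ^ (2 / 3 : ℝ) := fun y hy =>
    k1 T hT y (D.mem_DU.1 (mem_filter.1 hy).1).1.1
  have hs2 : ∀ g ∈ Y.image D.N, ∑ y ∈ Y with D.N y = g, C1 * T ^ 4 / (D.N y : ℝ) ^ (2 / 3 : ℝ) ≤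
      C1 * C2 * T ^ 4 / Z ^ (1 / 12 : ℝ) * (g : ℝ) ^ (-(13 / 24) : ℝ) := by
    intro g hg
    obtain ⟨y, hy, rfl⟩ := mem_image.1 hg
    obtain ⟨-, hs, hZg⟩ := mem_filter.1 hy
    have hg0 : (0 : ℝ) < D.N y := hZ0.trans hZg
    have hc : ((Y.filter fun y' => D.N y' = D.N y).card : ℝ) ≤ C2 * (D.N y : ℝ) ^ (1 / 24 : ℝ) := by
      refine le_trans ?_ (k2 (T ^ 6) (D.N y) hs.1)
      exact Nat.cast_le.2 (card_le_card (filter_subset_filter _ (filter_subset _ _)))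
    rw [sum_congr rfl (g := fun _ => C1 * T ^ 4 / (D.N y : ℝ) ^ (2 / 3 : ℝ))
      (fun y' hy' => by rw [(mem_filter.1 hy').2]), sum_const, nsmul_eq_mul]
    refine (mul_le_mul_of_nonneg_right hc (by positivity)).trans ?_
    have e1 : (D.N y : ℝ) ^ (1 / 24 : ℝ) / (D.N y : ℝ) ^ (2 / 3 : ℝ) =
        (D.N y : ℝ) ^ (-(13 / 24) : ℝ) / (D.N y : ℝ) ^ (1 / 12 : ℝ) := by
      rw [← Real.rpow_sub hg0, ← Real.rpow_sub hg0]
      norm_num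
    have e2 : Z ^ (1 / 12 : ℝ) ≤ (D.N y : ℝ) ^ (1 / 12 : ℝ) :=
      Real.rpow_le_rpow hZ0.le hZg.le (by norm_num)
    have e3 : (D.N y : ℝ) ^ (-(13 / 24) : ℝ) / (D.N y : ℝ) ^ (1 / 12 : ℝ) ≤
        (D.N y : ℝ) ^ (-(13 / 24) : ℝ) / Z ^ (1 / 12 : ℝ) :=
      div_le_div_of_nonneg_left (by positivity) (by positivity) e2
    calc C2 * (D.N y : ℝ) ^ (1 / 24 : ℝ) * (C1 * T ^ 4 / (D.N y : ℝ) ^ (2 / 3 : ℝ))
        = C1 * C2 * T ^ 4 * ((D.N y : ℝ) ^ (1 / 24 : ℝ) / (D.N y : ℝ) ^ (2 / 3 : ℝ)) := by ring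
      _ ≤ C1 * C2 * T ^ 4 * ((D.N y : ℝ) ^ (-(13 / 24) : ℝ) / Z ^ (1 / 12 : ℝ)) := by
        rw [e1]
        exact mul_le_mul_of_nonneg_left e3 (by positivity)
      _ = _ := by ring
  calc _ ≤ ((Y.biUnion fun y => (D.ball T).filter fun β =>
        β ≠ 0 ∧ y ∣ β ∧ β + D.σ β + D.σ (D.σ β) = 0).card : ℝ) :=
        Nat.cast_le.2 (card_le_card hsub)
    _ ≤ ∑ y ∈ Y, (((D.ball T).filter fun β =>
        β ≠ 0 ∧ y ∣ β ∧ β + D.σ β + D.σ (D.σ β) = 0).card : ℝ) := by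
        exact_mod_cast card_biUnion_le
    _ ≤ ∑ y ∈ Y, C1 * T ^ 4 / (D.N y : ℝ) ^ (2 / 3 : ℝ) := sum_le_sum hs1
    _ = ∑ g ∈ Y.image D.N, ∑ y ∈ Y with D.N y = g, C1 * T ^ 4 / (D.N y : ℝ) ^ (2 / 3 : ℝ) :=
        (sum_fiberwise_of_maps_to (fun y hy => mem_image_of_mem _ hy) _).symm
    _ ≤ ∑ g ∈ Y.image D.N, C1 * C2 * T ^ 4 / Z ^ (1 / 12 : ℝ) * (g : ℝ) ^ (-(13 / 24) : ℝ) :=
        sum_le_sum hs2
    _ = C1 * C2 * T ^ 4 / Z ^ (1 / 12 : ℝ) * ∑ g ∈ Y.image D.N, (g : ℝ) ^ (-(13 / 24) : ℝ) := by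
        rw [mul_sum]
    _ ≤ C1 * C2 * T ^ 4 / Z ^ (1 / 12 : ℝ) * C3 := by
        refine mul_le_mul_of_nonneg_left (k3 _ fun g hg => ?_) (by positivity)
        obtain ⟨y, hy, rfl⟩ := mem_image.1 hg
        exact (mem_filter.1 hy).2.1
    _ = _ := by ring

theorem small_count {ε : ℝ} (h : 0 < ε) : ∃ C : ℝ, 1 ≤ C ∧ ∀ T U : ℝ, 1 ≤ T → 1 ≤ U →
    (((D.ball T).filter fun β => (D.N β : ℝ) ≤ U).card : ℝ) ≤ C * U * T ^ ε := by
  obtain ⟨C1, h1, k1⟩ := D.gen_le h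
  obtain ⟨C2, h2, k2⟩ := D.card_DU
  refine ⟨1 + C1 * C2, le_add_of_nonneg_right (by positivity), fun T U hT hU => ?_⟩
  have hsub : ((D.ball T).filter fun β => (D.N β : ℝ) ≤ U) ⊆
      insert 0 ((D.DU U).biUnion fun m => (D.ball T).filter fun y => Associated y m) := by
    intro β hβ
    rw [mem_filter] at hβ
    rw [mem_insert]
    by_cases h0 : β = 0
    · exact Or.inl h0
    obtain ⟨m, hm, hmβ⟩ := D.exists_rp h0
    refine Or.inr (mem_biUnion.2 ⟨m, D.mem_DU.2 ⟨hm, ?_⟩, mem_filter.2 ⟨hβ.1, hmβ.symm⟩⟩)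
    rw [D.N_assoc hmβ]
    exact hβ.2
  have hTε : 1 ≤ T ^ ε := Real.one_le_rpow hT h.le
  have hUT : 1 ≤ U * T ^ ε := one_le_mul_of_one_le_of_one_le hU hTε
  have hc : (((D.DU U).biUnion fun m => (D.ball T).filter fun y => Associated y m).card : ℝ) ≤
      C2 * U * (C1 * T ^ ε) := by
    calc _ ≤ ∑ m ∈ D.DU U, (((D.ball T).filter fun y => Associated y m).card : ℝ) := by
          exact_mod_cast card_biUnion_le
      _ ≤ ∑ _m ∈ D.DU U, C1 * T ^ ε := sum_le_sum fun m _ => k1 T hT m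
      _ = (D.DU U).card * (C1 * T ^ ε) := by rw [sum_const, nsmul_eq_mul]
      _ ≤ _ := mul_le_mul_of_nonneg_right (k2 U hU) (by positivity)
  have hi : (((D.ball T).filter fun β => (D.N β : ℝ) ≤ U).card : ℝ) ≤
      (((D.DU U).biUnion fun m => (D.ball T).filter fun y => Associated y m).card : ℝ) + 1 := by
    exact_mod_cast (card_le_card hsub).trans (card_insert_le _ _)
  nlinarith

theorem pair_count : ∃ C : ℝ, 1 ≤ C ∧ ∀ A : ℝ, 1 ≤ A → ∀ m : D.O, m ≠ 0 → D.sz m ≤ A →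
    (((D.ball A).filter fun n => n ≠ 0 ∧
      ∀ p : ℕ, p.Prime → p ∣ D.N n → p ^ 2 ∣ D.N n ∨ p ∣ D.N m).card : ℝ) ≤ C * A ^ 4 := by
  obtain ⟨C1, h1, k1⟩ := dv_le (ε := 1 / 24) (by norm_num)
  obtain ⟨C2, h2, k2⟩ := sq_card
  obtain ⟨C3, h3, k3⟩ := D.nrm_le (ε := 1 / 2) (by norm_num)
  refine ⟨C1 * C2 * C3, one_le_mul_of_one_le_of_one_le (one_le_mul_of_one_le_of_one_le h1 h2) h3,
    fun A hA m hm hmA => ?_⟩
  have hA0 : 0 < A := by linarith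
  have hA6 : 1 ≤ A ^ 6 := one_le_pow₀ hA
  have hm0 : D.N m ≠ 0 := fun h => hm (D.N_eq_zero.1 h)
  set Q := (range (⌊A ^ 6⌋₊ + 1)).filter Sqf with hQ
  have hsub : ((D.ball A).filter fun n => n ≠ 0 ∧
      ∀ p : ℕ, p.Prime → p ∣ D.N n → p ^ 2 ∣ D.N n ∨ p ∣ D.N m) ⊆
      ((D.N m).divisors ×ˢ Q).biUnion fun x => (D.ball A).filter fun n => D.N n = x.1 * x.2 := by
    intro n hn
    rw [mem_filter] at hn
    obtain ⟨hb, h0, hp⟩ := hn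
    have hn0 : D.N n ≠ 0 := fun h => h0 (D.N_eq_zero.1 h)
    obtain ⟨q, g, g', hN, hsq, hg, hg', hc, -⟩ := decomp hn0 hm0
    have hq : q = 1 := by
      by_contra hq
      obtain ⟨p, hp1, hpq⟩ := Nat.exists_prime_and_dvd hq
      have hcp : p.Coprime (g' * g * D.N m) := Nat.Coprime.coprime_dvd_left hpq hc
      rcases hp p hp1 (hpq.trans ⟨g' * g, by rw [hN, mul_assoc]⟩) with h2 | h2
      · rw [hN, mul_assoc] at h2
        have h4 : (p ^ 2).Coprime (g' * g) :=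
          Nat.Coprime.pow_left 2 (Nat.Coprime.coprime_mul_right_right hcp)
        have h5 := h4.dvd_of_dvd_mul_right h2
        rw [sq] at h5
        exact hp1.not_isUnit (hsq p h5)
      · exact (Nat.Prime.coprime_iff_not_dvd hp1).1 hcp (Dvd.dvd.mul_left h2 _)
    rw [hq, one_mul] at hN
    have hgl : g ≤ D.N n := Nat.le_of_dvd (Nat.pos_of_ne_zero hn0) ⟨g', by rw [hN, mul_comm]⟩
    have hgA : (g : ℝ) ≤ A ^ 6 := by
      refine (Nat.cast_le.2 hgl).trans ((D.N_le n).trans ?_)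
      exact pow_le_pow_left₀ (D.sz_nonneg n) (D.mem_ball.1 hb) 6
    refine mem_biUnion.2 ⟨(g', g), mem_product.2 ⟨Nat.mem_divisors.2 ⟨hg', hm0⟩, ?_⟩,
      mem_filter.2 ⟨hb, hN⟩⟩
    rw [hQ, mem_filter, mem_range]
    exact ⟨Nat.lt_succ_of_le (Nat.le_floor hgA), hg⟩
  have hd : ((D.N m).divisors.card : ℝ) ≤ C1 * A ^ (1 / 4 : ℝ) := by
    refine (k1 _ hm0).trans (mul_le_mul_of_nonneg_left ?_ (by linarith))
    have e1 : (D.N m : ℝ) ≤ A ^ 6 :=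
      (D.N_le m).trans (pow_le_pow_left₀ (D.sz_nonneg m) hmA 6)
    refine (Real.rpow_le_rpow (Nat.cast_nonneg _) e1 (by norm_num)).trans (le_of_eq ?_)
    rw [← Real.rpow_natCast, ← Real.rpow_mul hA0.le]
    norm_num
  have hq : (Q.card : ℝ) ≤ C2 * A ^ (13 / 4 : ℝ) := by
    refine (k2 (A ^ 6) Q hA6 fun n hn => ?_).trans (le_of_eq ?_)
    · rw [hQ, mem_filter, mem_range] at hn
      exact ⟨hn.2, (Nat.le_floor_iff (by positivity)).1 (Nat.le_of_lt_succ hn.1)⟩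
    · rw [← Real.rpow_natCast, ← Real.rpow_mul hA0.le]
      norm_num
  have hs : ∀ x ∈ (D.N m).divisors ×ˢ Q,
      (((D.ball A).filter fun n => D.N n = x.1 * x.2).card : ℝ) ≤ C3 * A ^ (1 / 2 : ℝ) := by
    intro x hx
    rw [mem_product] at hx
    exact k3 A hA _ (mul_ne_zero (Nat.pos_of_mem_divisors hx.1).ne' (mem_filter.1 hx.2).2.1)
  have e4 : A ^ (1 / 4 : ℝ) * A ^ (13 / 4 : ℝ) * A ^ (1 / 2 : ℝ) = A ^ 4 := by
    rw [← Real.rpow_add hA0, ← Real.rpow_add hA0, ← Real.rpow_natCast]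
    norm_num
  calc _ ≤ ((((D.N m).divisors ×ˢ Q).biUnion fun x =>
        (D.ball A).filter fun n => D.N n = x.1 * x.2).card : ℝ) :=
        Nat.cast_le.2 (card_le_card hsub)
    _ ≤ ∑ x ∈ (D.N m).divisors ×ˢ Q,
        (((D.ball A).filter fun n => D.N n = x.1 * x.2).card : ℝ) := by
        exact_mod_cast card_biUnion_le
    _ ≤ ∑ _x ∈ (D.N m).divisors ×ˢ Q, C3 * A ^ (1 / 2 : ℝ) := sum_le_sum hs
    _ = ((D.N m).divisors.card : ℝ) * Q.card * (C3 * A ^ (1 / 2 : ℝ)) := by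
        rw [sum_const, nsmul_eq_mul, card_product, Nat.cast_mul]
    _ ≤ (C1 * A ^ (1 / 4 : ℝ)) * (C2 * A ^ (13 / 4 : ℝ)) * (C3 * A ^ (1 / 2 : ℝ)) := by
        gcongr
    _ = C1 * C2 * C3 * (A ^ (1 / 4 : ℝ) * A ^ (13 / 4 : ℝ) * A ^ (1 / 2 : ℝ)) := by ring
    _ = _ := by rw [e4]

end Dat

end Pool.Agent.Spin
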