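import Mathlib

/-! Data and definitions for the equidistribution of a spin symbol in a sextic ring. -/

set_option autoImplicit false

open scoped Classical
open Finset

namespace Pool.Agent.Spin

/-- The finite set with the given elements, or the empty set. -/
noncomputable def fs {α : Type} (s : Set α) : Finset α := if h : s.Finite then h.toFinset else ∅

theorem mem_fs {α : Type} {s : Set α} (h : s.Finite) {x : α} : x ∈ fs s ↔ x ∈ s := by
  rw [fs, dif_pos h, h.mem_toFinset]

/-- The space of the three complex places. -/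
abbrev V : Type := Fin 3 → ℂ

/-- The norm on the space of places. -/
noncomputable def nV (z : V) : ℝ := (‖z 0‖ * ‖z 1‖ * ‖z 2‖) ^ 2

/-- The quadratic character of the residue field of `P`; primes that contain `M` are ignored. -/
noncomputable def leg {O : Type} [CommRing O] (M : ℕ) (a : O) (P : Ideal O) : ℤ :=
  if (M : O) ∈ P then 1 else if a ∈ P then 0 else if ∃ t, t * t - a ∈ P then 1 else -1

/-- The Jacobi symbol. -/
noncomputable def jac {O : Type} [CommRing O] [IsDedekindDomain O] (M : ℕ) (a b : O) : ℤ :=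
  ((UniqueFactorizationMonoid.normalizedFactors (Ideal.span {b})).map (leg M a)).prod

/-- A principal ring of integers of degree six with an automorphism of order three that fixes an
imaginary quadratic order. -/
structure Dat where
  O : Type
  [cr : CommRing O]
  [dom : IsDomain O]
  [pid : IsPrincipalIdealRing O]
  [fr : Module.Free ℤ O]
  [fi : Module.Finite ℤ O]
  σ : O ≃+* O
  τ : O ≃+* O
  φ : O →+* ℂ
  inj : Function.Injective φ
  σ3 : ∀ x, σ (σ (σ x)) = x
  nrm : ∀ x, (Ideal.absNorm (Ideal.span {x}) : ℝ) = nV ![φ x, φ (σ x), φ (σ (σ x))]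
  ω : O
  t : ℤ
  c : ℤ
  hω : ω * ω = t * ω - c
  σω : σ ω = ω
  τω : τ ω = t - ω
  disc : t ^ 2 < 4 * c
  M : ℕ
  M0 : M ≠ 0
  M2 : 2 ∣ M
  Md : 4 * c - t ^ 2 ∣ (M : ℤ)
  mov : ∀ P : Ideal O, P.IsPrime → (M : O) ∉ P → ∃ x, x - σ x ∉ P
  bal : ∃ R : ℝ, ∀ z : V, nV z ≠ 0 → ∃ u : O, IsUnit u ∧
    ‖(![φ u, φ (σ u), φ (σ (σ u))] * z : V)‖ ^ 6 ≤ R * nV z
  ε : O → O → ℤ
  ε1 : ∀ a b, |ε a b| ≤ 1
  εp : ∀ a b b', (M : O) ∣ b - b' → ε a b = ε a b'
  rec' : ∀ a b, a ≠ 0 → IsCoprime b (M : O) → jac M a b = ε a b * jac M b a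

attribute [instance] Dat.cr Dat.dom Dat.pid Dat.fr Dat.fi

/-- Every prime divisor divides twice. -/
def Sqf (g : ℕ) : Prop := g ≠ 0 ∧ ∀ p : ℕ, p.Prime → p ∣ g → p ^ 2 ∣ g

/-- A Lipschitz weight supported in the ball of radius `R`. -/
structure Wt (L R : ℝ) (W : V → ℝ) : Prop where
  lip : ∀ z z', |W z - W z'| ≤ L * ‖z - z'‖
  bd : ∀ z, |W z| ≤ L
  supp : ∀ z, R < ‖z‖ → W z = 0

namespace Dat

variable (D : Dat)

/-- The embedding into the space of places. -/
def e (x : D.O) : V := ![D.φ x, D.φ (D.σ x), D.φ (D.σ (D.σ x))]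

/-- The largest absolute value of a conjugate. -/
noncomputable def sz (x : D.O) : ℝ := ‖D.e x‖

/-- The absolute norm. -/
noncomputable def N (x : D.O) : ℕ := Ideal.absNorm (Ideal.span {x})

/-- The Jacobi symbol of the data. -/
noncomputable def J (a b : D.O) : ℤ := jac D.M a b

/-- The symmetric symbol that measures the failure of multiplicativity of the spin. -/
noncomputable def G (m n : D.O) : ℤ := D.J m (D.σ n) * D.J n (D.σ m)

/-- The elements of size at most `T`. -/
noncomputable def ball (T : ℝ) : Finset D.O := fs {x | D.sz x ≤ T}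

/-- The constant of balanced generators. -/
noncomputable def R0 : ℝ := D.bal.choose

/-- A balanced generator of an ideal. -/
noncomputable def gn (I : Ideal D.O) : D.O :=
  Classical.epsilon fun y => Ideal.span {y} = I ∧ D.sz y ^ 6 ≤ D.R0 * D.N y

/-- `m` is the chosen generator of a nonzero ideal. -/
def Rp (m : D.O) : Prop := m ≠ 0 ∧ D.gn (Ideal.span {m}) = m

/-- The factorizations of `x` whose first factor is a chosen generator. -/
noncomputable def pr (x : D.O) : Finset (D.O × D.O) := fs {y | D.Rp y.1 ∧ y.1 * y.2 = x}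

/-- The chosen generators of norm at most `U`. -/
noncomputable def DU (U : ℝ) : Finset D.O := fs {m | D.Rp m ∧ (D.N m : ℝ) ≤ U}

/-- The function of von Mangoldt. -/
noncomputable def Λ (x : D.O) : ℝ :=
  if h : ∃ π : D.O, Prime π ∧ ∃ k : ℕ, 0 < k ∧ Associated x (π ^ k) then Real.log (D.N h.choose)
  else 0

/-- The function of Moebius. -/
noncomputable def μ (x : D.O) : ℝ := (UniqueFactorizationMonoid.moebius x : ℤ)

/-- The second coefficient in the bilinear term of the identity of Vaughan. -/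
noncomputable def E (U : ℝ) (n : D.O) : ℝ :=
  (∑ d ∈ D.DU U, if d ∣ n then D.μ d else 0) - if IsUnit n then 1 else 0

/-- The element of the quadratic order with the given coordinates. -/
def re (a : ℕ × ℕ) : D.O := a.1 + a.2 * D.ω

/-- A bounded function of the class modulo `M` that vanishes off the units. -/
structure Per (κ : D.O → ℝ) : Prop where
  bd : ∀ x, |κ x| ≤ 1
  per : ∀ x y, (D.M : D.O) ∣ x - y → κ x = κ y
  cop : ∀ x, κ x ≠ 0 → IsCoprime x (D.M : D.O)

/-- The weighted sum of `F` at scale `Y`. -/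
noncomputable def S (W : V → ℝ) (R Y : ℝ) (F : D.O → ℝ) : ℝ :=
  ∑ x ∈ D.ball (R * Y), W (Y⁻¹ • D.e x) * F x

/-- The spin times a periodic function. -/
noncomputable def sp (κ : D.O → ℝ) (x : D.O) : ℝ := κ x * D.J x (D.σ x)

/-- `p` is the norm of an element. -/
def Spl (p : ℕ) : Prop := ∃ x, D.N x = p

/-- `p` is a norm and all elements of norm `p` have positive spin. -/
def Bad (κ : D.O → ℝ) (p : ℕ) : Prop := D.Spl p ∧ ∀ x, D.N x = p → D.sp κ x = 1

end Dat

end Pool.Agent.Spin
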