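import Pool.Agent.Lib.MP_696deb_nt.Spin.G2
import Pool.Agent.Lib.MP_696deb_nt.Spin.J1

/-! Elements of squarefree norm and primes of degree one. -/

set_option autoImplicit false

open scoped Classical
open Finset Filter Topology

namespace Pool.Agent.Spin

namespace Dat

variable (D : Dat)

theorem N_prime {π : D.O} (h : Prime π) : ∃ p k : ℕ, p.Prime ∧ 0 < k ∧ D.N π = p ^ k := by
  have key : ∀ n : ℕ, n ≠ 0 → π ∣ (n : D.O) → ∃ p : ℕ, p.Prime ∧ π ∣ (p : D.O) := by
    intro n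
    induction n using Nat.recOnMul with
    | zero => intro h0; exact absurd rfl h0
    | one => intro _ h1; exact absurd (isUnit_of_dvd_one (by simpa using h1)) h.not_isUnit
    | prime p hp => intro _ h1; exact ⟨p, hp, h1⟩
    | mul a b iha ihb =>
      intro h0 h1
      rw [Nat.cast_mul] at h1
      rcases h.dvd_or_dvd h1 with h2 | h2
      · exact iha (left_ne_zero_of_mul h0) h2
      · exact ihb (right_ne_zero_of_mul h0) h2
  obtain ⟨p, hp, hd⟩ := key (D.N π) (fun h0 => h.ne_zero (D.N_eq_zero.1 h0)) (D.dvd_N π)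
  have h6 : D.N π ∣ p ^ 6 := D.N_nat p ▸ D.N_dvd hd
  obtain ⟨k, -, hk⟩ := (Nat.dvd_prime_pow hp).1 h6
  refine ⟨p, k, hp, Nat.pos_of_ne_zero ?_, hk⟩
  rintro rfl
  exact h.not_isUnit (D.N_eq_one.1 (by simpa using hk))

theorem prime_of_N {x : D.O} (h : (D.N x).Prime) : Prime x := by
  refine Irreducible.prime ⟨fun hu => h.ne_one (D.N_eq_one.2 hu), fun a b hab => ?_⟩
  have h1 : D.N x = D.N a * D.N b := by rw [hab, D.N_mul]
  rcases (Nat.irreducible_iff_nat_prime _).2 h |>.isUnit_or_isUnit h1 with h2 | h2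
  · exact Or.inl (D.N_eq_one.1 (Nat.isUnit_iff.1 h2))
  · exact Or.inr (D.N_eq_one.1 (Nat.isUnit_iff.1 h2))

theorem split_norm {x : D.O} {q g : ℕ} (hx : x ≠ 0) (h : D.N x = q * g) (k : q.Coprime g) :
    ∃ a b, x = a * b ∧ D.N a = q ∧ D.N b = g := by
  induction x using UniqueFactorizationMonoid.induction_on_prime generalizing q g with
  | h₁ => exact absurd rfl hx
  | h₂ x hu =>
    rw [D.N_eq_one.2 hu] at h
    refine ⟨x, 1, (mul_one x).symm, ?_, ?_⟩
    · rw [D.N_eq_one.2 hu, Nat.eq_one_of_mul_eq_one_right h.symm]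
    · rw [D.N_eq_one.2 isUnit_one, Nat.eq_one_of_mul_eq_one_left h.symm]
  | h₃ y π hy hπ ih =>
    obtain ⟨p, j, hp, hj, hN⟩ := D.N_prime hπ
    rw [D.N_mul, hN] at h
    have hpos : 0 < p ^ j := pow_pos hp.pos j
    have hd : p ^ j ∣ q * g := ⟨_, h.symm⟩
    by_cases hq : p ∣ q
    · have hc : (p ^ j).Coprime g := (Nat.Coprime.coprime_dvd_left hq k).pow_left j
      obtain ⟨q', rfl⟩ := hc.dvd_of_dvd_mul_right hd
      rw [mul_assoc] at h
      obtain ⟨a, b, rfl, ha, hb⟩ := ih hy (Nat.eq_of_mul_eq_mul_left hpos h)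
        (Nat.Coprime.coprime_mul_left k)
      exact ⟨π * a, b, (mul_assoc _ _ _).symm, by rw [D.N_mul, hN, ha], hb⟩
    · have hc : (p ^ j).Coprime q := ((Nat.Prime.coprime_iff_not_dvd hp).2 hq).pow_left j
      obtain ⟨g', rfl⟩ := hc.dvd_of_dvd_mul_left hd
      rw [mul_left_comm] at h
      obtain ⟨a, b, rfl, ha, hb⟩ := ih hy (Nat.eq_of_mul_eq_mul_left hpos h)
        (Nat.Coprime.coprime_mul_left_right k)
      exact ⟨a, π * b, mul_left_comm _ _ _, ha, by rw [D.N_mul, hN, hb]⟩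

theorem j2_jac_prime {a : D.O} {p : ℕ} (h : D.N a = p) (hp : p.Prime) (k : p.Coprime D.M) :
    ∃ r : D.O →+* ZMod p, (∀ y, r y = 0 ↔ a ∣ y) ∧
      ∀ y, D.J y a = jacobiSym ((r y).val : ℤ) p := by
  have := Fact.mk hp
  have hc : Nat.card (D.O ⧸ Ideal.span {a}) = p := by
    rw [← h, N, Ideal.absNorm_apply, Submodule.cardQuot_apply]
  have : Finite (D.O ⧸ Ideal.span {a}) := Nat.finite_of_card_ne_zero (hc ▸ hp.ne_zero)
  let := Fintype.ofFinite (D.O ⧸ Ideal.span {a})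
  let e := ZMod.ringEquivOfPrime (D.O ⧸ Ideal.span {a}) hp (by rw [← hc, Nat.card_eq_fintype_card])
  let r : D.O →+* ZMod p := e.symm.toRingHom.comp (Ideal.Quotient.mk _)
  have h1 : ∀ y, r y = 0 ↔ y ∈ Ideal.span {a} := fun y => by
    rw [← Ideal.Quotient.eq_zero_iff_mem]
    exact map_eq_zero_iff e.symm e.symm.injective
  have h2 : Function.Surjective r := e.symm.surjective.comp Ideal.Quotient.mk_surjective
  refine ⟨r, fun y => (h1 y).trans Ideal.mem_span_singleton, fun y => ?_⟩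
  have h3 : (D.M : D.O) ∉ Ideal.span {a} := by
    rw [← h1, map_natCast, ZMod.natCast_eq_zero_iff]
    exact hp.coprime_iff_not_dvd.1 k
  have h4 : (∃ t, t * t - y ∈ Ideal.span {a}) ↔ IsSquare (r y) := by
    simp only [← h1, map_sub, map_mul, sub_eq_zero]
    refine ⟨fun ⟨t, ht⟩ => ⟨_, ht.symm⟩, fun ⟨s, hs⟩ => ?_⟩
    obtain ⟨t, rfl⟩ := h2 s
    exact ⟨t, hs.symm⟩
  rw [D.J_prime y (D.prime_of_N (h ▸ hp)), ← jacobiSym.legendreSym.to_jacobiSym, legendreSym,
    Int.cast_natCast, ZMod.natCast_zmod_val, leg, if_neg h3, quadraticChar_apply, quadraticCharFun]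
  simp only [h4]
  simp only [← h1]

theorem J_jac {a : D.O} {q : ℕ} (h : D.N a = q) (hq : Squarefree q) (k : q.Coprime D.M) :
    ∃ r : D.O →+* ZMod q, (∀ y, r y = 0 ↔ a ∣ y) ∧
      ∀ y, D.J y a = jacobiSym ((r y).val : ℤ) q := by
  induction q using induction_on_primes generalizing a with
  | zero => exact absurd hq not_squarefree_zero
  | one =>
    have hu := D.N_eq_one.1 h
    refine ⟨⟨⟨⟨fun _ => 0, Subsingleton.elim _ _⟩, fun _ _ => Subsingleton.elim _ _⟩,
      Subsingleton.elim _ _, fun _ _ => Subsingleton.elim _ _⟩,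
      fun y => iff_of_true rfl hu.dvd, fun y => ?_⟩
    rw [D.J_unit y hu, jacobiSym.one_right]
  | prime_mul p q hp ih =>
    have hpq : p.Coprime q := Nat.coprime_of_squarefree_mul hq
    have ha : a ≠ 0 := fun h0 => hq.ne_zero (h ▸ D.N_eq_zero.2 h0)
    obtain ⟨π, b, rfl, h1, h2⟩ := D.split_norm ha h hpq
    obtain ⟨r1, h3, h4⟩ := D.j2_jac_prime h1 hp (Nat.Coprime.coprime_mul_right k)
    obtain ⟨r2, h5, h6⟩ := ih h2 hq.of_mul_right (Nat.Coprime.coprime_mul_left k)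
    have hq0 : q ≠ 0 := hq.of_mul_right.ne_zero
    have : NeZero p := ⟨hp.ne_zero⟩
    have : NeZero q := ⟨hq0⟩
    let e := ZMod.chineseRemainder hpq
    have hc : IsCoprime π b :=
      ((Nat.Coprime.cast (R := D.O) hpq).of_isCoprime_of_dvd_left
        (h1 ▸ D.dvd_N π)).of_isCoprime_of_dvd_right (h2 ▸ D.dvd_N b)
    refine ⟨e.symm.toRingHom.comp (r1.prod r2), fun y => ?_, fun y => ?_⟩
    · refine (map_eq_zero_iff e.symm e.symm.injective).trans ?_
      rw [RingHom.prod_apply, Prod.mk_eq_zero, h3, h5]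
      exact ⟨fun h => hc.mul_dvd h.1 h.2,
        fun h => ⟨(dvd_mul_right _ _).trans h, (dvd_mul_left _ _).trans h⟩⟩
    · set x := (e.symm.toRingHom.comp (r1.prod r2)) y with hx
      have h7 : ((x.val : ℕ) : ZMod p × ZMod q) = (r1 y, r2 y) := by
        rw [← map_natCast e, ZMod.natCast_zmod_val]
        exact e.apply_symm_apply _
      have h8 : x.val % p = (r1 y).val % p := by
        rw [← ZMod.natCast_eq_natCast_iff', ZMod.natCast_zmod_val]
        exact congrArg Prod.fst h7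
      have h9 : x.val % q = (r2 y).val % q := by
        rw [← ZMod.natCast_eq_natCast_iff', ZMod.natCast_zmod_val]
        exact congrArg Prod.snd h7
      rw [D.J_mul_right y (left_ne_zero_of_mul ha) (right_ne_zero_of_mul ha), h4, h6,
        jacobiSym.mul_right]
      congr 1 <;> apply jacobiSym.mod_left'
      · exact_mod_cast h8.symm
      · exact_mod_cast h9.symm

theorem j2_int {π : D.O} (h : (D.N π).Prime) (x : D.O) : ∃ n : ℤ, π ∣ x - n := by
  have hc : Nat.card (D.O ⧸ Ideal.span {π}) = D.N π := by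
    rw [N, Ideal.absNorm_apply, Submodule.cardQuot_apply]
  have : Fact (D.N π).Prime := ⟨h⟩
  have h1 : (Ideal.Quotient.mk (Ideal.span {π}) 1) ≠ 0 := by
    rw [Ne, Ideal.Quotient.eq_zero_iff_mem, Ideal.mem_span_singleton]
    exact fun h2 => (D.prime_of_N h).not_isUnit (isUnit_of_dvd_one h2)
  obtain ⟨n, hn⟩ := AddSubgroup.mem_zmultiples_iff.1
    (mem_zmultiples_of_prime_card hc h1 (g' := Ideal.Quotient.mk (Ideal.span {π}) x))
  refine ⟨n, ?_⟩
  rw [← Ideal.mem_span_singleton, ← Ideal.Quotient.eq_zero_iff_mem, map_sub, ← hn]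
  simp

theorem j2_M {π : D.O} (h : (D.N π).Prime) (k : ¬ D.N π ∣ D.M) : ¬ π ∣ (D.M : D.O) :=
  fun h1 => k (h.dvd_of_dvd_pow (D.N_nat D.M ▸ D.N_dvd h1))

theorem not_dvd_σ {π : D.O} (h : (D.N π).Prime) (k : ¬ D.N π ∣ D.M) :
    ¬ π ∣ D.σ π ∧ ¬ π ∣ D.σ (D.σ π) := by
  have hπ := D.prime_of_N h
  have h1 : ¬ π ∣ D.σ π := by
    intro hd
    obtain ⟨x, hx⟩ := D.mov (Ideal.span {π}) ((Ideal.span_singleton_prime hπ.ne_zero).2 hπ)
      (by rw [Ideal.mem_span_singleton]; exact D.j2_M h k)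
    obtain ⟨n, hn⟩ := D.j2_int h x
    have h2 : π ∣ D.σ x - n := by
      have h3 := map_dvd D.σ hn
      rw [map_sub, map_intCast] at h3
      exact hd.trans h3
    apply hx
    rw [Ideal.mem_span_singleton]
    have h4 := dvd_sub hn h2
    rwa [sub_sub_sub_cancel_right] at h4
  refine ⟨h1, fun hd => h1 ?_⟩
  have h2 := map_dvd D.σ hd
  rw [D.σ3] at h2
  have h3 : Prime (D.σ π) := D.prime_of_N (by rw [D.N_σ]; exact h)
  exact (h3.associated_of_dvd hπ h2).symm.dvd

theorem j2_three {π : D.O} (h : (D.N π).Prime) (k : ¬ D.N π ∣ D.M) :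
    ∃ T : Finset D.O, T.card = 3 ∧ ∀ m ∈ T, D.Rp m ∧ D.N m = D.N π ∧
      ∀ y, D.σ y = y → π ∣ y → m ∣ y := by
  have n1 : D.N (D.σ π) = D.N π := D.N_σ π
  have n2 : D.N (D.σ (D.σ π)) = D.N π := by rw [D.N_σ, D.N_σ]
  have z : ∀ x, D.N x = D.N π → x ≠ 0 := fun x hx h0 =>
    h.ne_zero (by rw [← hx]; exact D.N_eq_zero.2 h0)
  obtain ⟨a, ha, ha'⟩ := D.exists_rp (z π rfl)
  obtain ⟨b, hb, hb'⟩ := D.exists_rp (z _ n1)
  obtain ⟨c, hc, hc'⟩ := D.exists_rp (z _ n2)
  have q1 := D.not_dvd_σ h k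
  have q2 := D.not_dvd_σ (π := D.σ π) (by rw [n1]; exact h) (by rw [n1]; exact k)
  have s1 : ∀ x y, D.σ y = y → x ∣ y → D.σ x ∣ y := fun x y hy hx => hy ▸ map_dvd D.σ hx
  refine ⟨{a, b, c}, Finset.card_eq_three.2 ⟨a, b, c, ?_, ?_, ?_, rfl⟩, ?_⟩
  · rintro rfl; exact q1.1 (ha'.symm.trans hb').dvd
  · rintro rfl; exact q1.2 (ha'.symm.trans hc').dvd
  · rintro rfl; exact q2.1 (hb'.symm.trans hc').dvd
  · intro m hm
    simp only [Finset.mem_insert, Finset.mem_singleton] at hm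
    rcases hm with rfl | rfl | rfl
    · exact ⟨ha, D.N_assoc ha', fun y _ hy => ha'.dvd.trans hy⟩
    · exact ⟨hb, (D.N_assoc hb').trans n1, fun y hy hd => hb'.dvd.trans (s1 _ _ hy hd)⟩
    · exact ⟨hc, (D.N_assoc hc').trans n2,
        fun y hy hd => hc'.dvd.trans (s1 _ _ hy (s1 _ _ hy hd))⟩

theorem six {p : ℕ} (hp : p.Prime) (k : ¬ p ∣ D.M) (h : D.Spl p) {U : ℝ} (hU : (p : ℝ) ≤ U) :
    ((D.DU U).filter fun m => D.N m = p).card = 6 := by
  obtain ⟨π, rfl⟩ := h
  apply le_antisymm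
  · set S := (D.DU U).filter fun m => D.N m = D.N π with hS
    have hm : ∀ m ∈ S, D.Rp m ∧ D.N m = D.N π := fun m hm =>
      ⟨(D.mem_DU.1 (Finset.mem_filter.1 hm).1).1, (Finset.mem_filter.1 hm).2⟩
    have hpr : ∀ m ∈ S, Prime m := fun m h1 => D.prime_of_N (by rw [(hm m h1).2]; exact hp)
    have hd : ∏ m ∈ S, m ∣ (D.N π : D.O) := by
      refine Finset.prod_dvd_of_coprime (fun a ha b hb hab => ?_) (fun m h1 => ?_)
      · refine ((hpr a ha).irreducible.coprime_iff_not_dvd).2 fun h2 => hab ?_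
        exact D.rp_eq (hm a ha).1 (hm b hb).1 ((hpr a ha).associated_of_dvd (hpr b hb) h2)
      · rw [← (hm m h1).2]; exact D.dvd_N m
    have hN : ∀ T : Finset D.O, (∀ m ∈ T, D.N m = D.N π) → D.N (∏ m ∈ T, m) = D.N π ^ T.card := by
      intro T
      induction T using Finset.induction_on with
      | empty => intro _; simpa using D.N_eq_one.2 isUnit_one
      | insert a T ha ih =>
        intro h1
        rw [Finset.prod_insert ha, D.N_mul, Finset.card_insert_of_notMem ha, pow_succ',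
          h1 a (Finset.mem_insert_self _ _), ih fun m h2 => h1 m (Finset.mem_insert_of_mem h2)]
    have h6 := D.N_dvd hd
    rw [hN S fun m h1 => (hm m h1).2, D.N_nat] at h6
    exact (Nat.pow_dvd_pow_iff_le_right hp.one_lt).1 h6
  · have n1 : D.N (D.τ π) = D.N π := D.N_τ π
    obtain ⟨T, hT, hT'⟩ := D.j2_three hp k
    obtain ⟨T', hU1, hU'⟩ := D.j2_three (π := D.τ π) (by rw [n1]; exact hp) (by rw [n1]; exact k)
    obtain ⟨w, hw⟩ := D.j2_int hp D.ω
    have hw' : D.τ π ∣ D.t - D.ω - w := by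
      have h3 := map_dvd D.τ hw
      rwa [map_sub, map_intCast, D.τω] at h3
    have hdis : Disjoint T T' := by
      rw [Finset.disjoint_left]
      intro m h1 h2
      have d1 := (hT' m h1).2.2 _ (by rw [map_sub, map_intCast, D.σω]) hw
      have d2 := (hU' m h2).2.2 _ (by rw [map_sub, map_sub, map_intCast, map_intCast, D.σω]) hw'
      have d3 := dvd_sub d1 d2
      have e1 : ((4 * D.c - D.t ^ 2 : ℤ) : D.O) =
          (D.ω - w - (D.t - D.ω - w)) * (D.t - 2 * D.ω) := by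
        push_cast
        linear_combination 4 * D.hω
      have d4 : m ∣ ((4 * D.c - D.t ^ 2 : ℤ) : D.O) := e1 ▸ d3.mul_right _
      have d5 : m ∣ (D.M : D.O) := by
        have h5 := map_dvd (Int.castRingHom D.O) D.Md
        simp only [eq_intCast, Int.cast_natCast] at h5
        exact d4.trans h5
      have nm := (hT' m h1).2.1
      exact D.j2_M (by rw [nm]; exact hp) (by rw [nm]; exact k) d5
    have hsub : T ∪ T' ⊆ (D.DU U).filter fun m => D.N m = D.N π := by
      intro m hm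
      have h1 : D.Rp m ∧ D.N m = D.N π := by
        rcases Finset.mem_union.1 hm with h2 | h2
        · exact ⟨(hT' m h2).1, (hT' m h2).2.1⟩
        · exact ⟨(hU' m h2).1, (hU' m h2).2.1.trans n1⟩
      exact Finset.mem_filter.2 ⟨D.mem_DU.2 ⟨h1.1, by rw [h1.2]; exact hU⟩, h1.2⟩
    have h7 := Finset.card_le_card hsub
    rwa [Finset.card_union_of_disjoint hdis, hT, hU1] at h7

end Dat

end Pool.Agent.Spin
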