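import Pool.Agent.Lib.MP_696deb_nt.Spin.D0

/-! Elementary facts on integers. -/

set_option autoImplicit false

open scoped Classical
open Finset Filter Topology

namespace Pool.Agent.Spin

theorem z1_gen {ε : ℝ} (h : 0 < ε) (F : ℕ → ℝ) (A C0 : ℝ) (hC : 1 ≤ C0) (hA : 0 ≤ A)
    (h0 : ∀ k, 0 ≤ F k) (h1 : ∀ k : ℕ, 1 ≤ k → F k ≤ A ^ k)
    (h2 : ∀ k : ℕ, 1 ≤ k → F k ≤ C0 * (2 : ℝ) ^ (ε * k)) :
    ∃ C : ℝ, 1 ≤ C ∧ ∀ q : ℕ, q ≠ 0 →
      ∏ p ∈ q.primeFactors, F (q.factorization p) ≤ C * (q : ℝ) ^ ε := by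
  obtain ⟨P, hP⟩ := eventually_atTop.1
    (((tendsto_rpow_atTop h).comp tendsto_natCast_atTop_atTop).eventually_ge_atTop A)
  refine ⟨C0 ^ P, one_le_pow₀ hC, fun q hq => ?_⟩
  have e1 : ∏ p ∈ q.primeFactors, F (q.factorization p) ≤
      ∏ p ∈ q.primeFactors, ((if p < P then C0 else 1) * (((p : ℝ) ^ q.factorization p) ^ ε)) := by
    refine prod_le_prod (fun p _ => h0 _) fun p hp => ?_
    have pp := Nat.prime_of_mem_primeFactors hp
    have hk : 1 ≤ q.factorization p :=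
      pp.factorization_pos_of_dvd hq (Nat.dvd_of_mem_primeFactors hp)
    have p0 : (0 : ℝ) ≤ p := Nat.cast_nonneg p
    have e : ((p : ℝ) ^ q.factorization p) ^ ε = ((p : ℝ) ^ ε) ^ q.factorization p := by
      rw [← Real.rpow_natCast, ← Real.rpow_mul p0, mul_comm, Real.rpow_mul p0, Real.rpow_natCast]
    split_ifs with hlt
    · refine (h2 _ hk).trans (mul_le_mul_of_nonneg_left ?_ (by linarith))
      rw [e, Real.rpow_mul (by norm_num), Real.rpow_natCast]
      refine pow_le_pow_left₀ (by positivity) (Real.rpow_le_rpow (by norm_num) ?_ h.le) _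
      exact_mod_cast pp.two_le
    · rw [one_mul, e]
      exact (h1 _ hk).trans (pow_le_pow_left₀ hA (hP p (not_lt.1 hlt)) _)
  refine e1.trans ?_
  rw [prod_mul_distrib, Real.finsetProd_rpow _ _ (fun p _ => by positivity)]
  have e2 : ∏ p ∈ q.primeFactors, (p : ℝ) ^ q.factorization p = q := by
    have := Nat.prod_factorization_pow_eq_self hq
    rw [Finsupp.prod, Nat.support_factorization] at this
    exact_mod_cast congrArg (Nat.cast : ℕ → ℝ) this
  rw [e2]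
  refine mul_le_mul_of_nonneg_right ?_ (by positivity)
  rw [prod_ite, prod_const_one, mul_one, prod_const]
  refine pow_le_pow_right₀ hC ?_
  calc _ ≤ (range P).card := card_le_card fun p hp => mem_range.2 (mem_filter.1 hp).2
    _ = P := card_range P

theorem om_le (K : ℝ) {ε : ℝ} (h : 0 < ε) : ∃ C : ℝ, 1 ≤ C ∧ ∀ q : ℕ, q ≠ 0 →
    K ^ q.primeFactors.card ≤ C * (q : ℝ) ^ ε := by
  have m1 : 1 ≤ max 1 |K| := le_max_left _ _
  obtain ⟨C, hC, H⟩ := z1_gen h (fun _ => max 1 |K|) (max 1 |K|) (max 1 |K|) m1 (by linarith)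
    (fun _ => by linarith) (fun k hk => le_self_pow₀ m1 (by omega))
    (fun k _ => le_mul_of_one_le_right (by linarith)
      (Real.one_le_rpow (by norm_num) (by positivity)))
  refine ⟨C, hC, fun q hq => le_trans ?_ (H q hq)⟩
  rw [prod_const]
  calc K ^ q.primeFactors.card ≤ |K ^ q.primeFactors.card| := le_abs_self _
    _ = |K| ^ q.primeFactors.card := abs_pow _ _
    _ ≤ _ := pow_le_pow_left₀ (abs_nonneg _) (le_max_right _ _) _

theorem dv_le {ε : ℝ} (h : 0 < ε) : ∃ C : ℝ, 1 ≤ C ∧ ∀ q : ℕ, q ≠ 0 →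
    (q.divisors.card : ℝ) ≤ C * (q : ℝ) ^ ε := by
  have l2 : 0 < Real.log 2 := Real.log_pos (by norm_num)
  have hc : 0 < ε * Real.log 2 := mul_pos h l2
  obtain ⟨C, hC, H⟩ := z1_gen h (fun k => (k : ℝ) + 1) 2 (1 + (ε * Real.log 2)⁻¹)
    (by have := inv_pos.2 hc; linarith) (by norm_num) (fun k => by positivity)
    (fun k _ => by exact_mod_cast (Nat.lt_two_pow_self (n := k)))
    (fun k _ => by
      have e : 1 + ε * Real.log 2 * k ≤ (2 : ℝ) ^ (ε * k) := by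
        rw [Real.rpow_def_of_pos (by norm_num)]
        have := Real.add_one_le_exp (Real.log 2 * (ε * k))
        nlinarith
      have k0 : (0 : ℝ) ≤ k := Nat.cast_nonneg k
      have i0 := inv_pos.2 hc
      have e3 : (ε * Real.log 2)⁻¹ * (ε * Real.log 2 * k) = k := by field_simp
      calc (k : ℝ) + 1 ≤ (1 + (ε * Real.log 2)⁻¹) * (1 + ε * Real.log 2 * k) := by
            have : 0 ≤ ε * Real.log 2 * k := by positivity
            nlinarith
        _ ≤ _ := mul_le_mul_of_nonneg_left e (by positivity))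
  refine ⟨C, hC, fun q hq => le_trans (le_of_eq ?_) (H q hq)⟩
  rw [Nat.card_divisors hq]
  push_cast
  rfl

theorem z1_ab {n : ℕ} (h : Sqf n) : ∃ y : ℕ × ℕ, n = y.1 ^ 2 * y.2 ^ 3 := by
  obtain ⟨s, m, e, hs⟩ := Nat.sq_mul_squarefree n
  have hd : s ∣ m := by
    rw [← Nat.prod_primeFactors_of_squarefree hs]
    refine Finset.prod_primes_dvd _ (fun p hp => (Nat.prime_of_mem_primeFactors hp).prime)
      fun p hp => ?_
    have pp := Nat.prime_of_mem_primeFactors hp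
    by_contra hm
    have h2 : p ^ 2 ∣ m ^ 2 * s := e ▸ h.2 p pp (e ▸ (Nat.dvd_of_mem_primeFactors hp).mul_left _)
    have h3 : p ^ 2 ∣ s :=
      (Nat.Coprime.pow 2 2 ((Nat.Prime.coprime_iff_not_dvd pp).2 hm)).dvd_of_dvd_mul_left h2
    exact pp.one_lt.ne' (Nat.isUnit_iff.1 (hs p (by rwa [← sq])))
  obtain ⟨c, rfl⟩ := hd
  exact ⟨(c, s), by rw [← e]; ring⟩

theorem sq_sum : ∃ C : ℝ, 1 ≤ C ∧ ∀ s : Finset ℕ, (∀ n ∈ s, Sqf n) →
    ∑ n ∈ s, (n : ℝ) ^ (-(13 / 24) : ℝ) ≤ C := by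
  have sa : Summable fun n : ℕ => (n : ℝ) ^ (-(13 / 12) : ℝ) :=
    Real.summable_nat_rpow.2 (by norm_num)
  have sb : Summable fun n : ℕ => (n : ℝ) ^ (-(13 / 8) : ℝ) :=
    Real.summable_nat_rpow.2 (by norm_num)
  refine ⟨max 1 ((∑' n : ℕ, (n : ℝ) ^ (-(13 / 12) : ℝ)) * ∑' n : ℕ, (n : ℝ) ^ (-(13 / 8) : ℝ)),
    le_max_left _ _, fun s hs => le_trans ?_ (le_max_right _ _)⟩
  have hg : ∀ n : ℕ, ∃ y : ℕ × ℕ, Sqf n → n = y.1 ^ 2 * y.2 ^ 3 := fun n => by
    by_cases h : Sqf n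
    · obtain ⟨y, hy⟩ := z1_ab h
      exact ⟨y, fun _ => hy⟩
    · exact ⟨(0, 0), fun h' => absurd h' h⟩
  choose g hg using hg
  have e1 : ∑ n ∈ s, (n : ℝ) ^ (-(13 / 24) : ℝ) =
      ∑ y ∈ s.image g, (y.1 : ℝ) ^ (-(13 / 12) : ℝ) * (y.2 : ℝ) ^ (-(13 / 8) : ℝ) := by
    rw [sum_image]
    · refine sum_congr rfl fun n hn => ?_
      have e := congrArg (Nat.cast : ℕ → ℝ) (hg n (hs n hn))
      push_cast at e
      rw [e, Real.mul_rpow (by positivity) (by positivity), ← Real.rpow_natCast,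
        ← Real.rpow_natCast, ← Real.rpow_mul (by positivity), ← Real.rpow_mul (by positivity)]
      norm_num
    · intro a ha b hb e
      rw [hg a (hs a ha), hg b (hs b hb), e]
  rw [e1]
  calc _ ≤ ∑ y ∈ (s.image g).image Prod.fst ×ˢ (s.image g).image Prod.snd,
        (y.1 : ℝ) ^ (-(13 / 12) : ℝ) * (y.2 : ℝ) ^ (-(13 / 8) : ℝ) :=
        sum_le_sum_of_subset_of_nonneg subset_product fun _ _ _ => by positivity
    _ = (∑ a ∈ (s.image g).image Prod.fst, (a : ℝ) ^ (-(13 / 12) : ℝ)) *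
        ∑ b ∈ (s.image g).image Prod.snd, (b : ℝ) ^ (-(13 / 8) : ℝ) := by
        rw [sum_product, sum_mul_sum]
    _ ≤ _ := mul_le_mul (sa.sum_le_tsum _ fun _ _ => by positivity)
        (sb.sum_le_tsum _ fun _ _ => by positivity) (sum_nonneg fun _ _ => by positivity)
        (tsum_nonneg fun _ => by positivity)

theorem sq_card : ∃ C : ℝ, 1 ≤ C ∧ ∀ (X : ℝ) (s : Finset ℕ), 1 ≤ X →
    (∀ n ∈ s, Sqf n ∧ (n : ℝ) ≤ X) → (s.card : ℝ) ≤ C * X ^ (13 / 24 : ℝ) := by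
  obtain ⟨C, hC, H⟩ := sq_sum
  refine ⟨C, hC, fun X s hX hs => ?_⟩
  have x0 : 0 ≤ X ^ (13 / 24 : ℝ) := by positivity
  refine le_trans ?_ (mul_le_mul_of_nonneg_right (H s fun n hn => (hs n hn).1) x0)
  rw [sum_mul, card_eq_sum_ones]
  push_cast
  refine sum_le_sum fun n hn => ?_
  have n0 : (0 : ℝ) < n := by exact_mod_cast Nat.pos_of_ne_zero (hs n hn).1.1
  rw [Real.rpow_neg n0.le, inv_mul_eq_div, one_le_div (by positivity)]
  exact Real.rpow_le_rpow n0.le (hs n hn).2 (by norm_num)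

theorem z1_split (n : ℕ) : n ≠ 0 → ∃ s g : ℕ, n = s * g ∧ Squarefree s ∧ Sqf g ∧ s.Coprime g := by
  induction n using Nat.recOnPosPrimePosCoprime with
  | prime_pow p k hp hk =>
    intro h
    by_cases k1 : k = 1
    · exact ⟨p, 1, by simp [k1], hp.squarefree, ⟨one_ne_zero, fun r hr hd =>
        absurd (Nat.dvd_one.1 hd) hr.one_lt.ne'⟩, by simp⟩
    · refine ⟨1, p ^ k, by simp, squarefree_one, ⟨h, fun r hr hd => ?_⟩, by simp⟩
      obtain rfl := (Nat.prime_dvd_prime_iff_eq hr hp).1 (hr.dvd_of_dvd_pow hd)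
      exact pow_dvd_pow _ (by omega)
  | zero => exact fun h => absurd rfl h
  | one => exact fun _ => ⟨1, 1, rfl, squarefree_one, ⟨one_ne_zero, fun r hr hd =>
        absurd (Nat.dvd_one.1 hd) hr.one_lt.ne'⟩, by simp⟩
  | coprime a b ha hb hab iha ihb =>
    intro _
    obtain ⟨s, g, rfl, hs, hg, c⟩ := iha (by omega)
    obtain ⟨s', g', rfl, hs', hg', c'⟩ := ihb (by omega)
    simp only [Nat.coprime_mul_iff_left, Nat.coprime_mul_iff_right] at hab
    refine ⟨s * s', g * g', by ring, (Nat.squarefree_mul hab.1.1).2 ⟨hs, hs'⟩,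
      ⟨mul_ne_zero hg.1 hg'.1, fun r hr hd => ?_⟩, ?_⟩
    · rcases (Nat.Prime.dvd_mul hr).1 hd with h | h
      · exact (hg.2 r hr h).mul_right _
      · exact (hg'.2 r hr h).mul_left _
    · simp only [Nat.coprime_mul_iff_left, Nat.coprime_mul_iff_right]
      exact ⟨⟨c, hab.1.2.symm⟩, hab.2.1, c'⟩

theorem decomp {n e : ℕ} (hn : n ≠ 0) (he : e ≠ 0) : ∃ q g g' : ℕ, n = q * g' * g ∧
    Squarefree q ∧ Sqf g ∧ g' ∣ e ∧ q.Coprime (g' * g * e) ∧ (q * g').Coprime g := by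
  obtain ⟨s, g, rfl, hs, hg, c⟩ := z1_split n hn
  obtain ⟨q, hq⟩ := Nat.gcd_dvd_left s e
  have e1 : s = q * Nat.gcd s e := by rw [mul_comm]; exact hq
  have hsq : Squarefree (q * Nat.gcd s e) := e1 ▸ hs
  have c1 : q.Coprime (Nat.gcd s e) := Nat.coprime_of_squarefree_mul hsq
  have qs : q ∣ s := ⟨_, e1⟩
  refine ⟨q, g, Nat.gcd s e, by rw [← e1], hs.squarefree_of_dvd qs, hg, Nat.gcd_dvd_right _ _,
    ?_, e1 ▸ c⟩
  refine Nat.Coprime.mul_right (c1.mul_right (c.coprime_dvd_left qs)) ?_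
  refine Nat.Coprime.eq_one_of_dvd
    (c1.coprime_dvd_left (Nat.gcd_dvd_left q e)) ?_
  exact Nat.dvd_gcd ((Nat.gcd_dvd_left q e).trans qs) (Nat.gcd_dvd_right q e)

theorem z1_cnt {d : ℕ} (hd : 0 < d) (v B : ℕ) :
    |(∑ n ∈ range B, if d ∣ n + v then (1 : ℝ) else 0) - B / d| ≤ 1 := by
  have key : ∀ B : ℕ, (∑ n ∈ range B, if d ∣ n + v then (1 : ℝ) else 0) =
      ((B + v + d - 1) / d : ℕ) - ((v + d - 1) / d : ℕ) := by
    intro B
    induction B with
    | zero => simp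
    | succ B ih =>
      rw [sum_range_succ, ih]
      have e : B + 1 + v + d - 1 = (B + v + d - 1) + 1 := by omega
      have e' : B + v + d - 1 + 1 = B + v + d := by omega
      rw [e, Nat.succ_div, e']
      push_cast
      simp only [Nat.dvd_add_self_right]
      ring
  have bd : ∀ m : ℕ, (m : ℝ) / d ≤ ((m + d - 1) / d : ℕ) ∧
      (((m + d - 1) / d : ℕ) : ℝ) ≤ m / d + 1 := by
    intro m
    have d0 : (0 : ℝ) < d := by exact_mod_cast hd
    have a1 := Nat.div_add_mod (m + d - 1) d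
    have a2 := Nat.mod_lt (m + d - 1) hd
    have b1 : m ≤ (m + d - 1) / d * d := by rw [mul_comm]; omega
    have b2 : (m + d - 1) / d * d ≤ m + d := by rw [mul_comm]; omega
    constructor
    · rw [div_le_iff₀ d0]; exact_mod_cast b1
    · rw [div_add_one d0.ne', le_div_iff₀ d0]; exact_mod_cast b2
  rw [key, abs_le]
  have h1 := bd (B + v)
  have h2 := bd v
  push_cast [add_div] at h1
  constructor <;> linarith [h1.1, h1.2, h2.1, h2.2]

theorem cop_count {ε : ℝ} (h : 0 < ε) : ∃ C : ℝ, 1 ≤ C ∧ ∀ q v B : ℕ, Squarefree q →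
    B / (C * (q : ℝ) ^ ε) - C * (q : ℝ) ^ ε ≤
      (((range B).filter fun n => (n + v).Coprime q).card : ℝ) := by
  obtain ⟨C, hC, H⟩ := om_le 2 h
  refine ⟨C, hC, fun q v B hq => ?_⟩
  have q0 := hq.ne_zero
  have e1 : ∀ m : ℕ, (if m.Coprime q then (1 : ℝ) else 0) =
      ∑ t ∈ q.primeFactors.powerset, (-1) ^ t.card * if (∏ p ∈ t, p) ∣ m then (1 : ℝ) else 0 := by
    intro m
    have a1 : (if m.Coprime q then (1 : ℝ) else 0) =
        ∏ p ∈ q.primeFactors, (1 + -if p ∣ m then (1 : ℝ) else 0) := by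
      split_ifs with hc
      · refine (prod_eq_one fun p hp => ?_).symm
        rw [if_neg, neg_zero, add_zero]
        intro hd
        exact (Nat.prime_of_mem_primeFactors hp).one_lt.ne'
          (Nat.eq_one_of_dvd_coprimes hc hd (Nat.dvd_of_mem_primeFactors hp))
      · obtain ⟨p, pp, h1, h2⟩ := Nat.Prime.not_coprime_iff_dvd.1 hc
        exact (prod_eq_zero (Nat.mem_primeFactors.2 ⟨pp, h2, q0⟩) (by simp [h1])).symm
    rw [a1, prod_one_add]
    refine sum_congr rfl fun t ht => ?_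
    rw [prod_neg, prod_boole]
    congr 1
    refine if_congr ⟨fun hh => ?_, fun hh p hp => (dvd_prod_of_mem _ hp).trans hh⟩ rfl rfl
    exact Finset.prod_primes_dvd _
      (fun p hp => (Nat.prime_of_mem_primeFactors (mem_powerset.1 ht hp)).prime) hh
  have e2 : (((range B).filter fun n => (n + v).Coprime q).card : ℝ) =
      ∑ t ∈ q.primeFactors.powerset, (-1) ^ t.card *
        ∑ n ∈ range B, if (∏ p ∈ t, p) ∣ n + v then (1 : ℝ) else 0 := by
    rw [card_filter]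
    push_cast
    simp only [e1, mul_sum]
    exact sum_comm
  have e3 : ∑ t ∈ q.primeFactors.powerset, (-1) ^ t.card * ((B : ℝ) / (∏ p ∈ t, p : ℕ)) =
      B * ∏ p ∈ q.primeFactors, (1 + -(p : ℝ)⁻¹) := by
    rw [prod_one_add, mul_sum]
    refine sum_congr rfl fun t _ => ?_
    rw [prod_neg, prod_inv_distrib]
    push_cast
    ring
  have e4 : ((2 : ℝ) ^ q.primeFactors.card)⁻¹ ≤ ∏ p ∈ q.primeFactors, (1 + -(p : ℝ)⁻¹) := by
    rw [← inv_pow, ← prod_const]
    refine prod_le_prod (fun _ _ => by norm_num) fun p hp => ?_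
    have : (2 : ℝ) ≤ p := by exact_mod_cast (Nat.prime_of_mem_primeFactors hp).two_le
    have := inv_anti₀ (by norm_num : (0 : ℝ) < 2) this
    linarith
  have e5 : ∑ t ∈ q.primeFactors.powerset, ((-1) ^ t.card * ((B : ℝ) / (∏ p ∈ t, p : ℕ)) - 1) ≤
      (((range B).filter fun n => (n + v).Coprime q).card : ℝ) := by
    rw [e2]
    refine sum_le_sum fun t ht => ?_
    have := z1_cnt (d := ∏ p ∈ t, p) (prod_pos fun p hp =>
      (Nat.prime_of_mem_primeFactors (mem_powerset.1 ht hp)).pos) v B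
    rw [abs_le] at this
    rcases neg_one_pow_eq_or ℝ t.card with e | e <;> rw [e] <;> linarith [this.1, this.2]
  rw [sum_sub_distrib, e3, sum_const, card_powerset, nsmul_eq_mul, mul_one] at e5
  push_cast at e5
  have hH := H q q0
  have e6 : B / (C * (q : ℝ) ^ ε) ≤ B * ((2 : ℝ) ^ q.primeFactors.card)⁻¹ := by
    rw [div_eq_mul_inv]
    exact mul_le_mul_of_nonneg_left (inv_anti₀ (by positivity) hH) (Nat.cast_nonneg _)
  have e7 := mul_le_mul_of_nonneg_left e4 (Nat.cast_nonneg B : (0 : ℝ) ≤ B)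
  linarith

end Pool.Agent.Spin
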