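import Pool.Agent.Lib.MP_696deb_nt.Spin.G2
import Pool.Agent.Lib.MP_696deb_nt.Spin.J2
import Pool.Agent.Lib.MP_696deb_nt.Spin.Z1

/-! Divisor bounds. -/

set_option autoImplicit false

open scoped Classical
open Finset Filter Topology

namespace Pool.Agent.Spin

namespace Dat

variable (D : Dat)

/-- The chosen generators that divide `x`. -/
noncomputable def dvs (x : D.O) : Finset D.O := (D.pr x).image Prod.fst

theorem dv_mem {x : D.O} (h : x ≠ 0) {m : D.O} : m ∈ D.dvs x ↔ D.Rp m ∧ m ∣ x := by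
  rw [dvs, mem_image]
  constructor
  · rintro ⟨y, hy, rfl⟩
    obtain ⟨h1, h2⟩ := (D.mem_pr h).1 hy
    exact ⟨h1, y.2, h2.symm⟩
  · rintro ⟨h1, n, h2⟩
    exact ⟨(m, n), (D.mem_pr h).2 ⟨h1, h2.symm⟩, rfl⟩

theorem dv_card {x : D.O} (h : x ≠ 0) : (D.pr x).card = (D.dvs x).card := by
  rw [dvs, card_image_of_injOn]
  intro y hy z hz hyz
  obtain ⟨h1, h2⟩ := (D.mem_pr h).1 hy
  obtain ⟨_, h4⟩ := (D.mem_pr h).1 hz
  refine Prod.ext hyz (mul_left_cancel₀ h1.1 ?_)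
  rw [h2, hyz, h4]

theorem dv_gn {m x : D.O} (h : D.Rp m) (k : Associated m x) : D.gn (Ideal.span {x}) = m := by
  rw [← Ideal.span_singleton_eq_span_singleton.2 k, h.2]

theorem dv_mono {x y : D.O} (h : y ≠ 0) (k : x ∣ y) : (D.dvs x).card ≤ (D.dvs y).card :=
  card_le_card fun _ hm => (D.dv_mem h).2
    (((D.dv_mem (ne_zero_of_dvd_ne_zero h k)).1 hm).imp_right fun t => t.trans k)

theorem dv_mul {x y : D.O} (hx : x ≠ 0) (hy : y ≠ 0) :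
    (D.dvs (x * y)).card ≤ (D.dvs x).card * (D.dvs y).card := by
  rw [← card_product]
  refine le_trans (card_le_card fun m hm => ?_)
    (card_image_le (f := fun p : D.O × D.O => D.gn (Ideal.span {p.1 * p.2})))
  obtain ⟨h1, h2⟩ := (D.dv_mem (mul_ne_zero hx hy)).1 hm
  obtain ⟨a, b, ha, hb, hab⟩ := exists_dvd_and_dvd_of_dvd_mul h2
  obtain ⟨a', ha1, ha2⟩ := D.exists_rp (ne_zero_of_dvd_ne_zero hx ha)
  obtain ⟨b', hb1, hb2⟩ := D.exists_rp (ne_zero_of_dvd_ne_zero hy hb)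
  refine mem_image.2 ⟨(a', b'), mem_product.2 ⟨(D.dv_mem hx).2 ⟨ha1, ha2.dvd.trans ha⟩,
    (D.dv_mem hy).2 ⟨hb1, hb2.dvd.trans hb⟩⟩, D.dv_gn h1 ?_⟩
  rw [hab]
  exact (ha2.mul_mul hb2).symm

theorem dv_prime_pow {π : D.O} (h : Prime π) (k : ℕ) : (D.dvs (π ^ k)).card ≤ k + 1 := by
  refine le_trans (card_le_card fun m hm => ?_)
    ((card_image_le (s := range (k + 1)) (f := fun i => D.gn (Ideal.span {π ^ i}))).trans
      (card_range _).le)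
  obtain ⟨h1, h2⟩ := (D.dv_mem (pow_ne_zero k h.ne_zero)).1 hm
  obtain ⟨i, hi, h3⟩ := (dvd_prime_pow h k).1 h2
  exact mem_image.2 ⟨i, mem_range.2 (Nat.lt_succ_of_le hi), D.dv_gn h1 h3⟩

theorem dv_unit {x : D.O} (h : IsUnit x) : (D.dvs x).card ≤ 1 := by
  refine card_le_one.2 fun a ha b hb => ?_
  obtain ⟨h1, h2⟩ := (D.dv_mem h.ne_zero).1 ha
  obtain ⟨h3, h4⟩ := (D.dv_mem h.ne_zero).1 hb
  exact D.rp_eq h1 h3 ((associated_one_iff_isUnit.2 (isUnit_of_dvd_unit h2 h)).trans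
    (associated_one_iff_isUnit.2 (isUnit_of_dvd_unit h4 h)).symm)

theorem dv_pow {p : ℕ} (hp : p.Prime) (k : ℕ) (x : D.O) :
    ∀ j : ℕ, D.N x ∣ p ^ j → (D.dvs (x ^ k)).card ≤ (k + 1) ^ j := by
  induction x using UniqueFactorizationMonoid.induction_on_prime with
  | h₁ =>
    intro j hj
    rw [D.N_eq_zero.2 rfl, zero_dvd_iff] at hj
    exact absurd hj (pow_ne_zero j hp.ne_zero)
  | h₂ x hx => exact fun j _ => (D.dv_unit (hx.pow k)).trans (Nat.one_le_pow _ _ k.succ_pos)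
  | h₃ y π hy hπ ih =>
    intro j hj
    rw [D.N_mul] at hj
    obtain ⟨i, _, hi⟩ := (Nat.dvd_prime_pow hp).1 ((dvd_mul_right _ _).trans hj)
    have hi0 : i ≠ 0 := by
      rintro rfl
      exact hπ.not_isUnit (D.N_eq_one.1 (by simpa using hi))
    have h1 : p * D.N y ∣ p ^ j :=
      (Nat.mul_dvd_mul_right (hi ▸ dvd_pow_self p hi0) _).trans hj
    obtain _ | j := j
    · exact absurd (Nat.eq_one_of_mul_eq_one_right (Nat.dvd_one.1 h1)) hp.one_lt.ne'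
    rw [pow_succ'] at h1
    rw [mul_pow, pow_succ']
    exact (D.dv_mul (pow_ne_zero k hπ.ne_zero) (pow_ne_zero k hy)).trans
      (Nat.mul_le_mul (D.dv_prime_pow hπ k) (ih j (Nat.dvd_of_mul_dvd_mul_left hp.pos h1)))

theorem dv_nat_ne {n : ℕ} (h : n ≠ 0) : (n : D.O) ≠ 0 := fun k =>
  pow_ne_zero 6 h (by rw [← D.N_nat, D.N_eq_zero.2 k])

theorem dv_nat (n : ℕ) : n ≠ 0 → (D.dvs n).card ≤ n.divisors.card ^ 6 := by
  induction n using Nat.recOnPosPrimePosCoprime with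
  | prime_pow p k hp _ =>
    intro _
    rw [Nat.cast_pow, Nat.divisors_prime_pow hp, card_map, card_range]
    exact D.dv_pow hp k p 6 (D.N_nat p ▸ dvd_rfl)
  | zero => exact fun h => absurd rfl h
  | one => exact fun _ => (D.dv_unit (by simp)).trans (by simp)
  | coprime a b ha hb hab iha ihb =>
    intro _
    rw [Nat.cast_mul, hab.card_divisors_mul, mul_pow]
    exact (D.dv_mul (D.dv_nat_ne (by omega)) (D.dv_nat_ne (by omega))).trans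
      (Nat.mul_le_mul (iha (by omega)) (ihb (by omega)))

theorem dv_nat_le {ε : ℝ} (h : 0 < ε) : ∃ C : ℝ, 1 ≤ C ∧ ∀ n : ℕ, n ≠ 0 →
    ((D.dvs n).card : ℝ) ≤ C * (n : ℝ) ^ ε := by
  obtain ⟨C, hC, k⟩ := dv_le (show 0 < ε / 6 by positivity)
  refine ⟨C ^ 6, one_le_pow₀ hC, fun n hn => ?_⟩
  calc ((D.dvs n).card : ℝ) ≤ (n.divisors.card : ℝ) ^ 6 := by exact_mod_cast D.dv_nat n hn
    _ ≤ (C * (n : ℝ) ^ (ε / 6)) ^ 6 := pow_le_pow_left₀ (Nat.cast_nonneg _) (k n hn) 6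
    _ = _ := by
      rw [mul_pow, ← Real.rpow_natCast ((n : ℝ) ^ (ε / 6)), ← Real.rpow_mul (Nat.cast_nonneg _)]
      norm_num

theorem tau_le {ε : ℝ} (h : 0 < ε) : ∃ C : ℝ, 1 ≤ C ∧ ∀ x : D.O, x ≠ 0 →
    ((D.pr x).card : ℝ) ≤ C * (D.N x : ℝ) ^ ε := by
  obtain ⟨C, hC, k⟩ := D.dv_nat_le h
  refine ⟨C, hC, fun x hx => le_trans ?_ (k _ (mt D.N_eq_zero.1 hx))⟩
  rw [D.dv_card hx]
  exact_mod_cast D.dv_mono (D.dv_nat_ne (mt D.N_eq_zero.1 hx)) (D.dvd_N x)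

theorem r_le {ε : ℝ} (h : 0 < ε) : ∃ C : ℝ, 1 ≤ C ∧ ∀ (U : ℝ) (n : ℕ), n ≠ 0 →
    (((D.DU U).filter fun m => D.N m = n).card : ℝ) ≤ C * (n : ℝ) ^ ε := by
  obtain ⟨C, hC, k⟩ := D.dv_nat_le h
  refine ⟨C, hC, fun U n hn => le_trans (Nat.cast_le.2 (card_le_card fun m hm => ?_)) (k n hn)⟩
  obtain ⟨h1, h2⟩ := mem_filter.1 hm
  exact (D.dv_mem (D.dv_nat_ne hn)).2 ⟨(D.mem_DU.1 h1).1, h2 ▸ D.dvd_N m⟩

theorem dv_coord {T : ℝ} {y : D.O} (hy : y ≠ 0) (h : D.sz y ≤ T) (i : Fin 3) :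
    ‖D.e y i‖ ≤ T ∧ 1 ≤ ‖D.e y i‖ * T ^ 2 := by
  have h0 : ∀ j, ‖D.e y j‖ ≤ T := fun j => (norm_le_pi_norm (D.e y) j).trans h
  have hT : 0 ≤ T := (norm_nonneg _).trans (h0 0)
  refine ⟨h0 i, ?_⟩
  have h1 : (1 : ℝ) ≤ D.N y := by exact_mod_cast Nat.one_le_iff_ne_zero.2 (mt D.N_eq_zero.1 hy)
  rw [D.N_eq, nV] at h1
  have h2 : 1 ≤ ‖D.e y 0‖ * ‖D.e y 1‖ * ‖D.e y 2‖ :=
    (one_le_sq_iff₀ (by positivity)).1 h1
  have h3 : ∀ j k, ‖D.e y j‖ * ‖D.e y k‖ ≤ T ^ 2 := fun j k => by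
    rw [sq]; exact mul_le_mul (h0 j) (h0 k) (norm_nonneg _) hT
  refine h2.trans ?_
  fin_cases i
  · calc _ = ‖D.e y 0‖ * (‖D.e y 1‖ * ‖D.e y 2‖) := by ring
      _ ≤ _ := mul_le_mul_of_nonneg_left (h3 1 2) (norm_nonneg _)
  · calc _ = ‖D.e y 1‖ * (‖D.e y 0‖ * ‖D.e y 2‖) := by ring
      _ ≤ _ := mul_le_mul_of_nonneg_left (h3 0 2) (norm_nonneg _)
  · calc _ = ‖D.e y 2‖ * (‖D.e y 0‖ * ‖D.e y 1‖) := by ring
      _ ≤ _ := mul_le_mul_of_nonneg_left (h3 0 1) (norm_nonneg _)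

theorem gen_le {ε : ℝ} (h : 0 < ε) : ∃ C : ℝ, 1 ≤ C ∧ ∀ T : ℝ, 1 ≤ T → ∀ x : D.O,
    (((D.ball T).filter fun y => Associated y x).card : ℝ) ≤ C * T ^ ε := by
  have hδ : 0 < ε / 3 := by positivity
  have hc1 : (1 : ℝ) ≤ (4 / (ε / 3) + 3) ^ 3 :=
    one_le_pow₀ (by have : 0 < 4 / (ε / 3) := by positivity
                    linarith)
  have hb1 : (1 : ℝ) ≤ (D.ball 3).card + 1 := by simp
  refine ⟨((D.ball 3).card + 1) * (4 / (ε / 3) + 3) ^ 3, one_le_mul_of_one_le_of_one_le hb1 hc1,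
    fun T hT x => ?_⟩
  have hT0 : 0 < T := by linarith
  have hTe : 1 ≤ T ^ ε := Real.one_le_rpow hT h.le
  by_cases hx : x = 0
  · have h1 : ((D.ball T).filter fun y => Associated y x).card ≤ 1 := by
      refine card_le_one.2 fun a ha b hb => ?_
      have h2 := (mem_filter.1 ha).2
      have h3 := (mem_filter.1 hb).2
      rw [hx, associated_zero_iff_eq_zero] at h2 h3
      rw [h2, h3]
    exact le_trans (by exact_mod_cast h1)
      (one_le_mul_of_one_le_of_one_le (one_le_mul_of_one_le_of_one_le hb1 hc1) hTe)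
  have hL : 0 ≤ Real.log T := Real.log_nonneg hT
  set K : ℕ := ⌈2 * Real.log T⌉₊ with hK
  have hK1 : 2 * Real.log T ≤ K := Nat.le_ceil _
  have hK2 : (K : ℝ) < 2 * Real.log T + 1 := Nat.ceil_lt_add_one (by positivity)
  have hne : ∀ y ∈ (D.ball T).filter fun y => Associated y x, y ≠ 0 := fun y hy h0 =>
    hx ((mem_filter.1 hy).2.eq_zero_iff.1 h0)
  have hco : ∀ y ∈ (D.ball T).filter fun y => Associated y x, ∀ i,
      ‖D.e y i‖ ≤ T ∧ 1 ≤ ‖D.e y i‖ * T ^ 2 := fun y hy =>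
    D.dv_coord (hne y hy) (D.mem_ball.1 (mem_filter.1 hy).1)
  have hpos : ∀ y ∈ (D.ball T).filter fun y => Associated y x, ∀ i, 0 < ‖D.e y i‖ :=
    fun y hy i => (mul_pos_iff_of_pos_right (pow_pos hT0 2)).1 (one_pos.trans_le (hco y hy i).2)
  have key := card_le_mul_card_image_of_maps_to
    (s := (D.ball T).filter fun y => Associated y x)
    (f := fun y (i : Fin 3) => ⌊Real.log ‖D.e y i‖⌋)
    (t := Fintype.piFinset fun _ => Icc (-(K : ℤ)) K) (fun y hy => ?_) (D.ball 3).card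
    (fun b _ => ?_)
  · rw [Fintype.card_piFinset_const, Int.card_Icc,
      show ((K : ℤ) + 1 - -(K : ℤ)).toNat = 2 * K + 1 by omega] at key
    have h1 : (2 * K + 1 : ℝ) ≤ (4 / (ε / 3) + 3) * T ^ (ε / 3) := by
      have h2 := Real.log_le_rpow_div hT0.le hδ
      have h3 : 1 ≤ T ^ (ε / 3) := Real.one_le_rpow hT hδ.le
      have h4 : (4 / (ε / 3) + 3) * T ^ (ε / 3) =
          4 * (T ^ (ε / 3) / (ε / 3)) + 3 * T ^ (ε / 3) := by ring
      linarith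
    have h2 : (T ^ (ε / 3)) ^ 3 = T ^ ε := by
      rw [← Real.rpow_natCast, ← Real.rpow_mul hT0.le]; norm_num
    calc _ ≤ ((D.ball 3).card : ℝ) * (2 * K + 1) ^ 3 := by exact_mod_cast key
      _ ≤ ((D.ball 3).card + 1) * ((4 / (ε / 3) + 3) * T ^ (ε / 3)) ^ 3 := by
        gcongr; linarith
      _ = _ := by rw [mul_pow, h2, mul_assoc]
  · refine Fintype.mem_piFinset.2 fun i => mem_Icc.2 ⟨Int.le_floor.2 ?_, ?_⟩
    · have h1 := Real.log_nonneg (hco y hy i).2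
      rw [Real.log_mul (hpos y hy i).ne' (by positivity), Real.log_pow] at h1
      push_cast at h1 ⊢
      linarith
    · have h1 := Real.log_le_log (hpos y hy i) (hco y hy i).1
      have h2 := Int.floor_le (Real.log ‖D.e y i‖)
      have h3 : ((⌊Real.log ‖D.e y i‖⌋ : ℤ) : ℝ) ≤ ((K : ℤ) : ℝ) := by push_cast; linarith
      exact_mod_cast h3
  · rcases (((D.ball T).filter fun y => Associated y x).filter
      fun y => (fun i : Fin 3 => ⌊Real.log ‖D.e y i‖⌋) = b).eq_empty_or_nonempty with h0 | ⟨z, hz⟩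
    · rw [h0]; simp
    refine le_trans (card_le_card fun y hy => ?_) (card_image_le (f := fun u => z * u))
    obtain ⟨hy1, hy2⟩ := mem_filter.1 hy
    obtain ⟨hz1, hz2⟩ := mem_filter.1 hz
    obtain ⟨u, hu⟩ := (mem_filter.1 hz1).2.trans (mem_filter.1 hy1).2.symm
    refine mem_image.2 ⟨u, D.mem_ball.2 ((pi_norm_le_iff_of_nonneg (by norm_num)).2 fun i => ?_),
      hu⟩
    have h1 : ‖D.e y i‖ = ‖D.e z i‖ * ‖D.e u i‖ := by rw [← hu, D.e_mul, Pi.mul_apply, norm_mul]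
    have h2 : 0 < ‖D.e u i‖ :=
      (mul_pos_iff_of_pos_left (hpos z hz1 i)).1 (h1 ▸ hpos y hy1 i)
    have h3 : ⌊Real.log ‖D.e y i‖⌋ = ⌊Real.log ‖D.e z i‖⌋ :=
      (congrFun hy2 i).trans (congrFun hz2 i).symm
    have h4 := Int.lt_floor_add_one (Real.log ‖D.e y i‖)
    have h5 := Int.floor_le (Real.log ‖D.e z i‖)
    rw [h3, h1, Real.log_mul (hpos z hz1 i).ne' h2.ne'] at h4
    have h6 : ‖D.e u i‖ < Real.exp 1 := (Real.log_lt_iff_lt_exp h2).1 (by linarith)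
    linarith [Real.exp_one_lt_d9]

theorem dv_ball {ε : ℝ} (h : 0 < ε) : ∃ C : ℝ, 1 ≤ C ∧ ∀ T : ℝ, 1 ≤ T → ∀ n : ℕ, n ≠ 0 →
    (n : ℝ) ≤ T ^ 6 → (((D.ball T).filter fun y => y ∣ (n : D.O)).card : ℝ) ≤ C * T ^ ε := by
  obtain ⟨C1, hC1, k1⟩ := D.dv_nat_le (show 0 < ε / 12 by positivity)
  obtain ⟨C2, hC2, k2⟩ := D.gen_le (half_pos h)
  refine ⟨C1 * C2, one_le_mul_of_one_le_of_one_le hC1 hC2, fun T hT n hn hnT => ?_⟩
  have hT0 : 0 < T := by linarith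
  have h1 : ((D.ball T).filter fun y => y ∣ (n : D.O)) ⊆
      (D.dvs n).biUnion fun m => (D.ball T).filter fun y => Associated y m := by
    intro y hy
    obtain ⟨h2, h3⟩ := mem_filter.1 hy
    obtain ⟨m, h4, h5⟩ := D.exists_rp (ne_zero_of_dvd_ne_zero (D.dv_nat_ne hn) h3)
    exact mem_biUnion.2 ⟨m, (D.dv_mem (D.dv_nat_ne hn)).2 ⟨h4, h5.dvd.trans h3⟩,
      mem_filter.2 ⟨h2, h5.symm⟩⟩
  have h2 : (n : ℝ) ^ (ε / 12) ≤ T ^ (ε / 2) := by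
    refine (Real.rpow_le_rpow (Nat.cast_nonneg _) hnT (by positivity)).trans (le_of_eq ?_)
    rw [← Real.rpow_natCast, ← Real.rpow_mul hT0.le]
    congr 1
    push_cast
    ring
  calc _ ≤ ∑ m ∈ D.dvs n, (((D.ball T).filter fun y => Associated y m).card : ℝ) := by
        exact_mod_cast (card_le_card h1).trans card_biUnion_le
    _ ≤ (D.dvs n).card * (C2 * T ^ (ε / 2)) := by
        rw [← nsmul_eq_mul]; exact sum_le_card_nsmul _ _ _ fun m _ => k2 T hT m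
    _ ≤ C1 * T ^ (ε / 2) * (C2 * T ^ (ε / 2)) :=
        mul_le_mul_of_nonneg_right ((k1 n hn).trans (by gcongr)) (by positivity)
    _ = C1 * C2 * (T ^ (ε / 2) * T ^ (ε / 2)) := by ring
    _ = _ := by rw [← Real.rpow_add hT0, add_halves]

theorem div_le {ε : ℝ} (h : 0 < ε) : ∃ C : ℝ, 1 ≤ C ∧ ∀ T : ℝ, 1 ≤ T → ∀ x : D.O, x ≠ 0 →
    D.sz x ≤ T → (((D.ball T).filter fun y => y ∣ x).card : ℝ) ≤ C * T ^ ε := by
  obtain ⟨C, hC, k⟩ := D.dv_ball h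
  refine ⟨C, hC, fun T hT x hx hxT => le_trans (Nat.cast_le.2 (card_le_card fun y hy => ?_))
    (k T hT (D.N x) (mt D.N_eq_zero.1 hx)
      ((D.N_le x).trans (pow_le_pow_left₀ (D.sz_nonneg x) hxT 6)))⟩
  exact mem_filter.2 ((mem_filter.1 hy).imp_right fun t => t.trans (D.dvd_N x))

theorem nrm_le {ε : ℝ} (h : 0 < ε) : ∃ C : ℝ, 1 ≤ C ∧ ∀ T : ℝ, 1 ≤ T → ∀ n : ℕ, n ≠ 0 →
    (((D.ball T).filter fun y => D.N y = n).card : ℝ) ≤ C * T ^ ε := by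
  obtain ⟨C, hC, k⟩ := D.dv_ball h
  refine ⟨C, hC, fun T hT n hn => ?_⟩
  rcases ((D.ball T).filter fun y => D.N y = n).eq_empty_or_nonempty with h0 | ⟨z, hz⟩
  · rw [h0, card_empty, Nat.cast_zero]; positivity
  obtain ⟨h1, h2⟩ := mem_filter.1 hz
  refine le_trans (Nat.cast_le.2 (card_le_card fun y hy => ?_)) (k T hT n hn
    (h2 ▸ (D.N_le z).trans (pow_le_pow_left₀ (D.sz_nonneg z) (D.mem_ball.1 h1) 6)))
  obtain ⟨h3, h4⟩ := mem_filter.1 hy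
  exact mem_filter.2 ⟨h3, h4 ▸ D.dvd_N y⟩

end Dat

end Pool.Agent.Spin
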