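import Pool.Agent.Lib.MP_696deb_nt.Spin.D0

/-! Sizes and norms. -/

set_option autoImplicit false

open scoped Classical
open Finset Filter Topology

namespace Pool.Agent.Spin

namespace Dat

variable (D : Dat)

theorem e_mul (x y : D.O) : D.e (x * y) = D.e x * D.e y := by
  funext i; fin_cases i <;> simp [e]
theorem e_add (x y : D.O) : D.e (x + y) = D.e x + D.e y := by
  funext i; fin_cases i <;> simp [e]
theorem e_sub (x y : D.O) : D.e (x - y) = D.e x - D.e y := by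
  funext i; fin_cases i <;> simp [e]
theorem e_fix {x : D.O} (h : D.σ x = x) (i : Fin 3) : D.e x i = D.φ x := by
  fin_cases i <;> simp [e, h]
theorem sz_nonneg (x : D.O) : 0 ≤ D.sz x := norm_nonneg _
theorem sz_mul_le (x y : D.O) : D.sz (x * y) ≤ D.sz x * D.sz y := by
  rw [sz, e_mul]; exact norm_mul_le _ _
theorem sz_add_le (x y : D.O) : D.sz (x + y) ≤ D.sz x + D.sz y := by
  rw [sz, e_add]; exact norm_add_le _ _
theorem sz_sub_le (x y : D.O) : D.sz (x - y) ≤ D.sz x + D.sz y := by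
  rw [sz, e_sub]; exact norm_sub_le _ _

theorem g1_sz_σ_le (x : D.O) : D.sz (D.σ x) ≤ D.sz x := by
  refine (pi_norm_le_iff_of_nonneg (D.sz_nonneg x)).2 fun i => ?_
  fin_cases i
  · exact norm_le_pi_norm (D.e x) 1
  · exact norm_le_pi_norm (D.e x) 2
  · have h := norm_le_pi_norm (D.e x) 0
    simpa [e, sz, D.σ3] using h

theorem sz_σ (x : D.O) : D.sz (D.σ x) = D.sz x := by
  refine le_antisymm (D.g1_sz_σ_le x) ?_
  have h := (D.g1_sz_σ_le (D.σ (D.σ x))).trans (D.g1_sz_σ_le (D.σ x))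
  rwa [D.σ3] at h

theorem g1_sz_fix {x : D.O} (h : D.σ x = x) : D.sz x = ‖D.φ x‖ := by
  rw [sz, show D.e x = fun _ => D.φ x from funext (D.e_fix h), pi_norm_const]

theorem sz_nat (n : ℕ) : D.sz n = n := by
  rw [D.g1_sz_fix (map_natCast _ n), map_natCast, Complex.norm_natCast]
theorem sz_nat_mul (n : ℕ) (x : D.O) : D.sz (n * x) = n * D.sz x := by
  have h : D.e (n * x) = (n : ℂ) • D.e x := by
    funext i; fin_cases i <;> simp [e]
  rw [sz, h, norm_smul, Complex.norm_natCast, sz]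
theorem sz_prod_le {ι : Type} (s : Finset ι) (f : ι → D.O) {B : ℝ} (h : ∀ i ∈ s, D.sz (f i) ≤ B) :
    D.sz (∏ i ∈ s, f i) ≤ B ^ s.card := by
  induction s using Finset.induction_on with
  | empty => simpa using (D.sz_nat 1).le
  | insert a s ha ih =>
    rw [prod_insert ha, card_insert_of_notMem ha, pow_succ']
    have h1 := h a (mem_insert_self _ _)
    exact (D.sz_mul_le _ _).trans (mul_le_mul h1 (ih fun i hi => h i (mem_insert_of_mem hi))
      (D.sz_nonneg _) ((D.sz_nonneg _).trans h1))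
theorem N_eq (x : D.O) : (D.N x : ℝ) = nV (D.e x) := D.nrm x
theorem N_mul (x y : D.O) : D.N (x * y) = D.N x * D.N y := by
  rw [N, N, N, ← Ideal.span_singleton_mul_span_singleton, map_mul]
theorem N_pow (x : D.O) (k : ℕ) : D.N (x ^ k) = D.N x ^ k := by
  rw [N, N, ← Ideal.span_singleton_pow, map_pow]
theorem N_eq_zero {x : D.O} : D.N x = 0 ↔ x = 0 := by
  rw [N, Ideal.absNorm_eq_zero_iff, Ideal.span_singleton_eq_bot]
theorem N_eq_one {x : D.O} : D.N x = 1 ↔ IsUnit x := by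
  rw [N, Ideal.absNorm_eq_one_iff, Ideal.span_singleton_eq_top]
theorem N_assoc {x y : D.O} (h : Associated x y) : D.N x = D.N y := by
  rw [N, N, Ideal.span_singleton_eq_span_singleton.2 h]

theorem g1_N_equiv (f : D.O ≃+* D.O) (x : D.O) : D.N (f x) = D.N x := by
  rw [N, N, Ideal.absNorm_apply, Ideal.absNorm_apply, Submodule.cardQuot_apply,
    Submodule.cardQuot_apply]
  exact Nat.card_congr (Ideal.quotientEquiv (Ideal.span {x}) (Ideal.span {f x}) f
    (by rw [Ideal.map_span, Set.image_singleton]; rfl)).toEquiv.symm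

theorem N_σ (x : D.O) : D.N (D.σ x) = D.N x := D.g1_N_equiv _ x
theorem N_τ (x : D.O) : D.N (D.τ x) = D.N x := D.g1_N_equiv _ x
theorem N_nat (n : ℕ) : D.N n = n ^ 6 := by
  have h := D.N_eq n
  have h1 := fun i => D.e_fix (map_natCast D.σ n) i
  rw [nV, h1, h1, h1, map_natCast, Complex.norm_natCast] at h
  have h2 : (D.N n : ℝ) = (n : ℝ) ^ 6 := by rw [h]; ring
  exact_mod_cast h2
theorem dvd_N (x : D.O) : x ∣ (D.N x : D.O) :=
  Ideal.mem_span_singleton.1 (Ideal.absNorm_mem _)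
theorem N_dvd {x y : D.O} (h : x ∣ y) : D.N x ∣ D.N y := by
  obtain ⟨z, rfl⟩ := h
  exact ⟨_, D.N_mul x z⟩
theorem N_le (x : D.O) : (D.N x : ℝ) ≤ D.sz x ^ 6 := by
  have h := fun i => norm_le_pi_norm (D.e x) i
  rw [N_eq, nV, show D.sz x ^ 6 = (‖D.e x‖ * ‖D.e x‖ * ‖D.e x‖) ^ 2 by rw [sz]; ring]
  gcongr
  exacts [h 0, h 1, h 2]
theorem one_le_sz {x : D.O} (h : x ≠ 0) : 1 ≤ D.sz x := by
  have h1 : (1 : ℝ) ≤ D.N x := by
    exact_mod_cast Nat.one_le_iff_ne_zero.2 fun h0 => h (D.N_eq_zero.1 h0)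
  exact (one_le_pow_iff_of_nonneg (D.sz_nonneg x) (by norm_num : 6 ≠ 0)).1 (h1.trans (D.N_le x))
theorem nV_smul {Y : ℝ} (h : 0 < Y) (x : D.O) : nV (Y⁻¹ • D.e x) = D.N x / Y ^ 6 := by
  rw [N_eq]
  simp only [nV, Pi.smul_apply, norm_smul, Real.norm_of_nonneg (inv_pos.2 h).le]
  field_simp
theorem σ_re (a : ℕ × ℕ) : D.σ (D.re a) = D.re a := by
  simp [re, D.σω]
theorem sz_re : ∃ C : ℝ, 1 ≤ C ∧ ∀ (h : ℕ) (a : ℕ × ℕ), a ∈ range h ×ˢ range h →
    D.sz (D.re a) ≤ C * h := by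
  have h0 := D.sz_nonneg D.ω
  refine ⟨1 + D.sz D.ω, by linarith, fun h a ha => ?_⟩
  rw [mem_product, mem_range, mem_range] at ha
  have h1 : (a.1 : ℝ) ≤ h := by exact_mod_cast ha.1.le
  have h2 : (a.2 : ℝ) ≤ h := by exact_mod_cast ha.2.le
  have h3 := D.sz_add_le a.1 (a.2 * D.ω)
  rw [sz_nat, sz_nat_mul] at h3
  have h4 := mul_le_mul_of_nonneg_right h2 h0
  rw [re]
  linarith
theorem re_inj : Function.Injective D.re := by
  intro a b hab
  have h1 : (a.1 : ℂ) + a.2 * D.φ D.ω = b.1 + b.2 * D.φ D.ω := by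
    simpa [re] using congrArg D.φ hab
  have h2 : D.φ D.ω * D.φ D.ω = D.t * D.φ D.ω - D.c := by
    simpa using congrArg D.φ D.hω
  have h3 : (((b.1 : ℤ) - a.1) ^ 2 - D.t * ((b.1 : ℤ) - a.1) * ((a.2 : ℤ) - b.2) +
      D.c * ((a.2 : ℤ) - b.2) ^ 2 : ℤ) = 0 := by
    have h4 : (b.1 : ℂ) - a.1 = ((a.2 : ℂ) - b.2) * D.φ D.ω := by linear_combination -h1
    have h5 : ((b.1 : ℂ) - a.1) ^ 2 - D.t * ((b.1 : ℂ) - a.1) * ((a.2 : ℂ) - b.2) +
        D.c * ((a.2 : ℂ) - b.2) ^ 2 = 0 := by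
      rw [h4]; linear_combination ((a.2 : ℂ) - b.2) ^ 2 * h2
    exact_mod_cast h5
  have h6 : (a.2 : ℤ) - b.2 = 0 := by
    by_contra hk
    have h7 : 0 < ((a.2 : ℤ) - b.2) ^ 2 := by positivity
    nlinarith [mul_pos h7 (sub_pos.2 D.disc),
      sq_nonneg (2 * ((b.1 : ℤ) - a.1) - D.t * ((a.2 : ℤ) - b.2))]
  rw [h6] at h3
  have h8 : (b.1 : ℤ) - a.1 = 0 := pow_eq_zero_iff two_ne_zero |>.1 (by linarith)
  exact Prod.ext (by omega) (by omega)
theorem ne_zero_of_cop {x : D.O} (h : IsCoprime x (D.M : D.O)) : x ≠ 0 := by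
  rintro rfl
  have h1 := D.N_eq_one.2 (isCoprime_zero_left.1 h)
  rw [N_nat, Nat.pow_eq_one] at h1
  have h2 := D.M2
  omega
theorem cop_σ {x : D.O} : IsCoprime (D.σ x) (D.M : D.O) ↔ IsCoprime x (D.M : D.O) := by
  refine ⟨fun h => ?_, fun h => ?_⟩
  · simpa using h.map (D.σ.symm : D.O →+* D.O)
  · simpa using h.map (D.σ : D.O →+* D.O)
theorem fin_quot : Finite (D.O ⧸ Ideal.span {(D.M : D.O)}) := by
  refine (Ideal.absNorm_ne_zero_iff _).1 ?_
  have h := D.N_nat D.M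
  rw [N] at h
  rw [h]
  exact pow_ne_zero _ D.M0

end Dat

end Pool.Agent.Spin
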