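import Pool.Agent.Lib.MP_696deb_nt.Spin.G1

/-! Cells, counts of lattice points and balanced generators. -/

set_option autoImplicit false

open scoped Classical
open Finset Filter Topology

namespace Pool.Agent.Spin

/-- The cell of side `l` that contains a point. -/
noncomputable def cell {ι : Type} (l : ℝ) (z : ι → ℂ) : ι → ℤ × ℤ :=
  fun i => (⌊(z i).re / l⌋, ⌊(z i).im / l⌋)

theorem cell_near {ι : Type} [Fintype ι] {l : ℝ} (h : 0 < l) {z z' : ι → ℂ}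
    (k : cell l z = cell l z') : ‖z - z'‖ < 2 * l := by
  have key : ∀ a b : ℝ, ⌊a / l⌋ = ⌊b / l⌋ → |a - b| < l := by
    intro a b hab
    have h1 := Int.abs_sub_lt_one_of_floor_eq_floor hab
    rw [← sub_div, abs_div, abs_of_pos h, div_lt_one h] at h1
    exact h1
  rw [pi_norm_lt_iff (by positivity)]
  intro i
  have hi := congrFun k i
  simp only [cell, Prod.mk.injEq] at hi
  have h1 := key _ _ hi.1
  have h2 := key _ _ hi.2
  have h3 := Complex.norm_le_abs_re_add_abs_im ((z - z') i)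
  simp only [Pi.sub_apply, Complex.sub_re, Complex.sub_im] at h3 ⊢
  linarith

theorem card_cell {ι α : Type} [Fintype ι] {l T : ℝ} (h : 0 < l) (hT : 0 ≤ T) (s : Finset α)
    (f : α → ι → ℂ) (k : ∀ x ∈ s, ‖f x‖ ≤ T) :
    ((s.image fun x => cell l (f x)).card : ℝ) ≤ (2 * T / l + 3) ^ (2 * Fintype.card ι) := by
  have key : ∀ a : ℝ, |a| ≤ T → ⌊a / l⌋ ∈ Icc ⌊-T / l⌋ ⌊T / l⌋ := by
    intro a ha
    rw [abs_le] at ha
    rw [Finset.mem_Icc]
    exact ⟨Int.floor_le_floor (div_le_div_of_nonneg_right ha.1 h.le),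
      Int.floor_le_floor (div_le_div_of_nonneg_right ha.2 h.le)⟩
  have hsub : (s.image fun x => cell l (f x)) ⊆
      Fintype.piFinset fun _ : ι => Icc ⌊-T / l⌋ ⌊T / l⌋ ×ˢ Icc ⌊-T / l⌋ ⌊T / l⌋ := by
    intro c hc
    obtain ⟨x, hx, rfl⟩ := Finset.mem_image.1 hc
    rw [Fintype.mem_piFinset]
    intro i
    have hi : ‖f x i‖ ≤ T := (norm_le_pi_norm (f x) i).trans (k x hx)
    rw [Finset.mem_product]
    exact ⟨key _ ((Complex.abs_re_le_norm _).trans hi), key _ ((Complex.abs_im_le_norm _).trans hi)⟩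
  have hc : ((Icc ⌊-T / l⌋ ⌊T / l⌋).card : ℝ) ≤ 2 * T / l + 3 := by
    have hle : ⌊-T / l⌋ ≤ ⌊T / l⌋ + 1 := by
      have : ⌊-T / l⌋ ≤ ⌊T / l⌋ :=
        Int.floor_le_floor (div_le_div_of_nonneg_right (by linarith) h.le)
      omega
    have h1 : ((Icc ⌊-T / l⌋ ⌊T / l⌋).card : ℤ) = ⌊T / l⌋ + 1 - ⌊-T / l⌋ := Int.card_Icc_of_le _ _ hle
    have h2 : ((Icc ⌊-T / l⌋ ⌊T / l⌋).card : ℝ) = (⌊T / l⌋ : ℝ) + 1 - (⌊-T / l⌋ : ℝ) := by
      exact_mod_cast h1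
    have h3 := Int.floor_le (T / l)
    have h4 := Int.lt_floor_add_one (-T / l)
    have h5 : -T / l = -(T / l) := neg_div _ _
    have h6 : 2 * T / l = 2 * (T / l) := mul_div_assoc _ _ _
    rw [h2]
    linarith
  calc ((s.image fun x => cell l (f x)).card : ℝ)
      ≤ ((Fintype.piFinset fun _ : ι =>
          Icc ⌊-T / l⌋ ⌊T / l⌋ ×ˢ Icc ⌊-T / l⌋ ⌊T / l⌋).card : ℝ) := by
        exact_mod_cast Finset.card_le_card hsub
    _ = ((Icc ⌊-T / l⌋ ⌊T / l⌋).card : ℝ) ^ (2 * Fintype.card ι) := by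
        rw [Fintype.card_piFinset, Finset.prod_const, Finset.card_product, Finset.card_univ,
          pow_mul, sq]
        push_cast
        rfl
    _ ≤ _ := pow_le_pow_left₀ (Nat.cast_nonneg _) hc _

theorem card_sep {ι α : Type} [Fintype ι] {l T : ℝ} (h : 0 < l) (hT : 0 ≤ T) (s : Finset α)
    (f : α → ι → ℂ) (k : ∀ x ∈ s, ‖f x‖ ≤ T)
    (k' : ∀ x ∈ s, ∀ y ∈ s, ‖f x - f y‖ < 2 * l → x = y) :
    (s.card : ℝ) ≤ (2 * T / l + 3) ^ (2 * Fintype.card ι) := by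
  have hinj : Set.InjOn (fun x => cell l (f x)) s := fun x hx y hy hxy =>
    k' x hx y hy (cell_near h hxy)
  rw [← Finset.card_image_of_injOn hinj]
  exact card_cell h hT s f k

namespace Dat

variable (D : Dat)

theorem g2_eq_of_sz_lt {x y : D.O} (h : D.sz (x - y) < 1) : x = y := by
  by_contra hne
  exact absurd (D.one_le_sz (sub_ne_zero.2 hne)) (not_le.2 h)

theorem g2_card_le {T : ℝ} (hT : 0 ≤ T) (s : Finset D.O) (hs : ∀ x ∈ s, D.sz x ≤ T) :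
    (s.card : ℝ) ≤ (4 * T + 3) ^ 6 := by
  have h := card_sep (l := 1 / 2) (by norm_num) hT s D.e hs (fun x _ y _ hxy =>
    D.g2_eq_of_sz_lt (by rw [sz, e_sub]; linarith))
  have e1 : 2 * T / (1 / 2) + 3 = 4 * T + 3 := by ring
  rw [e1, Fintype.card_fin] at h
  exact h

theorem mem_ball {T : ℝ} {x : D.O} : x ∈ D.ball T ↔ D.sz x ≤ T := by
  have hfin : {x | D.sz x ≤ T}.Finite := by
    by_contra hinf
    obtain ⟨n, hn⟩ := exists_nat_gt ((4 * max T 0 + 3) ^ 6)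
    obtain ⟨s, hs, hc⟩ := Set.Infinite.exists_subset_card_eq hinf n
    have h := D.g2_card_le (le_max_right T 0) s fun x hx => (hs hx).trans (le_max_left T 0)
    rw [hc] at h
    linarith
  rw [ball, mem_fs hfin]
  rfl

theorem card_ball : ∃ C : ℝ, 1 ≤ C ∧ ∀ T : ℝ, 1 ≤ T → ((D.ball T).card : ℝ) ≤ C * T ^ 6 := by
  refine ⟨7 ^ 6, by norm_num, fun T hT => ?_⟩
  refine (D.g2_card_le (by linarith) _ fun x hx => D.mem_ball.1 hx).trans ?_
  rw [← mul_pow]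
  exact pow_le_pow_left₀ (by linarith) (by linarith) _

theorem fib2 : ∃ C : ℝ, 1 ≤ C ∧ ∀ T : ℝ, 1 ≤ T → ∀ β : D.O,
    (((D.ball T).filter fun x => x - D.σ x = β).card : ℝ) ≤ C * T ^ 2 := by
  refine ⟨7 ^ 2, by norm_num, fun T hT β => ?_⟩
  have h := card_sep (ι := Fin 1) (l := 1 / 2) (T := T) (by norm_num) (by linarith)
    ((D.ball T).filter fun x => x - D.σ x = β) (fun x _ => D.e x 0) ?_ ?_
  · have e1 : 2 * T / (1 / 2) + 3 = 4 * T + 3 := by ring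
    rw [e1, Fintype.card_fin] at h
    refine h.trans ?_
    rw [← mul_pow]
    exact pow_le_pow_left₀ (by linarith) (by linarith) _
  · intro x hx
    rw [pi_norm_le_iff_of_nonneg (by linarith)]
    intro _
    exact (norm_le_pi_norm (D.e x) 0).trans (D.mem_ball.1 (Finset.mem_filter.1 hx).1)
  · intro x hx y hy hxy
    have hx' := (Finset.mem_filter.1 hx).2
    have hy' := (Finset.mem_filter.1 hy).2
    have hfix : D.σ (x - y) = x - y := by
      rw [map_sub]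
      linear_combination hy' - hx'
    have h0 : ‖D.e (x - y) 0‖ < 1 := by
      have h1 := (norm_le_pi_norm _ (0 : Fin 1)).trans_lt hxy
      rw [e_sub]
      simp only [Pi.sub_apply] at h1 ⊢
      linarith
    apply D.g2_eq_of_sz_lt
    rw [sz, pi_norm_lt_iff one_pos]
    intro i
    rw [D.e_fix hfix i, ← D.e_fix hfix 0]
    exact h0

theorem sep4 : ∃ C : ℝ, 1 ≤ C ∧ ∀ T : ℝ, 1 ≤ T → ∀ y : D.O, y ≠ 0 →
    (((D.ball T).filter fun β => β ≠ 0 ∧ y ∣ β ∧ β + D.σ β + D.σ (D.σ β) = 0).card : ℝ) ≤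
      C * T ^ 4 / (D.N y : ℝ) ^ (2 / 3 : ℝ) := by
  refine ⟨11 ^ 4, by norm_num, fun T hT y hy => ?_⟩
  have hN : (0 : ℝ) < D.N y := by
    exact_mod_cast Nat.pos_of_ne_zero fun h => hy (D.N_eq_zero.1 h)
  obtain ⟨ν, hν, hν6, hν4⟩ : ∃ ν : ℝ, 0 < ν ∧ ν ^ 6 = D.N y ∧ ν ^ 4 = (D.N y : ℝ) ^ (2 / 3 : ℝ) := by
    refine ⟨(D.N y : ℝ) ^ (1 / 6 : ℝ), Real.rpow_pos_of_pos hN _, ?_, ?_⟩
    · rw [← Real.rpow_natCast, ← Real.rpow_mul hN.le]
      norm_num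
    · rw [← Real.rpow_natCast, ← Real.rpow_mul hN.le]
      norm_num
  rw [← hν4]
  set s := (D.ball T).filter fun β => β ≠ 0 ∧ y ∣ β ∧ β + D.σ β + D.σ (D.σ β) = 0 with hs
  rcases s.eq_empty_or_nonempty with he | ⟨β0, hβ0⟩
  · rw [he, Finset.card_empty, Nat.cast_zero]
    positivity
  have hνT : ν ≤ T := by
    obtain ⟨hb, h0, hd, -⟩ := Finset.mem_filter.1 hβ0
    have h1 : D.N y ≤ D.N β0 :=
      Nat.le_of_dvd (Nat.pos_of_ne_zero fun h => h0 (D.N_eq_zero.1 h)) (D.N_dvd hd)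
    have h2 : (D.N β0 : ℝ) ≤ T ^ 6 :=
      (D.N_le β0).trans (pow_le_pow_left₀ (D.sz_nonneg _) (D.mem_ball.1 hb) _)
    have h3 : ν ^ 6 ≤ T ^ 6 := by
      rw [hν6]
      exact le_trans (by exact_mod_cast h1) h2
    exact (pow_le_pow_iff_left₀ hν.le (by linarith) (by norm_num)).1 h3
  have h := card_sep (ι := Fin 2) (l := ν / 4) (T := T) (by positivity) (by linarith) s
    (fun x i => D.e x i.castSucc) ?_ ?_
  · have e1 : 2 * T / (ν / 4) + 3 = 8 * (T / ν) + 3 := by field_simp; ring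
    rw [e1, Fintype.card_fin] at h
    refine h.trans ?_
    have h1 : 1 ≤ T / ν := (one_le_div hν).2 hνT
    rw [mul_div_assoc, ← div_pow, ← mul_pow]
    exact pow_le_pow_left₀ (by linarith) (by linarith) _
  · intro x hx
    rw [pi_norm_le_iff_of_nonneg (by linarith)]
    intro i
    exact (norm_le_pi_norm (D.e x) _).trans (D.mem_ball.1 (Finset.mem_filter.1 hx).1)
  · intro x hx z hz hxz
    obtain ⟨-, -, hdx, htx⟩ := Finset.mem_filter.1 hx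
    obtain ⟨-, -, hdz, htz⟩ := Finset.mem_filter.1 hz
    have h0 : ‖D.e (x - z) 0‖ < ν / 2 := by
      have h1 := (norm_le_pi_norm _ (0 : Fin 2)).trans_lt hxz
      rw [e_sub]
      simp only [Pi.sub_apply, Fin.castSucc_zero] at h1 ⊢
      linarith
    have h1 : ‖D.e (x - z) 1‖ < ν / 2 := by
      have h1 := (norm_le_pi_norm _ (1 : Fin 2)).trans_lt hxz
      rw [e_sub]
      simp only [Pi.sub_apply, Fin.castSucc_one] at h1 ⊢
      linarith
    have htr : D.σ (D.σ (x - z)) = -((x - z) + D.σ (x - z)) := by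
      simp only [map_sub]
      linear_combination htx - htz
    have h2 : ‖D.e (x - z) 2‖ < ν := by
      have e2 : D.e (x - z) 2 = -(D.e (x - z) 0 + D.e (x - z) 1) := by
        change D.φ (D.σ (D.σ (x - z))) = -(D.φ (x - z) + D.φ (D.σ (x - z)))
        rw [htr, map_neg, map_add]
      rw [e2, norm_neg]
      exact (norm_add_le _ _).trans_lt (by linarith)
    have hsz : D.sz (x - z) < ν := by
      rw [sz, pi_norm_lt_iff hν]
      intro i
      fin_cases i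
      · exact h0.trans (by linarith)
      · exact h1.trans (by linarith)
      · exact h2
    have hlt : D.N (x - z) < D.N y := by
      have h3 : (D.N (x - z) : ℝ) < D.N y := by
        rw [← hν6]
        exact (D.N_le _).trans_lt (pow_lt_pow_left₀ hsz (D.sz_nonneg _) (by norm_num))
      exact_mod_cast h3
    exact sub_eq_zero.1 (D.N_eq_zero.1 (Nat.eq_zero_of_dvd_of_lt (D.N_dvd (dvd_sub hdx hdz)) hlt))

theorem g2_bal {x : D.O} (h : x ≠ 0) :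
    ∃ u : D.O, IsUnit u ∧ D.sz (u * x) ^ 6 ≤ D.R0 * D.N x := by
  have h0 : nV (D.e x) ≠ 0 := by
    rw [← D.N_eq]
    exact_mod_cast fun k => h (D.N_eq_zero.1 k)
  obtain ⟨u, hu, k⟩ := D.bal.choose_spec (D.e x) h0
  refine ⟨u, hu, ?_⟩
  rw [D.N_eq, sz, D.e_mul]
  exact k

theorem one_le_R0 : 1 ≤ D.R0 := by
  obtain ⟨u, hu, k⟩ := D.g2_bal (x := 1) one_ne_zero
  have h1 : D.N 1 = 1 := D.N_eq_one.2 isUnit_one
  have h2 : D.N (u * 1) = 1 := D.N_eq_one.2 (by simpa using hu)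
  have h3 := D.N_le (u * 1)
  rw [h2] at h3
  rw [h1] at k
  simp only [Nat.cast_one, mul_one] at h3 k
  exact h3.trans k

theorem g2_gn {x : D.O} (h : x ≠ 0) :
    Ideal.span {D.gn (Ideal.span {x})} = Ideal.span {x} ∧
      D.sz (D.gn (Ideal.span {x})) ^ 6 ≤ D.R0 * D.N (D.gn (Ideal.span {x})) := by
  obtain ⟨u, hu, k⟩ := D.g2_bal h
  have ha : Associated (u * x) x := (associated_unit_mul_left x u hu)
  exact Classical.epsilon_spec
    (p := fun y => Ideal.span {y} = Ideal.span {x} ∧ D.sz y ^ 6 ≤ D.R0 * D.N y)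
    ⟨u * x, Ideal.span_singleton_eq_span_singleton.2 ha, by rw [D.N_assoc ha]; exact k⟩

theorem exists_rp {x : D.O} (h : x ≠ 0) : ∃ m, D.Rp m ∧ Associated m x := by
  have k := (D.g2_gn h).1
  have ha := Ideal.span_singleton_eq_span_singleton.1 k
  refine ⟨_, ⟨fun e => h ?_, by rw [k]⟩, ha⟩
  rw [e] at ha
  exact (associated_zero_iff_eq_zero x).1 ha.symm

theorem rp_eq {m m' : D.O} (h : D.Rp m) (h' : D.Rp m') (k : Associated m m') : m = m' := by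
  rw [← h.2, ← h'.2, Ideal.span_singleton_eq_span_singleton.2 k]

theorem rp_sz {m : D.O} (h : D.Rp m) : D.sz m ^ 6 ≤ D.R0 * D.N m := by
  have k := (D.g2_gn h.1).2
  rwa [h.2] at k

theorem g2_low {m : D.O} (h : D.Rp m) (i : Fin 3) :
    (D.N m : ℝ) ≤ D.R0 ^ 2 * ‖D.e m i‖ ^ 6 := by
  have hp : (0 : ℝ) < D.N m := by
    exact_mod_cast Nat.pos_of_ne_zero fun k => h.1 (D.N_eq_zero.1 k)
  have hs := D.sz_nonneg m
  have hj : ∀ j, ‖D.e m j‖ ≤ D.sz m := fun j => norm_le_pi_norm (D.e m) j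
  have hn : ∀ j, 0 ≤ ‖D.e m j‖ := fun j => norm_nonneg _
  have h1 : ‖D.e m 0‖ * ‖D.e m 1‖ * ‖D.e m 2‖ ≤ ‖D.e m i‖ * (D.sz m * D.sz m) := by
    fin_cases i
    · show _ ≤ ‖D.e m 0‖ * _
      rw [mul_assoc]
      exact mul_le_mul_of_nonneg_left (mul_le_mul (hj 1) (hj 2) (hn 2) hs) (hn 0)
    · show _ ≤ ‖D.e m 1‖ * _
      rw [mul_comm ‖D.e m 0‖, mul_assoc]
      exact mul_le_mul_of_nonneg_left (mul_le_mul (hj 0) (hj 2) (hn 2) hs) (hn 1)
    · show _ ≤ ‖D.e m 2‖ * _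
      rw [mul_comm]
      exact mul_le_mul_of_nonneg_left (mul_le_mul (hj 0) (hj 1) (hn 1) hs) (hn 2)
  have h2 : (D.N m : ℝ) ≤ (‖D.e m i‖ * (D.sz m * D.sz m)) ^ 2 := by
    rw [D.N_eq, nV]
    exact pow_le_pow_left₀ (mul_nonneg (mul_nonneg (hn 0) (hn 1)) (hn 2)) h1 2
  have h3 : (D.N m : ℝ) ^ 3 ≤ ((‖D.e m i‖ * (D.sz m * D.sz m)) ^ 2) ^ 3 :=
    pow_le_pow_left₀ hp.le h2 3
  have h4 : (D.sz m ^ 6) ^ 2 ≤ (D.R0 * D.N m) ^ 2 :=
    pow_le_pow_left₀ (pow_nonneg hs 6) (D.rp_sz h) 2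
  have h5 : (D.N m : ℝ) * D.N m ^ 2 ≤ D.R0 ^ 2 * ‖D.e m i‖ ^ 6 * D.N m ^ 2 := by
    calc (D.N m : ℝ) * D.N m ^ 2 = D.N m ^ 3 := by ring
      _ ≤ ‖D.e m i‖ ^ 6 * (D.sz m ^ 6) ^ 2 := h3.trans_eq (by ring)
      _ ≤ ‖D.e m i‖ ^ 6 * (D.R0 * D.N m) ^ 2 :=
        mul_le_mul_of_nonneg_left h4 (pow_nonneg (hn i) 6)
      _ = _ := by ring
  exact le_of_mul_le_mul_right h5 (pow_pos hp 2)

theorem quot_le : ∃ C : ℝ, 1 ≤ C ∧ ∀ m n : D.O, D.Rp m →
    D.sz n ^ 6 * D.N m ≤ C * D.sz (m * n) ^ 6 := by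
  refine ⟨D.R0 ^ 2, one_le_pow₀ D.one_le_R0, fun m n h => ?_⟩
  obtain ⟨i, -, hi⟩ := Finset.exists_max_image Finset.univ (fun i => ‖D.e n i‖)
    Finset.univ_nonempty
  have h1 : D.sz n ≤ ‖D.e n i‖ :=
    (pi_norm_le_iff_of_nonneg (norm_nonneg _)).2 fun j => hi j (Finset.mem_univ j)
  have h2 : ‖D.e m i‖ * ‖D.e n i‖ ≤ D.sz (m * n) := by
    have := norm_le_pi_norm (D.e (m * n)) i
    rw [D.e_mul, Pi.mul_apply, norm_mul] at this
    rw [sz, D.e_mul]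
    exact this
  calc D.sz n ^ 6 * D.N m ≤ ‖D.e n i‖ ^ 6 * (D.R0 ^ 2 * ‖D.e m i‖ ^ 6) :=
        mul_le_mul (pow_le_pow_left₀ (D.sz_nonneg n) h1 6) (D.g2_low h i) (Nat.cast_nonneg _)
          (pow_nonneg (norm_nonneg _) 6)
    _ = D.R0 ^ 2 * (‖D.e m i‖ * ‖D.e n i‖) ^ 6 := by ring
    _ ≤ _ := mul_le_mul_of_nonneg_left
        (pow_le_pow_left₀ (mul_nonneg (norm_nonneg _) (norm_nonneg _)) h2 6) (sq_nonneg _)

theorem mem_DU {U : ℝ} {m : D.O} : m ∈ D.DU U ↔ D.Rp m ∧ (D.N m : ℝ) ≤ U := by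
  have hf : {m | D.Rp m ∧ (D.N m : ℝ) ≤ U}.Finite := by
    refine (D.ball (D.R0 * U)).finite_toSet.subset fun y hy => ?_
    rw [Finset.mem_coe, D.mem_ball]
    have h1 := D.one_le_sz hy.1.1
    calc D.sz y ≤ D.sz y ^ 6 := le_self_pow₀ h1 (by norm_num)
      _ ≤ D.R0 * D.N y := D.rp_sz hy.1
      _ ≤ _ := mul_le_mul_of_nonneg_left hy.2 (zero_le_one.trans D.one_le_R0)
  exact mem_fs hf

theorem card_DU : ∃ C : ℝ, 1 ≤ C ∧ ∀ U : ℝ, 1 ≤ U → ((D.DU U).card : ℝ) ≤ C * U := by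
  obtain ⟨C, hC, k⟩ := D.card_ball
  have hR := D.one_le_R0
  refine ⟨C * D.R0, one_le_mul_of_one_le_of_one_le hC hR, fun U hU => ?_⟩
  have h1 : 1 ≤ D.R0 * U := one_le_mul_of_one_le_of_one_le hR hU
  have h0 : 0 ≤ D.R0 * U := zero_le_one.trans h1
  have h2 : ((D.R0 * U) ^ ((6 : ℕ) : ℝ)⁻¹) ^ 6 = D.R0 * U :=
    Real.rpow_inv_natCast_pow h0 (by norm_num)
  have h3 : 1 ≤ (D.R0 * U) ^ ((6 : ℕ) : ℝ)⁻¹ := Real.one_le_rpow h1 (by positivity)
  have h4 : D.DU U ⊆ D.ball ((D.R0 * U) ^ ((6 : ℕ) : ℝ)⁻¹) := by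
    intro y hy
    rw [D.mem_DU] at hy
    rw [D.mem_ball]
    refine le_of_pow_le_pow_left₀ (n := 6) (by norm_num) (zero_le_one.trans h3) ?_
    rw [h2]
    exact (D.rp_sz hy.1).trans (mul_le_mul_of_nonneg_left hy.2 (zero_le_one.trans hR))
  calc ((D.DU U).card : ℝ) ≤ (D.ball ((D.R0 * U) ^ ((6 : ℕ) : ℝ)⁻¹)).card := by
        exact_mod_cast Finset.card_le_card h4
    _ ≤ C * ((D.R0 * U) ^ ((6 : ℕ) : ℝ)⁻¹) ^ 6 := k _ h3
    _ = _ := by rw [h2, mul_assoc]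

theorem mem_pr {x : D.O} (h : x ≠ 0) {y : D.O × D.O} :
    y ∈ D.pr x ↔ D.Rp y.1 ∧ y.1 * y.2 = x := by
  have hf : {y : D.O × D.O | D.Rp y.1 ∧ y.1 * y.2 = x}.Finite := by
    refine Set.Finite.of_finite_image (f := Prod.fst) ?_ ?_
    · refine (D.DU (D.N x)).finite_toSet.subset ?_
      rintro _ ⟨z, hz, rfl⟩
      rw [Finset.mem_coe, D.mem_DU]
      refine ⟨hz.1, ?_⟩
      exact_mod_cast Nat.le_of_dvd (Nat.pos_of_ne_zero fun k => h (D.N_eq_zero.1 k))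
        (D.N_dvd ⟨z.2, hz.2.symm⟩)
    · intro z hz z' hz' k
      refine Prod.ext k (mul_left_cancel₀ hz.1.1 ?_)
      rw [hz.2, k, hz'.2]
  exact mem_fs hf

theorem g2_out {L R Y : ℝ} {W : V → ℝ} (hW : Wt L R W) (hY : 0 < Y) {x : D.O}
    (h : x ∉ D.ball (R * Y)) : W (Y⁻¹ • D.e x) = 0 := by
  rw [D.mem_ball, not_le] at h
  refine hW.supp _ ?_
  rw [norm_smul, norm_inv, Real.norm_eq_abs, abs_of_pos hY, inv_mul_eq_div, lt_div_iff₀ hY]
  exact h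

theorem S_eq {L R Y T : ℝ} {W : V → ℝ} (hW : Wt L R W) (hY : 0 < Y) (hT : R * Y ≤ T)
    (F : D.O → ℝ) : D.S W R Y F = ∑ x ∈ D.ball T, W (Y⁻¹ • D.e x) * F x := by
  refine Finset.sum_subset (fun x hx => ?_) fun x _ hx => ?_
  · rw [D.mem_ball] at hx ⊢
    exact hx.trans hT
  · rw [D.g2_out hW hY hx, zero_mul]

theorem avg {L R Y : ℝ} {W : V → ℝ} (hW : Wt L R W) (hY : 0 < Y) (F : D.O → ℝ) (Q : D.O → Prop)
    (h1 : ∀ x, |F x| ≤ 1) (hQ : ∀ x, F x ≠ 0 → Q x) (t : D.O) :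
    |D.S W R Y (fun x => F (x + t)) - D.S W R Y F| ≤
      L * (D.sz t / Y) * ((D.ball (R * Y + D.sz t)).filter Q).card := by
  have ht := D.sz_nonneg t
  have e1 := D.S_eq hW hY (T := R * Y + D.sz t) (by linarith) F
  have e2 : D.S W R Y (fun x => F (x + t)) =
      ∑ y ∈ D.ball (R * Y + D.sz t), W (Y⁻¹ • D.e (y - t)) * F y := by
    have e3 : D.S W R Y (fun x => F (x + t)) =
        ∑ y ∈ (D.ball (R * Y)).image (fun x => x + t), W (Y⁻¹ • D.e (y - t)) * F y := by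
      rw [Finset.sum_image fun x _ y _ k => add_right_cancel k]
      simp only [add_sub_cancel_right]
      rfl
    rw [e3]
    refine Finset.sum_subset (fun y hy => ?_) fun y _ hy => ?_
    · obtain ⟨x, hx, rfl⟩ := Finset.mem_image.1 hy
      rw [D.mem_ball] at hx ⊢
      exact (D.sz_add_le x t).trans (by linarith)
    · rw [D.g2_out hW hY fun k => hy (Finset.mem_image.2 ⟨y - t, k, sub_add_cancel y t⟩),
        zero_mul]
  have hL : 0 ≤ L := (abs_nonneg _).trans (hW.bd 0)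
  rw [e1, e2, ← Finset.sum_sub_distrib, Finset.card_filter, Nat.cast_sum, Finset.mul_sum]
  refine (Finset.abs_sum_le_sum_abs _ _).trans (Finset.sum_le_sum fun y _ => ?_)
  by_cases hy : Q y
  · rw [if_pos hy, Nat.cast_one, mul_one, ← sub_mul, abs_mul]
    have h2 := hW.lip (Y⁻¹ • D.e (y - t)) (Y⁻¹ • D.e y)
    have h3 : ‖Y⁻¹ • D.e (y - t) - Y⁻¹ • D.e y‖ = D.sz t / Y := by
      rw [← smul_sub, D.e_sub, sub_sub_cancel_left, norm_smul, norm_neg, norm_inv,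
        Real.norm_eq_abs, abs_of_pos hY, inv_mul_eq_div]
      rfl
    rw [h3] at h2
    calc _ ≤ L * (D.sz t / Y) * 1 :=
          mul_le_mul h2 (h1 y) (abs_nonneg _) (mul_nonneg hL (div_nonneg ht hY.le))
      _ = _ := mul_one _
  · have h2 : F y = 0 := by
      by_contra k
      exact hy (hQ y k)
    rw [if_neg hy, h2]
    simp

end Dat

end Pool.Agent.Spin
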