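import Pool.Agent.Lib.MP_696deb_nt.Spin.BU

/-! Cancellation on a good fibre. -/

set_option autoImplicit false

open scoped Classical
open Finset Filter Topology

namespace Pool.Agent.Spin

theorem gf_num {C C' j w q S n : ℝ} (hC : 1 ≤ C) (hC' : 1 ≤ C') (hj : 1 ≤ j) (hw : 1 ≤ w)
    (h1 : w ^ 4000 = q) (h2 : q ≤ j ^ 601)
    (h3 : S ^ 24 ≤ C * w * (j ^ 95 * j ^ 65) ^ 46 * (q * (j ^ 30) ^ 12 + (j ^ 30) ^ 24 * √q))
    (h4 : j ^ 350 ≤ 2 * C' * w * n) : S ≤ 4 * C * C' * n / √j := by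
  have n0 : 0 < n := by
    by_contra k
    have := mul_nonneg (by positivity : 0 ≤ 2 * C' * w) (neg_nonneg.2 (not_lt.1 k))
    have : 0 < j ^ 350 := by positivity
    linarith
  have a1 : w ^ 25 ≤ j ^ 4 := by
    refine le_of_pow_le_pow_left₀ (n := 160) (by norm_num) (by positivity) ?_
    rw [← pow_mul, ← pow_mul, h1]
    exact h2.trans (pow_le_pow_right₀ hj (by norm_num))
  have a2 : √q ≤ j ^ 301 := by
    rw [Real.sqrt_le_left (by positivity), ← pow_mul]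
    exact h2.trans (pow_le_pow_right₀ hj (by norm_num))
  have a3 : q * (j ^ 30) ^ 12 + (j ^ 30) ^ 24 * √q ≤ 2 * j ^ 1021 := by
    have b1 : q * (j ^ 30) ^ 12 ≤ j ^ 1021 := calc
      _ ≤ j ^ 601 * (j ^ 30) ^ 12 := by gcongr
      _ = j ^ 961 := by ring
      _ ≤ _ := pow_le_pow_right₀ hj (by norm_num)
    have b2 : (j ^ 30) ^ 24 * √q ≤ j ^ 1021 := calc
      _ ≤ (j ^ 30) ^ 24 * j ^ 301 := by gcongr
      _ = _ := by ring
    linarith
  have a4 : (√j) ^ 24 = j ^ 12 := by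
    rw [show 24 = 2 * 12 by rfl, pow_mul, Real.sq_sqrt (by positivity)]
  refine le_of_pow_le_pow_left₀ (n := 24) (by norm_num) (by positivity) (h3.trans ?_)
  rw [div_pow, a4, le_div_iff₀ (by positivity)]
  refine le_of_mul_le_mul_left ?_ (by positivity : 0 < w ^ 24)
  calc _ ≤ w ^ 24 * (C * w * (j ^ 95 * j ^ 65) ^ 46 * (2 * j ^ 1021) * j ^ 12) := by gcongr
    _ = 2 * C * w ^ 25 * j ^ 8393 := by ring
    _ ≤ (2 * C) ^ 24 * j ^ 7 * j ^ 8393 := by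
        gcongr
        · exact le_self_pow₀ (by linarith) (by norm_num)
        · exact a1.trans (pow_le_pow_right₀ hj (by norm_num))
    _ = (2 * C) ^ 24 * (j ^ 350) ^ 24 := by ring
    _ ≤ (2 * C) ^ 24 * (2 * C' * w * n) ^ 24 := by gcongr
    _ = _ := by ring

namespace Dat

variable (D : Dat)

theorem gf_term {κ : D.O → ℝ} (hκ : D.Per κ) {a b d x : D.O} {m q : ℕ} (hab : a * b ≠ 0)
    (hq : q ≠ 0) (hm : q.Coprime m) (hM : D.M ∣ m) (hb : b ∣ (m : D.O)) (hd : d ∣ (m : D.O))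
    (r : D.O →+* ZMod q) (hr : ∀ y, D.J y a = jacobiSym ((r y).val : ℤ) q)
    (hx : x - D.σ x = a * b) : ∃ (c : ℝ) (u : ZMod q), |c| ≤ 1 ∧ ∀ y, D.σ y = y →
      (if d ∣ x + m * y then D.sp κ (x + m * y) else 0) =
        c * jacobiSym ((u + r y).val : ℤ) q := by
  have : NeZero q := ⟨hq⟩
  have hM' : (D.M : D.O) ∣ (m : D.O) := Nat.cast_dvd_cast hM
  have k1 : ∀ y, κ (x + m * y) = κ x := fun y =>
    hκ.per _ _ (by rw [add_sub_cancel_left]; exact hM'.mul_right y)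
  by_cases h0 : κ x = 0
  · exact ⟨0, 0, by simp, fun y _ => by simp [sp, k1, h0]⟩
  by_cases h1 : d ∣ x
  swap
  · exact ⟨0, 0, by simp, fun y _ => by
      rw [if_neg fun k => h1 ((dvd_add_left (hd.mul_right y)).1 k), zero_mul]⟩
  have hu : IsUnit (m : ZMod q) := (ZMod.isUnit_iff_coprime m q).2 hm.symm
  have one : ∀ z : ℤ, |z| ≤ 1 → |(z : ℝ)| ≤ 1 := fun z hz => by exact_mod_cast hz
  refine ⟨κ x * D.ε (a * b) (D.σ x) * D.J (D.σ x) b * jacobiSym (m : ℤ) q,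
    r (D.σ x) * (m : ZMod q)⁻¹, ?_, fun y hy => ?_⟩
  · rw [abs_mul, abs_mul, abs_mul]
    refine mul_le_one₀ (mul_le_one₀ (mul_le_one₀ (hκ.bd x) (abs_nonneg _) (one _ (D.ε1 _ _)))
      (abs_nonneg _) (one _ (D.J_abs _ _))) (abs_nonneg _) ?_
    rcases jacobiSym.trichotomy (m : ℤ) q with k | k | k <;> rw [k] <;> simp
  have e1 : D.σ (x + m * y) = D.σ x + m * y := by rw [map_add, map_mul, map_natCast, hy]
  have c1 : IsCoprime (D.σ x + m * y) (D.M : D.O) := by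
    rw [← e1, D.cop_σ]
    exact hκ.cop _ (by rwa [k1])
  have e2 : D.J (x + m * y) (D.σ x + m * y) = D.J (a * b) (D.σ x + m * y) :=
    D.J_congr ⟨1, by rw [← hx]; ring⟩
  have e3 : D.J (D.σ x + m * y) b = D.J (D.σ x) b :=
    D.J_congr (by rw [add_sub_cancel_left]; exact hb.mul_right y)
  have e4 : D.ε (a * b) (D.σ x + m * y) = D.ε (a * b) (D.σ x) :=
    D.εp _ _ _ (by rw [add_sub_cancel_left]; exact hM'.mul_right y)
  have e5 : D.J (D.σ x + m * y) a =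
      jacobiSym (m : ℤ) q * jacobiSym ((r (D.σ x) * (m : ZMod q)⁻¹ + r y).val : ℤ) q := by
    rw [hr, ← jacobiSym.mul_left]
    refine jacobiSym.mod_left' ((ZMod.intCast_eq_intCast_iff' _ _ _).1 ?_)
    push_cast
    simp only [ZMod.natCast_val, ZMod.cast_id', id_eq, map_add, map_mul, map_natCast]
    linear_combination (-r (D.σ x)) * ZMod.mul_inv_of_unit _ hu
  rw [if_pos (h1.add (hd.mul_right y)), sp, k1, e1, e2, D.J_rec hab c1, e4,
    D.J_mul_right _ (left_ne_zero_of_mul hab) (right_ne_zero_of_mul hab), e3, e5]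
  push_cast
  ring

theorem good_fib (K : ℝ) : ∃ C : ℝ, 1 ≤ C ∧ ∀ (j m : ℕ) (κ : D.O → ℝ) (a b d : D.O), 1 ≤ j →
    D.Per κ → a * b ≠ 0 → Squarefree (D.N a) → (D.N a).Coprime m → D.M ∣ m → b ∣ (m : D.O) →
    d ∣ (m : D.O) → j ^ 321 ≤ D.N a → (D.N a : ℝ) ≤ K * (j : ℝ) ^ 600 →
    ∃ (I : Finset ((ℕ × ℕ) × (ℕ × ℕ) × ℕ)) (t : (ℕ × ℕ) × (ℕ × ℕ) × ℕ → D.O), I.Nonempty ∧
      (∀ i ∈ I, D.sz (t i) ≤ C * m * (j : ℝ) ^ 95 ∧ D.σ (t i) = t i) ∧
      ∀ x, x - D.σ x = a * b →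
        |∑ i ∈ I, if d ∣ x + t i then D.sp κ (x + t i) else 0| ≤ C * I.card / √j := by
  obtain ⟨C1, K1, hC1, h1⟩ := D.burg (ε := 1 / 4000) (by norm_num)
  obtain ⟨C2, hC2, h2⟩ := D.unit_count (ε := 1 / 4000) (by norm_num)
  obtain ⟨A, hA, h3⟩ := D.sz_re
  obtain ⟨j0, g1, g2, g3⟩ : ∃ j0 : ℝ, K ≤ j0 ∧ K1 < j0 ∧ 2 * C2 ^ 2 ≤ j0 :=
    ⟨max (max K (K1 + 1)) (2 * C2 ^ 2), le_max_of_le_left (le_max_left _ _),
      (lt_add_one _).trans_le (le_max_of_le_left (le_max_right _ _)), le_max_right _ _⟩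
  have p1 : 0 ≤ 4 * C1 * C2 := by positivity
  have p2 : 0 ≤ j0 := le_trans (by positivity) g3
  refine ⟨4 * C1 * C2 + 2 * A + j0, by linarith,
    fun j m κ a b d hj hκ hab hq hm hM hb hd hl hu => ?_⟩
  have j1 : (1 : ℝ) ≤ j := by exact_mod_cast hj
  by_cases hj0 : (j : ℝ) < j0
  · refine ⟨{0}, fun _ => 0, singleton_nonempty _, fun _ _ => ⟨?_, map_zero _⟩, fun x _ => ?_⟩
    · rw [← Nat.cast_zero, D.sz_nat, Nat.cast_zero]
      positivity
    · rw [sum_singleton, card_singleton, Nat.cast_one, mul_one, le_div_iff₀ (by positivity)]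
      have k1 : √(j : ℝ) ≤ j := by
        rw [Real.sqrt_le_left (by positivity)]
        nlinarith
      have k2 : |if d ∣ x + 0 then D.sp κ (x + 0) else 0| ≤ 1 := by
        split_ifs
        · exact D.sp_abs hκ _
        · simp
      nlinarith [Real.sqrt_nonneg (j : ℝ)]
  replace hj0 := not_lt.1 hj0
  obtain ⟨q, hq'⟩ : ∃ q, q = D.N a := ⟨_, rfl⟩
  rw [← hq'] at hq hm hl hu
  have hqM : q.Coprime D.M := hm.coprime_dvd_right hM
  have ho : Odd q := Nat.coprime_two_right.1 (hqM.coprime_dvd_right D.M2)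
  obtain ⟨r, -, hr⟩ := D.J_jac hq'.symm hq hqM
  have q1 : (1 : ℝ) ≤ q := by exact_mod_cast Nat.pos_of_ne_zero hq.ne_zero
  have q2 : (q : ℝ) ≤ (j : ℝ) ^ 601 := hu.trans (by
    rw [pow_succ' _ 600]
    gcongr
    exact g1.trans hj0)
  have b1 := h1 q (j ^ 95) (j ^ 65) (j ^ 30) r
  have b2 := h2 q (j ^ 65) r hq
  obtain ⟨U, hU⟩ : ∃ U, U = (range (j ^ 65) ×ˢ range (j ^ 65)).filter
    fun b => IsUnit (r (D.re b)) := ⟨_, rfl⟩
  rw [← hU] at b1 b2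
  obtain ⟨w, hw⟩ : ∃ w, w = (q : ℝ) ^ (1 / 4000 : ℝ) := ⟨_, rfl⟩
  rw [← hw] at b1 b2
  have w1 : 1 ≤ w := hw ▸ Real.one_le_rpow q1 (by norm_num)
  have w2 : w ^ 4000 = q := by
    rw [hw, ← Real.rpow_natCast, ← Real.rpow_mul (by positivity)]
    norm_num
  have w3 : w ≤ j := by
    refine le_of_pow_le_pow_left₀ (n := 4000) (by norm_num) (by positivity) ?_
    exact w2.trans_le (q2.trans (pow_le_pow_right₀ j1 (by norm_num)))
  have c1 : (j : ℝ) ^ 130 ≤ 2 * C2 * w * U.card := by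
    push_cast at b2
    have k1 : 2 * (C2 * w) ^ 2 ≤ (j : ℝ) ^ 65 := calc
      _ = 2 * C2 ^ 2 * w ^ 2 := by ring
      _ ≤ j * (j : ℝ) ^ 2 := by
        gcongr
        exact g3.trans hj0
      _ = (j : ℝ) ^ 3 := by ring
      _ ≤ _ := pow_le_pow_right₀ j1 (by norm_num)
    have k2 : 0 < C2 * w := by positivity
    have k3 := mul_le_mul_of_nonneg_left b2 k2.le
    rw [show C2 * w * ((j : ℝ) ^ 65 * ((j : ℝ) ^ 65 / (C2 * w) - C2 * w)) =
      (j : ℝ) ^ 65 * ((j : ℝ) ^ 65 - (C2 * w) ^ 2) by field_simp] at k3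
    have k4 := mul_le_mul_of_nonneg_left k1 (by positivity : 0 ≤ (j : ℝ) ^ 65)
    rw [show (j : ℝ) ^ 130 = (j : ℝ) ^ 65 * (j : ℝ) ^ 65 by ring]
    linarith
  have c2 : ((((range (j ^ 95) ×ˢ range (j ^ 95)) ×ˢ U ×ˢ range (j ^ 30)).card : ℕ) : ℝ) =
      (j : ℝ) ^ 220 * U.card := by
    simp only [card_product, card_range]
    push_cast
    ring
  have c3 : (j : ℝ) ^ 350 ≤ 2 * C2 * w *
      (((range (j ^ 95) ×ˢ range (j ^ 95)) ×ˢ U ×ˢ range (j ^ 30)).card : ℕ) := by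
    rw [c2]
    calc _ = (j : ℝ) ^ 220 * (j : ℝ) ^ 130 := by ring
      _ ≤ (j : ℝ) ^ 220 * (2 * C2 * w * U.card) := by gcongr
      _ = _ := by ring
  have fx : ∀ i : (ℕ × ℕ) × (ℕ × ℕ) × ℕ,
      D.σ (D.re i.1 + D.re i.2.1 * i.2.2) = D.re i.1 + D.re i.2.1 * i.2.2 := fun i => by
    rw [map_add, map_mul, map_natCast, D.σ_re, D.σ_re]
  refine ⟨(range (j ^ 95) ×ˢ range (j ^ 95)) ×ˢ U ×ˢ range (j ^ 30),
    fun i => m * (D.re i.1 + D.re i.2.1 * i.2.2), card_pos.1 (Nat.pos_of_ne_zero fun k => ?_),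
    fun i hi => ⟨?_, by rw [map_mul, map_natCast, fx]⟩, fun x hx => ?_⟩
  · rw [k, Nat.cast_zero, mul_zero] at c3
    exact c3.not_gt (by positivity)
  · obtain ⟨k1, k2⟩ := mem_product.1 hi
    obtain ⟨k2, k3⟩ := mem_product.1 k2
    have s1 := h3 _ _ k1
    have s2 := h3 _ _ (mem_filter.1 (hU ▸ k2)).1
    have s3 : (i.2.2 : ℝ) ≤ (j : ℝ) ^ 30 := by exact_mod_cast (mem_range.1 k3).le
    have s4 := D.sz_add_le (D.re i.1) (D.re i.2.1 * i.2.2)
    rw [mul_comm (D.re i.2.1), D.sz_nat_mul] at s4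
    push_cast at s1 s2
    have s5 := mul_le_mul s3 s2 (D.sz_nonneg _) (by positivity)
    rw [D.sz_nat_mul, mul_comm (D.re i.2.1)]
    calc _ ≤ (m : ℝ) * (A * (j : ℝ) ^ 95 + (j : ℝ) ^ 30 * (A * (j : ℝ) ^ 65)) := by
          gcongr
          linarith
      _ = 2 * A * m * (j : ℝ) ^ 95 := by ring
      _ ≤ _ := by
          gcongr
          linarith
  obtain ⟨c, u, hc, he⟩ := D.gf_term hκ hab hq.ne_zero hm hM hb hd r hr hx
  have b3 := b1 u ho hq (Nat.one_le_pow _ _ hj) (Nat.pow_le_pow_right hj (by norm_num)) (by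
    have : (j : ℝ) ^ 321 ≤ q := by exact_mod_cast hl
    refine lt_of_lt_of_le ?_ this
    push_cast
    rw [show (j : ℝ) ^ 321 = j * ((j : ℝ) ^ 95 * (j : ℝ) ^ 65) ^ 2 by ring]
    gcongr
    exact g2.trans_le hj0)
  push_cast at b3
  refine le_trans ?_ ((gf_num hC1 hC2 j1 w1 w2 q2 b3 c3).trans (by gcongr; linarith))
  simp only [fun i => he _ (fx i)]
  rw [← mul_sum, abs_mul]
  refine (mul_le_of_le_one_left (abs_nonneg _) hc).trans ?_
  rw [sum_product _ (U ×ˢ range (j ^ 30))]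
  refine (abs_sum_le_sum_abs _ _).trans (sum_le_sum fun a _ => ?_)
  rw [sum_product U]
  refine (abs_sum_le_sum_abs _ _).trans (sum_le_sum fun b _ => le_of_eq ?_)
  simp only [map_add, map_mul, map_natCast, add_assoc]

end Dat

end Pool.Agent.Spin
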