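import Pool.Agent.Lib.MP_696deb_nt.Spin.CT

/-! The mean square of the bilinear form. -/

set_option autoImplicit false

open scoped Classical
open Finset Filter Topology

namespace Pool.Agent.Spin

/-- the symbol sums to zero along a full progression -/
lemma msa_sum {p : ℕ} (hp : p.Prime) (h2 : p ≠ 2) (u v : ZMod p) (hv : v ≠ 0) :
    ∑ t ∈ range p, jacobiSym ((u + v * t).val : ℤ) p = 0 := by
  have := Fact.mk hp
  rw [← quadraticChar_sum_zero (F := ZMod p) (by rwa [ZMod.ringChar_zmod_n])]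
  refine Finset.sum_nbij' (fun t => u + v * t) (fun x => ((x - u) / v).val) (fun _ _ => mem_univ _)
    (fun x _ => mem_range.2 (ZMod.val_lt _)) (fun t ht => ?_) (fun x _ => ?_) fun t _ => ?_
  · rw [add_sub_cancel_left, mul_div_cancel_left₀ _ hv, ZMod.val_cast_of_lt (mem_range.1 ht)]
  · rw [ZMod.natCast_zmod_val, mul_div_cancel₀ _ hv, add_sub_cancel]
  · rw [← jacobiSym.legendreSym.to_jacobiSym, legendreSym, Int.cast_natCast, ZMod.natCast_zmod_val]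

namespace Dat

variable (D : Dat)

theorem zero_mean : ∃ C : ℝ, 1 ≤ C ∧ ∀ (A : ℝ) (m m' : D.O) (p : ℕ), 1 ≤ A → D.sz m ≤ A →
    D.sz m' ≤ A → m ≠ 0 → IsCoprime m' (D.M : D.O) → p.Prime → p ∣ D.N m' → ¬ p ^ 2 ∣ D.N m' →
    ¬ p ∣ D.N m → ∃ e : D.O, D.sz e ≤ C * A ^ 4 ∧ ∀ n : D.O, ∑ t ∈ range p,
      D.J (n + e * t) (D.σ m * D.σ (D.σ m)) *
        D.J (n + e * t) (D.σ m' * D.σ (D.σ m')) = 0 := by
  refine ⟨D.R0, D.one_le_R0, fun A m m' p hA hm hm' m0 hc hp h1 h2 h3 => ?_⟩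
  obtain ⟨g, hg⟩ := h1
  have pg : ¬ p ∣ g := fun k => h2 (by rw [hg, sq]; exact mul_dvd_mul_left p k)
  have m'0 := D.ne_zero_of_cop hc
  obtain ⟨π, y, rfl, hπ, hy⟩ := D.split_norm m'0 hg (hp.coprime_iff_not_dvd.2 pg)
  have pM : ¬ p ∣ D.M := fun k => hp.ne_one (hπ ▸ D.N_eq_one.2 (hc.isUnit_of_dvd'
    (dvd_mul_right π y) ((hπ ▸ D.dvd_N π).trans (Nat.cast_dvd_cast k))))
  have p2 : p ≠ 2 := fun k => pM (k ▸ D.M2)
  have hσ : D.N (D.σ π) = p := by rw [D.N_σ, hπ]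
  have pr : Prime (D.σ π) := D.prime_of_N (hσ ▸ hp)
  obtain ⟨r, r0, rJ⟩ := D.J_jac hσ hp.squarefree (hp.coprime_iff_not_dvd.2 pM)
  have nd : ∀ x, ¬ p ∣ D.N x → ¬ D.σ π ∣ D.σ x ∧ ¬ D.σ π ∣ D.σ (D.σ x) := fun x hx =>
    ⟨fun k => hx (by simpa only [D.N_σ, hπ] using D.N_dvd k),
      fun k => hx (by simpa only [D.N_σ, hπ] using D.N_dvd k)⟩
  set b := D.σ m * D.σ (D.σ m) with hb
  set c := D.σ y * (D.σ (D.σ π) * D.σ (D.σ y)) with hc'
  have nbc : ¬ D.σ π ∣ b * c := by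
    simp only [hb, hc', pr.dvd_mul, not_or]
    exact ⟨nd m h3, (nd y (hy ▸ pg)).1, (D.not_dvd_σ (hσ ▸ hp) (hσ ▸ pM)).1, (nd y (hy ▸ pg)).2⟩
  have bc0 : b * c ≠ 0 := fun k => nbc (k ▸ dvd_zero _)
  obtain ⟨e, he, ea⟩ := D.exists_rp bc0
  refine ⟨e, ?_, fun n => ?_⟩
  · have R1 := D.one_le_R0
    have a1 : (D.N m : ℝ) ≤ A ^ 6 := (D.N_le m).trans (pow_le_pow_left₀ (D.sz_nonneg _) hm _)
    have a2 : ((p * g : ℕ) : ℝ) ≤ A ^ 6 :=
      hg ▸ (D.N_le _).trans (pow_le_pow_left₀ (D.sz_nonneg _) hm' _)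
    have a3 : D.N e ≤ D.N m * D.N m * (p * g * (p * g)) := by
      rw [D.N_assoc ea]
      simp only [hb, hc', D.N_mul, D.N_σ, hπ, hy]
      exact Nat.mul_le_mul_left _ (Nat.mul_le_mul_right _ (Nat.le_mul_of_pos_left _ hp.pos))
    have a4 : (D.N e : ℝ) ≤ A ^ 6 * A ^ 6 * (A ^ 6 * A ^ 6) := by
      refine (Nat.cast_le.2 a3).trans ?_
      rw [Nat.cast_mul, Nat.cast_mul, Nat.cast_mul (p * g)]
      gcongr
    refine le_of_pow_le_pow_left₀ (by norm_num : 6 ≠ 0) (by positivity) ((D.rp_sz he).trans ?_)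
    rw [mul_pow]
    exact mul_le_mul (le_self_pow₀ R1 (by norm_num)) (a4.trans_eq (by ring)) (by positivity)
      (by positivity)
  · have e1 : D.σ (π * y) * D.σ (D.σ (π * y)) = D.σ π * c := by
      simp only [hc', map_mul, mul_assoc]
    have d : ∀ (x : D.O) (t : ℕ), x ∣ b * c → D.J (n + e * t) x = D.J n x := fun x t k =>
      D.J_congr (by rw [add_sub_cancel_left]; exact (k.trans ea.symm.dvd).mul_right _)
    have re : r e ≠ 0 := fun k => nbc (((r0 e).1 k).trans ea.dvd)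
    have := msa_sum hp p2 (r n) (r e) re
    rw [e1]
    simp only [D.J_mul_right _ pr.ne_zero (right_ne_zero_of_mul bc0),
      d b _ (dvd_mul_right _ _), d c _ (dvd_mul_left _ _), rJ, map_add, map_mul, map_natCast]
    rw [← Finset.mul_sum, ← Finset.sum_mul, this, zero_mul, mul_zero]

theorem ms_wt : Wt 2 2 fun z : V => max 0 (2 - ‖z‖) where
  lip z z' := by
    refine (abs_max_sub_max_le_max _ _ _ _).trans (max_le (by simp) ?_)
    have h1 := abs_norm_sub_norm_le z' z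
    rw [norm_sub_rev] at h1
    rw [sub_sub_sub_cancel_left]
    linarith [norm_nonneg (z - z')]
  bd z := by
    rw [abs_of_nonneg (le_max_left _ _)]
    exact max_le zero_le_two (sub_le_self _ (norm_nonneg z))
  supp z h := max_eq_left (sub_nonpos.2 h.le)

theorem ms_abs (n a b : D.O) : |((D.J n a * D.J n b : ℤ) : ℝ)| ≤ 1 := by
  rw [← Int.cast_abs, abs_mul]
  exact_mod_cast mul_le_one₀ (D.J_abs n a) (abs_nonneg _) (D.J_abs n b)

theorem ms_good : ∃ C : ℝ, 1 ≤ C ∧ ∀ (A B : ℝ) (m m' : D.O) (p : ℕ), 1 ≤ A → A ^ 12 ≤ B →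
    D.sz m ≤ A → D.sz m' ≤ A → m ≠ 0 → IsCoprime m' (D.M : D.O) → p.Prime → p ∣ D.N m' →
    ¬ p ^ 2 ∣ D.N m' → ¬ p ∣ D.N m →
    |D.S (fun z => max 0 (2 - ‖z‖)) 2 B fun n => (D.J n (D.σ m * D.σ (D.σ m)) *
      D.J n (D.σ m' * D.σ (D.σ m')) : ℤ)| ≤ C * A ^ 10 * B ^ 5 := by
  obtain ⟨C0, c0, h0⟩ := D.zero_mean
  obtain ⟨C1, c1, h1⟩ := D.card_ball
  refine ⟨2 * C0 * (C1 * (2 + C0) ^ 6), one_le_mul_of_one_le_of_one_le (by linarith)
    (one_le_mul_of_one_le_of_one_le c1 (one_le_pow₀ (by linarith))),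
    fun A B m m' p a1 a2 m1 m2 m3 m4 p1 p2 p3 p4 => ?_⟩
  obtain ⟨e, he, hz⟩ := h0 A m m' p a1 m1 m2 m3 m4 p1 p2 p3 p4
  have b1 : 1 ≤ B := (one_le_pow₀ a1).trans a2
  have b0 : 0 < B := one_pos.trans_le b1
  have p5 : (p : ℝ) ≤ A ^ 6 := (Nat.cast_le.2 (Nat.le_of_dvd (Nat.pos_of_ne_zero
    (mt D.N_eq_zero.1 (D.ne_zero_of_cop m4))) p2)).trans ((D.N_le m').trans
      (pow_le_pow_left₀ (D.sz_nonneg _) m2 6))
  obtain ⟨F, hF⟩ : ∃ F : D.O → ℝ, F = fun n => ((D.J n (D.σ m * D.σ (D.σ m)) *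
    D.J n (D.σ m' * D.σ (D.σ m')) : ℤ) : ℝ) := ⟨_, rfl⟩
  rw [← hF]
  have z : ∑ t ∈ range p, D.S (fun z => max 0 (2 - ‖z‖)) 2 B (fun x => F (x + e * t)) = 0 := by
    simp only [S]
    rw [sum_comm]
    refine sum_eq_zero fun x _ => ?_
    rw [← mul_sum, hF, ← Int.cast_sum, hz x, Int.cast_zero, mul_zero]
  have k : ∀ t ∈ range p, |D.S (fun z => max 0 (2 - ‖z‖)) 2 B (fun x => F (x + e * t)) -
      D.S (fun z => max 0 (2 - ‖z‖)) 2 B F| ≤
        2 * C0 * (C1 * (2 + C0) ^ 6) * A ^ 10 * B ^ 5 := fun t ht => by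
    have t1 : D.sz (e * t) ≤ C0 * A ^ 10 := by
      rw [mul_comm, D.sz_nat_mul]
      exact (mul_le_mul ((Nat.cast_le.2 (mem_range.1 ht).le).trans p5) he (D.sz_nonneg _)
        (by positivity)).trans_eq (by ring)
    have t2 : 2 * B + D.sz (e * t) ≤ (2 + C0) * B := by
      have := mul_le_mul_of_nonneg_left ((pow_le_pow_right₀ a1 (by norm_num : 10 ≤ 12)).trans a2)
        (zero_le_one.trans c0)
      linarith
    have t0 := D.sz_nonneg (e * t)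
    refine (D.avg ms_wt b0 F (fun _ => True) (fun x => hF ▸ D.ms_abs _ _ _) (fun _ _ => trivial)
      _).trans ?_
    rw [filter_true]
    calc _ ≤ 2 * (C0 * A ^ 10 / B) * (C1 * ((2 + C0) * B) ^ 6) := by
          gcongr
          refine (h1 _ (by linarith)).trans ?_
          gcongr
      _ = _ := by field_simp
  have k2 := (abs_sum_le_sum_abs _ _).trans (sum_le_card_nsmul _ _ _ k)
  rw [sum_sub_distrib, z, zero_sub, abs_neg, sum_const, card_range, nsmul_eq_mul, nsmul_eq_mul,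
    abs_mul, Nat.abs_cast] at k2
  exact le_of_mul_le_mul_left k2 (Nat.cast_pos.2 p1.pos)

theorem ms_core : ∃ C : ℝ, 1 ≤ C ∧ ∀ (A B : ℝ) (s : Finset D.O) (β : D.O → ℝ), 1 ≤ A →
    A ^ 12 ≤ B → (∀ m ∈ s, D.sz m ≤ A ∧ IsCoprime m (D.M : D.O)) → (∀ m, |β m| ≤ 1) →
    ∑ n ∈ D.ball B, (∑ m ∈ s, β m * D.J n (D.σ m * D.σ (D.σ m))) ^ 2 ≤ C * A ^ 10 * B ^ 6 := by
  obtain ⟨C0, c0, h0⟩ := D.ms_good
  obtain ⟨C1, c1, h1⟩ := D.card_ball
  obtain ⟨C2, c2, h2⟩ := D.pair_count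
  refine ⟨C1 * (C2 * (128 * C1) + C1 * C0), one_le_mul_of_one_le_of_one_le c1
    (le_add_of_nonneg_of_le (by positivity) (one_le_mul_of_one_le_of_one_le c1 c0)),
    fun A B s β a1 a2 hs hβ => ?_⟩
  have b1 : 1 ≤ B := (one_le_pow₀ a1).trans a2
  have b0 : 0 < B := one_pos.trans_le b1
  have s1 : s ⊆ D.ball A := fun m hm => D.mem_ball.2 (hs m hm).1
  have s2 : (s.card : ℝ) ≤ C1 * A ^ 6 := (Nat.cast_le.2 (card_le_card s1)).trans (h1 A a1)
  obtain ⟨P, hP⟩ : ∃ P : D.O → D.O → ℝ, ∀ m m', P m m' =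
    D.S (fun z => max 0 (2 - ‖z‖)) 2 B fun n => (D.J n (D.σ m * D.σ (D.σ m)) *
      D.J n (D.σ m' * D.σ (D.σ m')) : ℤ) := ⟨_, fun _ _ => rfl⟩
  have k1 : ∀ m m', |P m m'| ≤ 128 * C1 * B ^ 6 := fun m m' => by
    rw [hP, S]
    refine (abs_sum_le_sum_abs _ _).trans ((sum_le_card_nsmul _ _ (2 * 1) fun x _ => ?_).trans ?_)
    · rw [abs_mul]
      exact mul_le_mul (ms_wt.bd _) (D.ms_abs _ _ _) (abs_nonneg _) zero_le_two
    · rw [nsmul_eq_mul]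
      exact (mul_le_mul_of_nonneg_right (h1 _ (by linarith)) (by norm_num)).trans_eq (by ring)
  have k2 : ∀ m ∈ s, ∑ m' ∈ s, β m * β m' * P m m' ≤
      (C2 * (128 * C1) + C1 * C0) * A ^ 4 * B ^ 6 := fun m hm => by
    have m0 := D.ne_zero_of_cop (hs m hm).2
    calc _ ≤ ∑ m' ∈ s, ((if m' ≠ 0 ∧ ∀ p : ℕ, p.Prime → p ∣ D.N m' → p ^ 2 ∣ D.N m' ∨ p ∣ D.N m
          then 128 * C1 * B ^ 6 else 0) + C0 * A ^ 10 * B ^ 5) := sum_le_sum fun m' hm' => by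
          refine (le_abs_self _).trans ?_
          rw [abs_mul, abs_mul]
          refine (mul_le_of_le_one_left (abs_nonneg _)
            (mul_le_one₀ (hβ m) (abs_nonneg _) (hβ m'))).trans ?_
          split_ifs with h
          · exact (k1 m m').trans (le_add_of_nonneg_right (by positivity))
          · simp only [not_and, not_forall, not_or] at h
            obtain ⟨p, p1, p2, p3, p4⟩ := h (D.ne_zero_of_cop (hs m' hm').2)
            rw [zero_add, hP]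
            exact h0 A B m m' p a1 a2 (hs m hm).1 (hs m' hm').1 m0 (hs m' hm').2 p1 p2 p3 p4
      _ ≤ C2 * A ^ 4 * (128 * C1 * B ^ 6) + C1 * A ^ 6 * (C0 * A ^ 10 * B ^ 5) := by
          rw [sum_add_distrib, ← sum_filter, sum_const, sum_const, nsmul_eq_mul, nsmul_eq_mul]
          gcongr
          exact (Nat.cast_le.2 (card_le_card (filter_subset_filter _ s1))).trans
            (h2 A a1 m m0 (hs m hm).1)
      _ = C2 * (128 * C1) * A ^ 4 * B ^ 6 + C1 * C0 * A ^ 4 * (A ^ 12 * B ^ 5) := by ring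
      _ ≤ C2 * (128 * C1) * A ^ 4 * B ^ 6 + C1 * C0 * A ^ 4 * (B * B ^ 5) := by gcongr
      _ = _ := by ring
  calc _ ≤ ∑ n ∈ D.ball B, max 0 (2 - ‖B⁻¹ • D.e n‖) *
        (∑ m ∈ s, β m * D.J n (D.σ m * D.σ (D.σ m))) ^ 2 := sum_le_sum fun n hn => by
        refine le_mul_of_one_le_left (sq_nonneg _) (le_max_of_le_right ?_)
        have := (inv_mul_le_one₀ b0).2 (D.mem_ball.1 hn)
        rw [norm_smul, Real.norm_eq_abs, abs_of_pos (inv_pos.2 b0), ← sz]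
        linarith
    _ ≤ ∑ n ∈ D.ball (2 * B), max 0 (2 - ‖B⁻¹ • D.e n‖) *
        (∑ m ∈ s, β m * D.J n (D.σ m * D.σ (D.σ m))) ^ 2 := sum_le_sum_of_subset_of_nonneg
        (fun n hn => D.mem_ball.2 ((D.mem_ball.1 hn).trans (by linarith)))
        fun n _ _ => mul_nonneg (le_max_left _ _) (sq_nonneg _)
    _ = ∑ m ∈ s, ∑ m' ∈ s, β m * β m' * P m m' := by
        simp only [sq, sum_mul_sum]
        simp only [hP, S, mul_sum]
        rw [sum_comm]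
        refine sum_congr rfl fun m _ => sum_comm.trans (sum_congr rfl fun m' _ =>
          sum_congr rfl fun n _ => ?_)
        push_cast
        ring
    _ ≤ C1 * A ^ 6 * ((C2 * (128 * C1) + C1 * C0) * A ^ 4 * B ^ 6) := by
        refine (sum_le_card_nsmul _ _ _ k2).trans ?_
        rw [nsmul_eq_mul]
        gcongr
    _ = _ := by ring

theorem mean_sq : ∃ C : ℝ, 1 ≤ C ∧ ∀ (A B : ℝ) (s s' : Finset D.O) (α : D.O → ℝ), 1 ≤ A →
    A ^ 12 ≤ B → (∀ m ∈ s, D.sz m ≤ A ∧ IsCoprime m (D.M : D.O)) →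
    (∀ n ∈ s', D.sz n ≤ B ∧ IsCoprime n (D.M : D.O)) → (∀ m, |α m| ≤ 1) →
    ∑ n ∈ s', (∑ m ∈ s, α m * D.G m n) ^ 2 ≤ C * A ^ 10 * B ^ 6 := by
  obtain ⟨C, c0, h0⟩ := D.ms_core
  have := D.fin_quot
  have := Fintype.ofFinite (D.O ⧸ Ideal.span {(D.M : D.O)})
  refine ⟨Fintype.card (D.O ⧸ Ideal.span {(D.M : D.O)}) * C, one_le_mul_of_one_le_of_one_le
    (Nat.one_le_cast.2 Fintype.card_pos) c0, fun A B s s' α a1 a2 hs hs' hα => ?_⟩
  have b0 : 0 ≤ B := (pow_nonneg (zero_le_one.trans a1) _).trans a2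
  rw [← sum_fiberwise s' (Ideal.Quotient.mk (Ideal.span {(D.M : D.O)}))]
  refine (sum_le_card_nsmul _ _ (C * A ^ 10 * B ^ 6) fun c _ => ?_).trans_eq
    (by rw [card_univ, nsmul_eq_mul, mul_assoc, mul_assoc, mul_assoc])
  obtain ⟨n0, rfl⟩ := Ideal.Quotient.mk_surjective c
  refine le_trans ?_ (h0 A B s (fun m => α m * D.ε (D.σ (D.σ m)) n0) a1 a2 hs fun m => ?_)
  · refine (sum_congr rfl fun n hn => ?_).trans_le (sum_le_sum_of_subset_of_nonneg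
      (fun n hn => D.mem_ball.2 (hs' n (mem_filter.1 hn).1).1) fun _ _ _ => sq_nonneg _)
    obtain ⟨n1, n2⟩ := mem_filter.1 hn
    refine congrArg (· ^ 2) (sum_congr rfl fun m hm => ?_)
    rw [D.G_eq (D.ne_zero_of_cop (hs m hm).2) (hs' n n1).2, D.εp _ n n0
      (Ideal.mem_span_singleton.1 (Ideal.Quotient.eq.1 n2)), Int.cast_mul, mul_assoc]
  · rw [abs_mul, ← Int.cast_abs]
    exact mul_le_one₀ (hα m) (by positivity) (by exact_mod_cast D.ε1 _ _)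

end Dat

end Pool.Agent.Spin
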