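import Pool.Agent.Shared.PNT.Main

/-! An abstract prime number theorem of Landau type. -/

set_option autoImplicit false

open Finset Filter Topology Complex LSeries Asymptotics
open scoped ComplexOrder

namespace Pool.Agent.Spin

theorem log_res {f : ℂ → ℂ} {s : ℂ} (hf : AnalyticAt ℂ f s) (h : ¬ ∀ᶠ z in 𝓝 s, f z = 0) :
    ∃ m : ℕ, (m = 0 → f s ≠ 0) ∧ (f s ≠ 0 → m = 0) ∧ (∀ᶠ z in 𝓝[≠] s, f z ≠ 0) ∧
      Tendsto (fun z => (z - s) * (deriv f z / f z)) (𝓝[≠] s) (𝓝 m) := by
  obtain ⟨m, g, hg, hg0, e⟩ := hf.exists_eventuallyEq_pow_smul_nonzero_iff.2 h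
  have e0 := e.self_of_nhds
  have hne : ∀ᶠ z in 𝓝 s, g z ≠ 0 := hg.continuousAt.eventually_ne hg0
  refine ⟨m, fun k => by simpa [e0, k] using hg0, fun k => ?_,
    hf.eventually_eq_zero_or_eventually_ne_zero.resolve_left h, ?_⟩
  · by_contra k'
    exact k (by simp [e0, k'])
  have t1 : Tendsto (fun z => (m : ℂ) + (z - s) * (deriv g z / g z)) (𝓝 s)
      (𝓝 ((m : ℂ) + (s - s) * (deriv g s / g s))) :=
    tendsto_const_nhds.add ((tendsto_id.sub_const s).mul
      (hg.deriv.continuousAt.tendsto.div hg.continuousAt.tendsto hg0))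
  rw [sub_self, zero_mul, add_zero] at t1
  refine (t1.mono_left nhdsWithin_le_nhds).congr' ?_
  filter_upwards [nhdsWithin_le_nhds e.eventually_nhds, nhdsWithin_le_nhds hne,
    nhdsWithin_le_nhds hg.eventually_analyticAt, self_mem_nhdsWithin] with z h1 h2 h3 h4
  have h5 : z - s ≠ 0 := sub_ne_zero.2 h4
  have h6 : HasDerivAt (fun z => (z - s) ^ m • g z)
      ((m : ℂ) * (z - s) ^ (m - 1) * g z + (z - s) ^ m * deriv g z) z := by
    have := (((hasDerivAt_id' z).sub_const s).fun_pow m).fun_mul h3.differentiableAt.hasDerivAt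
    rw [mul_one] at this
    exact this
  rw [EventuallyEq.deriv_eq h1, h6.deriv, h1.self_of_nhds, smul_eq_mul]
  rcases m with _ | m
  · simp
  · simp only [Nat.add_sub_cancel, pow_succ]
    field_simp

theorem three_four_one {a : ℕ → ℝ} (ha : ∀ n, 0 ≤ a n) {σ : ℝ} (t : ℝ)
    (hs : ∀ s : ℂ, s.re = σ → LSeriesSummable (fun n => (a n : ℂ)) s) :
    0 ≤ (3 * LSeries (fun n => (a n : ℂ)) σ + 4 * LSeries (fun n => (a n : ℂ)) (σ + t * I) +
      LSeries (fun n => (a n : ℂ)) (σ + 2 * t * I)).re := by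
  have h := (((hs σ (by simp)).hasSum.mul_left 3).add
    ((hs (σ + t * I) (by simp)).hasSum.mul_left 4)).add (hs (σ + 2 * t * I) (by simp)).hasSum
  refine (Complex.hasSum_re h).nonneg fun n => ?_
  rcases eq_or_ne n 0 with rfl | hn
  · simp
  have hn' : (n : ℂ) ≠ 0 := by exact_mod_cast hn
  have hz : ‖(n : ℂ) ^ (-(t * I))‖ = 1 := by
    rw [Complex.norm_natCast_cpow_of_pos (Nat.pos_of_ne_zero hn)]; simp
  have e : 3 * term (fun n => (a n : ℂ)) σ n + 4 * term (fun n => (a n : ℂ)) (σ + t * I) n +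
      term (fun n => (a n : ℂ)) (σ + 2 * t * I) n = ((a n * (n : ℝ) ^ (-σ) : ℝ) : ℂ) *
        (3 + 4 * (n : ℂ) ^ (-(t * I)) + (n : ℂ) ^ (-(t * I)) * (n : ℂ) ^ (-(t * I))) := by
    simp only [term_of_ne_zero hn, div_eq_mul_inv, ← cpow_neg]
    rw [show -((σ : ℂ) + 2 * t * I) = -σ + (-(t * I) + -(t * I)) by ring, neg_add, cpow_add _ _ hn',
      cpow_add _ _ hn', cpow_add _ _ hn', ofReal_mul, ofReal_cpow (Nat.cast_nonneg n)]
    push_cast
    ring
  rw [e, re_ofReal_mul]
  refine mul_nonneg (mul_nonneg (ha n) (by positivity)) ?_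
  generalize (n : ℂ) ^ (-(t * I)) = z at hz
  have := Complex.sq_norm z
  rw [hz, Complex.normSq_apply] at this
  simp only [add_re, mul_re, re_ofNat, im_ofNat]
  nlinarith [sq_nonneg (1 + z.re)]

theorem wi_core (r a : ℕ → ℝ) (hr : ∀ n, 0 ≤ r n) (hr1 : 0 < r 1) (ha : ∀ n, 0 ≤ a n)
    (hconv : ∀ n : ℕ, n ≠ 0 → Real.log n * r n = ∑ y ∈ n.divisorsAntidiagonal, a y.1 * r y.2)
    (hrs : ∀ s : ℂ, 1 < s.re → LSeriesSummable (fun n => (r n : ℂ)) s) (C : ℝ)
    (hC : ∀ n : ℕ, ∑ k ∈ Icc 1 n, a k ≤ C * n) {θ : ℝ} (hθ : θ < 1) (Z : ℂ → ℂ)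
    (hZ : DifferentiableOn ℂ Z {s | θ < s.re}) (A : ℕ) (hA : A ≤ 1)
    (hZr : ∀ s : ℂ, 1 < s.re → Z s = (s - 1) ^ A * LSeries (fun n => (r n : ℂ)) s)
    (h1 : A = 1 → Z 1 ≠ 0) :
    Tendsto (fun x : ℝ => (∑ k ∈ Icc 1 ⌊x⌋₊, a k) / x) atTop (𝓝 A) := by
  set R := LSeries (fun n => (r n : ℂ)) with hR
  set L := LSeries (fun n => (a n : ℂ)) with hL
  have has : ∀ s : ℂ, 1 < s.re → LSeriesSummable (fun n => (a n : ℂ)) s := fun s hs =>
    LSeriesSummable_of_sum_norm_bigO_and_nonneg (r := 1) (IsBigO.of_bound C (.of_forall fun n => by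
      rw [Real.norm_of_nonneg (sum_nonneg fun k _ => ha k)]; simpa using hC n)) ha zero_le_one hs
  have hab : ∀ s : ℂ, 1 < s.re → abscissaOfAbsConv (fun n => (r n : ℂ)) < s.re := fun s hs =>
    (abscissaOfAbsConv_le_of_forall_lt_LSeriesSummable (x := 1) fun y hy =>
      hrs y (by simpa using hy)).trans_lt (by exact_mod_cast hs)
  have hU : IsOpen {s : ℂ | θ < s.re} := isOpen_lt continuous_const continuous_re
  have hV : IsOpen {s : ℂ | 1 < s.re} := isOpen_lt continuous_const continuous_re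
  have an := hZ.analyticOnNhd hU
  have dZ : ∀ s : ℂ, 1 < s.re → deriv Z s = (A / (s - 1) - L s) * Z s := by
    intro s hs
    have hs1 : s - 1 ≠ 0 := fun h => by simp [sub_eq_zero.1 h] at hs
    have d1 := LSeries_hasDerivAt (hab s hs)
    have e : LSeries (logMul fun n => (r n : ℂ)) s = L s * R s := by
      rw [← LSeries_convolution' (has s hs) (hrs s hs)]
      refine LSeries_congr (fun {n} hn => ?_) s
      simp only [logMul, convolution_def]
      exact_mod_cast hconv n hn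
    have d2 := (((hasDerivAt_id s).sub_const 1).pow A).mul d1
    have : Z =ᶠ[𝓝 s] fun s => (s - 1) ^ A * R s := eventually_of_mem (hV.mem_nhds hs) hZr
    rw [this.deriv_eq, hZr s hs]
    refine d2.deriv.trans ?_
    rw [e]
    interval_cases A
    · simp [hR]
    · simp only [hR, Pi.pow_apply, id]; field_simp; simp only [Nat.cast_one, Nat.sub_self, pow_zero]; ring
  have nz : ∀ s : ℂ, θ < s.re → ¬ ∀ᶠ z in 𝓝 s, Z z = 0 := by
    intro s hs h
    have h2 := an.eqOn_zero_of_preconnected_of_eventuallyEq_zero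
      (convex_halfSpace_re_gt θ).isPreconnected hs h (x := ((2 : ℝ) : ℂ)) (by simp; linarith)
    have h3 := LSeries.positive (a := fun n => (r n : ℂ)) (fun n => by simpa using hr n)
      (by simpa using hr1) (x := 2) (by simpa using hab 2 (by simp))
    rw [hZr _ (by simp)] at h2
    exact mul_ne_zero (pow_ne_zero _ (by norm_num)) h3.ne' h2
  have lim : ∀ s : ℂ, 1 ≤ s.re → ∃ m : ℕ, (m = 0 → Z s ≠ 0) ∧ (Z s ≠ 0 → m = 0) ∧
      Tendsto (fun x : ℝ => (x : ℂ) * L (s + x)) (𝓝[>] 0) (𝓝 ((if s = 1 then (A : ℂ) else 0) - m)) := by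
    intro s hs
    obtain ⟨m, m1, m2, m3, m4⟩ := log_res (an s (hθ.trans_le hs)) (nz s (hθ.trans_le hs))
    have t0 : Tendsto (fun x : ℝ => (x : ℂ)) (𝓝[>] 0) (𝓝 0) := by
      simpa using (continuous_ofReal.tendsto 0).mono_left nhdsWithin_le_nhds
    have t1 : Tendsto (fun x : ℝ => s + x) (𝓝[>] 0) (𝓝[≠] s) := by
      refine tendsto_nhdsWithin_iff.2 ⟨by simpa using t0.const_add s, ?_⟩
      filter_upwards [self_mem_nhdsWithin] with x hx
      simpa using ne_of_gt hx
    have t2 : Tendsto (fun x : ℝ => (x : ℂ) * (A / (s + x - 1))) (𝓝[>] 0)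
        (𝓝 (if s = 1 then (A : ℂ) else 0)) := by
      split_ifs with k
      · refine tendsto_const_nhds.congr' ?_
        filter_upwards [self_mem_nhdsWithin] with x hx
        have : (x : ℂ) ≠ 0 := by simpa using ne_of_gt hx
        rw [k, add_sub_cancel_left]; field_simp
      · simpa using t0.mul ((tendsto_const_nhds (x := (A : ℂ))).div
          ((t0.const_add s).sub_const 1) (by simpa using sub_ne_zero.2 k))
    refine ⟨m, m1, m2, (t2.sub (m4.comp t1)).congr' ?_⟩
    filter_upwards [t1.eventually m3, self_mem_nhdsWithin] with x h3 hx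
    simp only [Function.comp]
    rw [dZ _ (by simp; linarith [Set.mem_Ioi.1 hx]), mul_div_cancel_right₀ _ h3]
    ring
  have nv : ∀ s : ℂ, 1 ≤ s.re → Z s ≠ 0 := by
    intro s hs
    obtain ⟨m0, -, -, t0⟩ := lim s.re (by simpa using hs)
    obtain ⟨m, hm, -, t1⟩ := lim (s.re + s.im * I) (by simpa using hs)
    obtain ⟨m2, -, -, t2⟩ := lim (s.re + 2 * s.im * I) (by simpa using hs)
    have t3 := (continuous_re.tendsto _).comp (((t0.const_mul 3).add (t1.const_mul 4)).add t2)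
    have p := ge_of_tendsto t3 (b := 0) (by
      filter_upwards [self_mem_nhdsWithin] with x hx
      have hx' : 0 < x := hx
      have := mul_nonneg hx'.le (three_four_one ha (σ := s.re + x) s.im
        fun w hw => has w (by rw [hw]; linarith))
      rw [← re_ofReal_mul] at this
      refine this.trans_eq ?_
      simp only [Function.comp, hL]
      congr 1
      push_cast
      ring_nf)
    rw [re_add_im] at hm p
    by_cases k : s = 1 ∧ A = 1
    · rw [k.1]; exact h1 k.2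
    refine hm ?_
    have hA' : (A : ℝ) ≤ 1 := by exact_mod_cast hA
    have b0 : ((if (s.re : ℂ) = 1 then (A : ℂ) else 0) - m0).re ≤ 1 := by
      split_ifs <;> simp <;> linarith [(Nat.cast_nonneg m0 : (0 : ℝ) ≤ m0)]
    have b1 : ((if s = 1 then (A : ℂ) else 0) - m).re = -m := by
      split_ifs with k'
      · have : A = 0 := by have := mt (And.intro k') k; omega
        simp [this]
      · simp
    have b2 : ((if (s.re : ℂ) + 2 * s.im * I = 1 then (A : ℂ) else 0) - m2).re ≤ 0 := by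
      split_ifs with k'
      · have k1 := congrArg re k'
        have k2 := congrArg im k'
        simp at k1 k2
        have : A = 0 := by have := mt (And.intro (Complex.ext k1 k2)) k; omega
        simp [this]
      · simp
    simp only [add_re, mul_re, re_ofNat, im_ofNat, zero_mul, sub_zero] at p
    have : (m : ℝ) < 1 := by linarith
    exact Nat.lt_one_iff.1 (by exact_mod_cast this)
  refine Pool.Agent.Shared.PNT.wienerIkehara a ha C A (Nat.cast_nonneg A) hC
    (fun s => -(deriv Z s / Z s)) (fun s hs => ?_) fun s hs => ?_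
  · have := an s (hθ.trans_le hs)
    exact (this.deriv.continuousAt.div this.continuousAt (nv s hs)).neg.continuousWithinAt
  · rw [dZ s hs, mul_div_cancel_right₀ _ (nv s hs.le)]
    push_cast
    ring

theorem landau (r a : ℕ → ℝ) (hr : ∀ n, 0 ≤ r n) (hr1 : 0 < r 1) (ha : ∀ n, 0 ≤ a n)
    (hconv : ∀ n : ℕ, n ≠ 0 → Real.log n * r n = ∑ y ∈ n.divisorsAntidiagonal, a y.1 * r y.2)
    (C : ℝ) (hC : ∀ n : ℕ, ∑ k ∈ Icc 1 n, a k ≤ C * n) {θ κ : ℝ} (hθ0 : 0 ≤ θ) (hθ : θ < 1)
    (hO : (fun n : ℕ => ∑ k ∈ Icc 1 n, r k - κ * n) =O[atTop] fun n => (n : ℝ) ^ θ) :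
    ∃ A : ℝ, A ≤ 1 ∧ Tendsto (fun x : ℝ => (∑ k ∈ Icc 1 ⌊x⌋₊, a k) / x) atTop (𝓝 A) := by
  let f : ℕ → ℂ := fun n => (r n : ℂ) - κ
  have hf : ∀ n : ℕ, ∑ k ∈ Icc 1 n, f k = ((∑ k ∈ Icc 1 n, r k - κ * n : ℝ) : ℂ) := by
    intro n; simp [f, sum_sub_distrib, mul_comm]
  have hO' : (fun n => ∑ k ∈ Icc 1 n, f k) =O[atTop] fun n : ℕ => (n : ℝ) ^ θ := by
    simp only [hf]
    exact Complex.isBigO_ofReal_left.2 hO
  have hrs : ∀ s : ℂ, 1 < s.re → LSeriesSummable (fun n => (r n : ℂ)) s := fun s hs => by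
    refine LSeriesSummable_of_sum_norm_bigO_and_nonneg (r := 1) ?_ hr zero_le_one hs
    have h1 : (fun n : ℕ => (n : ℝ) ^ θ) =O[atTop] fun n : ℕ => (n : ℝ) ^ (1 : ℝ) :=
      IsBigO.of_bound 1 (by
        filter_upwards [eventually_ge_atTop 1] with n hn
        rw [Real.norm_of_nonneg (by positivity), Real.norm_of_nonneg (by positivity), one_mul]
        exact Real.rpow_le_rpow_of_exponent_le (by exact_mod_cast hn) hθ.le)
    have h2 : (fun n : ℕ => κ * (n : ℝ)) =O[atTop] fun n : ℕ => (n : ℝ) ^ (1 : ℝ) := by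
      simpa using (isBigO_refl (fun n : ℕ => (n : ℝ)) atTop).const_mul_left κ
    simpa using (hO.trans h1).add h2
  let S : ℝ → ℂ := fun t => ∑ k ∈ Icc 1 ⌊t⌋₊, f k
  have S0 : ∀ t : ℝ, t < 1 → S t = 0 := fun t ht => by simp [S, Nat.floor_eq_zero.2 ht]
  let H : ℂ → ℂ := fun s => s * mellin S (-s)
  have hH : DifferentiableOn ℂ H {s | θ < s.re} := by
    intro s hs
    have h := mellin_differentiableAt_of_isBigO_rpow (f := S) (a := -θ) (b := -s.re - 1) (s := -s)
      ?_ ?_ (by simpa using hs) ?_ (by simp)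
    · exact (differentiableAt_id.mul (h.comp s differentiableAt_id.neg)).differentiableWithinAt
    · simpa [S] using locallyIntegrableOn_mul_sum_Icc (m := 1) f le_rfl
        (MeasureTheory.locallyIntegrableOn_const (1 : ℂ)) |>.mono_set Set.Ioi_subset_Ici_self
    · simpa [S, Function.comp_def] using (hO'.comp_tendsto tendsto_nat_floor_atTop).trans <|
        isEquivalent_nat_floor.isBigO.rpow hθ0 (eventually_ge_atTop 0)
    · refine (isBigO_zero _ _).congr' ?_ EventuallyEq.rfl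
      filter_upwards [nhdsWithin_le_nhds (Iio_mem_nhds zero_lt_one)] with t ht
      exact (S0 t ht).symm
  have eH : ∀ s : ℂ, 1 < s.re → LSeries (fun n => (r n : ℂ)) s = H s + κ * riemannZeta s := by
    intro s hs
    have s1 : LSeriesSummable ((κ : ℂ) • (1 : ℕ → ℂ)) s := (LSeriesSummable_one_iff.2 hs).smul _
    have s2 : f = (fun n => (r n : ℂ)) - (κ : ℂ) • (1 : ℕ → ℂ) := by funext n; simp [f]
    have e1 := LSeries_eq_mul_integral f hθ0 (hθ.trans hs) (s2 ▸ (hrs s hs).sub s1) hO'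
    have e2 : mellin S (-s) = ∫ t in Set.Ioi (1 : ℝ), S t * t ^ (-(s + 1)) := by
      rw [mellin, MeasureTheory.setIntegral_eq_of_subset_of_forall_sdiff_eq_zero measurableSet_Ioi
        (Set.Ici_subset_Ioi.2 zero_lt_one) (fun t ht => by
          rw [S0 t (by simpa using ht.2), smul_zero]), MeasureTheory.integral_Ici_eq_integral_Ioi]
      refine MeasureTheory.setIntegral_congr_fun measurableSet_Ioi fun t _ => ?_
      simp only [smul_eq_mul]
      rw [mul_comm, neg_add', sub_eq_add_neg]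
    have e3 : LSeries f s = LSeries (fun n => (r n : ℂ)) s - κ * riemannZeta s := by
      rw [s2, LSeries_sub (hrs s hs) s1, LSeries_smul, LSeries_one_eq_riemannZeta hs]
    simp only [H, e2, S]
    rw [← e1, e3]
    ring
  by_cases k : κ = 0
  · exact ⟨(0 : ℕ), by simp, wi_core r a hr hr1 ha hconv hrs C hC hθ H hH 0 zero_le_one
      (fun s hs => by simp [eH s hs, k]) (by simp)⟩
  · refine ⟨(1 : ℕ), by simp, wi_core r a hr hr1 ha hconv hrs C hC hθ
      (fun s => (s - 1) * H s + κ * riemannZeta₁ s) (((differentiableOn_id.sub_const 1).mul hH).add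
        (differentiable_riemannZeta₁.differentiableOn.const_mul _)) 1 le_rfl (fun s hs => ?_)
      fun _ => by simpa using k⟩
    have hs1 : s ≠ 1 := fun h => by simp [h] at hs
    have := sub_ne_zero.2 hs1
    rw [eH s hs, riemannZeta_eq_inv_sub_mul hs1]
    field_simp

end Pool.Agent.Spin
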