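import Pool.Agent.Lib.MP_696deb_nt.Spin.D0
import Pool.Agent.Lib.MP_aed2da_nt.QRecip

/-! The Jacobi symbol in a principal ring, and Gauss sums of a totally complex field. -/

set_option autoImplicit false

open scoped Classical
open Finset NumberField

namespace Pool.Agent.Spin

section gen
variable {O : Type} [CommRing O] [IsDomain O] [IsPrincipalIdealRing O] {M : ℕ}

theorem jac_mul_right (a : O) {b c : O} (hb : b ≠ 0) (hc : c ≠ 0) :
    jac M a (b * c) = jac M a b * jac M a c := by
  unfold jac
  rw [← Ideal.span_singleton_mul_span_singleton, UniqueFactorizationMonoid.normalizedFactors_mul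
    (by simpa using hb) (by simpa using hc), Multiset.map_add, Multiset.prod_add]

theorem jac_unit (a : O) {b : O} (h : IsUnit b) : jac M a b = 1 := by
  unfold jac
  rw [Ideal.span_singleton_eq_top.2 h, ← Ideal.one_eq_top,
    UniqueFactorizationMonoid.normalizedFactors_one]
  simp

theorem jac_zero (a : O) : jac M a 0 = 1 := by
  unfold jac
  rw [Ideal.span_singleton_eq_bot.2 rfl, ← Ideal.zero_eq_bot,
    UniqueFactorizationMonoid.normalizedFactors_zero]
  simp

theorem jac_prime (a : O) {p : O} (h : Prime p) : jac M a p = leg M a (Ideal.span {p}) := by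
  unfold jac
  rw [UniqueFactorizationMonoid.normalizedFactors_irreducible
    (Ideal.prime_span_singleton_iff.2 h).irreducible]
  simp

omit [IsDomain O] [IsPrincipalIdealRing O] in
theorem leg_tri (a : O) (P : Ideal O) : leg M a P = 0 ∨ leg M a P = 1 ∨ leg M a P = -1 := by
  unfold leg
  split_ifs <;> simp

theorem jac_tri (a b : O) : jac M a b = 0 ∨ jac M a b = 1 ∨ jac M a b = -1 := by
  induction b using UniqueFactorizationMonoid.induction_on_prime with
  | h₁ => simp [jac_zero]
  | h₂ x hx => simp [jac_unit a hx]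
  | h₃ x p hx hp ih =>
    rw [jac_mul_right a hp.ne_zero hx, jac_prime a hp]
    rcases leg_tri (M := M) a (Ideal.span {p}) with h | h | h <;> rcases ih with k | k | k <;>
      simp [h, k]

theorem jac_abs (a b : O) : |jac M a b| ≤ 1 := by
  rcases jac_tri (M := M) a b with h | h | h <;> simp [h]

omit [IsDomain O] [IsPrincipalIdealRing O] in
theorem leg_congr {a a' : O} {P : Ideal O} (h : a - a' ∈ P) : leg M a P = leg M a' P := by
  have h1 : a ∈ P ↔ a' ∈ P := (Submodule.sub_mem_iff_right P · |>.1 h) |> fun f =>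
    ⟨f, fun k => (Submodule.sub_mem_iff_left P k).1 h⟩
  have h2 : (∃ t, t * t - a ∈ P) ↔ ∃ t, t * t - a' ∈ P := by
    refine exists_congr fun t => ⟨fun k => ?_, fun k => ?_⟩
    · simpa using P.add_mem k h
    · have := P.sub_mem k h
      rwa [show t * t - a' - (a - a') = t * t - a by ring] at this
  unfold leg
  simp only [h1, h2]

theorem jac_congr {a a' b : O} (h : b ∣ a - a') : jac M a b = jac M a' b := by
  induction b using UniqueFactorizationMonoid.induction_on_prime with
  | h₁ => simp [jac_zero]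
  | h₂ x hx => simp [jac_unit _ hx]
  | h₃ x p hx hp ih =>
    rw [jac_mul_right a hp.ne_zero hx, jac_prime a hp, jac_mul_right a' hp.ne_zero hx,
      jac_prime a' hp, ih ((dvd_mul_left _ _).trans h),
      leg_congr (Ideal.mem_span_singleton.2 ((dvd_mul_right _ _).trans h))]

theorem jac_ne_zero {a b : O} (h : IsCoprime a b) : jac M a b ≠ 0 := by
  induction b using UniqueFactorizationMonoid.induction_on_prime with
  | h₁ => simp [jac_zero]
  | h₂ x hx => simp [jac_unit _ hx]
  | h₃ x p hx hp ih =>
    rw [jac_mul_right a hp.ne_zero hx, jac_prime a hp]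
    refine mul_ne_zero ?_ (ih h.of_mul_right_right)
    have : a ∉ Ideal.span {p} := fun k => hp.not_isUnit
      (h.of_mul_right_left.isUnit_of_dvd' (Ideal.mem_span_singleton.1 k) dvd_rfl)
    unfold leg
    split_ifs <;> simp

theorem jac_sq {a b : O} (h : IsCoprime a b) : jac M a b * jac M a b = 1 := by
  rcases jac_tri (M := M) a b with k | k | k
  · exact absurd k (jac_ne_zero h)
  · simp [k]
  · simp [k]

theorem jac_eq_zero {a b : O} (hb : b ≠ 0) (hM : IsCoprime b (M : O)) (h : ¬ IsCoprime a b) :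
    jac M a b = 0 := by
  induction b using UniqueFactorizationMonoid.induction_on_prime with
  | h₁ => exact absurd rfl hb
  | h₂ x hx => exact absurd (by obtain ⟨u, rfl⟩ := hx; exact ⟨0, (u⁻¹ : Oˣ), by simp⟩) h
  | h₃ x p hx hp ih =>
    rw [jac_mul_right a hp.ne_zero hx, jac_prime a hp]
    by_cases k : IsCoprime a x
    · have k1 : p ∣ a := by
        by_contra k1
        exact h ((hp.irreducible.coprime_iff_not_dvd.2 k1).symm.mul_right k)
      have k2 : (M : O) ∉ Ideal.span {p} := fun k2 => hp.not_isUnit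
        (hM.of_mul_left_left.isUnit_of_dvd' dvd_rfl (Ideal.mem_span_singleton.1 k2))
      unfold leg
      rw [if_neg k2, if_pos (Ideal.mem_span_singleton.2 k1), zero_mul]
    · rw [ih hx hM.of_mul_left_right k, mul_zero]

theorem leg_quad [Module.Free ℤ O] [Module.Finite ℤ O] {p : O} (hp : Prime p)
    (hM : (M : O) ∉ Ideal.span {p}) : ∃ χ : MulChar (O ⧸ Ideal.span {p}) ℤ,
      ∀ a, leg M a (Ideal.span {p}) = χ (Ideal.Quotient.mk _ a) := by
  let P := Ideal.span {p}
  have : P.IsMaximal := PrincipalIdealRing.isMaximal_of_irreducible hp.irreducible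
  let _ := Ideal.Quotient.field P
  have : Finite (O ⧸ P) := Ideal.finiteQuotientOfFreeOfNeBot _ (by simp [P, hp.ne_zero])
  let _ := Fintype.ofFinite (O ⧸ P)
  refine ⟨quadraticChar (O ⧸ P), fun a => ?_⟩
  have h2 : (∃ t, t * t - a ∈ P) ↔ IsSquare (Ideal.Quotient.mk P a) := by
    constructor
    · rintro ⟨t, ht⟩
      exact ⟨Ideal.Quotient.mk P t, by rw [← map_mul]; exact (Ideal.Quotient.eq.2 ht).symm⟩
    · rintro ⟨t, ht⟩
      obtain ⟨t, rfl⟩ := Ideal.Quotient.mk_surjective t
      exact ⟨t, Ideal.Quotient.eq.1 (by rw [map_mul]; exact ht.symm)⟩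
  change leg M a P = quadraticCharFun (O ⧸ P) (Ideal.Quotient.mk P a)
  unfold leg quadraticCharFun
  rw [if_neg hM]
  simp only [Ideal.Quotient.eq_zero_iff_mem, h2]

theorem jac_mul_left [Module.Free ℤ O] [Module.Finite ℤ O] (a a' b : O) :
    jac M (a * a') b = jac M a b * jac M a' b := by
  induction b using UniqueFactorizationMonoid.induction_on_prime with
  | h₁ => simp [jac_zero]
  | h₂ x hx => simp [jac_unit _ hx]
  | h₃ x p hx hp ih =>
    simp only [jac_mul_right _ hp.ne_zero hx, jac_prime _ hp, ih]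
    by_cases k : (M : O) ∈ Ideal.span {p}
    · simp only [leg, if_pos k]; ring
    · obtain ⟨χ, h⟩ := leg_quad hp k
      simp only [h, map_mul]; ring

theorem exists_sqf {b : O} (hb : b ≠ 0) : ∃ b1 s : O, b = s ^ 2 * b1 ∧ Squarefree b1 := by
  induction b using UniqueFactorizationMonoid.induction_on_prime with
  | h₁ => exact absurd rfl hb
  | h₂ x hx => exact ⟨x, 1, by simp, hx.squarefree⟩
  | h₃ x p hx hp ih =>
    obtain ⟨b1, s, rfl, h⟩ := ih hx
    by_cases k : p ∣ b1
    · obtain ⟨c, rfl⟩ := k
      exact ⟨c, s * p, by ring, h.of_mul_right⟩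
    · exact ⟨p * b1, s, by ring, squarefree_mul_iff.2
        ⟨hp.irreducible.isRelPrime_iff_not_dvd.2 k, hp.squarefree, h⟩⟩

end gen

open Pool.Agent.Lib.MP_aed2da_nt.QR

variable {K : Type} [Field K] [NumberField K] {γ : K}

theorem trace_c [IsTotallyComplex K] (x : K) : ((Algebra.trace ℚ K x : ℚ) : ℝ) =
    ∑ w : InfinitePlace K, 2 * (w.embedding x).re := by
  have := trace_eq_sum_embeddings ℂ (K := ℚ) (L := K) (x := x)
  rw [← Fintype.sum_equiv (RingHom.equivRatAlgHom K ℂ) (fun φ => φ x) (fun φ => φ x)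
    (fun _ => by simp [RingHom.equivRatAlgHom_apply])] at this
  have h := congrArg Complex.re this
  rw [Complex.re_sum, ← Finset.sum_fiberwise univ InfinitePlace.mk] at h
  rw [show ((Algebra.trace ℚ K x : ℚ) : ℝ) = (algebraMap ℚ ℂ (Algebra.trace ℚ K x)).re by simp, h]
  refine sum_congr rfl fun w _ => ?_
  have k : ∀ φ ∈ ({φ | InfinitePlace.mk φ = w} : Finset (K →+* ℂ)),
      (φ x).re = (w.embedding x).re := by
    intro φ hφ
    rw [← (mem_filter.1 hφ).2]
    rcases InfinitePlace.embedding_mk_eq φ with e | e <;> simp [e]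
  rw [sum_congr rfl k, sum_const, InfinitePlace.card_filter_mk_eq,
    (IsTotallyComplex.isComplex w).mult_eq_two]
  simp

theorem milgram_c [IsTotallyComplex K] (hγ0 : γ ≠ 0) (hγ : IsDiff γ) {a : 𝓞 K} (ha : a ≠ 0) :
    ∃ c : ℝ, 0 < c ∧ Gs γ (1 / (4 * a)) = c := by
  have ha' : (a : K) ≠ 0 := by exact_mod_cast ha
  obtain ⟨e, h0, h1, h2⟩ := exists_orth (mul_ne_zero hγ0 ha')
  choose m hm using fun i => tr_int hγ (a * (e i * e i))
  simp only [map_mul, ← mul_assoc γ] at hm
  have hm0 : ∀ i, m i ≠ 0 := fun i h => h1 i (by rw [hm, h]; simp)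
  obtain ⟨c, hc, h⟩ := milgram_aux hγ ha e m h0 hm hm0 h2
  choose r hr using fun w : InfinitePlace K =>
    IsAlgClosed.exists_pow_nat_eq (w.embedding (γ * a)) two_pos
  let v : Fin (Module.finrank ℚ K) → InfinitePlace K × Bool → ℝ := fun i s =>
    if s.2 then (r s.1 * s.1.embedding (e i)).re else (r s.1 * s.1.embedding (e i)).im
  let cc : InfinitePlace K × Bool → ℝ := fun s => if s.2 then 2 else -2
  have key : ∀ i j, ∑ s, cc s * (v i s * v j s) =
      ((Algebra.trace ℚ K (γ * a * (e i * e j)) : ℚ) : ℝ) := by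
    intro i j
    rw [trace_c, Fintype.sum_prod_type]
    refine sum_congr rfl fun w _ => ?_
    rw [map_mul w.embedding, ← hr, map_mul w.embedding, show r w ^ 2 *
      (w.embedding (e i : K) * w.embedding (e j : K)) =
      (r w * w.embedding (e i : K)) * (r w * w.embedding (e j : K)) by ring, Complex.mul_re]
    simp only [cc, v, Fintype.sum_bool]
    simp only [if_true, Bool.false_eq_true, if_false]
    ring
  have hcard : Fintype.card (Fin (Module.finrank ℚ K)) = Fintype.card (InfinitePlace K × Bool) := by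
    rw [Fintype.card_fin, Fintype.card_prod, Fintype.card_bool, ← InfinitePlace.sum_mult_eq,
      sum_congr rfl fun w _ => (IsTotallyComplex.isComplex w).mult_eq_two]
    simp
  rw [prod_sig v cc (fun i => (m i : ℝ)) (fun i j hij => by rw [key, h0 i j hij]; simp)
    (fun i => by rw [key, hm i]; simp) (fun i => by exact_mod_cast hm0 i) hcard,
    Fintype.prod_prod_type] at h
  have e2 : ∀ w : InfinitePlace K,
      ∏ b : Bool, (if 0 < cc (w, b) then 1 + Complex.I else 1 - Complex.I) = 2 := by
    intro w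
    simp only [cc, Fintype.prod_bool]
    norm_num
    linear_combination (-1 : ℂ) * Complex.I_mul_I
  simp only [e2, prod_const] at h
  exact ⟨c * 2 ^ (univ : Finset (InfinitePlace K)).card, by positivity, by rw [h]; push_cast; ring⟩

end Pool.Agent.Spin
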