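import Pool.Agent.Lib.MP_696deb_nt.Spin.GF
import Pool.Agent.Lib.MP_696deb_nt.Spin.CT

/-! Sums of type one. -/

set_option autoImplicit false

open scoped Classical
open Finset Filter Topology

namespace Pool.Agent.Spin

theorem t1_ite {α : Type} (B X : Finset α) {A : ℝ} (hA : 0 ≤ A) :
    ∑ b ∈ B, (if b ∈ X then A else 0) ≤ X.card * A := by
  rw [sum_ite_mem, sum_const, nsmul_eq_mul]
  exact mul_le_mul_of_nonneg_right (Nat.cast_le.2 (card_le_card inter_subset_right)) hA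

namespace Dat

variable (D : Dat)

theorem t1_triv {L R Y η : ℝ} {W : V → ℝ} (hW : Wt L R W) (F : D.O → ℝ) (b : D.O)
    (h1 : ∀ x, x - D.σ x = b → |F x| ≤ η) :
    |D.S W R Y fun x => if x - D.σ x = b then F x else 0| ≤
      ((D.ball (R * Y)).filter fun x => x - D.σ x = b).card * (L * η) := by
  have L0 : 0 ≤ L := (abs_nonneg _).trans (hW.bd 0)
  refine (abs_sum_le_sum_abs _ _).trans ?_
  rw [← nsmul_eq_mul, ← sum_const, sum_filter]
  refine sum_le_sum fun x _ => ?_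
  dsimp only
  split_ifs with h
  · rw [abs_mul]
    exact mul_le_mul (hW.bd _) (h1 x h) (abs_nonneg _) L0
  · simp

theorem t1_good {L R Y η τ c : ℝ} {W : V → ℝ} (hW : Wt L R W) (hY : 0 < Y) (hRY : 1 ≤ R * Y)
    (hc : ∀ T : ℝ, 1 ≤ T → ∀ β : D.O,
      (((D.ball T).filter fun x => x - D.σ x = β).card : ℝ) ≤ c * T ^ 2) (c0 : 0 ≤ c)
    (η0 : 0 ≤ η) (F : D.O → ℝ) (h1 : ∀ x, |F x| ≤ 1) (b : D.O) {ι : Type} (I : Finset ι)
    (t : ι → D.O) (hI : I.Nonempty) (ht : ∀ i ∈ I, D.sz (t i) ≤ τ ∧ D.σ (t i) = t i)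
    (hs : ∀ x, x - D.σ x = b → |∑ i ∈ I, F (x + t i)| ≤ η * I.card) :
    |D.S W R Y fun x => if x - D.σ x = b then F x else 0| ≤
      c * (R * Y) ^ 2 * (L * η) + L * (τ / Y) * (c * (R * Y + τ) ^ 2) := by
  have L0 : 0 ≤ L := (abs_nonneg _).trans (hW.bd 0)
  have I0 : (0 : ℝ) < I.card := Nat.cast_pos.2 hI.card_pos
  set G : D.O → ℝ := fun x => if x - D.σ x = b then F x else 0 with hG
  have e1 : ∑ i ∈ I, D.S W R Y (fun x => G (x + t i)) =
      D.S W R Y fun x => if x - D.σ x = b then ∑ i ∈ I, F (x + t i) else 0 := by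
    simp only [S]
    rw [sum_comm]
    refine sum_congr rfl fun x _ => ?_
    rw [← mul_sum]
    congr 1
    have : ∀ i ∈ I, G (x + t i) = if x - D.σ x = b then F (x + t i) else 0 := fun i hi => by
      simp only [hG, map_add, (ht i hi).2, add_sub_add_right_eq_sub]
    rw [sum_congr rfl this]
    split_ifs <;> simp
  have e2 := D.t1_triv (Y := Y) hW (fun x => ∑ i ∈ I, F (x + t i)) b hs
  rw [← e1] at e2
  have e3 : ∀ i ∈ I, |D.S W R Y (fun x => G (x + t i)) - D.S W R Y G| ≤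
      L * (τ / Y) * (c * (R * Y + τ) ^ 2) := by
    intro i hi
    have z0 := D.sz_nonneg (t i)
    have z1 := (ht i hi).1
    refine (D.avg hW hY G (fun x => x - D.σ x = b) (fun x => ?_) (fun x hx => ?_) (t i)).trans ?_
    · simp only [hG]
      split_ifs
      · exact h1 x
      · simp
    · by_contra hq
      exact hx (if_neg hq)
    · have := hc (R * Y + D.sz (t i)) (by linarith) b
      have τ0 : 0 ≤ τ := z0.trans z1
      refine mul_le_mul (by gcongr) (le_trans (by convert this) (by gcongr)) (by positivity)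
        (by positivity)
  have e4 : (I.card : ℝ) * D.S W R Y G = ∑ i ∈ I, D.S W R Y (fun x => G (x + t i)) -
      ∑ i ∈ I, (D.S W R Y (fun x => G (x + t i)) - D.S W R Y G) := by
    rw [← sum_sub_distrib]
    simp
  have e5 : |∑ i ∈ I, (D.S W R Y (fun x => G (x + t i)) - D.S W R Y G)| ≤
      I.card * (L * (τ / Y) * (c * (R * Y + τ) ^ 2)) := by
    refine (abs_sum_le_sum_abs _ _).trans ?_
    simpa using sum_le_card_nsmul I _ _ e3
  have e6 := mul_le_mul_of_nonneg_right (hc _ hRY b) (by positivity : 0 ≤ L * (η * I.card))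
  refine le_of_mul_le_mul_left ?_ I0
  rw [← abs_of_pos I0, ← abs_mul, e4, abs_of_pos I0]
  refine (abs_sub _ _).trans ?_
  nlinarith

theorem type_one (L R : ℝ) (hR : 1 ≤ R) : ∃ C : ℝ, ∀ (W : V → ℝ) (κ : D.O → ℝ) (Y : ℝ) (d : D.O),
    Wt L R W → D.Per κ → 1 ≤ Y → d ≠ 0 → (D.N d : ℝ) ≤ Y ^ (1 / 100 : ℝ) →
    |D.S W R Y fun x => if d ∣ x then D.sp κ x else 0| ≤ C * Y ^ (6 - 1 / 1200 : ℝ) := by
  obtain ⟨c2, c21, hc2⟩ := D.fib2
  obtain ⟨c4, c41, hc4⟩ := D.sep4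
  obtain ⟨cb, cb1, hcb⟩ := D.bad_count
  obtain ⟨cs, cs1, hcs⟩ := D.small_count (ε := 1 / 100) (by norm_num)
  obtain ⟨cg, cg1, hcg⟩ := D.good_fib ((2 * R) ^ 6 * 2 ^ 600)
  refine ⟨(cs * D.M * (8 * R) + cb * (2 * R) ^ 4 * 2) * (c2 * R ^ 2 * L) + c4 * (2 * R) ^ 4 *
    (2 * (c2 * R ^ 2 * (L * cg) + L * (cg * D.M ^ 2) * (c2 * (R + cg * D.M ^ 2) ^ 2))),
    fun W κ Y d hW hκ hY d0 hd => ?_⟩
  have L0 : 0 ≤ L := (abs_nonneg _).trans (hW.bd 0)
  have Y0 : 0 < Y := by linarith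
  have RY : 1 ≤ R * Y := one_le_mul_of_one_le_of_one_le hR hY
  have RY2 : 1 ≤ 2 * R * Y := by linarith
  have M1 : 1 ≤ D.M := Nat.pos_of_ne_zero D.M0
  have M1' : (1 : ℝ) ≤ D.M := by exact_mod_cast M1
  obtain ⟨y, hy⟩ : ∃ y, y = Y ^ (1 / 100 : ℝ) := ⟨_, rfl⟩
  obtain ⟨u, hu⟩ : ∃ u, u = Y ^ (1 / 1200 : ℝ) := ⟨_, rfl⟩
  have y1 : 1 ≤ y := hy ▸ Real.one_le_rpow hY (by norm_num)
  have u1 : 1 ≤ u := hu ▸ Real.one_le_rpow hY (by norm_num)
  have yY : y ^ 100 = Y := by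
    rw [hy, ← Real.rpow_natCast, ← Real.rpow_mul Y0.le]; norm_num
  have uy : u ^ 12 = y := by
    rw [hy, hu, ← Real.rpow_natCast, ← Real.rpow_mul Y0.le]; norm_num
  have eY : Y ^ (6 - 1 / 1200 : ℝ) = Y ^ 6 / u := by
    rw [Real.rpow_sub Y0, hu]; norm_num
  obtain ⟨j, hj⟩ : ∃ j, j = ⌊y⌋₊ := ⟨_, rfl⟩
  have j1 : 1 ≤ j := hj ▸ Nat.le_floor (by exact_mod_cast y1)
  have j1' : (1 : ℝ) ≤ j := by exact_mod_cast j1
  have jy : (j : ℝ) ≤ y := hj ▸ Nat.floor_le (by linarith)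
  have yj : y ≤ 2 * j := by
    have := Nat.lt_floor_add_one y
    rw [← hj] at this
    linarith
  have dj : D.N d ≤ j := hj ▸ Nat.le_floor (hy ▸ hd)
  have jY : (j : ℝ) ^ 100 ≤ Y := yY ▸ pow_le_pow_left₀ (by linarith) jy _
  have Yj : Y ≤ (2 * j) ^ 100 := yY ▸ pow_le_pow_left₀ (by linarith) yj _
  obtain ⟨v, hv⟩ : ∃ v, v = (j : ℝ) ^ (1 / 12 : ℝ) := ⟨_, rfl⟩
  have v1 : 1 ≤ v := hv ▸ Real.one_le_rpow j1' (by norm_num)
  have vj : v ^ 12 = j := by
    rw [hv, ← Real.rpow_natCast, ← Real.rpow_mul (by linarith)]; norm_num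
  have uv : u ≤ 2 * v := by
    refine le_of_pow_le_pow_left₀ (n := 12) (by norm_num) (by linarith) ?_
    rw [mul_pow, uy, vj]
    linarith
  have vs : v ≤ √j := by
    rw [hv, Real.sqrt_eq_rpow]
    exact Real.rpow_le_rpow_of_exponent_le j1' (by norm_num)
  have vj' : v ≤ j := vj ▸ le_self_pow₀ v1 (by norm_num)
  have iv : ∀ w : ℝ, v ≤ w → 1 / w ≤ 2 / u := fun w hw => by
    rw [div_le_div_iff₀ (by linarith) (by linarith)]
    linarith
  set F : D.O → ℝ := fun x => if d ∣ x then D.sp κ x else 0 with hF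
  have F1 : ∀ x, |F x| ≤ 1 := fun x => by
    simp only [hF]
    split_ifs
    · exact D.sp_abs hκ x
    · simp
  set B := (D.ball (R * Y)).image fun x => x - D.σ x with hB
  have e1 : D.S W R Y F = ∑ b ∈ B, D.S W R Y fun x => if x - D.σ x = b then F x else 0 := by
    simp only [S]
    rw [sum_comm]
    refine sum_congr rfl fun x hx => ?_
    rw [← mul_sum, sum_ite_eq, if_pos (mem_image_of_mem _ hx)]
  set Sm := (D.ball (2 * R * Y)).filter fun β => (D.N β : ℝ) ≤ D.M * (j : ℝ) ^ 323 with hSm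
  set Bd := (D.ball (2 * R * Y)).filter fun β => β ≠ 0 ∧ β + D.σ β + D.σ (D.σ β) = 0 ∧
      ∃ q g : ℕ, D.N β = q * g ∧ q.Coprime g ∧ Sqf g ∧ (j : ℝ) < g with hBd
  set Al := (D.ball (2 * R * Y)).filter fun β => β ≠ 0 ∧ (1 : D.O) ∣ β ∧
      β + D.σ β + D.σ (D.σ β) = 0 with hAl
  obtain ⟨A, hA⟩ : ∃ A, A = c2 * R ^ 2 * L * Y ^ 2 := ⟨_, rfl⟩
  obtain ⟨A', hA'⟩ : ∃ A', A' = 2 * (c2 * R ^ 2 * (L * cg) + L * (cg * D.M ^ 2) *
    (c2 * (R + cg * D.M ^ 2) ^ 2)) * Y ^ 2 / u := ⟨_, rfl⟩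
  have A0 : 0 ≤ A := by rw [hA]; positivity
  have A0' : 0 ≤ A' := by rw [hA']; positivity
  have tr : ∀ b, |D.S W R Y fun x => if x - D.σ x = b then F x else 0| ≤ A := fun b => by
    refine (D.t1_triv hW F b fun x _ => F1 x).trans ?_
    refine (mul_le_mul_of_nonneg_right (hc2 _ RY b) (by positivity)).trans (le_of_eq ?_)
    rw [hA]; ring
  have key : ∀ b ∈ B, |D.S W R Y fun x => if x - D.σ x = b then F x else 0| ≤
      (if b ∈ Sm then A else 0) + (if b ∈ Bd then A else 0) + if b ∈ Al then A' else 0 := by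
    intro b hb
    have n1 : 0 ≤ if b ∈ Sm then A else 0 := by split_ifs <;> linarith
    have n2 : 0 ≤ if b ∈ Bd then A else 0 := by split_ifs <;> linarith
    have n3 : 0 ≤ if b ∈ Al then A' else 0 := by split_ifs <;> linarith
    by_cases h1 : b ∈ Sm
    · rw [if_pos h1]; linarith [tr b]
    by_cases h2 : b ∈ Bd
    · rw [if_pos h2]; linarith [tr b]
    obtain ⟨x, hx, hxb⟩ := mem_image.1 hb
    have sb : D.sz b ≤ 2 * R * Y := by
      have a1 := D.sz_sub_le x (D.σ x)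
      rw [D.sz_σ, hxb] at a1
      have := D.mem_ball.1 hx
      linarith
    have t0 : b + D.σ b + D.σ (D.σ b) = 0 := by
      rw [← hxb]; simp only [map_sub, D.σ3]; ring
    have bb := D.mem_ball.2 sb
    have big : D.M * j ^ 323 < D.N b := by
      have : ¬ (D.N b : ℝ) ≤ D.M * (j : ℝ) ^ 323 := fun h => h1 (mem_filter.2 ⟨bb, h⟩)
      exact_mod_cast not_le.1 this
    have nb : D.N b ≠ 0 := by omega
    have b0 : b ≠ 0 := fun h => nb (D.N_eq_zero.2 h)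
    have nd : D.N d ≠ 0 := fun h => d0 (D.N_eq_zero.1 h)
    obtain ⟨q, g, g', e, hq, hg, hg', k1, k2⟩ := decomp nb (mul_ne_zero D.M0 nd)
    have gj : g ≤ j := by
      by_contra h
      exact h2 (mem_filter.2 ⟨bb, b0, t0, q * g', g, e, k2, hg, by exact_mod_cast not_le.1 h⟩)
    have ej : D.M * D.N d ≤ D.M * j := Nat.mul_le_mul_left _ dj
    have gj' : g' ≤ D.M * j :=
      (Nat.le_of_dvd (Nat.pos_of_ne_zero (mul_ne_zero D.M0 nd)) hg').trans ej
    obtain ⟨a, b2, rfl, ha, hb2⟩ := D.split_norm b0 (e.trans (mul_assoc _ _ _))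
      (k1.coprime_dvd_right (dvd_mul_right _ _))
    have q1 : j ^ 321 ≤ q := by
      by_contra h
      have : q * g' * g ≤ j ^ 321 * (D.M * j) * j := by gcongr; omega
      have e' : j ^ 321 * (D.M * j) * j = D.M * j ^ 323 := by ring
      omega
    have q2 : (q : ℝ) ≤ (2 * R) ^ 6 * 2 ^ 600 * (j : ℝ) ^ 600 := by
      have a1 : q ≤ D.N (a * b2) := Nat.le_of_dvd (Nat.pos_of_ne_zero nb)
        (ha ▸ D.N_dvd (dvd_mul_right _ _))
      calc (q : ℝ) ≤ D.N (a * b2) := by exact_mod_cast a1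
        _ ≤ D.sz (a * b2) ^ 6 := D.N_le _
        _ ≤ (2 * R * (2 * j) ^ 100) ^ 6 :=
            pow_le_pow_left₀ (D.sz_nonneg _) (sb.trans (by gcongr)) _
        _ = _ := by rw [mul_pow, ← pow_mul, mul_pow (2 : ℝ) (j : ℝ), mul_assoc]
    obtain ⟨I, t, hI, ht, hs⟩ := hcg j (g' * g * (D.M * D.N d)) κ a b2 d j1 hκ b0 (ha ▸ hq)
      (ha ▸ k1) ((dvd_mul_right _ _).mul_left _)
      ((D.dvd_N b2).trans (Nat.cast_dvd_cast (hb2 ▸ dvd_mul_right _ _)))
      ((D.dvd_N d).trans (Nat.cast_dvd_cast ((dvd_mul_left _ _).mul_left _))) (ha ▸ q1) (ha ▸ q2)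
    have m1 : ((g' * g * (D.M * D.N d) : ℕ) : ℝ) ≤ D.M ^ 2 * (j : ℝ) ^ 3 := by
      have : g' * g * (D.M * D.N d) ≤ D.M ^ 2 * j ^ 3 :=
        calc _ ≤ D.M * j * j * (D.M * j) := by gcongr
          _ = _ := by ring
      exact_mod_cast this
    have j98 : (j : ℝ) ^ 98 / Y ≤ 2 / u := by
      refine le_trans ?_ (iv j vj')
      rw [div_le_div_iff₀ Y0 (by linarith), one_mul, ← pow_succ]
      exact (pow_le_pow_right₀ j1' (by norm_num)).trans jY
    have j98' : (j : ℝ) ^ 98 ≤ Y := (pow_le_pow_right₀ j1' (by norm_num)).trans jY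
    have G := D.t1_good (η := cg / √j) (τ := cg * D.M ^ 2 * (j : ℝ) ^ 98) hW Y0 RY hc2
      (by linarith) (by positivity) F F1 (a * b2) I t hI
      (fun i hi => ⟨(ht i hi).1.trans (by
        calc cg * ((g' * g * (D.M * D.N d) : ℕ) : ℝ) * (j : ℝ) ^ 95
            ≤ cg * (D.M ^ 2 * (j : ℝ) ^ 3) * (j : ℝ) ^ 95 := by gcongr
          _ = _ := by ring), (ht i hi).2⟩)
      (fun x hx => (hs x hx).trans (le_of_eq (by ring)))
    rw [if_neg h1, if_neg h2, if_pos (mem_filter.2 ⟨bb, b0, one_dvd _, t0⟩), zero_add, zero_add]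
    refine G.trans ?_
    have s1 := iv _ vs
    have p1 : cg / √j ≤ cg * (2 / u) := by
      rw [div_eq_mul_one_div]; gcongr
    have p2 : cg * D.M ^ 2 * (j : ℝ) ^ 98 / Y ≤ cg * D.M ^ 2 * (2 / u) := by
      rw [mul_div_assoc]; gcongr
    have p3 : R * Y + cg * D.M ^ 2 * (j : ℝ) ^ 98 ≤ (R + cg * D.M ^ 2) * Y := by
      rw [add_mul]; gcongr
    calc _ ≤ c2 * (R * Y) ^ 2 * (L * (cg * (2 / u))) +
          L * (cg * D.M ^ 2 * (2 / u)) * (c2 * ((R + cg * D.M ^ 2) * Y) ^ 2) := by gcongr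
      _ = A' := by rw [hA']; ring
  have cS : (Sm.card : ℝ) ≤ cs * D.M * (8 * R) * Y ^ 4 / u := by
    refine (hcs _ _ RY2 (one_le_mul_of_one_le_of_one_le M1' (one_le_pow₀ j1'))).trans ?_
    have a1 : (2 * R * Y) ^ (1 / 100 : ℝ) ≤ 2 * R * (2 * j) := by
      rw [Real.mul_rpow (by linarith) Y0.le, ← hy]
      refine mul_le_mul ?_ yj (by linarith) (by linarith)
      simpa using Real.rpow_le_rpow_of_exponent_le (x := 2 * R) (y := 1 / 100) (z := 1)
        (by linarith) (by norm_num)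
    have a2 : (j : ℝ) ^ 325 ≤ Y ^ 4 :=
      calc (j : ℝ) ^ 325 ≤ ((j : ℝ) ^ 100) ^ 4 := by
            rw [← pow_mul]; exact pow_le_pow_right₀ j1' (by norm_num)
        _ ≤ _ := by gcongr
    have a3 : u ≤ 2 * j := by linarith
    rw [le_div_iff₀ (by linarith)]
    calc _ ≤ cs * (D.M * (j : ℝ) ^ 323) * (2 * R * (2 * j)) * (2 * j) := by gcongr
      _ = cs * D.M * (8 * R) * (j : ℝ) ^ 325 := by ring
      _ ≤ _ := by gcongr
  have cB : (Bd.card : ℝ) ≤ cb * (2 * R) ^ 4 * 2 * Y ^ 4 / u := by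
    refine (hcb _ _ RY2 j1').trans ?_
    rw [← hv, div_eq_mul_one_div]
    calc _ ≤ cb * (2 * R * Y) ^ 4 * (2 / u) := 
          mul_le_mul_of_nonneg_left (iv v le_rfl) (by positivity)
      _ = _ := by ring
  have cA : (Al.card : ℝ) ≤ c4 * (2 * R) ^ 4 * Y ^ 4 := by
    refine (hc4 _ RY2 1 one_ne_zero).trans (le_of_eq ?_)
    rw [D.N_eq_one.2 isUnit_one]
    simp only [Nat.cast_one, Real.one_rpow]
    ring
  rw [e1, eY]
  refine (abs_sum_le_sum_abs _ _).trans ((sum_le_sum key).trans ?_)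
  rw [sum_add_distrib, sum_add_distrib]
  calc _ ≤ Sm.card * A + Bd.card * A + Al.card * A' :=
        add_le_add (add_le_add (t1_ite _ _ A0) (t1_ite _ _ A0)) (t1_ite _ _ A0')
    _ ≤ cs * D.M * (8 * R) * Y ^ 4 / u * A + cb * (2 * R) ^ 4 * 2 * Y ^ 4 / u * A +
        c4 * (2 * R) ^ 4 * Y ^ 4 * A' := by gcongr
    _ = _ := by rw [hA, hA']; ring

end Dat

end Pool.Agent.Spin
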